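import Mathlib

set_option autoImplicit false

namespace Pool.Agent.H13

open Module

section LinAlg

variable {k : Type*} [Field k]

/-- A linear system of small rank has a solution avoiding a given small subspace. -/
theorem exists_ker_not_mem {V W : Type*} [AddCommGroup V] [Module k V] [FiniteDimensional k V]
    [AddCommGroup W] [Module k W] [FiniteDimensional k W] (L : V →ₗ[k] W) (U : Submodule k V)
    (h : finrank k U + finrank k W < finrank k V) : ∃ v, L v = 0 ∧ v ∉ U := by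
  by_contra hcon
  push Not at hcon
  have hle : LinearMap.ker L ≤ U := fun v hv => hcon v (by simpa using hv)
  have h1 := LinearMap.finrank_range_add_finrank_ker L
  have h2 : finrank k (LinearMap.ker L) ≤ finrank k U := Submodule.finrank_mono hle
  have h3 : finrank k (LinearMap.range L) ≤ finrank k W := Submodule.finrank_le _
  omega

theorem exists_ker_ne_zero {V W : Type*} [AddCommGroup V] [Module k V] [FiniteDimensional k V]
    [AddCommGroup W] [Module k W] [FiniteDimensional k W] (L : V →ₗ[k] W)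
    (h : finrank k W < finrank k V) : ∃ v, L v = 0 ∧ v ≠ 0 := by
  obtain ⟨v, hv, hv'⟩ := exists_ker_not_mem L (⊥ : Submodule k V) (by simpa using h)
  exact ⟨v, hv, by simpa using hv'⟩

variable {A : Type*} [CommRing A] [IsDomain A] [Algebra k A]

/-- Abstract global part of Bezout's inequality. -/
theorem bezout_abs (V0 V1 V2 V3 : Submodule k A) [FiniteDimensional k V0]
    [FiniteDimensional k V1] [FiniteDimensional k V2] [FiniteDimensional k V3]
    (f g : A) (hf : f ≠ 0)
    (h1 : ∀ a ∈ V1, f * a ∈ V0) (h2 : ∀ b ∈ V2, g * b ∈ V0)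
    (h3 : ∀ a ∈ V1, ∀ b ∈ V2, f * a = g * b → ∃ c ∈ V3, b = f * c)
    (J : Ideal A) (hfJ : f ∈ J) (hgJ : g ∈ J)
    (hsurj : ∀ z : A ⧸ J, ∃ v ∈ V0, Ideal.Quotient.mk J v = z) :
    finrank k (A ⧸ J) + finrank k V1 + finrank k V2 ≤ finrank k V0 + finrank k V3 := by
  -- the map φ : V1 × V2 → V0
  let φ : (V1 × V2) →ₗ[k] V0 :=
    { toFun := fun p => ⟨f * p.1.1 - g * p.2.1, V0.sub_mem (h1 _ p.1.2) (h2 _ p.2.2)⟩
      map_add' := by
        intro p q; apply Subtype.ext; simp; ring
      map_smul' := by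
        intro c p; apply Subtype.ext; simp [smul_sub] }
  let q : V0 →ₗ[k] (A ⧸ J) := (Ideal.Quotient.mkₐ k J).toLinearMap.comp V0.subtype
  have hq : Function.Surjective q := by
    intro z
    obtain ⟨v, hv, hvz⟩ := hsurj z
    exact ⟨⟨v, hv⟩, hvz⟩
  have hqr : LinearMap.range q = ⊤ := LinearMap.range_eq_top.2 hq
  have hrank1 := LinearMap.finrank_range_add_finrank_ker q
  rw [hqr, finrank_top] at hrank1
  have hrank2 := LinearMap.finrank_range_add_finrank_ker φ
  rw [Module.finrank_prod] at hrank2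
  have hle : LinearMap.range φ ≤ LinearMap.ker q := by
    rintro _ ⟨p, rfl⟩
    simp only [LinearMap.mem_ker]
    change Ideal.Quotient.mk J (f * p.1.1 - g * p.2.1) = 0
    rw [Ideal.Quotient.eq_zero_iff_mem]
    exact J.sub_mem (J.mul_mem_right _ hfJ) (J.mul_mem_right _ hgJ)
  have hle' := Submodule.finrank_mono hle
  -- kernel bound
  have hK : finrank k (LinearMap.ker φ) ≤ finrank k V3 := by
    let m : V3 →ₗ[k] A := (LinearMap.mulLeft k f).comp V3.subtype
    let s : LinearMap.ker φ →ₗ[k] A :=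
      (V2.subtype.comp (LinearMap.snd k V1 V2)).comp (LinearMap.ker φ).subtype
    have hs : Function.Injective s := by
      rintro ⟨⟨⟨a, ha⟩, ⟨b, hb⟩⟩, hp⟩ ⟨⟨⟨a', ha'⟩, ⟨b', hb'⟩⟩, hq⟩ hz
      have hb0 : b = b' := hz
      have hp' : f * a - g * b = 0 := congrArg Subtype.val (LinearMap.mem_ker.1 hp)
      have hq' : f * a' - g * b' = 0 := congrArg Subtype.val (LinearMap.mem_ker.1 hq)
      subst hb0
      have ha0 : a = a' := mul_left_cancel₀ hf ((sub_eq_zero.1 hp').trans (sub_eq_zero.1 hq').symm)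
      subst ha0
      rfl
    have hr : LinearMap.range s ≤ LinearMap.range m := by
      rintro _ ⟨⟨⟨⟨a, ha⟩, ⟨b, hb⟩⟩, hp⟩, rfl⟩
      have hp' : f * a - g * b = 0 := congrArg Subtype.val (LinearMap.mem_ker.1 hp)
      obtain ⟨c, hc, hbc⟩ := h3 a ha b hb (sub_eq_zero.1 hp')
      exact ⟨⟨c, hc⟩, hbc.symm⟩
    calc finrank k (LinearMap.ker φ) = finrank k (LinearMap.range s) :=
          (LinearMap.finrank_range_of_inj hs).symm
      _ ≤ finrank k (LinearMap.range m) := Submodule.finrank_mono hr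
      _ ≤ finrank k V3 := LinearMap.finrank_range_le m
  omega

omit [IsDomain A] in
/-- Abstract local part of Bezout's inequality. -/
theorem local_abs (I0 I1 I2 : Ideal A) [FiniteDimensional k (A ⧸ I0)]
    [FiniteDimensional k (A ⧸ I1)] [FiniteDimensional k (A ⧸ I2)] (f g : A)
    (h1 : ∀ a ∈ I1, f * a ∈ I0) (h2 : ∀ b ∈ I2, g * b ∈ I0) :
    finrank k (A ⧸ I0) ≤ finrank k (A ⧸ (Ideal.span {f, g} ⊔ I0)) +
      finrank k (A ⧸ I1) + finrank k (A ⧸ I2) := by
  let π : (A ⧸ I0) →ₗ[k] (A ⧸ (Ideal.span {f, g} ⊔ I0)) :=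
    (Ideal.Quotient.factorₐ k (le_sup_right : I0 ≤ Ideal.span {f, g} ⊔ I0)).toLinearMap
  let α : (A ⧸ I1) →ₗ[k] (A ⧸ I0) :=
    Submodule.liftQ (I1.restrictScalars k)
      ((Ideal.Quotient.mkₐ k I0).toLinearMap.comp (LinearMap.mulLeft k f)) (by
        intro a ha
        change Ideal.Quotient.mk I0 (f * a) = 0
        exact Ideal.Quotient.eq_zero_iff_mem.2 (h1 a ha))
  let β : (A ⧸ I2) →ₗ[k] (A ⧸ I0) :=
    Submodule.liftQ (I2.restrictScalars k)
      ((Ideal.Quotient.mkₐ k I0).toLinearMap.comp (LinearMap.mulLeft k g)) (by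
        intro a ha
        change Ideal.Quotient.mk I0 (g * a) = 0
        exact Ideal.Quotient.eq_zero_iff_mem.2 (h2 a ha))
  let φ : ((A ⧸ I1) × (A ⧸ I2)) →ₗ[k] (A ⧸ I0) := α.coprod β
  have hπ : Function.Surjective π :=
    Ideal.Quotient.factor_surjective (le_sup_right : I0 ≤ Ideal.span {f, g} ⊔ I0)
  have hrank1 := LinearMap.finrank_range_add_finrank_ker π
  rw [LinearMap.range_eq_top.2 hπ, finrank_top] at hrank1
  have hle : LinearMap.ker π ≤ LinearMap.range φ := by
    intro z hz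
    obtain ⟨x, rfl⟩ := Ideal.Quotient.mk_surjective z
    have hx : Ideal.Quotient.mk (Ideal.span {f, g} ⊔ I0) x = 0 := hz
    rw [Ideal.Quotient.eq_zero_iff_mem] at hx
    obtain ⟨y, hy, w, hw, rfl⟩ := Submodule.mem_sup.1 hx
    obtain ⟨a, b, rfl⟩ := Ideal.mem_span_pair.1 hy
    refine ⟨(Ideal.Quotient.mk I1 a, Ideal.Quotient.mk I2 b), ?_⟩
    have e1 : α (Ideal.Quotient.mk I1 a) = Ideal.Quotient.mk I0 (f * a) := rfl
    have e2 : β (Ideal.Quotient.mk I2 b) = Ideal.Quotient.mk I0 (g * b) := rfl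
    rw [LinearMap.coprod_apply, e1, e2, map_add (Ideal.Quotient.mk I0) _ w, Ideal.Quotient.eq_zero_iff_mem.2 hw, add_zero,
      map_add, mul_comm a f, mul_comm b g]
  have h5 := Submodule.finrank_mono hle
  have h6 : finrank k (LinearMap.range φ) ≤ finrank k ((A ⧸ I1) × (A ⧸ I2)) :=
    LinearMap.finrank_range_le φ
  rw [Module.finrank_prod] at h6
  omega

omit [IsDomain A] in
/-- Chinese remainder theorem, dimension form. -/
theorem finrank_quot_iInf {ι : Type*} [Fintype ι] (J : ι → Ideal A)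
    (hJ : Pairwise fun i j => IsCoprime (J i) (J j)) [∀ i, FiniteDimensional k (A ⧸ J i)] :
    FiniteDimensional k (A ⧸ ⨅ i, J i) ∧ finrank k (A ⧸ ⨅ i, J i) = ∑ i, finrank k (A ⧸ J i) := by
  let e := Ideal.quotientInfRingEquivPiQuotient J hJ
  let el : (A ⧸ ⨅ i, J i) ≃ₗ[k] (∀ i, A ⧸ J i) :=
    { e with
      map_smul' := by
        intro c x
        obtain ⟨y, rfl⟩ := Ideal.Quotient.mk_surjective x
        change e (c • (Ideal.Quotient.mk _ y)) = c • e (Ideal.Quotient.mk _ y)
        have h1 : c • (Ideal.Quotient.mk (⨅ i, J i) y) = Ideal.Quotient.mk (⨅ i, J i) (c • y) := rfl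
        rw [h1]
        funext i
        rfl }
  refine ⟨Module.Finite.equiv el.symm, ?_⟩
  rw [el.finrank_eq, Module.finrank_pi_fintype]

omit [IsDomain A] in
theorem exists_filtration_surj (V : ℕ → Submodule k A) (hmono : Monotone V)
    (hex : ∀ a, ∃ t, a ∈ V t) (J : Ideal A) [FiniteDimensional k (A ⧸ J)] :
    ∃ t0, ∀ t, t0 ≤ t → ∀ z : A ⧸ J, ∃ v ∈ V t, Ideal.Quotient.mk J v = z := by
  classical
  let b := Module.finBasis k (A ⧸ J)
  choose r hr using fun i => Ideal.Quotient.mk_surjective (I := J) (b i)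
  choose τ hτ using fun i => hex (r i)
  refine ⟨Finset.univ.sup τ, fun t ht z => ?_⟩
  refine ⟨∑ i, b.repr z i • r i, ?_, ?_⟩
  · refine Submodule.sum_mem _ fun i _ => Submodule.smul_mem _ _ (hmono ?_ (hτ i))
    exact (Finset.le_sup (Finset.mem_univ i)).trans ht
  · have : Ideal.Quotient.mk J (∑ i, b.repr z i • r i) =
        ∑ i, b.repr z i • Ideal.Quotient.mk J (r i) := by
      rw [map_sum]; rfl
    rw [this]
    simp_rw [hr]
    exact b.sum_repr z

end LinAlg

end Pool.Agent.H13
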