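import Mathlib
import Pool.Agent.H13.LinAlg

set_option autoImplicit false

namespace Pool.Agent.H13

open Module MvPolynomial

/-! ### Counting monomials -/

/-- exponent vector -/
noncomputable def expo (p : ℕ × ℕ) : Fin 2 →₀ ℕ :=
  Finsupp.single 0 p.1 + Finsupp.single 1 p.2

@[simp] theorem expo_zero (p : ℕ × ℕ) : expo p 0 = p.1 := by simp [expo]
@[simp] theorem expo_one (p : ℕ × ℕ) : expo p 1 = p.2 := by simp [expo]

theorem expo_degree (p : ℕ × ℕ) : (expo p).degree = p.1 + p.2 := by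
  simp [Finsupp.degree_eq_sum, Fin.sum_univ_two]

theorem expo_inj : Function.Injective expo := by
  intro p q h
  apply Prod.ext
  · simpa using DFunLike.congr_fun h 0
  · simpa using DFunLike.congr_fun h 1

theorem expo_surj (s : Fin 2 →₀ ℕ) : expo (s 0, s 1) = s := by
  ext i; fin_cases i <;> simp

noncomputable def expoEquiv : (ℕ × ℕ) ≃ (Fin 2 →₀ ℕ) where
  toFun := expo
  invFun := fun s => (s 0, s 1)
  left_inv := fun p => by simp
  right_inv := fun s => expo_surj s

/-- pairs with sum `< N` -/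
def triF (N : ℕ) : Finset (ℕ × ℕ) :=
  (Finset.range N ×ˢ Finset.range N).filter (fun p => p.1 + p.2 < N)

theorem mem_triF (N : ℕ) (p : ℕ × ℕ) : p ∈ triF N ↔ p.1 + p.2 < N := by
  simp only [triF, Finset.mem_filter, Finset.mem_product, Finset.mem_range]
  omega

theorem card_triF (N : ℕ) : 2 * (triF N).card = N * (N + 1) := by
  induction N with
  | zero => simp [triF]
  | succ n ih =>
    have h : triF (n + 1) = triF n ∪ Finset.HasAntidiagonal.antidiagonal n := by
      ext p
      simp only [mem_triF, Finset.mem_union, Finset.HasAntidiagonal.mem_antidiagonal]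
      omega
    have hd : Disjoint (triF n) (Finset.HasAntidiagonal.antidiagonal n) := by
      rw [Finset.disjoint_left]
      intro p hp hp'
      simp only [mem_triF, Finset.HasAntidiagonal.mem_antidiagonal] at hp hp'
      omega
    rw [h, Finset.card_union_of_disjoint hd, Finset.Nat.card_antidiagonal]
    linarith

/-- `N (N+1) / 2` -/
def tri (N : ℕ) : ℕ := (triF N).card

theorem two_mul_tri (N : ℕ) : 2 * tri N = N * (N + 1) := card_triF N

variable {k : Type*} [Field k]

/-- Polynomials of degree `≤ t`. -/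
noncomputable abbrev Vd (k : Type*) [Field k] (t : ℕ) : Submodule k (MvPolynomial (Fin 2) k) :=
  restrictTotalDegree (Fin 2) k t

theorem mem_Vd {t : ℕ} {p : MvPolynomial (Fin 2) k} : p ∈ Vd k t ↔ p.totalDegree ≤ t :=
  mem_restrictTotalDegree _ _ _

noncomputable def equivTri (t : ℕ) :
    {n : Fin 2 →₀ ℕ | (n.sum fun _ e => e) ≤ t} ≃ triF (t + 1) :=
  (Equiv.subtypeEquiv expoEquiv (fun p => by
    rw [mem_triF]
    change _ ↔ ((expo p).sum fun _ e => e) ≤ t
    have : ((expo p).sum fun _ e => e) = (expo p).degree := rfl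
    rw [this, expo_degree]
    omega)).symm

theorem finrank_Vd (t : ℕ) : finrank k (Vd k t) = tri (t + 1) := by
  have b := basisRestrictSupport k (σ := Fin 2) {n : Fin 2 →₀ ℕ | (n.sum fun _ e => e) ≤ t}
  have h := Module.finrank_eq_nat_card_basis b
  have h2 : finrank k (Vd k t) =
      finrank k (restrictSupport k {n : Fin 2 →₀ ℕ | (n.sum fun _ e => e) ≤ t}) := rfl
  rw [h2, h, Nat.card_congr (equivTri t)]
  simp [tri]

instance finite_Vd (t : ℕ) : FiniteDimensional k (Vd k t) := by
  have b := basisRestrictSupport k (σ := Fin 2) {n : Fin 2 →₀ ℕ | (n.sum fun _ e => e) ≤ t}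
  have : Finite {n : Fin 2 →₀ ℕ | (n.sum fun _ e => e) ≤ t} := Finite.of_equiv _ (equivTri t).symm
  exact Module.Finite.of_basis b

theorem Vd_mono : Monotone (Vd k) := by
  intro s t h p hp
  rw [mem_Vd] at *
  omega

/-! ### Translation and orders at points -/

/-- Translation by `P`: `(tr P f)(X) = f(X + P)`. -/
noncomputable def tr (P : Fin 2 → k) : MvPolynomial (Fin 2) k →ₐ[k] MvPolynomial (Fin 2) k :=
  aeval (fun i => X i + C (P i))

@[simp] theorem tr_X (P : Fin 2 → k) (i : Fin 2) : tr P (X i) = X i + C (P i) := by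
  simp [tr]

@[simp] theorem tr_C (P : Fin 2 → k) (c : k) : tr P (C c) = C c := by
  simp [tr]

theorem tr_tr_neg (P : Fin 2 → k) (f : MvPolynomial (Fin 2) k) : tr P (tr (-P) f) = f := by
  have : (tr P).comp (tr (-P)) = AlgHom.id k _ := by
    ext i
    simp
  exact DFunLike.congr_fun this f

theorem tr_neg_tr (P : Fin 2 → k) (f : MvPolynomial (Fin 2) k) : tr (-P) (tr P f) = f := by
  have := tr_tr_neg (-P) f
  simpa using this

theorem tr_injective (P : Fin 2 → k) : Function.Injective (tr P) :=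
  Function.LeftInverse.injective (tr_neg_tr P)

theorem constantCoeff_tr (P : Fin 2 → k) (f : MvPolynomial (Fin 2) k) :
    constantCoeff (tr P f) = eval P f := by
  have : (constantCoeff.comp (tr P : MvPolynomial (Fin 2) k →+* MvPolynomial (Fin 2) k)) =
      (eval P : MvPolynomial (Fin 2) k →+* k) := by
    ext i <;> simp
  exact DFunLike.congr_fun this f

/-- The ideal of polynomials vanishing to order `≥ N` at `P`. -/
noncomputable def Iord (P : Fin 2 → k) (N : ℕ) : Ideal (MvPolynomial (Fin 2) k) :=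
  (idealOfVars (Fin 2) k ^ N).comap (tr P)

theorem mem_Iord {P : Fin 2 → k} {N : ℕ} {f : MvPolynomial (Fin 2) k} :
    f ∈ Iord P N ↔ tr P f ∈ idealOfVars (Fin 2) k ^ N := Iff.rfl

theorem mem_Iord' {P : Fin 2 → k} {N : ℕ} {f : MvPolynomial (Fin 2) k} :
    f ∈ Iord P N ↔ ∀ s : Fin 2 →₀ ℕ, s.degree < N → (tr P f).coeff s = 0 := by
  rw [mem_Iord, mem_pow_idealOfVars_iff']

theorem Iord_zero (P : Fin 2 → k) : Iord P 0 = ⊤ := by
  simp [Iord]

theorem mem_Iord_zero (P : Fin 2 → k) (f : MvPolynomial (Fin 2) k) : f ∈ Iord P 0 := by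
  rw [Iord_zero]; trivial

theorem Iord_mono (P : Fin 2 → k) {M N : ℕ} (h : M ≤ N) : Iord P N ≤ Iord P M :=
  Ideal.comap_mono (Ideal.pow_le_pow_right h)

theorem mul_mem_Iord {P : Fin 2 → k} {M N : ℕ} {f g : MvPolynomial (Fin 2) k}
    (hf : f ∈ Iord P M) (hg : g ∈ Iord P N) : f * g ∈ Iord P (M + N) := by
  rw [mem_Iord] at *
  rw [map_mul, pow_add]
  exact Ideal.mul_mem_mul hf hg

theorem pow_mem_Iord {P : Fin 2 → k} {M : ℕ} {f : MvPolynomial (Fin 2) k}
    (hf : f ∈ Iord P M) (n : ℕ) : f ^ n ∈ Iord P (M * n) := by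
  rw [mem_Iord] at *
  rw [map_pow, pow_mul]
  exact Ideal.pow_mem_pow hf n

theorem mem_Iord_one {P : Fin 2 → k} {f : MvPolynomial (Fin 2) k} :
    f ∈ Iord P 1 ↔ eval P f = 0 := by
  rw [mem_Iord', ← constantCoeff_tr]
  constructor
  · intro h
    exact h 0 (by simp)
  · intro h s hs
    have : s = 0 := by
      have : s.degree = 0 := by omega
      exact (Finsupp.degree_eq_zero_iff s).1 this
    subst this
    exact h

/-- The linear map taking a polynomial to its jet of order `N` at `P`. -/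
noncomputable def jet (P : Fin 2 → k) (N : ℕ) : MvPolynomial (Fin 2) k →ₗ[k] (triF N → k) :=
  LinearMap.pi fun p => (MvPolynomial.lcoeff k (expo p.1)).comp (tr P).toLinearMap

theorem jet_apply (P : Fin 2 → k) (N : ℕ) (f : MvPolynomial (Fin 2) k) (p : triF N) :
    jet P N f p = (tr P f).coeff (expo p.1) := rfl

theorem jet_eq_zero_iff {P : Fin 2 → k} {N : ℕ} {f : MvPolynomial (Fin 2) k} :
    jet P N f = 0 ↔ f ∈ Iord P N := by
  rw [mem_Iord']
  constructor
  · intro h s hs
    have h1 : (s 0, s 1) ∈ triF N := by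
      rw [mem_triF]
      rw [← expo_surj s, expo_degree] at hs
      exact hs
    have := congrFun h ⟨_, h1⟩
    rw [jet_apply] at this
    simpa [expo_surj] using this
  · intro h
    funext p
    rw [jet_apply]
    apply h
    rw [expo_degree]
    exact (mem_triF _ _).1 p.2

theorem jet_surjective (P : Fin 2 → k) (N : ℕ) : Function.Surjective (jet P N) := by
  classical
  intro c
  refine ⟨tr (-P) (∑ p : triF N, monomial (expo p.1) (c p)), ?_⟩
  funext q
  rw [jet_apply, tr_tr_neg, coeff_sum]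
  simp only [coeff_monomial]
  rw [Finset.sum_eq_single q]
  · simp
  · intro b _ hb
    rw [if_neg]
    intro h
    exact hb (Subtype.ext (expo_inj h))
  · intro h; exact absurd (Finset.mem_univ q) h

noncomputable def quotJet (P : Fin 2 → k) (N : ℕ) :
    (MvPolynomial (Fin 2) k ⧸ Iord P N) ≃ₗ[k] (triF N → k) :=
  (Submodule.Quotient.restrictScalarsEquiv k (Iord P N)).symm.trans
    ((Submodule.quotEquivOfEq _ _ (by
      ext f
      rw [LinearMap.mem_ker, jet_eq_zero_iff]
      rfl)).trans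
    ((jet P N).quotKerEquivOfSurjective (jet_surjective P N)))

instance finite_quot_Iord (P : Fin 2 → k) (N : ℕ) :
    FiniteDimensional k (MvPolynomial (Fin 2) k ⧸ Iord P N) :=
  Module.Finite.equiv (quotJet P N).symm

theorem finrank_quot_Iord (P : Fin 2 → k) (N : ℕ) :
    finrank k (MvPolynomial (Fin 2) k ⧸ Iord P N) = tri N := by
  rw [(quotJet P N).finrank_eq, Module.finrank_pi]
  simp [tri]

theorem X_sub_C_mem_Iord (P : Fin 2 → k) (i : Fin 2) : X i - C (P i) ∈ Iord P 1 := by
  rw [mem_Iord_one]; simp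

theorem isCoprime_Iord {P Q : Fin 2 → k} (h : P ≠ Q) (M N : ℕ) :
    IsCoprime (Iord P M) (Iord Q N) := by
  obtain ⟨i, hi⟩ := Function.ne_iff.1 h
  have h0 : IsCoprime (X i - C (P i) : MvPolynomial (Fin 2) k) (X i - C (Q i)) := by
    refine ⟨C ((Q i - P i)⁻¹), -C ((Q i - P i)⁻¹), ?_⟩
    have hne : Q i - P i ≠ 0 := sub_ne_zero.2 (Ne.symm hi)
    have : C ((Q i - P i)⁻¹) * (X i - C (P i)) + -C ((Q i - P i)⁻¹) * (X i - C (Q i)) =
        (C ((Q i - P i)⁻¹ * (Q i - P i)) : MvPolynomial (Fin 2) k) := by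
      rw [C_mul, C_sub]; ring
    rw [this, inv_mul_cancel₀ hne, C_1]
  have h1 : IsCoprime ((X i - C (P i) : MvPolynomial (Fin 2) k) ^ M) ((X i - C (Q i)) ^ N) :=
    h0.pow
  obtain ⟨a, b, hab⟩ := h1
  rw [Ideal.isCoprime_iff_exists]
  refine ⟨a * (X i - C (P i)) ^ M, ?_, b * (X i - C (Q i)) ^ N, ?_, hab⟩
  · have := pow_mem_Iord (X_sub_C_mem_Iord P i) M
    rw [one_mul] at this
    exact Ideal.mul_mem_left _ _ this
  · have := pow_mem_Iord (X_sub_C_mem_Iord Q i) N
    rw [one_mul] at this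
    exact Ideal.mul_mem_left _ _ this

theorem isCoprime_mono {R : Type*} [CommRing R] {I J I' J' : Ideal R} (h : IsCoprime I J)
    (hI : I ≤ I') (hJ : J ≤ J') : IsCoprime I' J' := by
  rw [Ideal.isCoprime_iff_sup_eq] at *
  exact top_le_iff.1 (h ▸ sup_le_sup hI hJ)

theorem finite_quot_of_le {A : Type*} [CommRing A] [Algebra k A] {I J : Ideal A} (h : I ≤ J)
    [FiniteDimensional k (A ⧸ I)] : FiniteDimensional k (A ⧸ J) :=
  Module.Finite.of_surjective (Ideal.Quotient.factorₐ k h).toLinearMap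
    (Ideal.Quotient.factor_surjective h)

/-! ### Bezout -/

/-- Local contribution of a point in Bezout's inequality. -/
theorem local_bound (P : Fin 2 → k) (a b : ℕ) (f g : MvPolynomial (Fin 2) k)
    (hf : f ∈ Iord P a) (hg : g ∈ Iord P b) :
    a * b ≤ finrank k (MvPolynomial (Fin 2) k ⧸ (Ideal.span {f, g} ⊔ Iord P (a + b - 1))) := by
  have h := local_abs (k := k) (Iord P (a + b - 1)) (Iord P (b - 1)) (Iord P (a - 1)) f g
    (fun x hx => ?_) (fun x hx => ?_)
  · rw [finrank_quot_Iord, finrank_quot_Iord, finrank_quot_Iord] at h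
    have e0 := two_mul_tri (a + b - 1)
    have e1 := two_mul_tri (b - 1)
    have e2 := two_mul_tri (a - 1)
    rcases Nat.eq_zero_or_pos a with ha | ha
    · subst ha; simp
    rcases Nat.eq_zero_or_pos b with hb | hb
    · subst hb; simp
    obtain ⟨a', rfl⟩ : ∃ a', a = a' + 1 := ⟨a - 1, by omega⟩
    obtain ⟨b', rfl⟩ : ∃ b', b = b' + 1 := ⟨b - 1, by omega⟩
    have e3 : a' + 1 + (b' + 1) - 1 = a' + b' + 1 := by omega
    rw [e3] at e0 h ⊢
    simp only [Nat.add_sub_cancel] at e1 e2 h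
    nlinarith
  · have := mul_mem_Iord hf hx
    exact Iord_mono P (by omega) this
  · have := mul_mem_Iord hg hx
    exact Iord_mono P (by omega) this

/-- Bezout's inequality for a prime plane curve and another curve, in terms of local ideals. -/
theorem bezout_ideals {ι : Type*} [Fintype ι] (f g : MvPolynomial (Fin 2) k) (d e : ℕ)
    (hf : Prime f) (hfd : f.totalDegree = d) (hge : g.totalDegree ≤ e) (hfg : ¬ f ∣ g)
    (I : ι → Ideal (MvPolynomial (Fin 2) k))
    (hI : Pairwise fun i j => IsCoprime (I i) (I j))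
    [∀ i, FiniteDimensional k (MvPolynomial (Fin 2) k ⧸ I i)] :
    ∑ i, finrank k (MvPolynomial (Fin 2) k ⧸ (Ideal.span {f, g} ⊔ I i)) ≤ d * e := by
  set J : ι → Ideal (MvPolynomial (Fin 2) k) := fun i => Ideal.span {f, g} ⊔ I i with hJdef
  have hJc : Pairwise fun i j => IsCoprime (J i) (J j) := fun i j hij =>
    isCoprime_mono (hI hij) le_sup_right le_sup_right
  haveI : ∀ i, FiniteDimensional k (MvPolynomial (Fin 2) k ⧸ J i) := fun i =>
    finite_quot_of_le (k := k) (le_sup_right : I i ≤ J i)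
  obtain ⟨hfin, hsum⟩ := finrank_quot_iInf (k := k) J hJc
  haveI := hfin
  obtain ⟨t0, ht0⟩ := exists_filtration_surj (Vd k) Vd_mono
    (fun a => ⟨a.totalDegree, mem_Vd.2 le_rfl⟩) (⨅ i, J i)
  have hmem : ∀ x ∈ ({f, g} : Set (MvPolynomial (Fin 2) k)), x ∈ ⨅ i, J i := by
    intro x hx
    rw [Ideal.mem_iInf]
    intro i
    exact (le_sup_left : Ideal.span {f, g} ≤ J i) (Ideal.subset_span hx)
  have hg0 : g ≠ 0 := by
    rintro rfl
    exact hfg (dvd_zero f)
  have hkey := bezout_abs (k := k) (Vd k (d + e + t0)) (Vd k (e + t0)) (Vd k (d + t0)) (Vd k t0)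
    f g hf.ne_zero ?_ ?_ ?_ (⨅ i, J i) (hmem f (by simp)) (hmem g (by simp))
    (ht0 _ (by omega))
  · rw [hsum] at hkey
    simp only [finrank_Vd] at hkey
    have e0 := two_mul_tri (d + e + t0 + 1)
    have e1 := two_mul_tri (e + t0 + 1)
    have e2 := two_mul_tri (d + t0 + 1)
    have e3 := two_mul_tri (t0 + 1)
    nlinarith
  · intro a ha
    rw [mem_Vd] at *
    have := totalDegree_mul f a
    omega
  · intro a ha
    rw [mem_Vd] at *
    have := totalDegree_mul g a
    omega
  · intro a ha b hb hab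
    rw [mem_Vd] at *
    have hdvd : f ∣ g * b := ⟨a, hab.symm⟩
    rcases hf.dvd_or_dvd hdvd with h | h
    · exact absurd h hfg
    · obtain ⟨c, rfl⟩ := h
      refine ⟨c, ?_, rfl⟩
      rw [mem_Vd]
      rcases eq_or_ne c 0 with rfl | hc
      · simp
      · rw [totalDegree_mul_of_isDomain hf.ne_zero hc] at hb
        omega

end Pool.Agent.H13
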