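import Mathlib
import Pool.Agent.H13.Plane

set_option autoImplicit false

namespace Pool.Agent.H13

open Module MvPolynomial

variable {k : Type*} [Field k]

/-! ### Derivatives -/

theorem pderiv_tr (P : Fin 2 → k) (i : Fin 2) (f : MvPolynomial (Fin 2) k) :
    pderiv i (tr P f) = tr P (pderiv i f) := by
  induction f using MvPolynomial.induction_on with
  | C a => simp
  | add p q hp hq => simp [hp, hq]
  | mul_X p j hp =>
    rw [map_mul, pderiv_mul, hp, pderiv_mul, map_add, map_mul, map_mul, tr_X, map_add, pderiv_C,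
      add_zero]
    by_cases h : j = i
    · subst h; simp
    · rw [pderiv_X_of_ne h]; simp

theorem pderiv_mem_pow {N : ℕ} {F : MvPolynomial (Fin 2) k} (i : Fin 2)
    (h : F ∈ idealOfVars (Fin 2) k ^ (N + 1)) : pderiv i F ∈ idealOfVars (Fin 2) k ^ N := by
  rw [mem_pow_idealOfVars_iff'] at *
  intro s hs
  rw [coeff_pderiv, h, zero_mul]
  rw [map_add, Finsupp.degree_single]
  omega

theorem pderiv_mem_Iord {P : Fin 2 → k} {N : ℕ} {f : MvPolynomial (Fin 2) k} (i : Fin 2)
    (h : f ∈ Iord P (N + 1)) : pderiv i f ∈ Iord P N := by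
  rw [mem_Iord] at *
  rw [← pderiv_tr]
  exact pderiv_mem_pow i h

theorem pderiv_mem_Iord' {P : Fin 2 → k} {N : ℕ} {f : MvPolynomial (Fin 2) k} (i : Fin 2)
    (h : f ∈ Iord P N) : pderiv i f ∈ Iord P (N - 1) := by
  rcases N with _ | N
  · exact mem_Iord_zero _ _
  · exact pderiv_mem_Iord i h

theorem totalDegree_pderiv_le (i : Fin 2) (f : MvPolynomial (Fin 2) k) :
    (pderiv i f).totalDegree ≤ f.totalDegree - 1 := by
  rw [totalDegree, Finset.sup_le_iff]
  intro s hs
  rw [MvPolynomial.mem_support_iff, coeff_pderiv] at hs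
  have h1 : coeff (s + Finsupp.single i 1) f ≠ 0 := left_ne_zero_of_mul hs
  have h2 := le_totalDegree (MvPolynomial.mem_support_iff.2 h1)
  have e1 : ((s + Finsupp.single i 1).sum fun _ e => e) = (s + Finsupp.single i 1).degree := rfl
  have e2 : (s.sum fun _ e => e) = s.degree := rfl
  rw [e1, map_add, Finsupp.degree_single] at h2
  rw [e2]
  omega

theorem mem_Iord_two {Q : Fin 2 → k} {f : MvPolynomial (Fin 2) k} (h0 : eval Q f = 0)
    (h1 : eval Q (pderiv 0 f) = 0) (h2 : eval Q (pderiv 1 f) = 0) : f ∈ Iord Q 2 := by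
  have key : ∀ i : Fin 2, eval Q (pderiv i f) = coeff (Finsupp.single i 1) (tr Q f) := by
    intro i
    rw [← constantCoeff_tr, ← pderiv_tr, constantCoeff_eq, coeff_pderiv]
    simp
  rw [mem_Iord']
  intro s hs
  rw [← expo_surj s, expo_degree] at hs
  rcases Nat.eq_zero_or_pos (s 0) with ha | ha
  · rcases Nat.eq_zero_or_pos (s 1) with hb | hb
    · have : s = 0 := by
        ext i; fin_cases i <;> simp [ha, hb]
      subst this
      rw [← constantCoeff_eq, constantCoeff_tr, h0]
    · have : s = Finsupp.single 1 1 := by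
        ext i; fin_cases i
        · simp [ha]
        · simp; simp at hs; omega
      rw [this, ← key, h2]
  · have : s = Finsupp.single 0 1 := by
      ext i; fin_cases i
      · simp; simp at hs; omega
      · simp; simp at hs; omega
    rw [this, ← key, h1]

/-! ### Points on a curve -/

theorem totalDegree_pos_of_prime {f : MvPolynomial (Fin 2) k} (hf : Prime f) :
    1 ≤ f.totalDegree := by
  by_contra h
  have h0 : f.totalDegree = 0 := by omega
  rw [totalDegree_eq_zero_iff_eq_C] at h0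
  have hne : coeff 0 f ≠ 0 := by
    intro h1
    rw [h1, C_0] at h0
    exact hf.ne_zero h0
  apply hf.not_isUnit
  rw [h0]
  exact (IsUnit.mk0 _ hne).map C

theorem not_dvd_of_totalDegree_lt {f g : MvPolynomial (Fin 2) k} (hg : g ≠ 0)
    (h : g.totalDegree < f.totalDegree) : ¬ f ∣ g := by
  rintro ⟨c, rfl⟩
  have hf : f ≠ 0 := left_ne_zero_of_mul hg
  have hc : c ≠ 0 := right_ne_zero_of_mul hg
  rw [totalDegree_mul_of_isDomain hf hc] at h
  omega

theorem infinite_points [IsAlgClosed k] {f u : MvPolynomial (Fin 2) k} (hf : Prime f)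
    (hu : ¬ f ∣ u) : {Q : Fin 2 → k | eval Q f = 0 ∧ eval Q u ≠ 0}.Infinite := by
  intro hfin
  have hprime : (Ideal.span {f}).IsPrime := (Ideal.span_singleton_prime hf.ne_zero).2 hf
  have key : ∀ i : Fin 2, ∃ c : k, f ∣ X i - C c := by
    intro i
    have hmem : u * ∏ Q ∈ hfin.toFinset, (X i - C (Q i)) ∈
        vanishingIdeal k (zeroLocus k (Ideal.span {f})) := by
      intro Q hQ
      rw [mem_zeroLocus_iff] at hQ
      have hQf : eval Q f = 0 := by
        have := hQ f (Ideal.subset_span rfl)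
        rwa [MvPolynomial.aeval_eq_eval] at this
      rw [MvPolynomial.aeval_eq_eval, map_mul]
      by_cases hQu : eval Q u = 0
      · rw [hQu, zero_mul]
      · have hQmem : Q ∈ hfin.toFinset := by
          rw [Set.Finite.mem_toFinset]; exact ⟨hQf, hQu⟩
        rw [map_prod, Finset.prod_eq_zero hQmem (by simp), mul_zero]
    rw [IsPrime.vanishingIdeal_zeroLocus, Ideal.mem_span_singleton] at hmem
    rcases hf.dvd_or_dvd hmem with h | h
    · exact absurd h hu
    · rw [Prime.dvd_finsetProd_iff hf] at h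
      obtain ⟨Q, _, hQ⟩ := h
      exact ⟨Q i, hQ⟩
  obtain ⟨c, h0, hc⟩ := key 0
  obtain ⟨c', h1, hc'⟩ := key 1
  -- degree of h0 is zero
  have hX : (X 0 - C c : MvPolynomial (Fin 2) k) ≠ 0 := by
    intro h
    have := congrArg (eval ![c + 1, 0]) h
    simp at this
  have hne0 : h0 ≠ 0 := by
    rintro rfl
    rw [mul_zero] at hc
    exact hX hc
  have hdeg : (X 0 - C c : MvPolynomial (Fin 2) k).totalDegree ≤ 1 := by
    refine (totalDegree_sub _ _).trans ?_
    simp
  rw [hc, totalDegree_mul_of_isDomain hf.ne_zero hne0] at hdeg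
  have hpos := totalDegree_pos_of_prime hf
  have hh0 : h0.totalDegree = 0 := by omega
  rw [totalDegree_eq_zero_iff_eq_C] at hh0
  have ha : coeff 0 h0 ≠ 0 := by
    intro h
    rw [h, C_0] at hh0
    exact hne0 hh0
  have e1 := congrArg (eval ![c, c' + 1]) hc
  have e2 := congrArg (eval ![c, c' + 1]) hc'
  rw [hh0] at e1
  simp at e1 e2
  rcases e1 with e1 | e1
  · rw [e1] at e2; simp at e2
  · exact ha e1

/-- Many distinct points on a curve avoiding a finite set and another curve. -/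
theorem exists_points [IsAlgClosed k] {f u : MvPolynomial (Fin 2) k} (hf : Prime f)
    (hu : ¬ f ∣ u) {ι : Type*} [Finite ι] (P : ι → Fin 2 → k) (r : ℕ) :
    ∃ Q : Fin r → Fin 2 → k, Function.Injective Q ∧ (∀ j, eval (Q j) f = 0) ∧
      (∀ j, eval (Q j) u ≠ 0) ∧ (∀ i j, P i ≠ Q j) := by
  have hinf := (infinite_points hf hu).sdiff (Set.finite_range P)
  obtain ⟨t, ht, htc⟩ := hinf.exists_subset_card_eq r
  have e := t.equivFinOfCardEq htc
  refine ⟨fun j => (e.symm j).1, ?_, ?_, ?_, ?_⟩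
  · intro a b hab
    exact e.symm.injective (Subtype.ext hab)
  · intro j
    exact (ht (e.symm j).2).1.1
  · intro j
    exact (ht (e.symm j).2).1.2
  · intro i j h
    exact (ht (e.symm j).2).2 ⟨i, h⟩

/-! ### Bezout with points -/

/-- `LocalGe P f g c`: the local intersection number of `f` and `g` at `P` is at least `c`. -/
def LocalGe (P : Fin 2 → k) (f g : MvPolynomial (Fin 2) k) (c : ℕ) : Prop :=
  ∃ N, c ≤ finrank k (MvPolynomial (Fin 2) k ⧸ (Ideal.span {f, g} ⊔ Iord P N))

theorem span_pair_add_mul (f g q : MvPolynomial (Fin 2) k) :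
    Ideal.span {f, g} = Ideal.span {f, g + q * f} := by
  apply le_antisymm
  · rw [Ideal.span_le]
    intro x hx
    rcases hx with rfl | hx
    · exact Ideal.subset_span (by simp)
    · rw [Set.mem_singleton_iff] at hx
      subst hx
      rw [SetLike.mem_coe, Ideal.mem_span_pair]
      exact ⟨-q, 1, by ring⟩
  · rw [Ideal.span_le]
    intro x hx
    rcases hx with rfl | hx
    · exact Ideal.subset_span (by simp)
    · rw [Set.mem_singleton_iff] at hx
      subst hx
      rw [SetLike.mem_coe, Ideal.mem_span_pair]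
      exact ⟨q, 1, by ring⟩

theorem LocalGe.of_mem {P : Fin 2 → k} {f g : MvPolynomial (Fin 2) k} {a b : ℕ}
    (hf : f ∈ Iord P a) (hg : g ∈ Iord P b) : LocalGe P f g (a * b) :=
  ⟨_, local_bound P a b f g hf hg⟩

theorem LocalGe.of_mem_add {P : Fin 2 → k} {f g q : MvPolynomial (Fin 2) k} {a b : ℕ}
    (hf : f ∈ Iord P a) (hg : g + q * f ∈ Iord P b) : LocalGe P f g (a * b) := by
  obtain ⟨N, hN⟩ := LocalGe.of_mem hf hg
  refine ⟨N, ?_⟩
  rwa [span_pair_add_mul f g q]

theorem LocalGe.symm {P : Fin 2 → k} {f g : MvPolynomial (Fin 2) k} {c : ℕ}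
    (h : LocalGe P f g c) : LocalGe P g f c := by
  obtain ⟨N, hN⟩ := h
  refine ⟨N, ?_⟩
  rwa [Set.pair_comm]

theorem LocalGe.zero (P : Fin 2 → k) (f g : MvPolynomial (Fin 2) k) : LocalGe P f g 0 :=
  ⟨0, Nat.zero_le _⟩

/-- Two curves through `Q` with proportional differentials meet at least twice there. -/
theorem LocalGe.two_of_det {Q : Fin 2 → k} {f g : MvPolynomial (Fin 2) k}
    (hf : eval Q f = 0) (hg : eval Q g = 0)
    (hdet : eval Q (pderiv 0 f) * eval Q (pderiv 1 g) =
      eval Q (pderiv 1 f) * eval Q (pderiv 0 g)) : LocalGe Q f g 2 := by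
  set f0 := eval Q (pderiv 0 f) with hf0
  set f1 := eval Q (pderiv 1 f) with hf1
  set g0 := eval Q (pderiv 0 g) with hg0
  set g1 := eval Q (pderiv 1 g) with hg1
  by_cases hz : f0 = 0 ∧ f1 = 0
  · have h2 : f ∈ Iord Q 2 := mem_Iord_two hf (by rw [← hf0]; exact hz.1) (by rw [← hf1]; exact hz.2)
    have h1 : g ∈ Iord Q 1 := mem_Iord_one.2 hg
    simpa using LocalGe.of_mem h2 h1
  · -- g - t f has zero differential
    have : ∃ t : k, g0 = t * f0 ∧ g1 = t * f1 := by
      by_cases h0 : f0 = 0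
      · have h1 : f1 ≠ 0 := fun h => hz ⟨h0, h⟩
        refine ⟨g1 / f1, ?_, ?_⟩
        · rw [h0, mul_zero]
          rw [h0, zero_mul] at hdet
          rcases mul_eq_zero.1 hdet.symm with h | h
          · exact absurd h h1
          · exact h
        · field_simp
      · refine ⟨g0 / f0, ?_, ?_⟩
        · field_simp
        · field_simp
          linear_combination hdet
    obtain ⟨t, ht0, ht1⟩ := this
    have h2 : g + C (-t) * f ∈ Iord Q 2 := by
      apply mem_Iord_two
      · simp [hf, hg]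
      · rw [map_add, map_add, pderiv_C_mul, map_mul, eval_C, ← hf0, ← hg0, ht0]; ring
      · rw [map_add, map_add, pderiv_C_mul, map_mul, eval_C, ← hf1, ← hg1, ht1]; ring
    have h1 : f ∈ Iord Q 1 := mem_Iord_one.2 hf
    simpa using LocalGe.of_mem_add h1 h2

theorem bezout_points {ι : Type*} [Fintype ι] (R : ι → Fin 2 → k) (hR : Function.Injective R)
    (f g : MvPolynomial (Fin 2) k) (d e : ℕ)
    (hf : Prime f) (hfd : f.totalDegree = d) (hge : g.totalDegree ≤ e) (hfg : ¬ f ∣ g)
    (c : ι → ℕ) (hc : ∀ i, LocalGe (R i) f g (c i)) : ∑ i, c i ≤ d * e := by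
  choose N hN using hc
  refine le_trans (Finset.sum_le_sum fun i _ => hN i) ?_
  refine bezout_ideals f g d e hf hfd hge hfg (fun i => Iord (R i) (N i)) ?_
  intro i j hij
  exact isCoprime_Iord (fun h => hij (hR h)) _ _

/-- Bezout's inequality with two disjoint families of points. -/
theorem bezout_points2 {ι κ : Type*} [Fintype ι] [Fintype κ] (P : ι → Fin 2 → k)
    (Q : κ → Fin 2 → k) (hP : Function.Injective P) (hQ : Function.Injective Q)
    (hPQ : ∀ i j, P i ≠ Q j)
    (f g : MvPolynomial (Fin 2) k) (d e : ℕ)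
    (hf : Prime f) (hfd : f.totalDegree = d) (hge : g.totalDegree ≤ e) (hfg : ¬ f ∣ g)
    (c : ι → ℕ) (hc : ∀ i, LocalGe (P i) f g (c i))
    (c' : κ → ℕ) (hc' : ∀ i, LocalGe (Q i) f g (c' i)) :
    ∑ i, c i + ∑ j, c' j ≤ d * e := by
  have h := bezout_points (Sum.elim P Q) ?_ f g d e hf hfd hge hfg (Sum.elim c c') ?_
  · simpa using h
  · rintro (i | i) (j | j) hij
    · simp only [Sum.elim_inl] at hij; rw [hP hij]
    · exact absurd hij (hPQ i j)
    · exact absurd hij.symm (hPQ j i)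
    · simp only [Sum.elim_inr] at hij; rw [hQ hij]
  · rintro (i | i)
    · exact hc i
    · exact hc' i

/-- Existence of curves with prescribed multiplicities, avoiding a subspace. -/
theorem exists_curve {ι κ : Type*} [Fintype ι] [Fintype κ] (P : ι → Fin 2 → k)
    (Q : κ → Fin 2 → k) (e : ℕ) (a : ι → ℕ)
    (h : ∑ i, tri (a i) + Fintype.card κ < tri (e + 1)) :
    ∃ φ : MvPolynomial (Fin 2) k, φ ≠ 0 ∧ φ.totalDegree ≤ e ∧ (∀ i, φ ∈ Iord (P i) (a i)) ∧
      (∀ j, eval (Q j) φ = 0) := by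
  let L : Vd k e →ₗ[k] ((∀ i, (triF (a i) → k)) × (κ → k)) :=
    ((LinearMap.pi fun i => jet (P i) (a i)).prod
      (LinearMap.pi fun j => (MvPolynomial.aeval (Q j)).toLinearMap)).comp (Vd k e).subtype
  obtain ⟨v, hv, hv0⟩ := exists_ker_ne_zero L (by
    rw [finrank_Vd, Module.finrank_prod, Module.finrank_pi_fintype, Module.finrank_pi]
    simp only [Module.finrank_pi, Fintype.card_coe]
    exact h)
  refine ⟨v.1, fun h => hv0 (Subtype.ext h), mem_Vd.1 v.2, ?_, ?_⟩
  · intro i
    rw [← jet_eq_zero_iff]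
    exact congrFun (congrArg Prod.fst hv) i
  · intro j
    have := congrFun (congrArg Prod.snd hv) j
    change MvPolynomial.aeval (Q j) v.1 = 0 at this
    rwa [MvPolynomial.aeval_eq_eval] at this

/-- The genus bound for an irreducible plane curve. -/
theorem genus_bound [IsAlgClosed k] {ι : Type*} [Fintype ι] (P : ι → Fin 2 → k)
    (hP : Function.Injective P) (f : MvPolynomial (Fin 2) k) (d : ℕ) (hf : Prime f)
    (hd : f.totalDegree = d) (m : ι → ℕ) (hm : ∀ i, f ∈ Iord (P i) (m i))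
    (j : Fin 2) (hj : pderiv j f ≠ 0) :
    ∑ i, (m i : ℤ) * (m i - 1) ≤ ((d : ℤ) - 1) * (d - 2) := by
  have hd1 : 1 ≤ d := hd ▸ totalDegree_pos_of_prime hf
  have hdeg := totalDegree_pderiv_le j f
  have hndvd : ¬ f ∣ pderiv j f := not_dvd_of_totalDegree_lt hj (by omega)
  -- first step
  have h1 := bezout_points P hP f (pderiv j f) d (d - 1) hf hd (by omega) hndvd
    (fun i => m i * (m i - 1)) (fun i => LocalGe.of_mem (hm i) (pderiv_mem_Iord' j (hm i)))
  -- number of extra points
  have htri : ∀ a : ℕ, 2 * tri (a - 1) = a * (a - 1) := by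
    intro a
    rw [two_mul_tri]
    rcases a with _ | a
    · simp
    · simp; ring
  have hsum : 2 * ∑ i, tri (m i - 1) = ∑ i, m i * (m i - 1) := by
    rw [Finset.mul_sum]
    exact Finset.sum_congr rfl fun i _ => htri (m i)
  have e0 := two_mul_tri d
  obtain ⟨d', rfl⟩ : ∃ d', d = d' + 1 := ⟨d - 1, by omega⟩
  simp only [Nat.add_sub_cancel] at h1
  have hr : ∑ i, tri (m i - 1) + 1 ≤ tri (d' + 1) := by nlinarith
  obtain ⟨r, hr⟩ : ∃ r, ∑ i, tri (m i - 1) + r + 1 = tri (d' + 1) :=
    ⟨tri (d' + 1) - ∑ i, tri (m i - 1) - 1, by omega⟩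
  obtain ⟨Q, hQinj, hQf, -, hPQ⟩ := exists_points hf (u := 1)
    (fun h => hf.not_isUnit (isUnit_of_dvd_one h)) P r
  obtain ⟨φ, hφ0, hφd, hφP, hφQ⟩ := exists_curve P Q d' (fun i => m i - 1) (by
    rw [Fintype.card_fin]; omega)
  have hndvd' : ¬ f ∣ φ := not_dvd_of_totalDegree_lt hφ0 (by omega)
  have h2 := bezout_points2 P Q hP hQinj hPQ f φ (d' + 1) d' hf hd hφd hndvd'
    (fun i => m i * (m i - 1)) (fun i => LocalGe.of_mem (hm i) (hφP i))
    (fun _ => 1) (fun j => by
      have := LocalGe.of_mem (mem_Iord_one.2 (hQf j)) (mem_Iord_one.2 (hφQ j))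
      simpa using this)
  have hz : ∑ i, (m i : ℤ) * (m i - 1) = ((∑ i, m i * (m i - 1) : ℕ) : ℤ) := by
    push_cast
    refine Finset.sum_congr rfl fun i _ => ?_
    rcases m i with _ | a
    · simp
    · simp
  rw [hz]
  simp only [Finset.sum_const, Finset.card_univ, Fintype.card_fin, smul_eq_mul, mul_one] at h2
  have e3 : (2 : ℤ) * (∑ i, tri (m i - 1) : ℕ) + 2 * r + 2 = (d' + 1) * (d' + 2) := by
    have : (2 * (∑ i, tri (m i - 1)) + 2 * r + 2 : ℕ) = (d' + 1) * (d' + 2) := by
      rw [← e0]; omega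
    exact_mod_cast this
  have e4 : (2 : ℤ) * (∑ i, tri (m i - 1) : ℕ) = (∑ i, m i * (m i - 1) : ℕ) := by
    exact_mod_cast hsum
  have e5 : ((∑ i, m i * (m i - 1) : ℕ) : ℤ) + r ≤ (d' + 1) * d' := by
    exact_mod_cast h2
  push_cast at *
  nlinarith

end Pool.Agent.H13
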