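import Mathlib
import Pool.Agent.H13.Genus

set_option autoImplicit false

namespace Pool.Agent.H13

open Module MvPolynomial

variable {k : Type*} [Field k]

/-! ### Explicit monomials -/

noncomputable def mon (i j : ℕ) (c : k) : MvPolynomial (Fin 2) k := monomial (expo (i, j)) c

theorem expo_add (p q : ℕ × ℕ) : expo p + expo q = expo (p + q) := by
  ext i; fin_cases i <;> simp

theorem mon_mul (i j i' j' : ℕ) (c c' : k) :
    mon i j c * mon i' j' c' = mon (i + i') (j + j') (c * c') := by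
  simp only [mon, monomial_mul, expo_add, Prod.mk_add_mk]

theorem coeff_mon (i j a b : ℕ) (c : k) :
    coeff (expo (a, b)) (mon i j c) = if i = a ∧ j = b then c else 0 := by
  classical
  simp only [mon, coeff_monomial]
  by_cases h : i = a ∧ j = b
  · obtain ⟨rfl, rfl⟩ := h; simp
  · rw [if_neg h, if_neg]
    intro h'
    have := expo_inj h'
    exact h ⟨congrArg Prod.fst this, congrArg Prod.snd this⟩

theorem mon_eq (i j : ℕ) (c : k) : mon i j c = C c * X 0 ^ i * X 1 ^ j := by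
  rw [mon, monomial_eq]
  have : (expo (i, j)).prod (fun n e => (X n : MvPolynomial (Fin 2) k) ^ e) =
      X 0 ^ i * X 1 ^ j := by
    rw [Finsupp.prod_fintype _ _ (by intro; simp), Fin.prod_univ_two]
    simp
  rw [this, mul_assoc]

/-- Polynomials all of whose monomials `s` satisfy `2 |s| + a ≤ d`. -/
noncomputable def SD (k : Type*) [Field k] (a d : ℕ) : Submodule k (MvPolynomial (Fin 2) k) :=
  restrictSupport k {s | 2 * s.degree + a ≤ d}

theorem mem_SD {a d : ℕ} {p : MvPolynomial (Fin 2) k} :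
    p ∈ SD k a d ↔ ∀ s ∈ p.support, 2 * s.degree + a ≤ d := Iff.rfl

theorem mon_mem_SD {a d i j : ℕ} {c : k} (h : 2 * (i + j) + a ≤ d) : mon i j c ∈ SD k a d := by
  rw [SD, mon, monomial_mem_restrictSupport]
  left
  change 2 * (expo (i, j)).degree + a ≤ d
  rw [expo_degree]
  exact h

theorem SD_le_Vd {a d t : ℕ} (h : ∀ n, 2 * n + a ≤ d → n ≤ t) : SD k a d ≤ Vd k t := by
  apply restrictSupport_mono
  intro s hs
  exact h _ hs

section Char2

variable [CharP k 2] [IsAlgClosed k]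

theorem decomp (d : ℕ) (f : MvPolynomial (Fin 2) k) (hf : f.totalDegree ≤ d) :
    ∃ c0 c1 c2 c3 : MvPolynomial (Fin 2) k,
      f = c0 ^ 2 + X 0 * c1 ^ 2 + X 1 * c2 ^ 2 + X 0 * X 1 * c3 ^ 2 ∧
      c0 ∈ SD k 0 d ∧ c1 ∈ SD k 1 d ∧ c2 ∈ SD k 1 d ∧ c3 ∈ SD k 2 d := by
  set p : MvPolynomial (Fin 2) k → Prop := fun f =>
    ∃ c0 c1 c2 c3 : MvPolynomial (Fin 2) k,
      f = c0 ^ 2 + X 0 * c1 ^ 2 + X 1 * c2 ^ 2 + X 0 * X 1 * c3 ^ 2 ∧
      c0 ∈ SD k 0 d ∧ c1 ∈ SD k 1 d ∧ c2 ∈ SD k 1 d ∧ c3 ∈ SD k 2 d with hp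
  have hadd : ∀ u v, p u → p v → p (u + v) := by
    rintro u v ⟨a0, a1, a2, a3, rfl, h0, h1, h2, h3⟩ ⟨b0, b1, b2, b3, rfl, g0, g1, g2, g3⟩
    refine ⟨a0 + b0, a1 + b1, a2 + b2, a3 + b3, ?_, add_mem h0 g0, add_mem h1 g1,
      add_mem h2 g2, add_mem h3 g3⟩
    simp only [CharTwo.add_sq]
    ring
  have hzero : p 0 := ⟨0, 0, 0, 0, by ring, zero_mem _, zero_mem _, zero_mem _, zero_mem _⟩
  have hmon : ∀ i j : ℕ, i + j ≤ d → ∀ c : k, p (mon i j c) := by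
    intro i j hij c
    obtain ⟨b, hb⟩ := IsAlgClosed.exists_pow_nat_eq c (n := 2) (by norm_num)
    obtain ⟨i', hi⟩ : ∃ i', i = 2 * i' ∨ i = 2 * i' + 1 := ⟨i / 2, by omega⟩
    obtain ⟨j', hj⟩ : ∃ j', j = 2 * j' ∨ j = 2 * j' + 1 := ⟨j / 2, by omega⟩
    rcases hi with rfl | rfl <;> rcases hj with rfl | rfl
    · refine ⟨mon i' j' b, 0, 0, 0, ?_, mon_mem_SD (by omega), zero_mem _, zero_mem _, zero_mem _⟩
      simp only [mon_eq, ← hb, map_pow]; ring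
    · refine ⟨0, 0, mon i' j' b, 0, ?_, zero_mem _, zero_mem _, mon_mem_SD (by omega), zero_mem _⟩
      simp only [mon_eq, ← hb, map_pow]; ring
    · refine ⟨0, mon i' j' b, 0, 0, ?_, zero_mem _, mon_mem_SD (by omega), zero_mem _, zero_mem _⟩
      simp only [mon_eq, ← hb, map_pow]; ring
    · refine ⟨0, 0, 0, mon i' j' b, ?_, zero_mem _, zero_mem _, zero_mem _, mon_mem_SD (by omega)⟩
      simp only [mon_eq, ← hb, map_pow]; ring
  have hsum : ∀ S : Finset (Fin 2 →₀ ℕ), (∀ s ∈ S, s.degree ≤ d) →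
      p (∑ s ∈ S, monomial s (coeff s f)) := by
    intro S hS
    refine Finset.sum_induction _ p hadd hzero ?_
    intro s hs
    have h1 := hS s hs
    rw [← expo_surj s, expo_degree] at h1
    rw [← expo_surj s]
    exact hmon _ _ h1 _
  have := hsum f.support (fun s hs => (le_totalDegree hs).trans hf)
  rw [← f.as_sum] at this
  exact this

omit [IsAlgClosed k] in
theorem pderiv_sq (i : Fin 2) (c : MvPolynomial (Fin 2) k) : pderiv i (c ^ 2) = 0 := by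
  rw [pderiv_pow]
  have : ((2 : ℕ) : MvPolynomial (Fin 2) k) = 0 := CharP.cast_eq_zero _ 2
  rw [this]; ring

omit [IsAlgClosed k] in
theorem pderiv0_decomp (c0 c1 c2 c3 : MvPolynomial (Fin 2) k) :
    pderiv 0 (c0 ^ 2 + X 0 * c1 ^ 2 + X 1 * c2 ^ 2 + X 0 * X 1 * c3 ^ 2) =
      c1 ^ 2 + X 1 * c3 ^ 2 := by
  simp only [map_add, pderiv_mul, pderiv_sq, pderiv_X_self,
    pderiv_X_of_ne (show (1 : Fin 2) ≠ 0 by decide)]
  ring

omit [IsAlgClosed k] in
theorem pderiv1_decomp (c0 c1 c2 c3 : MvPolynomial (Fin 2) k) :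
    pderiv 1 (c0 ^ 2 + X 0 * c1 ^ 2 + X 1 * c2 ^ 2 + X 0 * X 1 * c3 ^ 2) =
      c2 ^ 2 + X 0 * c3 ^ 2 := by
  simp only [map_add, pderiv_mul, pderiv_sq, pderiv_X_self,
    pderiv_X_of_ne (show (0 : Fin 2) ≠ 1 by decide)]
  ring

omit [IsAlgClosed k] in
theorem decomp_zero {c0 c1 c2 c3 : MvPolynomial (Fin 2) k}
    (h : c0 ^ 2 + X 0 * c1 ^ 2 + X 1 * c2 ^ 2 + X 0 * X 1 * c3 ^ 2 = 0) :
    c0 = 0 ∧ c1 = 0 ∧ c2 = 0 ∧ c3 = 0 := by
  have h0 := congrArg (pderiv 0) h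
  rw [pderiv0_decomp, map_zero] at h0
  have h1 := congrArg (pderiv 1) h
  rw [pderiv1_decomp, map_zero] at h1
  have h01 := congrArg (pderiv 1) h0
  simp only [map_add, pderiv_mul, pderiv_sq, pderiv_X_self, map_zero] at h01
  have h3 : c3 = 0 := by
    have : c3 ^ 2 = 0 := by linear_combination h01
    simpa using this
  subst h3
  have h1' : c1 = 0 := by
    have : c1 ^ 2 = 0 := by linear_combination h0
    simpa using this
  have h2' : c2 = 0 := by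
    have : c2 ^ 2 = 0 := by linear_combination h1
    simpa using this
  subst h1' h2'
  have h0' : c0 = 0 := by
    have : c0 ^ 2 = 0 := by linear_combination h
    simpa using this
  exact ⟨h0', rfl, rfl, rfl⟩

omit [IsAlgClosed k] in
theorem two_eq_zero_A : (2 : MvPolynomial (Fin 2) k) = 0 := CharTwo.two_eq_zero

omit [IsAlgClosed k] in
theorem decomp_unique {c0 c1 c2 c3 d0 d1 d2 d3 : MvPolynomial (Fin 2) k}
    (h : c0 ^ 2 + X 0 * c1 ^ 2 + X 1 * c2 ^ 2 + X 0 * X 1 * c3 ^ 2 =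
      d0 ^ 2 + X 0 * d1 ^ 2 + X 1 * d2 ^ 2 + X 0 * X 1 * d3 ^ 2) :
    c0 = d0 ∧ c1 = d1 ∧ c2 = d2 ∧ c3 = d3 := by
  have h' : (c0 + d0) ^ 2 + X 0 * (c1 + d1) ^ 2 + X 1 * (c2 + d2) ^ 2 +
      X 0 * X 1 * (c3 + d3) ^ 2 = 0 := by
    simp only [CharTwo.add_sq]
    linear_combination h + (d0 ^ 2 + X 0 * d1 ^ 2 + X 1 * d2 ^ 2 + X 0 * X 1 * d3 ^ 2) *
      (two_eq_zero_A (k := k))
  obtain ⟨e0, e1, e2, e3⟩ := decomp_zero h'
  exact ⟨CharTwo.add_eq_zero.1 e0, CharTwo.add_eq_zero.1 e1, CharTwo.add_eq_zero.1 e2,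
    CharTwo.add_eq_zero.1 e3⟩

end Char2

end Pool.Agent.H13
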