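import Mathlib
import Pool.Agent.H13.Char2

set_option autoImplicit false

namespace Pool.Agent.H13

open Module MvPolynomial

variable {k : Type*} [Field k]

/-! ### The special derivation in characteristic two -/

/-- `E = y² + y` -/
noncomputable def EE (k : Type*) [Field k] : MvPolynomial (Fin 2) k := X 1 ^ 2 + X 1
/-- `g = x⁵ + y + x y E²` -/
noncomputable def GG (k : Type*) [Field k] : MvPolynomial (Fin 2) k :=
  X 0 ^ 5 + X 1 + X 0 * X 1 * EE k ^ 2
/-- `∂g/∂x` -/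
noncomputable def Gx (k : Type*) [Field k] : MvPolynomial (Fin 2) k := X 0 ^ 4 + X 1 * EE k ^ 2
/-- `∂g/∂y` -/
noncomputable def Gy (k : Type*) [Field k] : MvPolynomial (Fin 2) k := 1 + X 0 * EE k ^ 2

/-- The Hamiltonian derivation of `g`. -/
noncomputable def DD (f : MvPolynomial (Fin 2) k) : MvPolynomial (Fin 2) k :=
  Gy k * pderiv 0 f + Gx k * pderiv 1 f

theorem DD_mul (f h : MvPolynomial (Fin 2) k) : DD (f * h) = DD f * h + f * DD h := by
  simp only [DD, pderiv_mul]; ring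

theorem DD_add (f h : MvPolynomial (Fin 2) k) : DD (f + h) = DD f + DD h := by
  simp only [DD, map_add]; ring

theorem EE_ne_zero : EE k ≠ 0 := by
  intro h
  have := congrArg (coeff (expo (0, 1))) h
  have e : EE k = mon 0 2 1 + mon 0 1 1 := by simp [EE, mon_eq]
  rw [e, coeff_add, coeff_mon, coeff_mon] at this
  simp at this

theorem totalDegree_EE : (EE k).totalDegree = 2 := by
  apply le_antisymm
  · refine (totalDegree_add _ _).trans ?_
    simp
  · have e : EE k = mon 0 2 1 + mon 0 1 1 := by simp [EE, mon_eq]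
    have h : expo (0, 2) ∈ (EE k).support := by
      rw [MvPolynomial.mem_support_iff, e, coeff_add, coeff_mon, coeff_mon]
      simp
    have := le_totalDegree h
    have e2 : ((expo (0, 2)).sum fun _ e => e) = (expo (0, 2)).degree := rfl
    rw [e2, expo_degree] at this
    simpa using this

theorem coeff_X_mul_pderiv (i : Fin 2) (f : MvPolynomial (Fin 2) k) (s : Fin 2 →₀ ℕ) :
    coeff s (X i * pderiv i f) = (s i : k) * coeff s f := by
  classical
  induction f using MvPolynomial.induction_on' with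
  | monomial m a =>
    rw [X_mul_pderiv_monomial]
    rw [nsmul_eq_mul, ← map_natCast (C : k →+* MvPolynomial (Fin 2) k), coeff_C_mul, coeff_monomial]
    split_ifs with h
    · rw [h]
    · simp
  | add p q hp hq => rw [map_add, mul_add, coeff_add, hp, hq, coeff_add]; ring

theorem coeff_euler (f : MvPolynomial (Fin 2) k) (s : Fin 2 →₀ ℕ) :
    coeff s (X 0 * pderiv 0 f + X 1 * pderiv 1 f) = (s.degree : k) * coeff s f := by
  rw [coeff_add, coeff_X_mul_pderiv, coeff_X_mul_pderiv, Finsupp.degree_eq_sum,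
    Fin.sum_univ_two, Nat.cast_add]
  ring

section Char2

variable [CharP k 2]

theorem sq_inj {a b : MvPolynomial (Fin 2) k} (h : a ^ 2 = b ^ 2) : a = b := by
  have : (a + b) ^ 2 = 0 := by
    rw [CharTwo.add_sq, h]; exact CharTwo.add_self_eq_zero _
  exact CharTwo.add_eq_zero.1 (by simpa using this)

theorem DD_decomp (c0 c1 c2 c3 : MvPolynomial (Fin 2) k) :
    DD (c0 ^ 2 + X 0 * c1 ^ 2 + X 1 * c2 ^ 2 + X 0 * X 1 * c3 ^ 2) =
      (c1 + X 0 ^ 2 * c2) ^ 2 + X 0 * (EE k * c1 + X 0 ^ 2 * c3) ^ 2 +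
      X 1 * (c3 + EE k * c2) ^ 2 + X 0 * X 1 * 0 ^ 2 := by
  rw [DD, pderiv0_decomp, pderiv1_decomp, Gx, Gy]
  simp only [CharTwo.add_sq]
  linear_combination (X 0 * X 1 * EE k ^ 2 * c3 ^ 2) * two_eq_zero_A (k := k)

theorem DD_sq (c : MvPolynomial (Fin 2) k) : DD (c ^ 2) = 0 := by
  rw [DD, pderiv_sq, pderiv_sq]; ring

theorem DD_GG : DD (GG k) = 0 := by
  have h : GG k = 0 ^ 2 + X 0 * (X 0 ^ 2) ^ 2 + X 1 * 1 ^ 2 + X 0 * X 1 * EE k ^ 2 := by
    rw [GG]; ring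
  rw [h, DD_decomp, mul_one, mul_one]
  have e1 : (X 0 ^ 2 + X 0 ^ 2 : MvPolynomial (Fin 2) k) = 0 := CharTwo.add_self_eq_zero _
  have e2 : (EE k * X 0 ^ 2 + X 0 ^ 2 * EE k : MvPolynomial (Fin 2) k) = 0 := by
    rw [mul_comm (EE k)]; exact CharTwo.add_self_eq_zero _
  have e3 : EE k + EE k = 0 := CharTwo.add_self_eq_zero _
  rw [e1, e2, e3]; ring

/-- Kernel of `D`. -/
theorem DD_eq_zero [IsAlgClosed k] {d : ℕ} {f : MvPolynomial (Fin 2) k} (hfd : f.totalDegree ≤ d)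
    (hf : DD f = 0) :
    ∃ P L : MvPolynomial (Fin 2) k, f = P ^ 2 + L ^ 2 * GG k ∧ P ∈ SD k 0 d ∧ L ∈ SD k 6 d := by
  obtain ⟨c0, c1, c2, c3, rfl, h0, h1, h2, h3⟩ := decomp d f hfd
  rw [DD_decomp] at hf
  obtain ⟨e1, -, e3, -⟩ := decomp_zero hf
  have e1' : c1 = X 0 ^ 2 * c2 := CharTwo.add_eq_zero.1 e1
  have e3' : c3 = EE k * c2 := CharTwo.add_eq_zero.1 e3
  refine ⟨c0, c2, ?_, h0, ?_⟩
  · rw [e1', e3', GG]; ring
  · rcases eq_or_ne c2 0 with rfl | hc2
    · exact zero_mem _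
    · rw [mem_SD] at h3 ⊢
      intro s hs
      have hdeg : c3.totalDegree = 2 + c2.totalDegree := by
        rw [e3', totalDegree_mul_of_isDomain EE_ne_zero hc2, totalDegree_EE]
      have hc3 : c3 ≠ 0 := by rw [e3']; exact mul_ne_zero EE_ne_zero hc2
      obtain ⟨t, ht, hts⟩ := Finset.exists_mem_eq_sup c3.support
        (support_nonempty.2 hc3) (fun s => s.sum fun _ e => e)
      have e5 := h3 t ht
      have e6 : c3.totalDegree = t.degree := hts
      have e7 := le_totalDegree hs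
      change s.degree ≤ _ at e7
      omega

/-- The odd part. -/
theorem DD_eq_E [IsAlgClosed k] {d : ℕ} {f : MvPolynomial (Fin 2) k} (hfd : f.totalDegree ≤ d)
    (hf : DD f = EE k ^ 2 * f) :
    ∃ h0 h2 : MvPolynomial (Fin 2) k,
      f = h0 ^ 2 + X 0 * (EE k * h0 + X 0 ^ 2 * h2) ^ 2 + X 1 * h2 ^ 2 ∧
      h0 ∈ SD k 0 d ∧ (EE k * h0 + X 0 ^ 2 * h2) ∈ SD k 1 d ∧ h2 ∈ SD k 1 d := by
  obtain ⟨c0, c1, c2, c3, rfl, h0, h1, h2, h3⟩ := decomp d f hfd
  rw [DD_decomp] at hf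
  have hf' : (c1 + X 0 ^ 2 * c2) ^ 2 + X 0 * (EE k * c1 + X 0 ^ 2 * c3) ^ 2 +
      X 1 * (c3 + EE k * c2) ^ 2 + X 0 * X 1 * 0 ^ 2 =
      (EE k * c0) ^ 2 + X 0 * (EE k * c1) ^ 2 + X 1 * (EE k * c2) ^ 2 +
        X 0 * X 1 * (EE k * c3) ^ 2 := by
    rw [hf]; ring
  obtain ⟨e0, e1, e2, e3⟩ := decomp_unique hf'
  have hc3 : c3 = 0 := by
    rcases mul_eq_zero.1 e3.symm with h | h
    · exact absurd h EE_ne_zero
    · exact h
  subst hc3
  have hc1 : c1 = EE k * c0 + X 0 ^ 2 * c2 := by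
    rw [← e0, add_assoc, CharTwo.add_self_eq_zero, add_zero]
  refine ⟨c0, c2, ?_, h0, ?_, h2⟩
  · rw [← hc1]; ring
  · rw [← hc1]; exact h1

end Char2

end Pool.Agent.H13
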