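import Mathlib
import Pool.Agent.H13.Deriv

set_option autoImplicit false

namespace Pool.Agent.H13

open Module MvPolynomial

variable {k : Type*} [Field k]

theorem triF_three : triF 3 = {(0, 0), (0, 1), (1, 0), (0, 2), (1, 1), (2, 0)} := by decide

theorem triF_two : triF 2 = {(0, 0), (0, 1), (1, 0)} := by decide

theorem eq_sum_triF {t : ℕ} {p : MvPolynomial (Fin 2) k} (hp : p ∈ Vd k t) :
    p = ∑ q ∈ triF (t + 1), mon q.1 q.2 (coeff (expo q) p) := by
  rw [mem_Vd] at hp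
  ext s
  obtain ⟨q, rfl⟩ : ∃ q, expo q = s := ⟨_, expo_surj s⟩
  rw [coeff_sum]
  have : ∀ x : ℕ × ℕ, coeff (expo q) (mon x.1 x.2 (coeff (expo x) p)) =
      if x = q then coeff (expo x) p else 0 := by
    intro x
    have := coeff_mon x.1 x.2 q.1 q.2 (coeff (expo x) p)
    rw [Prod.mk.eta] at this
    rw [this]
    by_cases h : x = q
    · rw [if_pos h, if_pos ⟨by rw [h], by rw [h]⟩]
    · rw [if_neg h, if_neg]
      rintro ⟨h1, h2⟩
      exact h (Prod.ext h1 h2)
  simp_rw [this]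
  rw [Finset.sum_ite_eq' (triF (t + 1)) q]
  split_ifs with h
  · rfl
  · rw [mem_triF] at h
    by_contra hne
    have h1 := le_totalDegree (MvPolynomial.mem_support_iff.2 hne)
    change (expo q).degree ≤ _ at h1
    rw [expo_degree] at h1
    omega

theorem explicit_two {p : MvPolynomial (Fin 2) k} (hp : p ∈ Vd k 2) :
    ∃ a00 a01 a10 a02 a11 a20 : k, p = mon 0 0 a00 + mon 0 1 a01 + mon 1 0 a10 + mon 0 2 a02 +
      mon 1 1 a11 + mon 2 0 a20 := by
  have h := eq_sum_triF hp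
  rw [triF_three] at h
  rw [Finset.sum_insert (by decide), Finset.sum_insert (by decide), Finset.sum_insert (by decide),
    Finset.sum_insert (by decide), Finset.sum_insert (by decide), Finset.sum_singleton] at h
  refine ⟨coeff (expo (0, 0)) p, coeff (expo (0, 1)) p, coeff (expo (1, 0)) p,
    coeff (expo (0, 2)) p, coeff (expo (1, 1)) p, coeff (expo (2, 0)) p, ?_⟩
  simpa only [add_assoc] using h

theorem explicit_one {p : MvPolynomial (Fin 2) k} (hp : p ∈ Vd k 1) :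
    ∃ a00 a01 a10 : k, p = mon 0 0 a00 + mon 0 1 a01 + mon 1 0 a10 := by
  have h := eq_sum_triF hp
  rw [triF_two] at h
  rw [Finset.sum_insert (by decide), Finset.sum_insert (by decide), Finset.sum_singleton] at h
  refine ⟨coeff (expo (0, 0)) p, coeff (expo (0, 1)) p, coeff (expo (1, 0)) p, ?_⟩
  simpa only [add_assoc] using h

theorem mon_sq (i j : ℕ) (c : k) : (mon i j c) ^ 2 = mon (2 * i) (2 * j) (c ^ 2) := by
  rw [sq, mon_mul]; congr 1 <;> ring

section Char2

variable [CharP k 2]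

/-- The code is trivial. -/
theorem code_trivial {c0 c1 c2 : MvPolynomial (Fin 2) k} (h0 : c0 ∈ Vd k 2) (h1 : c1 ∈ Vd k 1)
    (h2 : c2 ∈ Vd k 1)
    (h : c0 ^ 2 + X 0 * c1 ^ 2 + X 1 * c2 ^ 2 = c1 + X 0 ^ 2 * c2 + EE k * c0) :
    c1 = 0 ∧ c2 = 0 ∧ (c0 = 0 ∨ c0 = EE k) := by
  obtain ⟨u00, u01, u10, u02, u11, u20, rfl⟩ := explicit_two h0
  obtain ⟨v0, v2, v1, rfl⟩ := explicit_one h1
  obtain ⟨w0, w2, w1, rfl⟩ := explicit_one h2
  have eX0 : (X 0 : MvPolynomial (Fin 2) k) = mon 1 0 1 := by simp [mon_eq]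
  have eX02 : (X 0 ^ 2 : MvPolynomial (Fin 2) k) = mon 2 0 1 := by simp [mon_eq]
  have eX1 : (X 1 : MvPolynomial (Fin 2) k) = mon 0 1 1 := by simp [mon_eq]
  have eE : EE k = mon 0 2 1 + mon 0 1 1 := by simp [EE, mon_eq]
  rw [eX02, eX0, eX1, eE] at h
  simp only [CharTwo.add_sq, mon_sq, mul_add, add_mul, mon_mul] at h
  have hc := fun a b => congrArg (coeff (expo (a, b))) h
  simp only [coeff_add, coeff_mon] at hc
  have c00 := hc 0 0
  have c10 := hc 1 0
  have c01 := hc 0 1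
  have c20 := hc 2 0
  have c11 := hc 1 1
  have c02 := hc 0 2
  have c30 := hc 3 0
  have c21 := hc 2 1
  have c12 := hc 1 2
  have c03 := hc 0 3
  have c40 := hc 4 0
  have c22 := hc 2 2
  have c13 := hc 1 3
  have c04 := hc 0 4
  norm_num at c00 c10 c01 c20 c11 c02 c30 c21 c12 c03 c40 c22 c13 c04
  have hu10 : u10 = 0 := c11.symm
  have hu11 : u11 = 0 := c13.symm
  have hw0 : w0 = 0 := by rw [← c20, hu10]; ring
  have hv2 : v2 = 0 := by
    rw [hu10, hu11, add_zero] at c12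
    exact pow_eq_zero_iff (two_ne_zero) |>.1 c12
  have hu00 : u00 = 0 := by
    rw [hw0, hv2, zero_add] at c01
    rw [← c01]; ring
  have hv0 : v0 = 0 := by rw [← c00, hu00]; ring
  have hv1 : v1 = 0 := by rw [← c10, hv0]; ring
  have hw1 : w1 = 0 := by rw [← c30, hv1]; ring
  have hw2 : w2 = 0 := by
    rw [hw1, c40, add_zero] at c21
    rw [← c21]; ring
  have hu01 : u01 = u02 := by
    rw [hw2] at c03
    have : u01 + u02 = 0 := by rw [← c03]; ring
    exact CharTwo.add_eq_zero.1 this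
  have hu02 : u02 = 0 ∨ u02 = 1 := by
    have : u02 * (u02 - 1) = 0 := by linear_combination c04
    rcases mul_eq_zero.1 this with h | h
    · left; exact h
    · right; exact sub_eq_zero.1 h
  have hm0 : ∀ i j, mon i j (0 : k) = 0 := by intro i j; simp [mon_eq]
  rw [hv0, hv1, hv2, hw0, hw1, hw2, hu00, hu01, hu10, hu11, c40]
  simp only [hm0, add_zero, zero_add, true_and]
  rcases hu02 with h | h
  · left; rw [h]; simp only [hm0, add_zero]
  · right; rw [h, eE]; ring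

/-- If `f` divides `D f` then `D f` is `0` or `E² f`. -/
theorem DD_of_dvd [IsAlgClosed k] {f : MvPolynomial (Fin 2) k} (hf : Prime f) (h : f ∣ DD f) :
    DD f = 0 ∨ DD f = EE k ^ 2 * f := by
  obtain ⟨c, hc⟩ := h
  rcases eq_or_ne c 0 with rfl | hc0
  · left; rw [hc, mul_zero]
  right
  have hf1 := totalDegree_pos_of_prime hf
  have hEd : (EE k ^ 2).totalDegree ≤ 4 := by
    refine (totalDegree_pow _ _).trans ?_
    rw [totalDegree_EE]
  have hdeg : (DD f).totalDegree ≤ f.totalDegree + 4 := by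
    refine (totalDegree_add _ _).trans ?_
    have h0 := totalDegree_pderiv_le 0 f
    have h1 := totalDegree_pderiv_le 1 f
    have hGy : (Gy k).totalDegree ≤ 5 := by
      refine (totalDegree_add _ _).trans ?_
      rw [totalDegree_one]
      have := totalDegree_mul (X 0 : MvPolynomial (Fin 2) k) (EE k ^ 2)
      rw [totalDegree_X] at this
      omega
    have hGx : (Gx k).totalDegree ≤ 5 := by
      refine (totalDegree_add _ _).trans ?_
      have := totalDegree_mul (X 1 : MvPolynomial (Fin 2) k) (EE k ^ 2)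
      rw [totalDegree_X] at this
      have h2 := totalDegree_pow (X 0 : MvPolynomial (Fin 2) k) 4
      rw [totalDegree_X] at h2
      omega
    have h2 := totalDegree_mul (Gy k) (pderiv 0 f)
    have h3 := totalDegree_mul (Gx k) (pderiv 1 f)
    omega
  have hcdeg : c.totalDegree ≤ 4 := by
    rw [hc, totalDegree_mul_of_isDomain hf.ne_zero hc0] at hdeg
    omega
  -- the equation for c
  have hDD : DD (DD f) = EE k ^ 2 * DD f := by
    obtain ⟨c0, c1, c2, c3, rfl, -⟩ := decomp _ f le_rfl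
    rw [DD_decomp, DD_decomp]
    simp only [CharTwo.add_sq]
    linear_combination (EE k * X 0 ^ 4 * c3 * c2 + EE k ^ 3 * c1 * X 0 ^ 3 * c3 +
      EE k ^ 3 * c3 * c2 * X 1 + X 0 ^ 4 * c3 ^ 2) * two_eq_zero_A (k := k)
  have hceq : DD c = c ^ 2 + EE k ^ 2 * c := by
    have h1 : DD f * c + f * DD c = EE k ^ 2 * (f * c) := by
      rw [← DD_mul, ← hc, hDD]
    rw [hc] at h1
    have h2 : f * (DD c) = f * (c ^ 2 + EE k ^ 2 * c) := by
      linear_combination h1 - (f * c ^ 2) * two_eq_zero_A (k := k)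
    exact mul_left_cancel₀ hf.ne_zero h2
  obtain ⟨c0, c1, c2, c3, hcd, h0, h1, h2, h3⟩ := decomp 4 c hcdeg
  rw [hcd] at hceq
  rw [DD_decomp] at hceq
  set cc := c0 ^ 2 + X 0 * c1 ^ 2 + X 1 * c2 ^ 2 + X 0 * X 1 * c3 ^ 2 with hcc
  have hceq' : (c1 + X 0 ^ 2 * c2) ^ 2 + X 0 * (EE k * c1 + X 0 ^ 2 * c3) ^ 2 +
      X 1 * (c3 + EE k * c2) ^ 2 + X 0 * X 1 * 0 ^ 2 =
      (cc + EE k * c0) ^ 2 + X 0 * (EE k * c1) ^ 2 + X 1 * (EE k * c2) ^ 2 +
        X 0 * X 1 * (EE k * c3) ^ 2 := by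
    have hs : (cc + EE k * c0) ^ 2 = cc ^ 2 + (EE k * c0) ^ 2 := CharTwo.add_sq _ _
    rw [hceq, hs]
    linear_combination (EE k ^ 2) * hcc
  obtain ⟨e0, e1, e2, e3⟩ := decomp_unique hceq'
  have hc3 : c3 = 0 := by
    rcases mul_eq_zero.1 e3.symm with h | h
    · exact absurd h EE_ne_zero
    · exact h
  have hkey : c0 ^ 2 + X 0 * c1 ^ 2 + X 1 * c2 ^ 2 = c1 + X 0 ^ 2 * c2 + EE k * c0 := by
    have e4 : cc = c0 ^ 2 + X 0 * c1 ^ 2 + X 1 * c2 ^ 2 := by rw [hcc, hc3]; ring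
    rw [e0, ← e4]
    linear_combination (-(EE k * c0)) * two_eq_zero_A (k := k)
  obtain ⟨g1, g2, g0⟩ := code_trivial (SD_le_Vd (by omega) h0) (SD_le_Vd (by omega) h1)
    (SD_le_Vd (by omega) h2) hkey
  have hcfin : c = c0 ^ 2 := by rw [hcd, hcc, g1, g2, hc3]; ring
  rcases g0 with g0 | g0
  · exfalso
    rw [g0] at hcfin
    exact hc0 (by rw [hcfin]; ring)
  · rw [hc, hcfin, g0]; ring

end Char2

end Pool.Agent.H13
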