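import Mathlib
import Pool.Agent.H13.Types

set_option autoImplicit false

namespace Pool.Agent.H13

open Module MvPolynomial

variable {k : Type*} [Field k]

theorem totalDegree_EE_sq_mul {f : MvPolynomial (Fin 2) k} (hf : f ≠ 0) :
    (EE k ^ 2 * f).totalDegree = f.totalDegree + 4 := by
  rw [totalDegree_mul_of_isDomain (pow_ne_zero 2 EE_ne_zero) hf, sq,
    totalDegree_mul_of_isDomain EE_ne_zero EE_ne_zero, totalDegree_EE]
  omega

section Char2

variable [CharP k 2]

theorem natCast_add_self (n : ℕ) : (n : k) + n = 0 := CharTwo.add_self_eq_zero _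

theorem degree_h {f : MvPolynomial (Fin 2) k} (hf1 : 1 ≤ f.totalDegree) :
    (DD f + C (f.totalDegree : k) * EE k ^ 2 * f).totalDegree ≤ f.totalDegree + 3 := by
  set d := f.totalDegree with hd
  -- the Euler part
  set e : MvPolynomial (Fin 2) k := X 0 * pderiv 0 f + X 1 * pderiv 1 f + C (d : k) * f with he
  have hedeg : e.totalDegree ≤ d - 1 := by
    rw [totalDegree, Finset.sup_le_iff]
    intro s hs
    change s.degree ≤ d - 1
    rw [MvPolynomial.mem_support_iff, he, coeff_add, coeff_euler, coeff_C_mul] at hs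
    by_contra hcon
    apply hs
    by_cases hs' : coeff s f = 0
    · rw [hs']; ring
    · have h1 := le_totalDegree (MvPolynomial.mem_support_iff.2 hs')
      change s.degree ≤ d at h1
      have h2 : s.degree = d := by omega
      rw [h2, ← add_mul, natCast_add_self, zero_mul]
  have heq : DD f + C (d : k) * EE k ^ 2 * f =
      pderiv 0 f + X 0 ^ 4 * pderiv 1 f + EE k ^ 2 * e := by
    rw [DD, Gx, Gy, he]; ring
  rw [heq]
  have h0 := totalDegree_pderiv_le 0 f
  have h1 := totalDegree_pderiv_le 1 f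
  refine (totalDegree_add _ _).trans (max_le ((totalDegree_add _ _).trans (max_le ?_ ?_)) ?_)
  · omega
  · have h2 := totalDegree_mul (X 0 ^ 4 : MvPolynomial (Fin 2) k) (pderiv 1 f)
    rw [totalDegree_X_pow] at h2
    omega
  · rcases eq_or_ne e 0 with h | h
    · rw [h, mul_zero]; simp
    · rw [totalDegree_EE_sq_mul h]; omega

theorem even_of_DD_eq_zero {f : MvPolynomial (Fin 2) k} (hf1 : 1 ≤ f.totalDegree)
    (h : DD f = 0) : Even f.totalDegree := by
  by_contra hodd
  have h1 := degree_h hf1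
  have hf0 : f ≠ 0 := by rintro rfl; simp at hf1
  have h2 : (f.totalDegree : k) = 1 := by
    rw [Nat.not_even_iff_odd] at hodd
    obtain ⟨n, hn⟩ := hodd
    rw [hn]; push_cast
    rw [CharTwo.two_eq_zero]; ring
  rw [h, h2, zero_add, C_1, one_mul, totalDegree_EE_sq_mul hf0] at h1
  omega

theorem odd_of_DD_eq {f : MvPolynomial (Fin 2) k} (hf1 : 1 ≤ f.totalDegree)
    (h : DD f = EE k ^ 2 * f) : Odd f.totalDegree := by
  by_contra heven
  have h1 := degree_h hf1
  have hf0 : f ≠ 0 := by rintro rfl; simp at hf1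
  have h2 : (f.totalDegree : k) = 0 := by
    rw [Nat.not_odd_iff_even] at heven
    obtain ⟨n, hn⟩ := heven
    rw [hn]; push_cast
    exact CharTwo.add_self_eq_zero _
  rw [h, h2, C_0, zero_mul, zero_mul, add_zero, totalDegree_EE_sq_mul hf0] at h1
  omega

/-- `P` is a zero of `dg`. -/
def IsZ (P : Fin 2 → k) : Prop := eval P (Gx k) = 0 ∧ eval P (Gy k) = 0

theorem IsZ.EE_ne {P : Fin 2 → k} (hP : IsZ P) : eval P (EE k) ≠ 0 := by
  intro h
  have := hP.2
  rw [Gy, map_add, map_mul, map_pow, h] at this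
  simp at this

theorem tr_EE (P : Fin 2 → k) : ∃ ε ∈ idealOfVars (Fin 2) k ^ 1,
    tr P (EE k) = C (eval P (EE k)) + ε := by
  refine ⟨tr P (EE k) - C (eval P (EE k)), ?_, by ring⟩
  have : tr P (EE k) - C (eval P (EE k)) = tr P (EE k - C (eval P (EE k))) := by
    rw [map_sub, tr_C]
  rw [this]
  exact mem_Iord_one.2 (by simp)

theorem X_mem_idealOfVars (i : Fin 2) : (X i : MvPolynomial (Fin 2) k) ∈ idealOfVars (Fin 2) k :=
  Ideal.subset_span ⟨i, rfl⟩

theorem tr_Gy {P : Fin 2 → k} (hP : IsZ P) : ∃ r ∈ idealOfVars (Fin 2) k ^ 2,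
    tr P (Gy k) = C (eval P (EE k) ^ 2) * X 0 + r := by
  obtain ⟨ε, hε, hE⟩ := tr_EE P
  refine ⟨(X 0 + C (P 0)) * ε ^ 2, ?_, ?_⟩
  · rw [pow_one] at hε
    exact Ideal.mul_mem_left _ _ (Ideal.pow_mem_pow hε 2)
  · have h0 := hP.2
    rw [Gy] at h0 ⊢
    simp only [map_add, map_mul, map_pow, map_one, eval_X, tr_X, hE] at h0 ⊢
    have hs : (C (eval P (EE k)) + ε) ^ 2 = C (eval P (EE k)) ^ 2 + ε ^ 2 := CharTwo.add_sq _ _
    rw [hs]
    have h1 := congrArg (C : k →+* MvPolynomial (Fin 2) k) h0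
    simp only [map_add, map_mul, map_pow, map_one, map_zero] at h1
    linear_combination h1

theorem tr_Gx {P : Fin 2 → k} (hP : IsZ P) : ∃ r ∈ idealOfVars (Fin 2) k ^ 2,
    tr P (Gx k) = C (eval P (EE k) ^ 2) * X 1 + r := by
  obtain ⟨ε, hε, hE⟩ := tr_EE P
  refine ⟨X 0 ^ 4 + (X 1 + C (P 1)) * ε ^ 2, ?_, ?_⟩
  · rw [pow_one] at hε
    refine add_mem ?_ (Ideal.mul_mem_left _ _ (Ideal.pow_mem_pow hε 2))
    exact Ideal.pow_le_pow_right (by norm_num) (Ideal.pow_mem_pow (X_mem_idealOfVars 0) 4)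
  · have h0 := hP.1
    rw [Gx] at h0 ⊢
    simp only [map_add, map_mul, map_pow, eval_X, tr_X, hE] at h0 ⊢
    have hs : (C (eval P (EE k)) + ε) ^ 2 = C (eval P (EE k)) ^ 2 + ε ^ 2 := CharTwo.add_sq _ _
    have hs2 : (X 0 + C (P 0) : MvPolynomial (Fin 2) k) ^ 4 = X 0 ^ 4 + C (P 0) ^ 4 := by
      have : (X 0 + C (P 0) : MvPolynomial (Fin 2) k) ^ 2 = X 0 ^ 2 + C (P 0) ^ 2 :=
        CharTwo.add_sq _ _
      have h4 : (X 0 + C (P 0) : MvPolynomial (Fin 2) k) ^ 4 =
          ((X 0 + C (P 0)) ^ 2) ^ 2 := by ring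
      rw [h4, this, CharTwo.add_sq]; ring
    rw [hs, hs2]
    have h1 := congrArg (C : k →+* MvPolynomial (Fin 2) k) h0
    simp only [map_add, map_mul, map_pow, map_zero] at h1
    linear_combination h1

theorem euler_mem {F : MvPolynomial (Fin 2) k} {m : ℕ} (hF : F ∈ idealOfVars (Fin 2) k ^ m) :
    X 0 * pderiv 0 F + X 1 * pderiv 1 F + C (m : k) * F ∈ idealOfVars (Fin 2) k ^ (m + 1) := by
  rw [mem_pow_idealOfVars_iff'] at *
  intro s hs
  rw [coeff_add, coeff_euler, coeff_C_mul]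
  rcases Nat.lt_or_ge s.degree m with h | h
  · rw [hF s h]; ring
  · have : s.degree = m := by omega
    rw [this, ← add_mul, natCast_add_self, zero_mul]

/-- Local behaviour of `D` at a zero of `dg`. -/
theorem DD_local {P : Fin 2 → k} (hP : IsZ P) {f : MvPolynomial (Fin 2) k} {m : ℕ}
    (hf : f ∈ Iord P m) : DD f + C ((m : k) * eval P (EE k) ^ 2) * f ∈ Iord P (m + 1) := by
  obtain ⟨r0, hr0, e0⟩ := tr_Gy hP
  obtain ⟨r1, hr1, e1⟩ := tr_Gx hP
  rw [mem_Iord] at *
  set F := tr P f with hF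
  have key : tr P (DD f + C ((m : k) * eval P (EE k) ^ 2) * f) =
      C (eval P (EE k) ^ 2) * (X 0 * pderiv 0 F + X 1 * pderiv 1 F + C (m : k) * F) +
      (r0 * pderiv 0 F + r1 * pderiv 1 F) := by
    rw [DD, map_add, map_add, map_mul, map_mul, map_mul, e0, e1, tr_C, ← pderiv_tr, ← pderiv_tr,
      ← hF, C_mul]
    ring
  rw [key]
  refine add_mem (Ideal.mul_mem_left _ _ (euler_mem hf)) ?_
  rcases m with _ | m
  · rw [zero_add]
    refine Ideal.pow_le_pow_right (show 1 ≤ 2 by norm_num) ?_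
    exact add_mem (Ideal.mul_mem_right _ _ hr0) (Ideal.mul_mem_right _ _ hr1)
  · have h2 : m + 1 + 1 = 2 + m := by ring
    rw [h2, pow_add]
    exact add_mem (Ideal.mul_mem_mul hr0 (pderiv_mem_pow 0 hf))
      (Ideal.mul_mem_mul hr1 (pderiv_mem_pow 1 hf))

/-- Type (a): curves not invariant under `D`. -/
theorem type_a [IsAlgClosed k] {ι : Type*} [Fintype ι] (P : ι → Fin 2 → k)
    (hPinj : Function.Injective P) (hP : ∀ i, IsZ (P i)) {f : MvPolynomial (Fin 2) k}
    (hf : Prime f) (m : ι → ℕ) (hm : ∀ i, f ∈ Iord (P i) (m i)) (hD0 : DD f ≠ 0)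
    (hD1 : DD f ≠ EE k ^ 2 * f) :
    ∑ i, (m i) * (m i + 1) ≤ f.totalDegree * (f.totalDegree + 3) ∧
    ∑ i, (m i : ℤ) * (m i - 1) ≤ ((f.totalDegree : ℤ) - 1) * (f.totalDegree - 2) := by
  have hndvd : ¬ f ∣ DD f := fun h => by
    rcases DD_of_dvd hf h with h | h
    · exact hD0 h
    · exact hD1 h
  constructor
  · refine bezout_points P hPinj f (DD f + C (f.totalDegree : k) * EE k ^ 2 * f) _ _ hf rfl
      (degree_h (totalDegree_pos_of_prime hf)) ?_ _ ?_
    · intro h
      exact hndvd ((dvd_add_left (Dvd.intro_left _ rfl)).1 h)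
    · intro i
      have h1 := DD_local (hP i) (hm i)
      refine LocalGe.of_mem_add (q := C ((m i : k) * eval (P i) (EE k) ^ 2) -
        C (f.totalDegree : k) * EE k ^ 2) (hm i) ?_
      have e : DD f + C (f.totalDegree : k) * EE k ^ 2 * f +
          (C ((m i : k) * eval (P i) (EE k) ^ 2) - C (f.totalDegree : k) * EE k ^ 2) * f =
          DD f + C ((m i : k) * eval (P i) (EE k) ^ 2) * f := by ring
      rw [e]
      exact h1
  · by_cases h0 : pderiv 0 f = 0
    · have h1 : pderiv 1 f ≠ 0 := by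
        intro h1
        apply hD0
        rw [DD, h0, h1]; ring
      exact genus_bound P hPinj f _ hf rfl m hm 1 h1
    · exact genus_bound P hPinj f _ hf rfl m hm 0 h0

end Char2

end Pool.Agent.H13
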