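import Mathlib
import Pool.Agent.H13.K3a

set_option autoImplicit false

namespace Pool.Agent.H13

open Module MvPolynomial

variable {k : Type*} [Field k]

/-- A linear system of small rank has a solution avoiding the image of a small space. -/
theorem exists_ker_avoid {V W B U : Type*} [AddCommGroup V] [Module k V] [FiniteDimensional k V]
    [AddCommGroup W] [Module k W] [FiniteDimensional k W]
    [AddCommGroup B] [Module k B] [AddCommGroup U] [Module k U] [FiniteDimensional k U]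
    (L : V →ₗ[k] W) (j : V →ₗ[k] B) (hj : Function.Injective j) (μ : U →ₗ[k] B)
    (h : finrank k U + finrank k W < finrank k V) : ∃ v, L v = 0 ∧ ∀ u, j v ≠ μ u := by
  have hle : finrank k ((LinearMap.range μ).comap j) ≤ finrank k U := by
    let e : ((LinearMap.range μ).comap j) →ₗ[k] LinearMap.range μ :=
      LinearMap.restrict j (p := (LinearMap.range μ).comap j) (q := LinearMap.range μ)
        (fun x hx => hx)
    have he : Function.Injective e := by
      intro x y hxy
      apply Subtype.ext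
      apply hj
      exact congrArg Subtype.val hxy
    exact (LinearMap.finrank_le_finrank_of_injective he).trans (LinearMap.finrank_range_le μ)
  obtain ⟨v, hv, hv'⟩ := exists_ker_not_mem L ((LinearMap.range μ).comap j) (by omega)
  refine ⟨v, hv, fun u hu => hv' ?_⟩
  rw [Submodule.mem_comap, hu]
  exact ⟨u, rfl⟩

/-- A function which does not vanish at `P` is a unit locally at `P`. -/
theorem mem_Iord_of_mul {P : Fin 2 → k} {N : ℕ} {u s : MvPolynomial (Fin 2) k}
    (hu : eval P u ≠ 0) (h : u * s ∈ Iord P N) : s ∈ Iord P N := by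
  have key : ∀ n, n ≤ N → s ∈ Iord P n := by
    intro n
    induction n with
    | zero => intro _; exact mem_Iord_zero _ _
    | succ n ih =>
      intro hn
      have h1 := ih (by omega)
      have h2 : (u - C (eval P u)) * s ∈ Iord P (1 + n) :=
        mul_mem_Iord (mem_Iord_one.2 (by simp)) h1
      have h3 : u * s ∈ Iord P (n + 1) := Iord_mono P hn h
      rw [add_comm] at h2
      have h4 : C (eval P u) * s ∈ Iord P (n + 1) := by
        have : C (eval P u) * s = u * s - (u - C (eval P u)) * s := by ring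
        rw [this]
        exact sub_mem h3 h2
      have h5 : s = C ((eval P u)⁻¹) * (C (eval P u) * s) := by
        rw [← mul_assoc, ← C_mul, inv_mul_cancel₀ hu, C_1, one_mul]
      rw [h5]
      exact Ideal.mul_mem_left _ _ h4
  exact key N le_rfl

theorem finrank_jets {ι : Type*} [Fintype ι] (n : ι → ℕ) :
    finrank k (∀ i, (triF (n i) → k)) = ∑ i, tri (n i) := by
  rw [Module.finrank_pi_fintype]
  refine Finset.sum_congr rfl fun i _ => ?_
  rw [Module.finrank_pi]
  simp [tri]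

theorem two_tri_pred (b : ℕ) : tri b + tri (b - 1) = b ^ 2 := by
  have h1 := two_mul_tri b
  have h2 := two_mul_tri (b - 1)
  rcases b with _ | b
  · simp at h1 h2 ⊢
    omega
  · simp at h2 ⊢
    nlinarith

section Char2

variable [CharP k 2]

theorem Z_finite : {Q : Fin 2 → k | IsZ Q}.Finite := by
  classical
  let p : Polynomial k := Polynomial.X ^ 21 + Polynomial.X ^ 11 + 1
  have hp : p ≠ 0 := by
    have hm : p.Monic := by
      have h1 : p = Polynomial.X ^ 21 + (Polynomial.X ^ 11 + 1) := by simp only [p]; ring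
      rw [h1]
      apply Polynomial.monic_X_pow_add
      refine lt_of_le_of_lt (Polynomial.degree_add_le _ _) ?_
      rw [Polynomial.degree_X_pow, Polynomial.degree_one]
      norm_num
    exact hm.ne_zero
  refine Set.Finite.subset ((p.roots.toFinset.finite_toSet).image (fun α => ![α, α ^ 5])) ?_
  rintro Q ⟨h1, h2⟩
  simp only [Gx, Gy, EE, map_add, map_mul, map_pow, map_one, eval_X] at h1 h2
  have t2 : (2 : k) = 0 := CharTwo.two_eq_zero
  have hy : Q 1 = Q 0 ^ 5 := by
    have : Q 0 ^ 5 + Q 1 = 0 := by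
      linear_combination Q 0 * h1 + Q 1 * h2 - (Q 0 * Q 1 * (Q 1 ^ 2 + Q 1) ^ 2) * t2
    exact (CharTwo.add_eq_zero.1 this).symm
  have hx : Q 0 ^ 21 + Q 0 ^ 11 + 1 = 0 := by
    rw [hy] at h2
    linear_combination h2 - Q 0 ^ 16 * t2
  refine ⟨Q 0, ?_, ?_⟩
  · simp only [Finset.mem_coe, Multiset.mem_toFinset]
    rw [Polynomial.mem_roots hp]
    simpa [p, Polynomial.IsRoot] using hx
  · ext i; fin_cases i
    · simp
    · simp [hy]

theorem exists_points_Z [IsAlgClosed k] {f : MvPolynomial (Fin 2) k} (hf : Prime f) (r : ℕ) :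
    ∃ Q : Fin r → Fin 2 → k, Function.Injective Q ∧ (∀ j, eval (Q j) f = 0) ∧
      (∀ j, ¬ IsZ (Q j)) := by
  have : Finite {Q : Fin 2 → k | IsZ Q} := Z_finite
  obtain ⟨Q, h1, h2, -, h4⟩ := exists_points hf (u := 1)
    (fun h => hf.not_isUnit (isUnit_of_dvd_one h))
    (fun x : {Q : Fin 2 → k | IsZ Q} => x.1) r
  exact ⟨Q, h1, h2, fun j hj => h4 ⟨Q j, hj⟩ j rfl⟩

theorem det_of_DD {Q : Fin 2 → k} (hQ : ¬ IsZ Q) {f s : MvPolynomial (Fin 2) k}
    (hf : eval Q (DD f) = 0) (hs : eval Q (DD s) = 0) :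
    eval Q (pderiv 0 f) * eval Q (pderiv 1 s) = eval Q (pderiv 1 f) * eval Q (pderiv 0 s) := by
  rw [DD, map_add, map_mul, map_mul] at hf hs
  by_cases h : eval Q (Gy k) = 0
  · have hx : eval Q (Gx k) ≠ 0 := fun h' => hQ ⟨h', h⟩
    rw [h, zero_mul, zero_add] at hf hs
    have h1 := (mul_eq_zero.1 hf).resolve_left hx
    have h2 := (mul_eq_zero.1 hs).resolve_left hx
    rw [h1, h2]; ring
  · apply mul_left_cancel₀ h
    linear_combination (eval Q (pderiv 1 s)) * hf - (eval Q (pderiv 1 f)) * hs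

/-- Parity of multiplicities of invariant curves of the first kind. -/
theorem even_mult {P : Fin 2 → k} (hP : IsZ P) {f : MvPolynomial (Fin 2) k} {m : ℕ}
    (hf : f ∈ Iord P m) (hf' : f ∉ Iord P (m + 1)) (hD : DD f = 0) : Even m := by
  by_contra hodd
  rw [Nat.not_even_iff_odd] at hodd
  obtain ⟨n, rfl⟩ := hodd
  have h := DD_local hP hf
  have h1 : ((2 * n + 1 : ℕ) : k) = 1 := by
    push_cast; rw [CharTwo.two_eq_zero]; ring
  rw [hD, zero_add, h1, one_mul] at h
  exact hf' (mem_Iord_of_mul (by simpa using hP.EE_ne) h)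

theorem odd_mult {P : Fin 2 → k} (hP : IsZ P) {f : MvPolynomial (Fin 2) k} {m : ℕ}
    (hf : f ∈ Iord P m) (hf' : f ∉ Iord P (m + 1)) (hD : DD f = EE k ^ 2 * f) : Odd m := by
  by_contra heven
  rw [Nat.not_odd_iff_even] at heven
  obtain ⟨n, rfl⟩ := heven
  have h := DD_local hP hf
  have h1 : ((n + n : ℕ) : k) = 0 := by
    push_cast; exact CharTwo.add_self_eq_zero _
  rw [hD, h1, zero_mul, C_0, zero_mul, add_zero] at h
  exact hf' (mem_Iord_of_mul (by simpa using hP.EE_ne) h)

/-- Type (b): curves in the kernel of `D`. -/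
theorem type_b [IsAlgClosed k] {ι : Type*} [Fintype ι] (P : ι → Fin 2 → k)
    (hPinj : Function.Injective P) (hP : ∀ i, IsZ (P i)) {f : MvPolynomial (Fin 2) k}
    (hf : Prime f) (hD : DD f = 0) (b : ι → ℕ) (hb : ∀ i, f ∈ Iord (P i) (2 * b i)) :
    ∃ a, f.totalDegree = 2 * a ∧ ∑ i, b i ^ 2 ≤ a ^ 2 + 1 := by
  have hf1 := totalDegree_pos_of_prime hf
  obtain ⟨a, ha⟩ := even_iff_two_dvd.1 (even_of_DD_eq_zero hf1 hD)
  refine ⟨a, ha, ?_⟩
  have ha1 : 1 ≤ a := by omega
  obtain ⟨F0, L0, hF, -, -⟩ := DD_eq_zero le_rfl hD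
  set B := ∑ i, b i ^ 2 with hB
  obtain ⟨T, hT⟩ : ∃ T : ℕ, T = B := ⟨_, rfl⟩
  obtain ⟨r, hr⟩ : ∃ r, 2 * a * (a + 3 + T) = a ^ 2 + B + 1 + r := by
    refine ⟨2 * a * (a + 3 + T) - (a ^ 2 + B + 1), ?_⟩
    have : a ^ 2 + B + 1 ≤ 2 * a * (a + 3 + T) := by nlinarith
    omega
  obtain ⟨Q, hQinj, hQf, hQZ⟩ := exists_points_Z hf r
  -- square roots of values of g
  choose ρ hρ using fun j => IsAlgClosed.exists_pow_nat_eq (eval (Q j) (GG k)) (n := 2)
    (by norm_num)
  let inc : (Vd k (a + 3 + T) × Vd k (a + T)) →ₗ[k]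
      (MvPolynomial (Fin 2) k × MvPolynomial (Fin 2) k) :=
    LinearMap.prodMap (Vd k (a + 3 + T)).subtype (Vd k (a + T)).subtype
  have hinc : Function.Injective inc := by
    intro x y hxy
    exact Prod.ext (Subtype.ext (congrArg Prod.fst hxy)) (Subtype.ext (congrArg Prod.snd hxy))
  let μ0 : (MvPolynomial (Fin 2) k × MvPolynomial (Fin 2) k) →ₗ[k]
      (MvPolynomial (Fin 2) k × MvPolynomial (Fin 2) k) :=
    LinearMap.prod
      (LinearMap.coprod (LinearMap.mulLeft k F0) (LinearMap.mulLeft k (GG k * L0)))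
      (LinearMap.coprod (LinearMap.mulLeft k L0) (LinearMap.mulLeft k F0))
  let μ : (Vd k (3 + T) × Vd k T) →ₗ[k] (MvPolynomial (Fin 2) k × MvPolynomial (Fin 2) k) :=
    μ0.comp (LinearMap.prodMap (Vd k (3 + T)).subtype (Vd k T).subtype)
  let L0' : (MvPolynomial (Fin 2) k × MvPolynomial (Fin 2) k) →ₗ[k]
      ((∀ i, (triF (b i) → k)) × (∀ i, (triF (b i - 1) → k)) × (Fin r → k)) :=
    LinearMap.prod
      (LinearMap.pi fun i => (jet (P i) (b i)).comp
        (LinearMap.coprod (LinearMap.mulLeft k (EE k)) (LinearMap.mulLeft k (X 0 ^ 2))))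
      (LinearMap.prod
        (LinearMap.pi fun i => (jet (P i) (b i - 1)).comp (LinearMap.snd k _ _))
        (LinearMap.pi fun j => LinearMap.coprod (MvPolynomial.aeval (Q j)).toLinearMap
          ((ρ j) • (MvPolynomial.aeval (Q j)).toLinearMap)))
  obtain ⟨⟨⟨p, hp⟩, ⟨q, hq⟩⟩, hv, hv'⟩ := exists_ker_avoid (L0'.comp inc) inc hinc μ (by
    simp only [Module.finrank_prod, finrank_jets, Module.finrank_fin_fun, finrank_Vd]
    have hs : ∑ i, tri (b i) + ∑ i, tri (b i - 1) = B := by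
      rw [← Finset.sum_add_distrib, hB]
      exact Finset.sum_congr rfl fun i _ => two_tri_pred (b i)
    have e1 := two_mul_tri (3 + T + 1)
    have e2 := two_mul_tri (T + 1)
    have e3 := two_mul_tri (a + 3 + T + 1)
    have e4 := two_mul_tri (a + T + 1)
    nlinarith)
  have hv1 : ∀ i, EE k * p + X 0 ^ 2 * q ∈ Iord (P i) (b i) := by
    intro i
    rw [← jet_eq_zero_iff]
    exact congrFun (congrArg Prod.fst hv) i
  have hv2 : ∀ i, q ∈ Iord (P i) (b i - 1) := by
    intro i
    rw [← jet_eq_zero_iff]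
    exact congrFun (congrArg (fun x => x.2.1) hv) i
  have hv3 : ∀ j, eval (Q j) p + ρ j * eval (Q j) q = 0 := by
    intro j
    have := congrFun (congrArg (fun x => x.2.2) hv) j
    change MvPolynomial.aeval (Q j) p + ρ j • MvPolynomial.aeval (Q j) q = 0 at this
    rwa [MvPolynomial.aeval_eq_eval, smul_eq_mul] at this
  set S := p ^ 2 + q ^ 2 * GG k with hS
  have hDS : DD S = 0 := by
    rw [hS, DD_add, DD_mul, DD_sq, DD_sq, DD_GG]; ring
  have hSP : ∀ i, S ∈ Iord (P i) (2 * b i) := by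
    intro i
    have hE : eval (P i) (EE k ^ 2) ≠ 0 := by simpa using (hP i).EE_ne
    apply mem_Iord_of_mul hE
    have e : EE k ^ 2 * S = (EE k * p + X 0 ^ 2 * q) ^ 2 + q ^ 2 * Gx k * Gy k := by
      rw [hS, GG, Gx, Gy, CharTwo.add_sq]
      linear_combination (-(q ^ 2 * X 0 ^ 4)) * two_eq_zero_A (k := k)
    rw [e]
    refine add_mem ?_ ?_
    · have := pow_mem_Iord (hv1 i) 2
      rwa [mul_comm] at this
    · have h1 := pow_mem_Iord (hv2 i) 2
      have h2 : Gx k ∈ Iord (P i) 1 := mem_Iord_one.2 (hP i).1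
      have h3 : Gy k ∈ Iord (P i) 1 := mem_Iord_one.2 (hP i).2
      exact Iord_mono _ (by omega) (mul_mem_Iord (mul_mem_Iord h1 h2) h3)
  have hSQ : ∀ j, eval (Q j) S = 0 := by
    intro j
    have h1 : eval (Q j) p = ρ j * eval (Q j) q := CharTwo.add_eq_zero.1 (hv3 j)
    rw [hS, map_add, map_mul, map_pow, map_pow, ← hρ j, h1]
    have t2 : (2 : k) = 0 := CharTwo.two_eq_zero
    linear_combination (ρ j ^ 2 * eval (Q j) q ^ 2) * t2
  have hGGd : (GG k).totalDegree ≤ 6 := by
    rw [GG]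
    have hE2 : (EE k ^ 2).totalDegree ≤ 4 := by
      refine (totalDegree_pow _ _).trans ?_
      rw [totalDegree_EE]
    refine (totalDegree_add _ _).trans (max_le ((totalDegree_add _ _).trans (max_le ?_ ?_)) ?_)
    · rw [totalDegree_X_pow]; norm_num
    · rw [totalDegree_X]; norm_num
    · have h1 := totalDegree_mul (X 0 * X 1 : MvPolynomial (Fin 2) k) (EE k ^ 2)
      have h2 := totalDegree_mul (X 0 : MvPolynomial (Fin 2) k) (X 1)
      rw [totalDegree_X, totalDegree_X] at h2
      omega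
  have hSd : S.totalDegree ≤ 2 * (a + 3 + T) := by
    rw [mem_Vd] at hp hq
    rw [hS]
    have h1 := totalDegree_pow p 2
    have h2 := totalDegree_pow q 2
    have h3 := totalDegree_mul (q ^ 2) (GG k)
    refine (totalDegree_add _ _).trans (max_le ?_ ?_)
    · omega
    · omega
  have huniq : ∀ A B : MvPolynomial (Fin 2) k, S = A ^ 2 + B ^ 2 * GG k → p = A ∧ q = B := by
    intro A B hAB
    have h1 : p ^ 2 + X 0 * (X 0 ^ 2 * q) ^ 2 + X 1 * q ^ 2 + X 0 * X 1 * (EE k * q) ^ 2 =
        A ^ 2 + X 0 * (X 0 ^ 2 * B) ^ 2 + X 1 * B ^ 2 + X 0 * X 1 * (EE k * B) ^ 2 := by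
      rw [hS, GG] at hAB
      linear_combination hAB
    obtain ⟨g0, -, g2, -⟩ := decomp_unique h1
    exact ⟨g0, g2⟩
  have hndvd : ¬ f ∣ S := by
    rintro ⟨c, hc⟩
    have hDc : DD c = 0 := by
      have h1 : f * DD c = 0 := by
        have := DD_mul f c
        rw [← hc, hDS, hD, zero_mul, zero_add] at this
        exact this.symm
      exact (mul_eq_zero.1 h1).resolve_left hf.ne_zero
    have hcd : c.totalDegree ≤ 2 * (3 + T) := by
      rcases eq_or_ne c 0 with rfl | hc0
      · simp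
      · rw [hc, totalDegree_mul_of_isDomain hf.ne_zero hc0, ha] at hSd
        omega
    obtain ⟨p', q', hcpq, hp', hq'⟩ := DD_eq_zero hcd hDc
    have hp'' : p' ∈ Vd k (3 + T) := SD_le_Vd (by omega) hp'
    have hq'' : q' ∈ Vd k T := SD_le_Vd (by omega) hq'
    have hSAB : S = (F0 * p' + GG k * L0 * q') ^ 2 + (L0 * p' + F0 * q') ^ 2 * GG k := by
      have hs1 : (F0 * p' + GG k * L0 * q') ^ 2 = (F0 * p') ^ 2 + (GG k * L0 * q') ^ 2 :=
        CharTwo.add_sq _ _
      have hs2 : (L0 * p' + F0 * q') ^ 2 = (L0 * p') ^ 2 + (F0 * q') ^ 2 :=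
        CharTwo.add_sq _ _
      rw [hs1, hs2, hc, hcpq, hF]
      ring
    obtain ⟨g1, g2⟩ := huniq _ _ hSAB
    apply hv' (⟨p', hp''⟩, ⟨q', hq''⟩)
    exact Prod.ext g1 g2
  have hbez := bezout_points2 P Q hPinj hQinj (fun i j h => hQZ j (h ▸ hP i)) f S _ _ hf ha hSd
    hndvd (fun i => 2 * b i * (2 * b i)) (fun i => LocalGe.of_mem (hb i) (hSP i))
    (fun _ => 2) (fun j => LocalGe.two_of_det (hQf j) (hSQ j)
      (det_of_DD (hQZ j) (by rw [hD, map_zero]) (by rw [hDS, map_zero])))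
  have e5 : ∑ i, 2 * b i * (2 * b i) = 4 * B := by
    rw [hB, Finset.mul_sum]
    exact Finset.sum_congr rfl fun i _ => by ring
  rw [e5] at hbez
  simp only [Finset.sum_const, Finset.card_univ, Fintype.card_fin, smul_eq_mul] at hbez
  nlinarith

end Char2

end Pool.Agent.H13
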