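import Mathlib
import Pool.Agent.H13.K3b

set_option autoImplicit false

namespace Pool.Agent.H13

open Module MvPolynomial

variable {k : Type*} [Field k]

/-- coefficients of `h` in degrees `M+1, M+2` -/
noncomputable def topCoeffs (k : Type*) [Field k] (M : ℕ) :
    MvPolynomial (Fin 2) k →ₗ[k] ((triF (M + 3) \ triF (M + 1) : Finset (ℕ × ℕ)) → k) :=
  LinearMap.pi fun p => MvPolynomial.lcoeff k (expo p.1)

theorem topCoeffs_eq_zero {M : ℕ} {h : MvPolynomial (Fin 2) k} (hh : h ∈ Vd k (M + 2))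
    (h0 : topCoeffs k M h = 0) : h ∈ Vd k M := by
  rw [mem_Vd] at *
  rw [totalDegree, Finset.sup_le_iff]
  intro s hs
  change s.degree ≤ M
  by_contra hcon
  have h1 := le_totalDegree hs
  change s.degree ≤ _ at h1
  obtain ⟨q, rfl⟩ : ∃ q, expo q = s := ⟨_, expo_surj s⟩
  have h2 : q ∈ triF (M + 3) \ triF (M + 1) := by
    rw [expo_degree] at h1 hcon
    simp only [Finset.mem_sdiff, mem_triF]
    omega
  have h3 := congrFun h0 ⟨q, h2⟩
  change coeff (expo q) h = 0 at h3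
  exact (MvPolynomial.mem_support_iff.1 hs) h3

theorem card_top (M : ℕ) : (triF (M + 3) \ triF (M + 1)).card = 2 * M + 5 := by
  have hsub : triF (M + 1) ⊆ triF (M + 3) := by
    intro p hp
    rw [mem_triF] at *
    omega
  rw [Finset.card_sdiff_of_subset hsub]
  have e1 := two_mul_tri (M + 3)
  have e2 := two_mul_tri (M + 1)
  change tri (M + 3) - tri (M + 1) = _
  have : tri (M + 3) = tri (M + 1) + (2 * M + 5) := by nlinarith
  omega

section Char2

variable [CharP k 2]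

/-- Type (c): curves in the odd part. -/
theorem type_c [IsAlgClosed k] {ι : Type*} [Fintype ι] (P : ι → Fin 2 → k)
    (hPinj : Function.Injective P) (hP : ∀ i, IsZ (P i)) {f : MvPolynomial (Fin 2) k}
    (hf : Prime f) (hD : DD f = EE k ^ 2 * f) (b : ι → ℕ)
    (hb : ∀ i, f ∈ Iord (P i) (2 * b i + 1)) :
    ∃ s, f.totalDegree = 2 * s + 1 ∧
      2 * ∑ i, b i * (b i + 1) + Fintype.card ι ≤ 2 * s ^ 2 + 2 * s + 13 := by
  have hf1 := totalDegree_pos_of_prime hf
  obtain ⟨s, hs⟩ := odd_of_DD_eq hf1 hD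
  refine ⟨s, hs, ?_⟩
  obtain ⟨F0, F2, hF, hF0, hF1, hF2⟩ := DD_eq_E le_rfl hD
  set F1 := EE k * F0 + X 0 ^ 2 * F2 with hF1def
  set B := ∑ i, b i * (b i + 1) with hB
  obtain ⟨T, hT⟩ : ∃ T : ℕ, T = B + 3 := ⟨_, rfl⟩
  obtain ⟨r, hr⟩ : ∃ r : ℕ, r = s ^ 2 + 7 * s + 2 * s * T := ⟨_, rfl⟩
  obtain ⟨Q, hQinj, hQf, hQZ⟩ := exists_points_Z hf r
  choose ρ hρ using fun j => IsAlgClosed.exists_pow_nat_eq (eval (Q j) (X 0)) (n := 2)
    (by norm_num)
  choose σ hσ using fun j => IsAlgClosed.exists_pow_nat_eq (eval (Q j) (X 1)) (n := 2)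
    (by norm_num)
  let inc : (Vd k (s + 3 + T) × Vd k (s + 3 + T)) →ₗ[k]
      (MvPolynomial (Fin 2) k × MvPolynomial (Fin 2) k) :=
    LinearMap.prodMap (Vd k (s + 3 + T)).subtype (Vd k (s + 3 + T)).subtype
  have hinc : Function.Injective inc := by
    intro x y hxy
    exact Prod.ext (Subtype.ext (congrArg Prod.fst hxy)) (Subtype.ext (congrArg Prod.snd hxy))
  let μ0 : (MvPolynomial (Fin 2) k × MvPolynomial (Fin 2) k) →ₗ[k]
      (MvPolynomial (Fin 2) k × MvPolynomial (Fin 2) k) :=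
    LinearMap.prod
      (LinearMap.coprod (LinearMap.mulLeft k F0) (LinearMap.mulLeft k (X 0 ^ 3 * F1 + X 1 * F2)))
      (LinearMap.coprod (LinearMap.mulLeft k F2) (LinearMap.mulLeft k (F0 + X 0 * EE k * F1)))
  let μ : (Vd k (3 + T) × Vd k T) →ₗ[k] (MvPolynomial (Fin 2) k × MvPolynomial (Fin 2) k) :=
    μ0.comp (LinearMap.prodMap (Vd k (3 + T)).subtype (Vd k T).subtype)
  let H1 : (MvPolynomial (Fin 2) k × MvPolynomial (Fin 2) k) →ₗ[k] MvPolynomial (Fin 2) k :=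
    LinearMap.coprod (LinearMap.mulLeft k (EE k)) (LinearMap.mulLeft k (X 0 ^ 2))
  have hH1 : ∀ p q, H1 (p, q) = EE k * p + X 0 ^ 2 * q := fun p q => rfl
  let L0' : (MvPolynomial (Fin 2) k × MvPolynomial (Fin 2) k) →ₗ[k]
      (((triF (s + 3 + T + 3) \ triF (s + 3 + T + 1) : Finset (ℕ × ℕ)) → k) ×
        (∀ i, (triF (b i) → k)) × (∀ i, (triF (b i) → k)) × (Fin r → k)) :=
    LinearMap.prod ((topCoeffs k (s + 3 + T)).comp H1)
    (LinearMap.prod
      (LinearMap.pi fun i => (jet (P i) (b i)).comp H1)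
      (LinearMap.prod
        (LinearMap.pi fun i => (jet (P i) (b i)).comp (LinearMap.snd k _ _))
        (LinearMap.pi fun j =>
          (MvPolynomial.aeval (Q j)).toLinearMap.comp (LinearMap.fst k _ _) +
          (ρ j) • ((MvPolynomial.aeval (Q j)).toLinearMap.comp H1) +
          (σ j) • ((MvPolynomial.aeval (Q j)).toLinearMap.comp (LinearMap.snd k _ _)))))
  obtain ⟨⟨⟨p, hp⟩, ⟨q, hq⟩⟩, hv, hv'⟩ := exists_ker_avoid (L0'.comp inc) inc hinc μ (by
    have hfr : finrank k ((triF (s + 3 + T + 3) \ triF (s + 3 + T + 1) : Finset (ℕ × ℕ)) → k) =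
        2 * (s + 3 + T) + 5 := by
      rw [Module.finrank_pi, Fintype.card_coe, card_top]
    rw [Module.finrank_prod, Module.finrank_prod, Module.finrank_prod, Module.finrank_prod,
      Module.finrank_prod, hfr]
    simp only [finrank_jets, Module.finrank_fin_fun, finrank_Vd]
    have hs : 2 * ∑ i, tri (b i) = B := by
      rw [Finset.mul_sum, hB]
      exact Finset.sum_congr rfl fun i _ => two_mul_tri (b i)
    have e1 := two_mul_tri (3 + T + 1)
    have e2 := two_mul_tri (T + 1)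
    have e3 := two_mul_tri (s + 3 + T + 1)
    subst hr
    have hT' : B = T - 3 := by omega
    have hT3 : 3 ≤ T := by omega
    obtain ⟨T', rfl⟩ : ∃ T', T = T' + 3 := ⟨T - 3, by omega⟩
    have hB' : B = T' := by omega
    rw [hB'] at hs
    nlinarith)
  have hv0 : topCoeffs k (s + 3 + T) (EE k * p + X 0 ^ 2 * q) = 0 := congrArg Prod.fst hv
  have hv1 : ∀ i, EE k * p + X 0 ^ 2 * q ∈ Iord (P i) (b i) := by
    intro i
    rw [← jet_eq_zero_iff]
    exact congrFun (congrArg (fun x => x.2.1) hv) i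
  have hv2 : ∀ i, q ∈ Iord (P i) (b i) := by
    intro i
    rw [← jet_eq_zero_iff]
    exact congrFun (congrArg (fun x => x.2.2.1) hv) i
  have hv3 : ∀ j, eval (Q j) p + ρ j * eval (Q j) (EE k * p + X 0 ^ 2 * q) +
      σ j * eval (Q j) q = 0 := by
    intro j
    have := congrFun (congrArg (fun x => x.2.2.2) hv) j
    change MvPolynomial.aeval (Q j) p + ρ j • MvPolynomial.aeval (Q j) (EE k * p + X 0 ^ 2 * q) +
      σ j • MvPolynomial.aeval (Q j) q = 0 at this
    rwa [MvPolynomial.aeval_eq_eval, smul_eq_mul, smul_eq_mul] at this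
  set h1 := EE k * p + X 0 ^ 2 * q with hh1
  set S := p ^ 2 + X 0 * h1 ^ 2 + X 1 * q ^ 2 + X 0 * X 1 * 0 ^ 2 with hS
  have hEp : h1 + X 0 ^ 2 * q = EE k * p := by
    rw [hh1]
    linear_combination (X 0 ^ 2 * q) * two_eq_zero_A (k := k)
  have hDS : DD S = EE k ^ 2 * S := by
    rw [hS, DD_decomp, hEp]; ring
  have hE2S : EE k ^ 2 * S = h1 ^ 2 * Gy k + q ^ 2 * Gx k := by
    have e1 : (EE k * p) ^ 2 = h1 ^ 2 + (X 0 ^ 2 * q) ^ 2 := by
      rw [← hEp]; exact CharTwo.add_sq _ _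
    rw [hS, Gx, Gy]
    linear_combination e1
  have hSP : ∀ i, S ∈ Iord (P i) (2 * b i + 1) := by
    intro i
    have hE : eval (P i) (EE k ^ 2) ≠ 0 := by simpa using (hP i).EE_ne
    apply mem_Iord_of_mul hE
    rw [hE2S]
    have g2 : Gx k ∈ Iord (P i) 1 := mem_Iord_one.2 (hP i).1
    have g3 : Gy k ∈ Iord (P i) 1 := mem_Iord_one.2 (hP i).2
    refine add_mem ?_ ?_
    · have := mul_mem_Iord (pow_mem_Iord (hv1 i) 2) g3
      rwa [mul_comm (b i) 2] at this
    · have := mul_mem_Iord (pow_mem_Iord (hv2 i) 2) g2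
      rwa [mul_comm (b i) 2] at this
  have hSQ : ∀ j, eval (Q j) S = 0 := by
    intro j
    have e0 := hv3 j
    rw [hS]
    simp only [map_add, map_mul, map_pow, map_zero]
    rw [← hρ j, ← hσ j]
    have e1 : (eval (Q j) p + ρ j * eval (Q j) h1 + σ j * eval (Q j) q) ^ 2 =
        (eval (Q j) p) ^ 2 + (ρ j * eval (Q j) h1) ^ 2 + (σ j * eval (Q j) q) ^ 2 := by
      rw [CharTwo.add_sq, CharTwo.add_sq]
    rw [e0] at e1
    linear_combination -e1
  have hh1d : h1 ∈ Vd k (s + 3 + T) := by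
    apply topCoeffs_eq_zero _ hv0
    rw [mem_Vd] at *
    have i1 := totalDegree_mul (EE k) p
    have i2 := totalDegree_mul (X 0 ^ 2 : MvPolynomial (Fin 2) k) q
    rw [totalDegree_EE] at i1
    rw [totalDegree_X_pow] at i2
    refine (totalDegree_add _ _).trans (max_le ?_ ?_) <;> omega
  have hSd : S.totalDegree ≤ 2 * (s + 3 + T) + 1 := by
    rw [mem_Vd] at hp hq hh1d
    rw [hS]
    have i1 := totalDegree_pow p 2
    have i2 := totalDegree_pow q 2
    have i3 := totalDegree_pow h1 2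
    have i4 := totalDegree_mul (X 0 : MvPolynomial (Fin 2) k) (h1 ^ 2)
    have i5 := totalDegree_mul (X 1 : MvPolynomial (Fin 2) k) (q ^ 2)
    rw [totalDegree_X] at i4 i5
    refine (totalDegree_add _ _).trans (max_le ((totalDegree_add _ _).trans (max_le
      ((totalDegree_add _ _).trans (max_le ?_ ?_)) ?_)) ?_)
    · omega
    · omega
    · omega
    · simp
  have hndvd : ¬ f ∣ S := by
    rintro ⟨c, hc⟩
    have hDc : DD c = 0 := by
      have e1 : f * DD c = 0 := by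
        have := DD_mul f c
        rw [← hc, hDS, hD, hc] at this
        linear_combination -this
      exact (mul_eq_zero.1 e1).resolve_left hf.ne_zero
    have hcd : c.totalDegree ≤ 2 * (3 + T) := by
      rcases eq_or_ne c 0 with rfl | hc0
      · simp
      · rw [hc, totalDegree_mul_of_isDomain hf.ne_zero hc0, hs] at hSd
        omega
    obtain ⟨p', q', hcpq, hp', hq'⟩ := DD_eq_zero hcd hDc
    have hp'' : p' ∈ Vd k (3 + T) := SD_le_Vd (by omega) hp'
    have hq'' : q' ∈ Vd k T := SD_le_Vd (by omega) hq'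
    have hSAB : p ^ 2 + X 0 * h1 ^ 2 + X 1 * q ^ 2 + X 0 * X 1 * 0 ^ 2 =
        (F0 * p' + (X 0 ^ 3 * F1 + X 1 * F2) * q') ^ 2 +
        X 0 * (F1 * p' + (X 0 ^ 2 * F0 + X 1 * EE k * F2) * q') ^ 2 +
        X 1 * (F2 * p' + (F0 + X 0 * EE k * F1) * q') ^ 2 +
        X 0 * X 1 * ((F1 + X 0 ^ 2 * F2 + EE k * F0) * q') ^ 2 := by
      rw [← hS, hc, hcpq, hF, GG]
      have a1 : (F0 * p' + (X 0 ^ 3 * F1 + X 1 * F2) * q') ^ 2 = (F0 * p') ^ 2 +
          ((X 0 ^ 3 * F1) ^ 2 + (X 1 * F2) ^ 2) * q' ^ 2 := by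
        rw [CharTwo.add_sq, mul_pow _ q', CharTwo.add_sq]
      have a2 : (F1 * p' + (X 0 ^ 2 * F0 + X 1 * EE k * F2) * q') ^ 2 = (F1 * p') ^ 2 +
          ((X 0 ^ 2 * F0) ^ 2 + (X 1 * EE k * F2) ^ 2) * q' ^ 2 := by
        rw [CharTwo.add_sq, mul_pow _ q', CharTwo.add_sq]
      have a3 : (F2 * p' + (F0 + X 0 * EE k * F1) * q') ^ 2 = (F2 * p') ^ 2 +
          (F0 ^ 2 + (X 0 * EE k * F1) ^ 2) * q' ^ 2 := by
        rw [CharTwo.add_sq, mul_pow _ q', CharTwo.add_sq]
      have a4 : ((F1 + X 0 ^ 2 * F2 + EE k * F0) * q') ^ 2 =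
          (F1 ^ 2 + (X 0 ^ 2 * F2) ^ 2 + (EE k * F0) ^ 2) * q' ^ 2 := by
        rw [mul_pow, CharTwo.add_sq, CharTwo.add_sq]
      rw [a1, a2, a3, a4]
      ring
    obtain ⟨g1, -, g2, -⟩ := decomp_unique hSAB
    apply hv' (⟨p', hp''⟩, ⟨q', hq''⟩)
    exact Prod.ext g1 g2
  have hbez := bezout_points2 P Q hPinj hQinj (fun i j h => hQZ j (h ▸ hP i)) f S _ _ hf hs hSd
    hndvd (fun i => (2 * b i + 1) * (2 * b i + 1)) (fun i => LocalGe.of_mem (hb i) (hSP i))
    (fun _ => 2) (fun j => LocalGe.two_of_det (hQf j) (hSQ j)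
      (det_of_DD (hQZ j) (by rw [hD, map_mul, hQf, mul_zero])
        (by rw [hDS, map_mul, hSQ, mul_zero])))
  have e5 : ∑ i, (2 * b i + 1) * (2 * b i + 1) = 4 * B + Fintype.card ι := by
    rw [hB, Finset.mul_sum, Fintype.card_eq_sum_ones, ← Finset.sum_add_distrib]
    exact Finset.sum_congr rfl fun i _ => by ring
  rw [e5] at hbez
  simp only [Finset.sum_const, Finset.card_univ, Fintype.card_fin, smul_eq_mul] at hbez
  subst hr
  nlinarith

end Char2

end Pool.Agent.H13
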