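import Mathlib
import Pool.Agent.H13.K3c

set_option autoImplicit false

namespace Pool.Agent.H13

open Module MvPolynomial

variable {k : Type*} [Field k]

/-! ### Multiplicities -/

/-- Multiplicity of `f` at `P` (for `f ≠ 0`). -/
noncomputable def mult (P : Fin 2 → k) (f : MvPolynomial (Fin 2) k) : ℕ :=
  ((tr P f : MvPolynomial (Fin 2) k) : MvPowerSeries (Fin 2) k).order.toNat

theorem coe_mult {P : Fin 2 → k} {f : MvPolynomial (Fin 2) k} (hf : f ≠ 0) :
    ((mult P f : ℕ) : ℕ∞) =
      ((tr P f : MvPolynomial (Fin 2) k) : MvPowerSeries (Fin 2) k).order := by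
  have h : ((tr P f : MvPolynomial (Fin 2) k) : MvPowerSeries (Fin 2) k) ≠ 0 := by
    intro h
    have h1 : tr P f = 0 := by
      apply MvPolynomial.coe_injective
      rw [h, MvPolynomial.coe_zero]
    exact hf (tr_injective P (by rw [h1, map_zero]))
  exact MvPowerSeries.ne_zero_iff_order_finite.1 h

theorem mem_Iord_iff_le_order {P : Fin 2 → k} {f : MvPolynomial (Fin 2) k} {N : ℕ} :
    f ∈ Iord P N ↔
      (N : ℕ∞) ≤ ((tr P f : MvPolynomial (Fin 2) k) : MvPowerSeries (Fin 2) k).order := by
  rw [mem_Iord']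
  constructor
  · intro h
    apply MvPowerSeries.nat_le_order
    intro s hs
    rw [MvPolynomial.coeff_coe]
    exact h s hs
  · intro h s hs
    rw [← MvPolynomial.coeff_coe]
    apply MvPowerSeries.coeff_of_lt_order
    exact lt_of_lt_of_le (by exact_mod_cast hs) h

theorem mem_Iord_iff_le_mult {P : Fin 2 → k} {f : MvPolynomial (Fin 2) k} (hf : f ≠ 0) {N : ℕ} :
    f ∈ Iord P N ↔ N ≤ mult P f := by
  rw [mem_Iord_iff_le_order, ← coe_mult hf]
  exact Nat.cast_le

theorem mult_mul {P : Fin 2 → k} {f g : MvPolynomial (Fin 2) k} (hf : f ≠ 0) (hg : g ≠ 0) :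
    mult P (f * g) = mult P f + mult P g := by
  have h : ((mult P (f * g) : ℕ) : ℕ∞) = ((mult P f + mult P g : ℕ) : ℕ∞) := by
    rw [Nat.cast_add, coe_mult hf, coe_mult hg, coe_mult (mul_ne_zero hf hg), map_mul,
      MvPolynomial.coe_mul, MvPowerSeries.order_mul]
  exact_mod_cast h

theorem mem_mult {P : Fin 2 → k} {f : MvPolynomial (Fin 2) k} (hf : f ≠ 0) :
    f ∈ Iord P (mult P f) := (mem_Iord_iff_le_mult hf).2 le_rfl

theorem not_mem_mult {P : Fin 2 → k} {f : MvPolynomial (Fin 2) k} (hf : f ≠ 0) :
    f ∉ Iord P (mult P f + 1) := by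
  rw [mem_Iord_iff_le_mult hf]; omega

theorem mult_unit {P : Fin 2 → k} {f : MvPolynomial (Fin 2) k} (hf : IsUnit f) :
    mult P f = 0 ∧ f.totalDegree = 0 := by
  obtain ⟨g, hg⟩ := hf.exists_right_inv
  have hf0 := hf.ne_zero
  have hg0 : g ≠ 0 := by rintro rfl; simp at hg
  constructor
  · by_contra h
    have h1 : f ∈ Iord P 1 := (mem_Iord_iff_le_mult hf0).2 (by omega)
    rw [mem_Iord_one] at h1
    have := congrArg (eval P) hg
    rw [map_mul, h1] at this
    simp at this
  · have := congrArg totalDegree hg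
    rw [totalDegree_mul_of_isDomain hf0 hg0, totalDegree_one] at this
    omega

/-! ### The special points -/

section Char2

variable [CharP k 2]

theorem exists_special_points [IsAlgClosed k] :
    ∃ P : Fin 21 → Fin 2 → k, Function.Injective P ∧ ∀ i, IsZ (P i) := by
  classical
  let p : Polynomial k := Polynomial.X ^ 21 + Polynomial.X ^ 11 + 1
  have t2 : (2 : Polynomial k) = 0 := CharTwo.two_eq_zero
  have hq : p = Polynomial.X ^ 21 + (Polynomial.X ^ 11 + 1) := by simp only [p]; ring
  have hlt : (Polynomial.X ^ 11 + 1 : Polynomial k).degree < ((21 : ℕ) : WithBot ℕ) := by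
    refine lt_of_le_of_lt (Polynomial.degree_add_le _ _) ?_
    rw [Polynomial.degree_X_pow, Polynomial.degree_one]
    norm_num
  have hm : p.Monic := by
    rw [hq]
    exact Polynomial.monic_X_pow_add hlt
  have hdeg : p.natDegree = 21 := by
    have : p.degree = ((21 : ℕ) : WithBot ℕ) := by
      rw [hq, Polynomial.degree_add_eq_left_of_degree_lt]
      · rw [Polynomial.degree_X_pow]
      · rw [Polynomial.degree_X_pow]; exact hlt
    exact Polynomial.natDegree_eq_of_degree_eq_some this
  have hder : Polynomial.derivative p = Polynomial.X ^ 20 + Polynomial.X ^ 10 := by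
    simp only [p, Polynomial.derivative_add, Polynomial.derivative_X_pow,
      Polynomial.derivative_one, map_natCast]
    norm_num
    linear_combination (10 * Polynomial.X ^ 20 + 5 * Polynomial.X ^ 10) * t2
  have hsep : p.Separable := by
    refine ⟨1, Polynomial.X, ?_⟩
    rw [hder]
    simp only [p]
    linear_combination (Polynomial.X ^ 21 + Polynomial.X ^ 11) * t2
  have hcard : p.roots.toFinset.card = 21 := by
    have h1 := Polynomial.nodup_roots hsep
    rw [Multiset.toFinset_card_of_nodup h1, ← hdeg]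
    exact (Polynomial.splits_iff_card_roots.1 (IsAlgClosed.splits p))
  let e := p.roots.toFinset.equivFinOfCardEq hcard
  refine ⟨fun i => ![(e.symm i).1, (e.symm i).1 ^ 5], ?_, ?_⟩
  · intro i j hij
    have h0 := congrFun hij 0
    simp only [Matrix.cons_val_zero] at h0
    exact e.symm.injective (Subtype.ext h0)
  · intro i
    set α := (e.symm i).1 with hα
    have hroot : α ^ 21 + α ^ 11 + 1 = 0 := by
      have h1 : α ∈ p.roots := by
        have := (e.symm i).2
        rwa [Multiset.mem_toFinset] at this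
      have h2 := (Polynomial.mem_roots hm.ne_zero).1 h1
      simpa [p, Polynomial.IsRoot] using h2
    have t2' : (2 : k) = 0 := CharTwo.two_eq_zero
    constructor
    · simp only [Gx, EE, map_add, map_mul, map_pow, eval_X, Matrix.cons_val_zero,
        Matrix.cons_val_one]
      linear_combination α ^ 4 * hroot + α ^ 20 * t2'
    · simp only [Gy, EE, map_add, map_mul, map_pow, map_one, eval_X, Matrix.cons_val_zero,
        Matrix.cons_val_one]
      linear_combination hroot + α ^ 16 * t2'

end Char2

end Pool.Agent.H13
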