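import Mathlib
import Pool.Agent.H13.Plane

set_option autoImplicit false

namespace Pool.Agent.H13

open Module MvPolynomial

/-! ### Minors -/

theorem exists_minor {k R C : Type*} [Field k] [Fintype C] [DecidableEq C]
    (M : Matrix R C k) (h : ∀ v, M.mulVec v = 0 → v = 0) :
    ∃ ρ : C → R, (M.submatrix ρ id).det ≠ 0 := by
  classical
  -- rows span
  have hspan : Submodule.span k (Set.range M) = ⊤ := by
    by_contra hne
    obtain ⟨φ, hφ0, hφ⟩ := Submodule.exists_le_ker_of_lt_top _ (lt_top_iff_ne_top.2 hne)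
    apply hφ0
    set v : C → k := fun c => φ (Pi.single c 1) with hv
    have hφv : ∀ x : C → k, φ x = x ⬝ᵥ v := by
      intro x
      have : x = ∑ c, x c • (Pi.single c 1 : C → k) := by
        funext c
        simp [Finset.sum_apply, Pi.single_apply]
      conv_lhs => rw [this]
      rw [map_sum]
      simp only [map_smul, smul_eq_mul, dotProduct, hv]
    have hMv : M.mulVec v = 0 := by
      funext r
      have h1 : M r ∈ LinearMap.ker φ := hφ (Submodule.subset_span ⟨r, rfl⟩)
      rw [LinearMap.mem_ker, hφv] at h1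
      exact h1
    have hv0 := h v hMv
    refine LinearMap.ext fun x => ?_
    rw [hφv, hv0]
    simp
  obtain ⟨f, hf, -, hli⟩ := Submodule.exists_fun_fin_finrank_span_eq k (Set.range M)
  have hcard : finrank k (Submodule.span k (Set.range M)) = Fintype.card C := by
    rw [hspan, finrank_top, Module.finrank_pi]
  let e : C ≃ Fin (finrank k (Submodule.span k (Set.range M))) :=
    (Fintype.equivFin C).trans (finCongr hcard.symm)
  choose ρ hρ using hf
  refine ⟨fun c => ρ (e c), ?_⟩
  have hli2 : LinearIndependent k (f ∘ e) := hli.comp e e.injective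
  have heq : (M.submatrix (fun c => ρ (e c)) id) = Matrix.of (f ∘ e) := by
    ext i j
    simp only [Matrix.submatrix_apply, id, Matrix.of_apply, Function.comp]
    exact congrFun (hρ (e i)) j
  rw [heq]
  have h3 : LinearIndependent k (Matrix.of (f ∘ e)).row := hli2
  have h4 := Matrix.linearIndependent_rows_iff_isUnit.1 h3
  rw [Matrix.isUnit_iff_isUnit_det] at h4
  exact h4.ne_zero

/-! ### Universal interpolation matrix -/

/-- Translation over a commutative ring. -/
noncomputable def trG {R : Type*} [CommRing R] (P : Fin 2 → R) :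
    MvPolynomial (Fin 2) R →ₐ[R] MvPolynomial (Fin 2) R :=
  aeval (fun i => X i + C (P i))

theorem map_trG {R K : Type*} [CommRing R] [CommRing K] (φ : R →+* K) (P : Fin 2 → R)
    (f : MvPolynomial (Fin 2) R) :
    MvPolynomial.map φ (trG P f) = trG (fun i => φ (P i)) (MvPolynomial.map φ f) := by
  induction f using MvPolynomial.induction_on with
  | C a => simp [trG]
  | add p q hp hq => simp only [map_add, hp, hq]
  | mul_X p j hp =>
    rw [map_mul, map_mul, hp, map_mul, map_mul]
    simp [trG]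

theorem tr_eq_trG {k : Type*} [Field k] (P : Fin 2 → k) : tr P = trG P := rfl

/-- The universal interpolation matrix. -/
noncomputable def UM (n d : ℕ) (m : Fin n → ℕ) :
    Matrix (Σ i : Fin n, triF (m i)) (triF (d + 1)) (MvPolynomial (Fin n × Fin 2) ℤ) :=
  fun r s => coeff (expo r.2.1) (trG (fun j => X (r.1, j)) (X 0 ^ s.1.1 * X 1 ^ s.1.2))

/-- There is a nonzero polynomial of degree `≤ d` with multiplicities `≥ m i` at `p i`. -/
def HasCurve {k : Type*} [Field k] {n : ℕ} (p : Fin n → Fin 2 → k) (d : ℕ) (m : Fin n → ℕ) :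
    Prop :=
  ∃ F : MvPolynomial (Fin 2) k, F ≠ 0 ∧ F.totalDegree ≤ d ∧ ∀ i, F ∈ Iord (p i) (m i)

theorem UM_eval {k : Type*} [Field k] {n : ℕ} (p : Fin n → Fin 2 → k) (d : ℕ) (m : Fin n → ℕ)
    (φ : MvPolynomial (Fin n × Fin 2) ℤ →+* k) (hφ : ∀ i j, φ (X (i, j)) = p i j)
    (c : triF (d + 1) → k) (r : Σ i : Fin n, triF (m i)) :
    ((UM n d m).map φ).mulVec c r =
      coeff (expo r.2.1) (tr (p r.1) (∑ s, C (c s) * (X 0 ^ s.1.1 * X 1 ^ s.1.2))) := by
  have hp : (fun j => φ (X (r.1, j))) = p r.1 := by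
    funext j; exact hφ r.1 j
  have key : ∀ s : triF (d + 1), φ (UM n d m r s) =
      coeff (expo r.2.1) (tr (p r.1) (X 0 ^ s.1.1 * X 1 ^ s.1.2)) := by
    intro s
    have h1 := map_trG φ (fun j => X (r.1, j)) (X 0 ^ s.1.1 * X 1 ^ s.1.2)
    have h2 := congrArg (coeff (expo r.2.1)) h1
    rw [coeff_map] at h2
    rw [UM, h2, hp, tr_eq_trG]
    simp only [map_mul, map_pow, map_X]
  rw [Matrix.mulVec, dotProduct, map_sum, coeff_sum]
  refine Finset.sum_congr rfl fun s _ => ?_
  rw [Matrix.map_apply, key, map_mul (tr (p r.1)) (C (c s)), tr_C, coeff_C_mul, mul_comm]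

theorem sum_mem_Vd {k : Type*} [Field k] {d : ℕ} (c : triF (d + 1) → k) :
    (∑ s : triF (d + 1), C (c s) * (X 0 ^ s.1.1 * X 1 ^ s.1.2) : MvPolynomial (Fin 2) k) ∈
      Vd k d := by
  refine Submodule.sum_mem _ fun s _ => ?_
  rw [mem_Vd]
  have h0 := (mem_triF _ _).1 s.2
  have h1 := totalDegree_mul (C (c s) : MvPolynomial (Fin 2) k) (X 0 ^ s.1.1 * X 1 ^ s.1.2)
  have h2 := totalDegree_mul (X 0 ^ s.1.1 : MvPolynomial (Fin 2) k) (X 1 ^ s.1.2)
  rw [totalDegree_X_pow, totalDegree_X_pow] at h2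
  rw [totalDegree_C] at h1
  omega

theorem coeff_sum_mon {k : Type*} [Field k] {d : ℕ} (c : triF (d + 1) → k) (t : triF (d + 1)) :
    coeff (expo t.1) (∑ s : triF (d + 1), C (c s) * (X 0 ^ s.1.1 * X 1 ^ s.1.2) :
      MvPolynomial (Fin 2) k) = c t := by
  classical
  have hmon : ∀ s : triF (d + 1), (C (c s) * (X 0 ^ s.1.1 * X 1 ^ s.1.2) :
      MvPolynomial (Fin 2) k) = monomial (expo s.1) (c s) := by
    intro s
    rw [monomial_eq]
    have : (expo s.1).prod (fun n e => (X n : MvPolynomial (Fin 2) k) ^ e) =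
        X 0 ^ s.1.1 * X 1 ^ s.1.2 := by
      rw [Finsupp.prod_fintype _ _ (by intro; simp), Fin.prod_univ_two]
      simp
    rw [this]
  simp_rw [hmon]
  rw [coeff_sum, Finset.sum_eq_single t]
  · simp
  · intro b _ hb
    rw [coeff_monomial, if_neg]
    intro h
    exact hb (Subtype.ext (expo_inj h))
  · intro h; exact absurd (Finset.mem_univ t) h

theorem injective_of_not_hasCurve {k : Type*} [Field k] {n : ℕ} (p : Fin n → Fin 2 → k) (d : ℕ)
    (m : Fin n → ℕ) (φ : MvPolynomial (Fin n × Fin 2) ℤ →+* k) (hφ : ∀ i j, φ (X (i, j)) = p i j)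
    (h : ¬ HasCurve p d m) (c : triF (d + 1) → k) (hc : ((UM n d m).map φ).mulVec c = 0) :
    c = 0 := by
  by_contra hne
  apply h
  refine ⟨∑ s, C (c s) * (X 0 ^ s.1.1 * X 1 ^ s.1.2), ?_, mem_Vd.1 (sum_mem_Vd c), ?_⟩
  · intro h0
    apply hne
    funext t
    rw [← coeff_sum_mon c t, h0]; simp
  · intro i
    rw [← jet_eq_zero_iff]
    funext q
    rw [jet_apply]
    have := congrFun hc ⟨i, q⟩
    rw [UM_eval p d m φ hφ] at this
    exact this

theorem not_hasCurve_of_injective {k : Type*} [Field k] {n : ℕ} (p : Fin n → Fin 2 → k) (d : ℕ)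
    (m : Fin n → ℕ) (φ : MvPolynomial (Fin n × Fin 2) ℤ →+* k) (hφ : ∀ i j, φ (X (i, j)) = p i j)
    (h : ∀ c, ((UM n d m).map φ).mulVec c = 0 → c = 0) : ¬ HasCurve p d m := by
  rintro ⟨F, hF0, hFd, hF⟩
  set c : triF (d + 1) → k := fun s => coeff (expo s.1) F with hc
  have hsum : (∑ s : triF (d + 1), C (c s) * (X 0 ^ s.1.1 * X 1 ^ s.1.2) :
      MvPolynomial (Fin 2) k) = F := by
    ext s
    obtain ⟨q, rfl⟩ : ∃ q, expo q = s := ⟨_, expo_surj s⟩
    by_cases hq : q ∈ triF (d + 1)
    · exact coeff_sum_mon c ⟨q, hq⟩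
    · have h1 : ∀ G ∈ Vd k d, coeff (expo q) G = 0 := by
        intro G hG
        by_contra hne
        have h2 := le_totalDegree (mem_support_iff.2 hne)
        change (expo q).degree ≤ _ at h2
        rw [expo_degree] at h2
        rw [mem_Vd] at hG
        apply hq
        rw [mem_triF]
        omega
      rw [h1 _ (sum_mem_Vd c), h1 F (mem_Vd.2 hFd)]
  have hc0 := h c (by
    funext r
    rw [UM_eval p d m φ hφ, hsum]
    have := hF r.1
    rw [← jet_eq_zero_iff] at this
    exact congrFun this r.2)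
  apply hF0
  rw [← hsum, hc0]
  simp

/-- **Specialisation.** If over some field, for some points, there is no curve of class `(d; m)`,
then the same holds for all complex points outside a proper hypersurface. -/
theorem transfer_one {k : Type*} [Field k] {n : ℕ} (p : Fin n → Fin 2 → k) (d : ℕ)
    (m : Fin n → ℕ) (h : ¬ HasCurve p d m) :
    ∃ f : MvPolynomial (Fin n × Fin 2) ℂ, f ≠ 0 ∧ ∀ q : Fin n → Fin 2 → ℂ,
      eval (fun z : Fin n × Fin 2 => q z.1 z.2) f ≠ 0 → ¬ HasCurve q d m := by
  classical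
  let φ : MvPolynomial (Fin n × Fin 2) ℤ →+* k :=
    eval₂Hom (Int.castRingHom k) (fun z => p z.1 z.2)
  have hφ : ∀ i j, φ (X (i, j)) = p i j := by intro i j; simp [φ]
  obtain ⟨ρ, hρ⟩ := exists_minor ((UM n d m).map φ)
    (injective_of_not_hasCurve p d m φ hφ h)
  set D : MvPolynomial (Fin n × Fin 2) ℤ := ((UM n d m).submatrix ρ id).det with hD
  have hD0 : D ≠ 0 := by
    intro h0
    apply hρ
    have h1 : (((UM n d m).map φ).submatrix ρ id) = ((UM n d m).submatrix ρ id).map φ := rfl
    rw [h1]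
    have h2 := RingHom.map_det φ ((UM n d m).submatrix ρ id)
    rw [← hD, h0, map_zero] at h2
    exact h2.symm
  refine ⟨MvPolynomial.map (Int.castRingHom ℂ) D, ?_, ?_⟩
  · intro h0
    apply hD0
    apply MvPolynomial.map_injective (Int.castRingHom ℂ) Int.cast_injective
    rw [h0, map_zero]
  · intro q hq
    let ψ : MvPolynomial (Fin n × Fin 2) ℤ →+* ℂ :=
      eval₂Hom (Int.castRingHom ℂ) (fun z => q z.1 z.2)
    have hψ : ∀ i j, ψ (X (i, j)) = q i j := by intro i j; simp [ψ]
    have hψD : ψ D ≠ 0 := by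
      have : ψ D = eval (fun z : Fin n × Fin 2 => q z.1 z.2)
          (MvPolynomial.map (Int.castRingHom ℂ) D) := by
        rw [eval_map]; rfl
      rw [this]; exact hq
    apply not_hasCurve_of_injective q d m ψ hψ
    intro c hc
    have h1 : (((UM n d m).submatrix ρ id).map ψ).mulVec c = 0 := by
      funext r
      exact congrFun hc (ρ r)
    have h2 : (((UM n d m).submatrix ρ id).map ψ).det ≠ 0 := by
      have := RingHom.map_det ψ ((UM n d m).submatrix ρ id)
      rw [← hD] at this
      change (((UM n d m).submatrix ρ id).map ψ).det ≠ 0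
      have h3 : ψ.mapMatrix ((UM n d m).submatrix ρ id) =
        ((UM n d m).submatrix ρ id).map ψ := rfl
      rw [← h3, ← this]
      exact hψD
    exact Matrix.eq_zero_of_mulVec_eq_zero h2 h1

end Pool.Agent.H13
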