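import Mathlib
import Pool.Agent.H13.Mult
import Pool.Agent.H13.Transfer

set_option autoImplicit false

namespace Pool.Agent.H13

open Module MvPolynomial

/-! ### The cone spanned by the special classes -/

/-- The forward positive cone. -/
def Pos (n : ℕ) : Set (ℝ × (Fin n → ℝ)) :=
  {v | 0 ≤ v.1 ∧ ∑ i, v.2 i ^ 2 ≤ v.1 ^ 2}

/-- Integral classes of square `-1`, and the extra characteristic classes (only relevant for
`n ≥ 18`), and the exceptional classes. -/
def TT (n : ℕ) : Set (ℝ × (Fin n → ℝ)) :=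
  {v | ∃ (a : ℕ) (b : Fin n → ℕ), v = ((a : ℝ), fun i => (b i : ℝ)) ∧ 1 ≤ a ∧
    (a ^ 2 + 1 = ∑ i, b i ^ 2 ∨
      (Odd a ∧ (∀ i, Odd (b i)) ∧ a ^ 2 + n = ∑ i, b i ^ 2 + 17))} ∪
  {v | ∃ i : Fin n, v = ((0 : ℝ), (Pi.single i (-1 : ℝ) : Fin n → ℝ))}

theorem span_of_hasCurve {k : Type*} [Field k] {n : ℕ} (P : Fin n → Fin 2 → k)
    (K : Submodule {c : ℝ // 0 ≤ c} (ℝ × (Fin n → ℝ)))
    (hH : ((1 : ℝ), (0 : Fin n → ℝ)) ∈ K)
    (hE : ∀ i : Fin n, ((0 : ℝ), (Pi.single i (-1 : ℝ) : Fin n → ℝ)) ∈ K)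
    (hprime : ∀ f : MvPolynomial (Fin 2) k, Prime f →
      (((f.totalDegree : ℕ) : ℝ), fun i => ((mult (P i) f : ℕ) : ℝ)) ∈ K)
    (d : ℕ) (m : Fin n → ℕ) (h : HasCurve P d m) :
    (((d : ℕ) : ℝ), fun i => ((m i : ℕ) : ℝ)) ∈ K := by
  have key : ∀ G : MvPolynomial (Fin 2) k, G ≠ 0 →
      (((G.totalDegree : ℕ) : ℝ), fun i => ((mult (P i) G : ℕ) : ℝ)) ∈ K := by
    intro G
    induction G using UniqueFactorizationMonoid.induction_on_prime with
    | h₁ => intro h; exact absurd rfl h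
    | h₂ x hx =>
      intro _
      have h0 : (((x.totalDegree : ℕ) : ℝ), fun i => ((mult (P i) x : ℕ) : ℝ)) =
          (0 : ℝ × (Fin n → ℝ)) := by
        apply Prod.ext
        · simp only [(mult_unit (P := 0) hx).2]; simp
        · funext i
          simp only [(mult_unit (P := P i) hx).1]; simp
      rw [h0]
      exact zero_mem _
    | h₃ a p ha hp iha =>
      intro _
      have h1 := iha ha
      have h2 := hprime p hp
      have h3 := K.add_mem h2 h1
      convert h3 using 1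
      apply Prod.ext
      · simp only [Prod.fst_add]
        rw [totalDegree_mul_of_isDomain hp.ne_zero ha]
        push_cast; ring
      · funext i
        simp only [Prod.snd_add, Pi.add_apply]
        rw [mult_mul hp.ne_zero ha]
        push_cast; ring
  obtain ⟨G, hG0, hGd, hG⟩ := h
  have h1 := key G hG0
  have hm : ∀ i, m i ≤ mult (P i) G := fun i => (mem_Iord_iff_le_mult hG0).1 (hG i)
  have h2 : (⟨((d - G.totalDegree : ℕ) : ℝ), Nat.cast_nonneg _⟩ : {c : ℝ // 0 ≤ c}) •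
      ((1 : ℝ), (0 : Fin n → ℝ)) ∈ K := K.smul_mem _ hH
  have h3 : ∑ i : Fin n, (⟨((mult (P i) G - m i : ℕ) : ℝ), Nat.cast_nonneg _⟩ : {c : ℝ // 0 ≤ c}) •
      ((0 : ℝ), (Pi.single i (-1 : ℝ) : Fin n → ℝ)) ∈ K :=
    K.sum_mem fun i _ => K.smul_mem _ (hE i)
  have h4 := K.add_mem (K.add_mem h1 h2) h3
  convert h4 using 1
  have hs : ∀ (c : {c : ℝ // 0 ≤ c}) (v : ℝ × (Fin n → ℝ)), c • v = (c.1 • v) := fun c v => rfl
  simp only [hs]
  apply Prod.ext
  · simp only [Prod.fst_add, Prod.smul_fst, smul_eq_mul, Prod.fst_sum, mul_zero,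
      Finset.sum_const_zero, add_zero, mul_one]
    rw [Nat.cast_sub hGd]; ring
  · funext j
    simp only [Prod.snd_add, Prod.smul_snd, smul_zero, add_zero, Prod.snd_sum, Pi.add_apply,
      Finset.sum_apply, Pi.smul_apply, smul_eq_mul, Pi.single_apply]
    rw [Finset.sum_eq_single j]
    · rw [if_pos rfl, Nat.cast_sub (hm j)]
      simp
    · intro b _ hb
      rw [if_neg (Ne.symm hb)]; ring
    · intro h; exact absurd (Finset.mem_univ j) h

section Char2

variable {k : Type*} [Field k] [CharP k 2] [IsAlgClosed k]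

theorem special_prime {n : ℕ} (hn : n ≤ 21) (P : Fin 21 → Fin 2 → k)
    (hPinj : Function.Injective P) (hP : ∀ i, IsZ (P i)) {f : MvPolynomial (Fin 2) k}
    (hf : Prime f) :
    (((f.totalDegree : ℕ) : ℝ), fun i : Fin n => ((mult (P (Fin.castLE hn i)) f : ℕ) : ℝ)) ∈
      Submodule.span {c : ℝ // 0 ≤ c} (TT n ∪ Pos n) := by
  set K := Submodule.span {c : ℝ // 0 ≤ c} (TT n ∪ Pos n) with hK
  have hd1 := totalDegree_pos_of_prime hf
  have hPos : ∀ (a : ℕ) (b : Fin n → ℕ), ∑ i, b i ^ 2 ≤ a ^ 2 →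
      (((a : ℕ) : ℝ), fun i => ((b i : ℕ) : ℝ)) ∈ K := by
    intro a b hab
    apply Submodule.subset_span
    right
    refine ⟨Nat.cast_nonneg _, ?_⟩
    simp only
    exact_mod_cast hab
  have hTT : ∀ (a : ℕ) (b : Fin n → ℕ), 1 ≤ a → ∑ i, b i ^ 2 ≤ a ^ 2 + 1 →
      (((a : ℕ) : ℝ), fun i => ((b i : ℕ) : ℝ)) ∈ K := by
    intro a b ha hab
    rcases Nat.lt_or_ge (∑ i, b i ^ 2) (a ^ 2 + 1) with h | h
    · exact hPos a b (by omega)
    · apply Submodule.subset_span
      left; left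
      exact ⟨a, b, rfl, ha, Or.inl (le_antisymm h hab)⟩
  have hcinj : Function.Injective (Fin.castLE hn) := Fin.castLE_injective hn
  by_cases hD0 : DD f = 0
  · -- type (b)
    have heven : ∀ i : Fin n, ∃ b, mult (P (Fin.castLE hn i)) f = 2 * b := by
      intro i
      have := even_mult (hP (Fin.castLE hn i)) (mem_mult hf.ne_zero) (not_mem_mult hf.ne_zero) hD0
      exact even_iff_two_dvd.1 this
    choose b hb using heven
    obtain ⟨a, ha, hab⟩ := type_b (fun i : Fin n => P (Fin.castLE hn i)) (hPinj.comp hcinj)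
      (fun i => hP _) hf hD0 b (fun i => by rw [← hb i]; exact mem_mult hf.ne_zero)
    have h1 := hTT a b (by omega) hab
    have h2 := K.add_mem h1 h1
    convert h2 using 1
    apply Prod.ext
    · simp only [Prod.fst_add]; rw [ha]; push_cast; ring
    · funext i
      simp only [Prod.snd_add, Pi.add_apply]; rw [hb i]; push_cast; ring
  by_cases hD1 : DD f = EE k ^ 2 * f
  · -- type (c)
    have hodd : ∀ i : Fin 21, ∃ b, mult (P i) f = 2 * b + 1 := fun i =>
      odd_mult (hP i) (mem_mult hf.ne_zero) (not_mem_mult hf.ne_zero) hD1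
    choose b hb using hodd
    obtain ⟨s, hs, hsb⟩ := type_c P hPinj hP hf hD1 b
      (fun i => by rw [← hb i]; exact mem_mult hf.ne_zero)
    rw [Fintype.card_fin] at hsb
    have hle : ∑ i : Fin n, b (Fin.castLE hn i) * (b (Fin.castLE hn i) + 1) ≤
        ∑ i, b i * (b i + 1) := by
      have h1 : ∑ i : Fin n, b (Fin.castLE hn i) * (b (Fin.castLE hn i) + 1) =
          ∑ i ∈ Finset.univ.map ⟨Fin.castLE hn, hcinj⟩, b i * (b i + 1) := by
        rw [Finset.sum_map]; rfl
      rw [h1]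
      exact Finset.sum_le_sum_of_subset (Finset.subset_univ _)
    set B := ∑ i : Fin n, b (Fin.castLE hn i) * (b (Fin.castLE hn i) + 1) with hB
    have heB : Even B := Finset.even_sum _ (fun i _ => Nat.even_mul_succ_self _)
    have hes : Even (s * (s + 1)) := Nat.even_mul_succ_self s
    obtain ⟨B', hB'⟩ := heB
    obtain ⟨s', hs'⟩ := hes
    have hsum : ∑ i : Fin n, (mult (P (Fin.castLE hn i)) f) ^ 2 = 4 * B + n := by
      have h1 : ∀ i : Fin n, (mult (P (Fin.castLE hn i)) f) ^ 2 =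
          4 * (b (Fin.castLE hn i) * (b (Fin.castLE hn i) + 1)) + 1 := by
        intro i; rw [hb]; ring
      rw [Finset.sum_congr rfl fun i _ => h1 i, Finset.sum_add_distrib, ← Finset.mul_sum, ← hB]
      simp
    have he : s * (s + 1) = s ^ 2 + s := by ring
    have hd2 : f.totalDegree ^ 2 = 4 * (s * (s + 1)) + 1 := by rw [hs]; ring
    have hX : B + 4 ≤ s * (s + 1) := by omega
    rcases Nat.lt_or_ge (B + 5) (s * (s + 1)) with h | h
    · apply hPos
      rw [hsum, hd2]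
      omega
    · apply Submodule.subset_span
      left; left
      refine ⟨f.totalDegree, fun i => mult (P (Fin.castLE hn i)) f, rfl, hd1, Or.inr ⟨?_, ?_, ?_⟩⟩
      · rw [hs]; exact ⟨s, rfl⟩
      · intro i
        change Odd (mult (P (Fin.castLE hn i)) f)
        rw [hb]; exact ⟨_, rfl⟩
      · change f.totalDegree ^ 2 + n = ∑ i : Fin n, (mult (P (Fin.castLE hn i)) f) ^ 2 + 17
        rw [hsum, hd2]
        omega
  · -- type (a)
    obtain ⟨h1, h2⟩ := type_a (fun i : Fin n => P (Fin.castLE hn i)) (hPinj.comp hcinj)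
      (fun i => hP _) hf (fun i => mult (P (Fin.castLE hn i)) f)
      (fun i => mem_mult hf.ne_zero) hD0 hD1
    apply hTT _ _ hd1
    have h1' : ∑ i : Fin n, ((mult (P (Fin.castLE hn i)) f : ℕ) : ℤ) *
        (((mult (P (Fin.castLE hn i)) f : ℕ) : ℤ) + 1) ≤
        (f.totalDegree : ℤ) * (f.totalDegree + 3) := by exact_mod_cast h1
    have h3 : 2 * ∑ i : Fin n, ((mult (P (Fin.castLE hn i)) f : ℕ) : ℤ) ^ 2 =
        ∑ i : Fin n, ((mult (P (Fin.castLE hn i)) f : ℕ) : ℤ) *
        (((mult (P (Fin.castLE hn i)) f : ℕ) : ℤ) + 1) +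
        ∑ i : Fin n, ((mult (P (Fin.castLE hn i)) f : ℕ) : ℤ) *
        (((mult (P (Fin.castLE hn i)) f : ℕ) : ℤ) - 1) := by
      rw [← Finset.sum_add_distrib, Finset.mul_sum]
      exact Finset.sum_congr rfl fun i _ => by ring
    have h4 : ∑ i : Fin n, ((mult (P (Fin.castLE hn i)) f : ℕ) : ℤ) ^ 2 ≤
        (f.totalDegree : ℤ) ^ 2 + 1 := by nlinarith
    exact_mod_cast h4

end Char2

end Pool.Agent.H13
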