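import Mathlib

set_option autoImplicit false

namespace Pool.Agent.H13

open MvPolynomial

/-- Classes of the curves on the blow-up of the projective plane at the points
`[p i 0 : p i 1 : 1]`.  A class `d H - ∑ m i E i` is written `(d, m)`.  The set consists of the
classes of strict transforms of irreducible plane curves `F = 0` of degree `d`, where `m i` is the
exact multiplicity of `F` at the point `p i`, and the classes `(0, -e i)` of the exceptional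
curves. -/
def curveClasses {n : ℕ} (p : Fin n → Fin 2 → ℂ) : Set (ℝ × (Fin n → ℝ)) :=
  {v : ℝ × (Fin n → ℝ) | ∃ (F : MvPolynomial (Fin 3) ℂ) (d : ℕ) (m : Fin n → ℕ),
    F.IsHomogeneous d ∧ Irreducible F ∧
    (∀ i : Fin n,
      (∀ s ∈ (MvPolynomial.aeval
          ![(MvPolynomial.X 0 : MvPolynomial (Fin 2) ℂ) + MvPolynomial.C (p i 0),
            (MvPolynomial.X 1 : MvPolynomial (Fin 2) ℂ) + MvPolynomial.C (p i 1),
            (1 : MvPolynomial (Fin 2) ℂ)] F).support, m i ≤ s 0 + s 1) ∧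
      (∃ s ∈ (MvPolynomial.aeval
          ![(MvPolynomial.X 0 : MvPolynomial (Fin 2) ℂ) + MvPolynomial.C (p i 0),
            (MvPolynomial.X 1 : MvPolynomial (Fin 2) ℂ) + MvPolynomial.C (p i 1),
            (1 : MvPolynomial (Fin 2) ℂ)] F).support, s 0 + s 1 = m i)) ∧
    v = ((d : ℝ), fun i => (m i : ℝ))} ∪
  {v : ℝ × (Fin n → ℝ) | ∃ i : Fin n,
    v = ((0 : ℝ), (Pi.single i (-1 : ℝ) : Fin n → ℝ))}

/-- The closed cone of curves of the blow-up at the points `p i`. -/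
def moriCone {n : ℕ} (p : Fin n → Fin 2 → ℂ) : Set (ℝ × (Fin n → ℝ)) :=
  closure ((Submodule.span {c : ℝ // 0 ≤ c} (curveClasses p) : Set (ℝ × (Fin n → ℝ))))

/-- The closed cone spanned by the forward positive cone and the classes of the `(-1)`-curves,
that is, of the curves `C` with `C² = -1` and `K·C = -1`. -/
def expectedCone {n : ℕ} (p : Fin n → Fin 2 → ℂ) : Set (ℝ × (Fin n → ℝ)) :=
  closure ((Submodule.span {c : ℝ // 0 ≤ c}
    ({v : ℝ × (Fin n → ℝ) | v ∈ curveClasses p ∧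
        v.1 ^ 2 - ∑ i, v.2 i ^ 2 = -1 ∧ -3 * v.1 + ∑ i, v.2 i = -1} ∪
     {v : ℝ × (Fin n → ℝ) | 0 ≤ v.1 ∧ ∑ i, v.2 i ^ 2 ≤ v.1 ^ 2}) :
    Set (ℝ × (Fin n → ℝ))))

/-- `Q p` holds for very general `n`-tuples `p` of points: it holds whenever `p` avoids
countably many proper closed subsets, the zero sets of nonzero polynomials `f k`. -/
def VeryGeneral (n : ℕ) (Q : (Fin n → Fin 2 → ℂ) → Prop) : Prop :=
  ∃ f : ℕ → MvPolynomial (Fin n × Fin 2) ℂ, (∀ k, f k ≠ 0) ∧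
    ∀ p : Fin n → Fin 2 → ℂ,
      (∀ k, MvPolynomial.eval (fun q : Fin n × Fin 2 => p q.1 q.2) (f k) ≠ 0) → Q p

/-- Integral classes `a H - ∑ b i E i` with `a ≥ 1`, all `b i ≥ 0` and square
`a² - ∑ (b i)² = -1`. -/
def minusOneClasses (n : ℕ) : Set (ℝ × (Fin n → ℝ)) :=
  {v | ∃ (a : ℕ) (b : Fin n → ℕ), v = ((a : ℝ), fun i => (b i : ℝ)) ∧ 1 ≤ a ∧
    a ^ 2 + 1 = ∑ i, b i ^ 2}

/-- Empty for `n ≤ 18`.  For `n ≥ 19`: the integral classes `a H - ∑ b i E i` with `a` and all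
`b i` odd positive integers and square `a² - ∑ (b i)² = 17 - n`. -/
def oddClasses (n : ℕ) : Set (ℝ × (Fin n → ℝ)) :=
  {v | ∃ (a : ℕ) (b : Fin n → ℕ), v = ((a : ℝ), fun i => (b i : ℝ)) ∧ 19 ≤ n ∧
    Odd a ∧ (∀ i, Odd (b i)) ∧ a ^ 2 + n = ∑ i, b i ^ 2 + 17}

/-- The classes `(0, -e i)` of the exceptional curves `E i`. -/
def exceptionalClasses (n : ℕ) : Set (ℝ × (Fin n → ℝ)) :=
  {v | ∃ i : Fin n, v = ((0 : ℝ), (Pi.single i (-1 : ℝ) : Fin n → ℝ))}

/-- The forward positive cone `x² ≥ 0`, `x · H ≥ 0`. -/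
def positiveCone (n : ℕ) : Set (ℝ × (Fin n → ℝ)) :=
  {v | 0 ≤ v.1 ∧ ∑ i, v.2 i ^ 2 ≤ v.1 ^ 2}

end Pool.Agent.H13
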