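import Mathlib
import Pool.Agent.H13.Defs

set_option autoImplicit false

namespace Pool.Agent.H13

/-- The numerical conditions on the class with degree `d` and multiplicities
`a₁, a₂, b₁, b₁, b₂, b₂, b₃, b₃, b₄, b₄, 0, …`:
`a₁ + a₂ ≤ d`, square zero, and either `2 d = a₁ + a₂ + b₁ + b₂ + b₃ + b₄ + 1`, or
`2 d = a₁ + a₂ + b₁ + b₂ + b₃ + b₄ + 2` with `d`, `a₁`, `a₂` and one of the `b j` even. -/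
def Admissible (d a₁ a₂ b₁ b₂ b₃ b₄ : ℕ) : Prop :=
  a₁ + a₂ ≤ d ∧
  d ^ 2 = a₁ ^ 2 + a₂ ^ 2 + 2 * (b₁ ^ 2 + b₂ ^ 2 + b₃ ^ 2 + b₄ ^ 2) ∧
  (2 * d = a₁ + a₂ + b₁ + b₂ + b₃ + b₄ + 1 ∨
    (2 * d = a₁ + a₂ + b₁ + b₂ + b₃ + b₄ + 2 ∧ Even d ∧ Even a₁ ∧ Even a₂ ∧
      (Even b₁ ∨ Even b₂ ∨ Even b₃ ∨ Even b₄)))

/-- The multiplicities `(a₁, a₂, b₁, b₁, b₂, b₂, b₃, b₃, b₄, b₄, 0, …)`. -/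
def mults1 (n a₁ a₂ b₁ b₂ b₃ b₄ : ℕ) : Fin n → ℝ :=
  fun i => (([a₁, a₂, b₁, b₁, b₂, b₂, b₃, b₃, b₄, b₄] : List ℕ).getD i 0 : ℝ)

end Pool.Agent.H13
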