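import Mathlib
import Pool.Agent.H13.Defs

set_option autoImplicit false

namespace Pool.Agent.H13

/-- The class with degree `b₁ + b₂ + b₃` and multiplicities
`(a₁, a₂, a₃, b₁, b₁, b₂, b₂, b₃, b₃, s, s, 0, …)`, where `s = b₁ + b₂ + b₃ - a₁ - a₂ - a₃`. -/
def class11 (n : ℕ) (a₁ a₂ a₃ b₁ b₂ b₃ : ℝ) : ℝ × (Fin n → ℝ) :=
  (b₁ + b₂ + b₃, fun i => ([a₁, a₂, a₃, b₁, b₁, b₂, b₂, b₃, b₃,
    b₁ + b₂ + b₃ - a₁ - a₂ - a₃, b₁ + b₂ + b₃ - a₁ - a₂ - a₃] : List ℝ).getD i 0)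

end Pool.Agent.H13
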