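import Mathlib
import Pool.Agent.H13.Defs
import Pool.Agent.H13.Transfer

set_option autoImplicit false

namespace Pool.Agent.H13

open Module MvPolynomial

/-- Dehomogenisation. -/
noncomputable def dehom (F : MvPolynomial (Fin 3) ℂ) : MvPolynomial (Fin 2) ℂ :=
  aeval ![(X 0 : MvPolynomial (Fin 2) ℂ), X 1, 1] F

theorem tr_dehom (P : Fin 2 → ℂ) (F : MvPolynomial (Fin 3) ℂ) :
    tr P (dehom F) = aeval ![(X 0 : MvPolynomial (Fin 2) ℂ) + C (P 0),
      (X 1 : MvPolynomial (Fin 2) ℂ) + C (P 1), (1 : MvPolynomial (Fin 2) ℂ)] F := by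
  have : (tr P).comp (aeval ![(X 0 : MvPolynomial (Fin 2) ℂ), X 1, 1]) =
      aeval ![(X 0 : MvPolynomial (Fin 2) ℂ) + C (P 0),
        (X 1 : MvPolynomial (Fin 2) ℂ) + C (P 1), (1 : MvPolynomial (Fin 2) ℂ)] := by
    apply MvPolynomial.algHom_ext
    intro i
    fin_cases i <;> simp
  exact DFunLike.congr_fun this F

theorem dehom_monomial (s : Fin 3 →₀ ℕ) (c : ℂ) :
    dehom (monomial s c) = monomial (expo (s 0, s 1)) c := by
  rw [dehom, aeval_monomial, monomial_eq]
  rw [Finsupp.prod_fintype _ _ (by intro; simp), Finsupp.prod_fintype _ _ (by intro; simp),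
    Fin.prod_univ_three, Fin.prod_univ_two]
  simp

theorem dehom_eq_sum (F : MvPolynomial (Fin 3) ℂ) :
    dehom F = ∑ s ∈ F.support, monomial (expo (s 0, s 1)) (coeff s F) := by
  conv_lhs => rw [F.as_sum]
  rw [dehom, map_sum]
  exact Finset.sum_congr rfl fun s _ => dehom_monomial s _

theorem totalDegree_dehom {F : MvPolynomial (Fin 3) ℂ} {d : ℕ} (hF : F.IsHomogeneous d) :
    (dehom F).totalDegree ≤ d := by
  rw [dehom_eq_sum]
  refine (totalDegree_finsetSum _ _).trans ?_
  rw [Finset.sup_le_iff]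
  intro s hs
  refine (totalDegree_monomial_le _ _).trans ?_
  have h1 : s.degree = d := (hF.degree_eq_sum_deg_support hs).symm
  change (expo (s 0, s 1)).degree ≤ d
  rw [expo_degree, ← h1, Finsupp.degree_eq_sum, Fin.sum_univ_three]
  simp

theorem dehom_ne_zero {F : MvPolynomial (Fin 3) ℂ} {d : ℕ} (hF : F.IsHomogeneous d)
    (h0 : F ≠ 0) : dehom F ≠ 0 := by
  classical
  obtain ⟨t, ht⟩ := support_nonempty.2 h0
  intro hz
  have h1 := congrArg (coeff (expo (t 0, t 1))) hz
  rw [dehom_eq_sum, coeff_sum, Finset.sum_eq_single t] at h1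
  · rw [coeff_monomial, if_pos rfl, coeff_zero] at h1
    exact (MvPolynomial.mem_support_iff.1 ht) h1
  · intro s hs hst
    rw [coeff_monomial, if_neg]
    intro he
    apply hst
    have he' := expo_inj he
    have e0 : s 0 = t 0 := congrArg Prod.fst he'
    have e1 : s 1 = t 1 := congrArg Prod.snd he'
    have d1 : s.degree = d := (hF.degree_eq_sum_deg_support hs).symm
    have d2 : t.degree = d := (hF.degree_eq_sum_deg_support ht).symm
    rw [Finsupp.degree_eq_sum, Fin.sum_univ_three] at d1 d2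
    ext i
    fin_cases i
    · exact e0
    · exact e1
    · simp; omega
  · intro h; exact absurd ht h

/-- A curve class on the blow-up comes from a plane curve or is exceptional. -/
theorem curveClasses_sub {n : ℕ} (p : Fin n → Fin 2 → ℂ) {v : ℝ × (Fin n → ℝ)}
    (hv : v ∈ curveClasses p) :
    (∃ (d : ℕ) (m : Fin n → ℕ), HasCurve p d m ∧ v = ((d : ℝ), fun i => (m i : ℝ))) ∨
    (∃ i : Fin n, v = ((0 : ℝ), (Pi.single i (-1 : ℝ) : Fin n → ℝ))) := by
  rcases hv with ⟨F, d, m, hF, hirr, hm, rfl⟩ | h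
  · left
    refine ⟨d, m, ⟨dehom F, dehom_ne_zero hF hirr.ne_zero, totalDegree_dehom hF, ?_⟩, rfl⟩
    intro i
    rw [mem_Iord, mem_pow_idealOfVars_iff, tr_dehom]
    intro s hs
    have := (hm i).1 s hs
    rw [Finsupp.degree_eq_sum, Fin.sum_univ_two]
    exact this
  · right; exact h

/-- Specialisation for all classes at once. -/
theorem transfer_all {k : Type*} [Field k] {n0 n : ℕ} (hn : n0 ≤ n) (P : Fin n0 → Fin 2 → k) :
    VeryGeneral n (fun q => ∀ (d : ℕ) (m : Fin n0 → ℕ),
      HasCurve (fun i => q (Fin.castLE hn i)) d m → HasCurve P d m) := by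
  classical
  obtain ⟨e, he⟩ := exists_surjective_nat (ℕ × (Fin n0 → ℕ))
  have hex : ∀ x : ℕ × (Fin n0 → ℕ), ∃ f : MvPolynomial (Fin n × Fin 2) ℂ, f ≠ 0 ∧
      ∀ q : Fin n → Fin 2 → ℂ, eval (fun z : Fin n × Fin 2 => q z.1 z.2) f ≠ 0 →
        HasCurve (fun i => q (Fin.castLE hn i)) x.1 x.2 → HasCurve P x.1 x.2 := by
    intro x
    by_cases hx : HasCurve P x.1 x.2
    · exact ⟨1, one_ne_zero, fun _ _ _ => hx⟩
    · obtain ⟨f, hf0, hf⟩ := transfer_one P x.1 x.2 hx
      refine ⟨rename (Prod.map (Fin.castLE hn) id) f, ?_, ?_⟩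
      · intro h
        apply hf0
        apply rename_injective (Prod.map (Fin.castLE hn) (id : Fin 2 → Fin 2))
          ((Fin.castLE_injective hn).prodMap Function.injective_id)
        rw [h, map_zero]
      · intro q hq hc
        exfalso
        refine hf (fun i => q (Fin.castLE hn i)) ?_ hc
        rw [eval_rename] at hq
        exact hq
  choose f hf0 hf using hex
  refine ⟨fun j => f (e j), fun j => hf0 _, fun q hq d m => ?_⟩
  obtain ⟨j, hj⟩ := he (d, m)
  have := hf (e j) q (hq j)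
  rw [hj] at this
  exact this

end Pool.Agent.H13
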