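import Mathlib
import Pool.Agent.H13.Genus
import Pool.Agent.H13.Mult

set_option autoImplicit false

namespace Pool.Agent.H13

open Module MvPolynomial

/-! ### Counting monomials for weights `(1,2)` -/

/-- pairs with `i + 2 j < N` -/
def twoF (N : ℕ) : Finset (ℕ × ℕ) :=
  (Finset.range N ×ˢ Finset.range N).filter (fun p => p.1 + 2 * p.2 < N)

theorem mem_twoF (N : ℕ) (p : ℕ × ℕ) : p ∈ twoF N ↔ p.1 + 2 * p.2 < N := by
  simp only [twoF, Finset.mem_filter, Finset.mem_product, Finset.mem_range]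
  omega

/-- number of pairs with `i + 2 j < N` -/
def cnt2 (N : ℕ) : ℕ := (twoF N).card

theorem cnt2_succ_succ (N : ℕ) : cnt2 (N + 2) = cnt2 N + (N + 2) := by
  classical
  have h : twoF (N + 2) = (Finset.range (N + 2)).image (fun i => (i, 0)) ∪
      (twoF N).image (fun p => (p.1, p.2 + 1)) := by
    ext ⟨i, j⟩
    rw [mem_twoF, Finset.mem_union, Finset.mem_image, Finset.mem_image]
    constructor
    · intro h
      simp only at h
      rcases j with _ | j
      · left; exact ⟨i, Finset.mem_range.2 (by omega), rfl⟩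
      · right; exact ⟨(i, j), (mem_twoF _ _).2 (by simp only; omega), rfl⟩
    · rintro (⟨i', h, he⟩ | ⟨⟨i', j'⟩, h, he⟩)
      · have h1 := congrArg Prod.fst he
        have h2 := congrArg Prod.snd he
        rw [Finset.mem_range] at h
        simp only at h1 h2 ⊢
        omega
      · have h1 := congrArg Prod.fst he
        have h2 := congrArg Prod.snd he
        rw [mem_twoF] at h
        simp only at h h1 h2 ⊢
        omega
  rw [cnt2, h, Finset.card_union_of_disjoint, Finset.card_image_of_injective,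
    Finset.card_image_of_injective, Finset.card_range, cnt2]
  · ring
  · rintro ⟨a1, a2⟩ ⟨b1, b2⟩ h
    have h1 := congrArg Prod.fst h
    have h2 := congrArg Prod.snd h
    simp only at h1 h2
    exact Prod.ext h1 (by simp only; omega)
  · intro a b h
    exact congrArg Prod.fst h
  · rw [Finset.disjoint_left]
    rintro ⟨i, j⟩ h1 h2
    rw [Finset.mem_image] at h1 h2
    obtain ⟨a, _, ha⟩ := h1
    obtain ⟨b, _, hb⟩ := h2
    have e1 := congrArg Prod.snd ha
    have e2 := congrArg Prod.snd hb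
    simp only at e1 e2
    omega

theorem four_mul_cnt2 (N : ℕ) : 4 * cnt2 N + (N + 1) % 2 = (N + 1) ^ 2 := by
  induction N using Nat.strong_induction_on with
  | _ N ih =>
    rcases N with _ | _ | N
    · decide
    · decide
    · have h1 := ih N (by omega)
      have h2 := cnt2_succ_succ N
      have h3 : (N + 1 + 1 + 1) % 2 = (N + 1) % 2 := by omega
      rw [h2, h3]
      nlinarith

variable {k : Type*} [Field k]

/-! ### The map `ψ` -/

/-- `ψ : w ↦ ζ²` -/
noncomputable def psi (k : Type*) [Field k] : MvPolynomial (Fin 2) k →ₐ[k] MvPolynomial (Fin 2) k :=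
  aeval ![X 0, X 1 ^ 2]

@[simp] theorem psi_X0 : psi k (X 0) = X 0 := by simp [psi]
@[simp] theorem psi_X1 : psi k (X 1) = X 1 ^ 2 := by simp [psi]
@[simp] theorem psi_C (c : k) : psi k (C c) = C c := by simp [psi]

theorem psi_monomial (p : ℕ × ℕ) (c : k) :
    psi k (monomial (expo p) c) = monomial (expo (p.1, 2 * p.2)) c := by
  rw [psi, aeval_monomial, monomial_eq]
  rw [Finsupp.prod_fintype _ _ (by intro; simp), Finsupp.prod_fintype _ _ (by intro; simp),
    Fin.prod_univ_two, Fin.prod_univ_two]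
  simp [← pow_mul]

theorem coeff_psi (φ : MvPolynomial (Fin 2) k) (p : ℕ × ℕ) :
    coeff (expo (p.1, 2 * p.2)) (psi k φ) = coeff (expo p) φ := by
  classical
  induction φ using MvPolynomial.induction_on' with
  | monomial s a =>
    obtain ⟨q, rfl⟩ : ∃ q, expo q = s := ⟨_, expo_surj s⟩
    rw [psi_monomial, coeff_monomial, coeff_monomial]
    by_cases h : expo q = expo p
    · rw [if_pos h, if_pos]
      rw [expo_inj h]
    · rw [if_neg h, if_neg]
      intro h'
      apply h
      have h1 := DFunLike.congr_fun h' 0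
      have h2 := DFunLike.congr_fun h' 1
      simp only [expo_zero, expo_one] at h1 h2
      have h3 : q = p := Prod.ext h1 (by omega)
      rw [h3]
  | add a b ha hb => rw [map_add, coeff_add, coeff_add, ha, hb]

theorem coeff_psi_odd (φ : MvPolynomial (Fin 2) k) (p : ℕ × ℕ) (h : p.2 % 2 = 1) :
    coeff (expo p) (psi k φ) = 0 := by
  classical
  induction φ using MvPolynomial.induction_on' with
  | monomial s a =>
    obtain ⟨q, rfl⟩ : ∃ q, expo q = s := ⟨_, expo_surj s⟩
    rw [psi_monomial, coeff_monomial, if_neg]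
    intro h'
    have := congrArg Prod.snd (expo_inj h')
    simp only at this
    omega
  | add a b ha hb => rw [map_add, coeff_add, ha, hb, add_zero]

theorem psi_injective : Function.Injective (psi k) := by
  rw [injective_iff_map_eq_zero]
  intro φ h
  ext s
  obtain ⟨q, rfl⟩ : ∃ q, expo q = s := ⟨_, expo_surj s⟩
  rw [← coeff_psi, h, coeff_zero, coeff_zero]

theorem psi_ne_zero {φ : MvPolynomial (Fin 2) k} (h : φ ≠ 0) : psi k φ ≠ 0 := by
  intro h'
  exact h (psi_injective (by rw [h', map_zero]))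

/-- weighted degree -/
noncomputable def wd (φ : MvPolynomial (Fin 2) k) : ℕ := (psi k φ).totalDegree

theorem wd_mul {φ χ : MvPolynomial (Fin 2) k} (h1 : φ ≠ 0) (h2 : χ ≠ 0) :
    wd (φ * χ) = wd φ + wd χ := by
  rw [wd, map_mul, totalDegree_mul_of_isDomain (psi_ne_zero h1) (psi_ne_zero h2)]; rfl

theorem wd_mul_le (φ χ : MvPolynomial (Fin 2) k) : wd (φ * χ) ≤ wd φ + wd χ := by
  rw [wd, map_mul]; exact totalDegree_mul _ _

theorem wd_le_iff {φ : MvPolynomial (Fin 2) k} {t : ℕ} :
    wd φ ≤ t ↔ ∀ s ∈ φ.support, s 0 + 2 * s 1 ≤ t := by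
  constructor
  · intro h s hs
    obtain ⟨q, rfl⟩ : ∃ q, expo q = s := ⟨_, expo_surj s⟩
    have h1 : expo (q.1, 2 * q.2) ∈ (psi k φ).support := by
      rw [MvPolynomial.mem_support_iff, coeff_psi]
      exact MvPolynomial.mem_support_iff.1 hs
    have h2 := (le_totalDegree h1).trans h
    change (expo (q.1, 2 * q.2)).degree ≤ t at h2
    rw [expo_degree] at h2
    simpa using h2
  · intro h
    rw [wd, totalDegree, Finset.sup_le_iff]
    intro s hs
    obtain ⟨⟨i, j⟩, rfl⟩ : ∃ q, expo q = s := ⟨_, expo_surj s⟩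
    change (expo (i, j)).degree ≤ t
    rw [expo_degree]
    rcases Nat.even_or_odd j with ⟨r, hr⟩ | ⟨r, hr⟩
    · have hj : j = 2 * r := by omega
      subst hj
      rw [MvPolynomial.mem_support_iff] at hs
      have h1 := coeff_psi φ (i, r)
      simp only at h1
      rw [h1] at hs
      have := h _ (MvPolynomial.mem_support_iff.2 hs)
      simpa using this
    · exfalso
      rw [MvPolynomial.mem_support_iff] at hs
      exact hs (coeff_psi_odd φ (i, j) (by simp only; omega))

/-- Weighted degree filtration. -/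
noncomputable def Vw (k : Type*) [Field k] (t : ℕ) : Submodule k (MvPolynomial (Fin 2) k) :=
  restrictSupport k {s | s 0 + 2 * s 1 ≤ t}

theorem mem_Vw {t : ℕ} {φ : MvPolynomial (Fin 2) k} : φ ∈ Vw k t ↔ wd φ ≤ t := by
  rw [wd_le_iff]; rfl

noncomputable def equivTwo (t : ℕ) :
    {s : Fin 2 →₀ ℕ | s 0 + 2 * s 1 ≤ t} ≃ twoF (t + 1) :=
  (Equiv.subtypeEquiv expoEquiv (fun p => by
    rw [mem_twoF]
    change _ ↔ (expo p) 0 + 2 * (expo p) 1 ≤ t
    simp only [expo_zero, expo_one]
    omega)).symm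

theorem finrank_Vw (t : ℕ) : finrank k (Vw k t) = cnt2 (t + 1) := by
  have b := basisRestrictSupport k (σ := Fin 2) {s : Fin 2 →₀ ℕ | s 0 + 2 * s 1 ≤ t}
  have h := Module.finrank_eq_nat_card_basis b
  rw [Vw, h, Nat.card_congr (equivTwo t)]
  simp [cnt2]

instance finite_Vw (t : ℕ) : FiniteDimensional k (Vw k t) := by
  have b := basisRestrictSupport k (σ := Fin 2) {s : Fin 2 →₀ ℕ | s 0 + 2 * s 1 ≤ t}
  have : Finite {s : Fin 2 →₀ ℕ | s 0 + 2 * s 1 ≤ t} := Finite.of_equiv _ (equivTwo t).symm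
  exact Module.Finite.of_basis b

theorem Vw_mono : Monotone (Vw k) := by
  intro s t h p hp
  rw [mem_Vw] at *
  omega

/-! ### Local ideals downstairs -/

/-- The ideal downstairs of polynomials whose pull-back vanishes to order `N` at `P`. -/
noncomputable def Jord (P : Fin 2 → k) (N : ℕ) : Ideal (MvPolynomial (Fin 2) k) :=
  (Iord P N).comap (psi k)

theorem mem_Jord {P : Fin 2 → k} {N : ℕ} {φ : MvPolynomial (Fin 2) k} :
    φ ∈ Jord P N ↔ psi k φ ∈ Iord P N := by
  rw [Jord, Ideal.mem_comap]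

theorem mem_Jord_zero (P : Fin 2 → k) (φ : MvPolynomial (Fin 2) k) : φ ∈ Jord P 0 :=
  mem_Jord.2 (mem_Iord_zero _ _)

theorem Jord_mono (P : Fin 2 → k) {M N : ℕ} (h : M ≤ N) : Jord P N ≤ Jord P M :=
  Ideal.comap_mono (Iord_mono P h)

theorem mul_mem_Jord {P : Fin 2 → k} {M N : ℕ} {f g : MvPolynomial (Fin 2) k}
    (hf : f ∈ Jord P M) (hg : g ∈ Jord P N) : f * g ∈ Jord P (M + N) := by
  rw [mem_Jord] at *
  rw [map_mul]
  exact mul_mem_Iord hf hg

theorem tr_psi {P : Fin 2 → k} (hP : P 1 = 0) (φ : MvPolynomial (Fin 2) k) :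
    tr P (psi k φ) = psi k (tr P φ) := by
  induction φ using MvPolynomial.induction_on with
  | C a => rw [psi_C, tr_C, psi_C]
  | add p q hp hq => rw [map_add, map_add, map_add, map_add, hp, hq]
  | mul_X p i hp =>
    have h : tr P (psi k (X i)) = psi k (tr P (X i)) := by
      match i with
      | 0 => rw [psi_X0, tr_X, map_add, psi_X0, psi_C]
      | 1 => rw [psi_X1, map_pow, tr_X, hP, C_0, add_zero, psi_X1]
    rw [map_mul, map_mul, hp, h, map_mul, map_mul]

/-- jets for weighted points -/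
noncomputable def wjet (P : Fin 2 → k) (N : ℕ) : MvPolynomial (Fin 2) k →ₗ[k] (twoF N → k) :=
  LinearMap.pi fun p => (MvPolynomial.lcoeff k (expo p.1)).comp (tr P).toLinearMap

theorem wjet_apply (P : Fin 2 → k) (N : ℕ) (f : MvPolynomial (Fin 2) k) (p : twoF N) :
    wjet P N f p = (tr P f).coeff (expo p.1) := rfl

theorem wjet_eq_zero_iff {P : Fin 2 → k} (hP : P 1 = 0) {N : ℕ} {f : MvPolynomial (Fin 2) k} :
    wjet P N f = 0 ↔ f ∈ Jord P N := by
  rw [mem_Jord, mem_Iord', tr_psi hP]
  constructor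
  · intro h s hs
    obtain ⟨⟨i, j⟩, rfl⟩ : ∃ q, expo q = s := ⟨_, expo_surj s⟩
    rw [expo_degree] at hs
    rcases Nat.even_or_odd j with ⟨r, hr⟩ | ⟨r, hr⟩
    · have hj : j = 2 * r := by omega
      subst hj
      have h1 := coeff_psi (tr P f) (i, r)
      simp only at h1
      rw [h1]
      have h2 : (i, r) ∈ twoF N := by rw [mem_twoF]; exact hs
      have := congrFun h ⟨_, h2⟩
      rw [wjet_apply] at this
      exact this
    · exact coeff_psi_odd _ (i, j) (by simp only; omega)
  · intro h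
    funext p
    rw [wjet_apply, ← coeff_psi]
    apply h
    rw [expo_degree]
    exact (mem_twoF _ _).1 p.2

theorem wjet_surjective (P : Fin 2 → k) (N : ℕ) : Function.Surjective (wjet P N) := by
  classical
  intro v
  refine ⟨tr (-P) (∑ p : twoF N, monomial (expo p.1) (v p)), ?_⟩
  funext q
  rw [wjet_apply, tr_tr_neg, coeff_sum]
  simp only [coeff_monomial]
  rw [Finset.sum_eq_single q]
  · simp
  · intro b _ hb
    rw [if_neg]
    intro h
    exact hb (Subtype.ext (expo_inj h))
  · intro h; exact absurd (Finset.mem_univ q) h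

noncomputable def quotWjet {P : Fin 2 → k} (hP : P 1 = 0) (N : ℕ) :
    (MvPolynomial (Fin 2) k ⧸ Jord P N) ≃ₗ[k] (twoF N → k) :=
  (Submodule.Quotient.restrictScalarsEquiv k (Jord P N)).symm.trans
    ((Submodule.quotEquivOfEq _ _ (by
      ext f
      rw [LinearMap.mem_ker, wjet_eq_zero_iff hP]
      rfl)).trans
    ((wjet P N).quotKerEquivOfSurjective (wjet_surjective P N)))

theorem finite_quot_Jord_a {P : Fin 2 → k} (hP : P 1 = 0) (N : ℕ) :
    FiniteDimensional k (MvPolynomial (Fin 2) k ⧸ Jord P N) :=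
  Module.Finite.equiv (quotWjet hP N).symm

theorem finrank_quot_Jord_a {P : Fin 2 → k} (hP : P 1 = 0) (N : ℕ) :
    finrank k (MvPolynomial (Fin 2) k ⧸ Jord P N) = cnt2 N := by
  rw [(quotWjet hP N).finrank_eq, Module.finrank_pi]
  simp [cnt2]

/-! ### The reflection -/

/-- the reflection `ζ ↦ -ζ` -/
noncomputable def tau (k : Type*) [Field k] : MvPolynomial (Fin 2) k →ₐ[k] MvPolynomial (Fin 2) k :=
  aeval ![X 0, -X 1]

@[simp] theorem tau_X0 : tau k (X 0) = X 0 := by simp [tau]
@[simp] theorem tau_X1 : tau k (X 1) = -X 1 := by simp [tau]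
@[simp] theorem tau_C (c : k) : tau k (C c) = C c := by simp [tau]

theorem tau_tau (f : MvPolynomial (Fin 2) k) : tau k (tau k f) = f := by
  have : (tau k).comp (tau k) = AlgHom.id k _ := by
    apply MvPolynomial.algHom_ext
    intro i
    rw [AlgHom.comp_apply, AlgHom.id_apply]
    match i with
    | 0 => rw [tau_X0, tau_X0]
    | 1 => rw [tau_X1, map_neg, tau_X1, neg_neg]
  exact DFunLike.congr_fun this f

theorem tau_injective : Function.Injective (tau k) :=
  Function.LeftInverse.injective tau_tau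

theorem coeff_tau (f : MvPolynomial (Fin 2) k) (s : Fin 2 →₀ ℕ) :
    coeff s (tau k f) = (-1) ^ (s 1) * coeff s f := by
  classical
  induction f using MvPolynomial.induction_on' with
  | monomial q a =>
    obtain ⟨⟨i, j⟩, rfl⟩ : ∃ q', expo q' = q := ⟨_, expo_surj q⟩
    have h : tau k (monomial (expo (i, j)) a) = monomial (expo (i, j)) ((-1) ^ j * a) := by
      rw [tau, aeval_monomial, Finsupp.prod_fintype _ _ (by intro; simp), Fin.prod_univ_two,
        monomial_eq, Finsupp.prod_fintype _ _ (by intro; simp), Fin.prod_univ_two]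
      simp only [expo_zero, expo_one, Matrix.cons_val_zero, Matrix.cons_val_one, algebraMap_eq,
        C_mul, C_pow, C_neg, C_1]
      rw [neg_pow (X 1 : MvPolynomial (Fin 2) k)]
      ring
    rw [h, coeff_monomial, coeff_monomial]
    by_cases hs : expo (i, j) = s
    · subst hs
      rw [if_pos rfl, if_pos rfl, expo_one]
    · rw [if_neg hs, if_neg hs, mul_zero]
  | add a b ha hb => rw [map_add, coeff_add, coeff_add, ha, hb, mul_add]

/-- reflected point -/
def refl (P : Fin 2 → k) : Fin 2 → k := ![P 0, -P 1]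

theorem tr_tau (P : Fin 2 → k) (f : MvPolynomial (Fin 2) k) :
    tr P (tau k f) = tau k (tr (refl P) f) := by
  have : (tr P).comp (tau k) = (tau k).comp (tr (refl P)) := by
    apply MvPolynomial.algHom_ext
    intro i
    rw [AlgHom.comp_apply, AlgHom.comp_apply]
    match i with
    | 0 => rw [tau_X0, tr_X, tr_X, map_add, tau_X0, tau_C]; rfl
    | 1 =>
      rw [tau_X1, map_neg, tr_X, tr_X, map_add, tau_X1, tau_C]
      have : refl P 1 = - P 1 := rfl
      rw [this, C_neg]
      ring
  exact DFunLike.congr_fun this f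

theorem refl_refl (P : Fin 2 → k) : refl (refl P) = P := by
  funext i
  match i with
  | 0 => rfl
  | 1 => exact neg_neg _

theorem tau_mem_Iord {P : Fin 2 → k} {N : ℕ} {f : MvPolynomial (Fin 2) k}
    (h : f ∈ Iord (refl P) N) : tau k f ∈ Iord P N := by
  rw [mem_Iord'] at *
  intro s hs
  rw [tr_tau, coeff_tau, h s hs, mul_zero]

theorem tau_psi (φ : MvPolynomial (Fin 2) k) : tau k (psi k φ) = psi k φ := by
  have : (tau k).comp (psi k) = psi k := by
    apply MvPolynomial.algHom_ext
    intro i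
    rw [AlgHom.comp_apply]
    match i with
    | 0 => rw [psi_X0, tau_X0]
    | 1 => rw [psi_X1, map_pow, tau_X1, neg_sq]
  exact DFunLike.congr_fun this φ

/-- invariants are in the image of `ψ` -/
theorem exists_psi (h2 : (2 : k) ≠ 0) {f : MvPolynomial (Fin 2) k} (hf : tau k f = f) :
    ∃ φ, psi k φ = f := by
  classical
  refine ⟨∑ s ∈ f.support, monomial (expo (s 0, s 1 / 2)) (coeff s f), ?_⟩
  rw [map_sum]
  conv_rhs => rw [f.as_sum]
  refine Finset.sum_congr rfl fun s hs => ?_
  rw [psi_monomial]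
  have hodd : s 1 % 2 = 0 := by
    by_contra hne
    have h := coeff_tau f s
    rw [hf, Odd.neg_one_pow (Nat.odd_iff.2 (by omega))] at h
    have h3 : (2 : k) * coeff s f = 0 := by linear_combination h
    rcases mul_eq_zero.1 h3 with h4 | h4
    · exact h2 h4
    · exact (MvPolynomial.mem_support_iff.1 hs) h4
  have : expo (s 0, 2 * (s 1 / 2)) = s := by
    rw [show 2 * (s 1 / 2) = s 1 by omega]
    exact expo_surj s
  simp only
  rw [this]

/-! ### Local ideals at points off the branch curve -/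

theorem psi_surj_mod (h2 : (2 : k) ≠ 0) {P : Fin 2 → k} (hP : P 1 ≠ 0) (N : ℕ)
    (f : MvPolynomial (Fin 2) k) : ∃ φ, psi k φ - f ∈ Iord P N := by
  have hne : P ≠ refl P := by
    intro h
    have h1 : P 1 = - P 1 := congrFun h 1
    have h3 : (2 : k) * P 1 = 0 := by linear_combination h1
    rcases mul_eq_zero.1 h3 with h4 | h4
    · exact h2 h4
    · exact hP h4
  obtain ⟨e', he', e, he, hee⟩ := (Ideal.isCoprime_iff_exists).1 (isCoprime_Iord hne N N)
  obtain ⟨φ, hφ⟩ := exists_psi h2 (f := f * e + tau k (f * e)) (by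
    rw [map_add, tau_tau, add_comm])
  refine ⟨φ, ?_⟩
  rw [hφ]
  have h3 : tau k (f * e) ∈ Iord P N := by
    rw [map_mul]
    exact Ideal.mul_mem_left _ _ (tau_mem_Iord he)
  have h4 : f * e - f ∈ Iord P N := by
    have : f * e - f = -(f * e') := by
      have : e = 1 - e' := by linear_combination hee
      rw [this]; ring
    rw [this]
    exact (Iord P N).neg_mem (Ideal.mul_mem_left _ _ he')
  have h5 : f * e + tau k (f * e) - f = (f * e - f) + tau k (f * e) := by ring
  rw [h5]
  exact (Iord P N).add_mem h4 h3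

/-- the isomorphism of local rings at points off the branch curve -/
noncomputable def quotB (h2 : (2 : k) ≠ 0) {P : Fin 2 → k} (hP : P 1 ≠ 0) (N : ℕ) :
    (MvPolynomial (Fin 2) k ⧸ Jord P N) ≃ₗ[k] (MvPolynomial (Fin 2) k ⧸ Iord P N) :=
  (Submodule.Quotient.restrictScalarsEquiv k (Jord P N)).symm.trans
    ((Submodule.quotEquivOfEq _ _ (by
      ext f
      rw [LinearMap.mem_ker]
      change f ∈ Jord P N ↔ Ideal.Quotient.mk (Iord P N) (psi k f) = 0
      rw [Ideal.Quotient.eq_zero_iff_mem]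
      rfl)).trans
    (((Ideal.Quotient.mkₐ k (Iord P N)).toLinearMap.comp
        (psi k).toLinearMap).quotKerEquivOfSurjective (by
      intro z
      obtain ⟨f, rfl⟩ := Ideal.Quotient.mk_surjective z
      obtain ⟨φ, hφ⟩ := psi_surj_mod h2 hP N f
      exact ⟨φ, Ideal.Quotient.eq.2 hφ⟩)))

theorem finite_quot_Jord_b (h2 : (2 : k) ≠ 0) {P : Fin 2 → k} (hP : P 1 ≠ 0) (N : ℕ) :
    FiniteDimensional k (MvPolynomial (Fin 2) k ⧸ Jord P N) :=
  Module.Finite.equiv (quotB h2 hP N).symm

theorem finrank_quot_Jord_b (h2 : (2 : k) ≠ 0) {P : Fin 2 → k} (hP : P 1 ≠ 0) (N : ℕ) :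
    finrank k (MvPolynomial (Fin 2) k ⧸ Jord P N) = tri N := by
  rw [(quotB h2 hP N).finrank_eq, finrank_quot_Iord]

end Pool.Agent.H13
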