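import Mathlib
import Pool.Agent.H13.Weighted
import Pool.Agent.H13.K3b

set_option autoImplicit false

namespace Pool.Agent.H13

open Module MvPolynomial

variable {k : Type*} [Field k]

/-! ### counting formulas -/

theorem cnt2_even (m : ℕ) : cnt2 (2 * m) = m * (m + 1) := by
  have h := four_mul_cnt2 (2 * m)
  have h1 : (2 * m + 1) % 2 = 1 := by omega
  rw [h1] at h
  nlinarith

theorem cnt2_odd (m : ℕ) : cnt2 (2 * m + 1) = (m + 1) ^ 2 := by
  have h := four_mul_cnt2 (2 * m + 1)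
  have h1 : (2 * m + 1 + 1) % 2 = 0 := by omega
  rw [h1] at h
  nlinarith

theorem mod_oo {x y : ℕ} (hx : x % 2 = 1) (hy : y % 2 = 1) : (x * y) % 2 = 1 := by
  rw [Nat.mul_mod, hx, hy]

theorem mod_ex {x y : ℕ} (hx : x % 2 = 0) : (x * y) % 2 = 0 := by
  rw [Nat.mul_mod, hx, Nat.zero_mul]

theorem mod_xe {x y : ℕ} (hy : y % 2 = 0) : (x * y) % 2 = 0 := by
  rw [Nat.mul_mod, hy, Nat.mul_zero]

/-! ### Coprimality -/

/-- image in the quotient plane -/
def dwn (P : Fin 2 → k) : Fin 2 → k := ![P 0, P 1 ^ 2]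

theorem X_sub_C_mem_Jord (P : Fin 2 → k) (i : Fin 2) : X i - C (dwn P i) ∈ Jord P 1 := by
  rw [mem_Jord, mem_Iord_one]
  match i with
  | 0 => rw [map_sub, psi_X0, psi_C, map_sub, eval_X, eval_C]; exact sub_self _
  | 1 => rw [map_sub, psi_X1, psi_C, map_sub, map_pow, eval_X, eval_C]; exact sub_self _

theorem pow_mem_Jord {P : Fin 2 → k} {M : ℕ} {f : MvPolynomial (Fin 2) k}
    (hf : f ∈ Jord P M) (n : ℕ) : f ^ n ∈ Jord P (M * n) := by
  rw [mem_Jord] at *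
  rw [map_pow]
  exact pow_mem_Iord hf n

theorem isCoprime_Jord {P Q : Fin 2 → k} (h : dwn P ≠ dwn Q) (M N : ℕ) :
    IsCoprime (Jord P M) (Jord Q N) := by
  obtain ⟨i, hi⟩ := Function.ne_iff.1 h
  have h0 : IsCoprime (X i - C (dwn P i) : MvPolynomial (Fin 2) k) (X i - C (dwn Q i)) := by
    refine ⟨C ((dwn Q i - dwn P i)⁻¹), -C ((dwn Q i - dwn P i)⁻¹), ?_⟩
    have hne : dwn Q i - dwn P i ≠ 0 := sub_ne_zero.2 (Ne.symm hi)
    have : C ((dwn Q i - dwn P i)⁻¹) * (X i - C (dwn P i)) +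
        -C ((dwn Q i - dwn P i)⁻¹) * (X i - C (dwn Q i)) =
        (C ((dwn Q i - dwn P i)⁻¹ * (dwn Q i - dwn P i)) : MvPolynomial (Fin 2) k) := by
      rw [C_mul, C_sub]; ring
    rw [this, inv_mul_cancel₀ hne, C_1]
  have h1 : IsCoprime ((X i - C (dwn P i) : MvPolynomial (Fin 2) k) ^ M)
      ((X i - C (dwn Q i)) ^ N) := h0.pow
  obtain ⟨a, b, hab⟩ := h1
  rw [Ideal.isCoprime_iff_exists]
  refine ⟨a * (X i - C (dwn P i)) ^ M, ?_, b * (X i - C (dwn Q i)) ^ N, ?_, hab⟩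
  · have := pow_mem_Jord (X_sub_C_mem_Jord P i) M
    rw [one_mul] at this
    exact Ideal.mul_mem_left _ _ this
  · have := pow_mem_Jord (X_sub_C_mem_Jord Q i) N
    rw [one_mul] at this
    exact Ideal.mul_mem_left _ _ this

theorem finite_quot_Jord (h2 : (2 : k) ≠ 0) (P : Fin 2 → k) (N : ℕ) :
    FiniteDimensional k (MvPolynomial (Fin 2) k ⧸ Jord P N) := by
  by_cases hP : P 1 = 0
  · exact finite_quot_Jord_a hP N
  · exact finite_quot_Jord_b h2 hP N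

/-! ### Local bounds -/

/-- twice the local intersection number is at least `c` -/
def LocW (P : Fin 2 → k) (f g : MvPolynomial (Fin 2) k) (c : ℕ) : Prop :=
  ∃ N, c ≤ 2 * finrank k (MvPolynomial (Fin 2) k ⧸ (Ideal.span {f, g} ⊔ Jord P N))

theorem LocW.a {P : Fin 2 → k} (hP : P 1 = 0) {f g : MvPolynomial (Fin 2) k} {a b : ℕ}
    (hf : f ∈ Jord P a) (hg : g ∈ Jord P b) : LocW P f g (a * b + (a * b) % 2) := by
  refine ⟨a + b - 1, ?_⟩
  have := finite_quot_Jord_a (k := k) hP (a + b - 1)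
  have := finite_quot_Jord_a (k := k) hP (b - 1)
  have := finite_quot_Jord_a (k := k) hP (a - 1)
  have h := local_abs (k := k) (Jord P (a + b - 1)) (Jord P (b - 1)) (Jord P (a - 1)) f g
    (fun x hx => Jord_mono P (by omega) (mul_mem_Jord hf hx))
    (fun x hx => Jord_mono P (by omega) (mul_mem_Jord hg hx))
  rw [finrank_quot_Jord_a hP, finrank_quot_Jord_a hP, finrank_quot_Jord_a hP] at h
  rcases Nat.eq_zero_or_pos a with ha | ha
  · subst ha; simp
  rcases Nat.eq_zero_or_pos b with hb | hb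
  · subst hb; simp
  obtain ⟨a', rfl | rfl⟩ : ∃ a', a = 2 * a' + 1 ∨ a = 2 * a' + 2 := ⟨(a - 1) / 2, by omega⟩ <;>
  obtain ⟨b', rfl | rfl⟩ : ∃ b', b = 2 * b' + 1 ∨ b = 2 * b' + 2 := ⟨(b - 1) / 2, by omega⟩
  · have e0 : 2 * a' + 1 + (2 * b' + 1) - 1 = 2 * (a' + b') + 1 := by omega
    have e1 : 2 * b' + 1 - 1 = 2 * b' := by omega
    have e2 : 2 * a' + 1 - 1 = 2 * a' := by omega
    have e3 : ((2 * a' + 1) * (2 * b' + 1)) % 2 = 1 := mod_oo (by omega) (by omega)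
    rw [e3]
    rw [e0, e1, e2, cnt2_odd, cnt2_even, cnt2_even] at h
    rw [e0]
    nlinarith
  · have e0 : 2 * a' + 1 + (2 * b' + 2) - 1 = 2 * (a' + b' + 1) := by omega
    have e1 : 2 * b' + 2 - 1 = 2 * b' + 1 := by omega
    have e2 : 2 * a' + 1 - 1 = 2 * a' := by omega
    have e3 : ((2 * a' + 1) * (2 * b' + 2)) % 2 = 0 := mod_xe (by omega)
    rw [e3]
    rw [e0, e1, e2, cnt2_odd, cnt2_even, cnt2_even] at h
    rw [e0]
    nlinarith
  · have e0 : 2 * a' + 2 + (2 * b' + 1) - 1 = 2 * (a' + b' + 1) := by omega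
    have e1 : 2 * b' + 1 - 1 = 2 * b' := by omega
    have e2 : 2 * a' + 2 - 1 = 2 * a' + 1 := by omega
    have e3 : ((2 * a' + 2) * (2 * b' + 1)) % 2 = 0 := mod_ex (by omega)
    rw [e3]
    rw [e0, e1, e2, cnt2_odd, cnt2_even, cnt2_even] at h
    rw [e0]
    nlinarith
  · have e0 : 2 * a' + 2 + (2 * b' + 2) - 1 = 2 * (a' + b' + 1) + 1 := by omega
    have e1 : 2 * b' + 2 - 1 = 2 * b' + 1 := by omega
    have e2 : 2 * a' + 2 - 1 = 2 * a' + 1 := by omega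
    have e3 : ((2 * a' + 2) * (2 * b' + 2)) % 2 = 0 := mod_ex (by omega)
    rw [e3]
    rw [e0, e1, e2, cnt2_odd, cnt2_odd, cnt2_odd] at h
    rw [e0]
    nlinarith

theorem LocW.b (h2 : (2 : k) ≠ 0) {P : Fin 2 → k} (hP : P 1 ≠ 0)
    {f g : MvPolynomial (Fin 2) k} {a b : ℕ}
    (hf : f ∈ Jord P a) (hg : g ∈ Jord P b) : LocW P f g (2 * (a * b)) := by
  refine ⟨a + b - 1, ?_⟩
  have := finite_quot_Jord_b (k := k) h2 hP (a + b - 1)
  have := finite_quot_Jord_b (k := k) h2 hP (b - 1)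
  have := finite_quot_Jord_b (k := k) h2 hP (a - 1)
  have h := local_abs (k := k) (Jord P (a + b - 1)) (Jord P (b - 1)) (Jord P (a - 1)) f g
    (fun x hx => Jord_mono P (by omega) (mul_mem_Jord hf hx))
    (fun x hx => Jord_mono P (by omega) (mul_mem_Jord hg hx))
  rw [finrank_quot_Jord_b h2 hP, finrank_quot_Jord_b h2 hP, finrank_quot_Jord_b h2 hP] at h
  have e0 := two_mul_tri (a + b - 1)
  have e1 := two_mul_tri (b - 1)
  have e2 := two_mul_tri (a - 1)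
  rcases Nat.eq_zero_or_pos a with ha | ha
  · subst ha; simp
  rcases Nat.eq_zero_or_pos b with hb | hb
  · subst hb; simp
  obtain ⟨a', rfl⟩ : ∃ a', a = a' + 1 := ⟨a - 1, by omega⟩
  obtain ⟨b', rfl⟩ : ∃ b', b = b' + 1 := ⟨b - 1, by omega⟩
  have e3 : a' + 1 + (b' + 1) - 1 = a' + b' + 1 := by omega
  rw [e3] at e0 h ⊢
  simp only [Nat.add_sub_cancel] at e1 e2 h
  nlinarith

theorem LocW.one (h2 : (2 : k) ≠ 0) {P : Fin 2 → k} {f g : MvPolynomial (Fin 2) k}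
    (hf : f ∈ Jord P 1) (hg : g ∈ Jord P 1) : LocW P f g 2 := by
  by_cases hP : P 1 = 0
  · exact LocW.a hP hf hg
  · exact LocW.b h2 hP hf hg

/-! ### Bezout -/

theorem bezout_w {ι : Type*} [Fintype ι] (h2 : (2 : k) ≠ 0) (f g : MvPolynomial (Fin 2) k)
    (d e : ℕ)
    (hf : Prime f) (hfd : wd f = d) (hge : wd g ≤ e) (hfg : ¬ f ∣ g)
    (R : ι → Fin 2 → k) (hR : Pairwise fun i j => dwn (R i) ≠ dwn (R j))
    (c : ι → ℕ) (hc : ∀ i, LocW (R i) f g (c i)) :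
    ∑ i, c i + (d * e) % 2 ≤ d * e := by
  choose N hN using hc
  set J : ι → Ideal (MvPolynomial (Fin 2) k) :=
    fun i => Ideal.span {f, g} ⊔ Jord (R i) (N i) with hJdef
  have hJc : Pairwise fun i j => IsCoprime (J i) (J j) := fun i j hij =>
    isCoprime_mono (isCoprime_Jord (hR hij) _ _) le_sup_right le_sup_right
  have : ∀ i, FiniteDimensional k (MvPolynomial (Fin 2) k ⧸ J i) := fun i => by
    have := finite_quot_Jord h2 (R i) (N i)
    exact finite_quot_of_le (k := k) (le_sup_right : Jord (R i) (N i) ≤ J i)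
  obtain ⟨hfin, hsum⟩ := finrank_quot_iInf (k := k) J hJc
  have := hfin
  obtain ⟨t0, ht0⟩ := exists_filtration_surj (Vw k) Vw_mono
    (fun a => ⟨wd a, mem_Vw.2 le_rfl⟩) (⨅ i, J i)
  have hmem : ∀ x ∈ ({f, g} : Set (MvPolynomial (Fin 2) k)), x ∈ ⨅ i, J i := by
    intro x hx
    rw [Ideal.mem_iInf]
    intro i
    exact (le_sup_left : Ideal.span {f, g} ≤ J i) (Ideal.subset_span hx)
  have hg0 : g ≠ 0 := by
    rintro rfl
    exact hfg (dvd_zero f)
  have hkey := bezout_abs (k := k) (Vw k (d + e + (2 * t0 + 1))) (Vw k (e + (2 * t0 + 1)))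
    (Vw k (d + (2 * t0 + 1))) (Vw k (2 * t0 + 1))
    f g hf.ne_zero ?_ ?_ ?_ (⨅ i, J i) (hmem f (by simp)) (hmem g (by simp))
    (ht0 _ (by omega))
  · rw [hsum] at hkey
    simp only [finrank_Vw] at hkey
    have hle : ∑ i, c i ≤ 2 * ∑ i, finrank k (MvPolynomial (Fin 2) k ⧸ J i) := by
      rw [Finset.mul_sum]
      exact Finset.sum_le_sum fun i _ => hN i
    generalize ∑ i, finrank k (MvPolynomial (Fin 2) k ⧸ J i) = S at hkey hle
    generalize ∑ i, c i = T at hle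
    obtain ⟨d', rfl | rfl⟩ : ∃ d', d = 2 * d' ∨ d = 2 * d' + 1 := ⟨d / 2, by omega⟩ <;>
    obtain ⟨e', rfl | rfl⟩ : ∃ e', e = 2 * e' ∨ e = 2 * e' + 1 := ⟨e / 2, by omega⟩
    · have e0 : 2 * d' + 2 * e' + (2 * t0 + 1) + 1 = 2 * (d' + e' + t0 + 1) := by omega
      have e1 : 2 * e' + (2 * t0 + 1) + 1 = 2 * (e' + t0 + 1) := by omega
      have e2 : 2 * d' + (2 * t0 + 1) + 1 = 2 * (d' + t0 + 1) := by omega
      have e3 : 2 * t0 + 1 + 1 = 2 * (t0 + 1) := by omega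
      have e4 : (2 * d' * (2 * e')) % 2 = 0 := mod_ex (by omega)
      rw [e0, e1, e2, e3, cnt2_even, cnt2_even, cnt2_even, cnt2_even] at hkey
      rw [e4]
      nlinarith
    · have e0 : 2 * d' + (2 * e' + 1) + (2 * t0 + 1) + 1 = 2 * (d' + e' + t0 + 1) + 1 := by omega
      have e1 : 2 * e' + 1 + (2 * t0 + 1) + 1 = 2 * (e' + t0 + 1) + 1 := by omega
      have e2 : 2 * d' + (2 * t0 + 1) + 1 = 2 * (d' + t0 + 1) := by omega
      have e3 : 2 * t0 + 1 + 1 = 2 * (t0 + 1) := by omega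
      have e4 : (2 * d' * (2 * e' + 1)) % 2 = 0 := mod_ex (by omega)
      rw [e0, e1, e2, e3, cnt2_even, cnt2_even, cnt2_odd, cnt2_odd] at hkey
      rw [e4]
      nlinarith
    · have e0 : 2 * d' + 1 + 2 * e' + (2 * t0 + 1) + 1 = 2 * (d' + e' + t0 + 1) + 1 := by omega
      have e1 : 2 * e' + (2 * t0 + 1) + 1 = 2 * (e' + t0 + 1) := by omega
      have e2 : 2 * d' + 1 + (2 * t0 + 1) + 1 = 2 * (d' + t0 + 1) + 1 := by omega
      have e3 : 2 * t0 + 1 + 1 = 2 * (t0 + 1) := by omega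
      have e4 : ((2 * d' + 1) * (2 * e')) % 2 = 0 := mod_xe (by omega)
      rw [e0, e1, e2, e3, cnt2_even, cnt2_even, cnt2_odd, cnt2_odd] at hkey
      rw [e4]
      nlinarith
    · have e0 : 2 * d' + 1 + (2 * e' + 1) + (2 * t0 + 1) + 1 = 2 * (d' + e' + t0 + 2) := by omega
      have e1 : 2 * e' + 1 + (2 * t0 + 1) + 1 = 2 * (e' + t0 + 1) + 1 := by omega
      have e2 : 2 * d' + 1 + (2 * t0 + 1) + 1 = 2 * (d' + t0 + 1) + 1 := by omega
      have e3 : 2 * t0 + 1 + 1 = 2 * (t0 + 1) := by omega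
      have e4 : ((2 * d' + 1) * (2 * e' + 1)) % 2 = 1 := mod_oo (by omega) (by omega)
      rw [e0, e1, e2, e3, cnt2_even, cnt2_even, cnt2_odd, cnt2_odd] at hkey
      rw [e4]
      nlinarith
  · intro a ha
    rw [mem_Vw] at *
    have := wd_mul_le f a
    omega
  · intro a ha
    rw [mem_Vw] at *
    have := wd_mul_le g a
    omega
  · intro a ha b hb hab
    rw [mem_Vw] at *
    have hdvd : f ∣ g * b := ⟨a, hab.symm⟩
    rcases hf.dvd_or_dvd hdvd with h | h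
    · exact absurd h hfg
    · obtain ⟨c, rfl⟩ := h
      refine ⟨c, ?_, rfl⟩
      rw [mem_Vw]
      rcases eq_or_ne c 0 with rfl | hc
      · simp [wd]
      · rw [wd_mul hf.ne_zero hc] at hb
        omega

end Pool.Agent.H13
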