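import Mathlib
import Pool.Agent.H13.WBezout
import Pool.Agent.H13.Mult

set_option autoImplicit false

namespace Pool.Agent.H13

open Module MvPolynomial

variable {k : Type*} [Field k]

/-! ### Derivative -/

theorem pderiv_psi (φ : MvPolynomial (Fin 2) k) :
    pderiv 1 (psi k φ) = 2 * X 1 * psi k (pderiv 1 φ) := by
  induction φ using MvPolynomial.induction_on with
  | C a => rw [psi_C, pderiv_C, map_zero, mul_zero]
  | add p q hp hq => rw [map_add, map_add, hp, hq, map_add, map_add, mul_add]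
  | mul_X p i hp =>
    have h : pderiv 1 (psi k (X i)) = 2 * X 1 * psi k (pderiv 1 (X i)) := by
      match i with
      | 0 =>
        rw [psi_X0, pderiv_X_of_ne (by decide), map_zero, mul_zero]
      | 1 =>
        rw [psi_X1, pderiv_X_self, map_one, mul_one, pderiv_pow, pderiv_X_self]
        norm_num
    rw [map_mul, pderiv_mul, hp, h, pderiv_mul, map_add, map_mul, map_mul]
    ring

theorem eval_psi (P : Fin 2 → k) (φ : MvPolynomial (Fin 2) k) :
    eval P (psi k φ) = eval (dwn P) φ := by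
  induction φ using MvPolynomial.induction_on with
  | C a => rw [psi_C, eval_C, eval_C]
  | add p q hp hq => rw [map_add, map_add, hp, hq, map_add]
  | mul_X p i hp =>
    have h : eval P (psi k (X i)) = eval (dwn P) (X i) := by
      match i with
      | 0 => rw [psi_X0, eval_X, eval_X]; rfl
      | 1 => rw [psi_X1, map_pow, eval_X, eval_X]; rfl
    rw [map_mul, map_mul, hp, h, map_mul]

open Classical in
/-- order of the companion curve -/
noncomputable def ow (P : Fin 2 → k) (C : ℕ) : ℕ := if P 1 = 0 then C - 2 else C - 1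

open Classical in
/-- number of conditions -/
noncomputable def jd (P : Fin 2 → k) (N : ℕ) : ℕ := if P 1 = 0 then cnt2 N else tri N

/-- number of adjoint conditions -/
noncomputable def tw (P : Fin 2 → k) (C : ℕ) : ℕ := jd P (ow P C)

theorem finrank_quot_Jord (h2 : (2 : k) ≠ 0) (P : Fin 2 → k) (N : ℕ) :
    finrank k (MvPolynomial (Fin 2) k ⧸ Jord P N) = jd P N := by
  by_cases hP : P 1 = 0
  · rw [finrank_quot_Jord_a hP, jd, if_pos hP]
  · rw [finrank_quot_Jord_b h2 hP, jd, if_neg hP]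

theorem cnt2_local (C : ℕ) : C * (C - 2) + (C * (C - 2)) % 2 = 4 * cnt2 (C - 2) := by
  obtain ⟨c, rfl | rfl⟩ : ∃ c, C = 2 * c ∨ C = 2 * c + 1 := ⟨C / 2, by omega⟩
  · rw [mod_ex (by omega)]
    rcases c with _ | c
    · rw [show 2 * 0 - 2 = 2 * 0 by omega, cnt2_even]
    · rw [show 2 * (c + 1) - 2 = 2 * c by omega, cnt2_even]
      ring
  · rcases c with _ | c
    · rw [show 2 * 0 + 1 - 2 = 2 * 0 by omega, cnt2_even]
    · rw [show 2 * (c + 1) + 1 - 2 = 2 * c + 1 by omega, cnt2_odd,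
        mod_oo (by omega) (by omega)]
      ring

theorem tri_local (C : ℕ) : 2 * (C * (C - 1)) = 4 * tri (C - 1) := by
  have h := two_mul_tri (C - 1)
  rcases C with _ | C
  · simp at h ⊢
    omega
  · simp only [Nat.add_sub_cancel] at h ⊢
    nlinarith

theorem LocW.pair (h2 : (2 : k) ≠ 0) {P : Fin 2 → k} {f g : MvPolynomial (Fin 2) k} {C : ℕ}
    (hf : f ∈ Jord P C) (hg : g ∈ Jord P (ow P C)) : LocW P f g (4 * tw P C) := by
  by_cases hP : P 1 = 0
  · rw [ow, if_pos hP] at hg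
    have h := LocW.a hP hf hg
    rw [cnt2_local] at h
    rw [tw, jd, ow, if_pos hP, if_pos hP]
    exact h
  · rw [ow, if_neg hP] at hg
    have h := LocW.b h2 hP hf hg
    rw [tri_local] at h
    rw [tw, jd, ow, if_neg hP, if_neg hP]
    exact h

theorem mem_Jord_pderiv (h2 : (2 : k) ≠ 0) {P : Fin 2 → k} {f : MvPolynomial (Fin 2) k} {C : ℕ}
    (hf : f ∈ Jord P C) : pderiv 1 f ∈ Jord P (ow P C) := by
  rw [mem_Jord] at *
  have h1 := pderiv_mem_Iord' 1 hf
  rw [pderiv_psi, mul_assoc] at h1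
  have h3 : X 1 * psi k (pderiv 1 f) ∈ Iord P (C - 1) := by
    refine mem_Iord_of_mul (u := 2) ?_ h1
    rw [map_ofNat]
    exact h2
  by_cases hP : P 1 = 0
  · rw [ow, if_pos hP]
    by_cases h0 : psi k (pderiv 1 f) = 0
    · rw [h0]; exact Ideal.zero_mem _
    · have hX : (X 1 : MvPolynomial (Fin 2) k) ≠ 0 := X_ne_zero 1
      rw [mem_Iord_iff_le_mult (mul_ne_zero hX h0), mult_mul hX h0] at h3
      rw [mem_Iord_iff_le_mult h0]
      have h4 : mult P (X 1 : MvPolynomial (Fin 2) k) ≤ 1 := by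
        by_contra hcon
        have h5 : (X 1 : MvPolynomial (Fin 2) k) ∈ Iord P 2 :=
          (mem_Iord_iff_le_mult hX).2 (by omega)
        rw [mem_Iord'] at h5
        have h6 := h5 (expo (0, 1)) (by rw [expo_degree]; norm_num)
        rw [tr_X, hP, C_0, add_zero] at h6
        have h7 : (X 1 : MvPolynomial (Fin 2) k) = monomial (expo (0, 1)) 1 := by
          rw [X]; congr 1; simp [expo]
        rw [h7, coeff_monomial, if_pos rfl] at h6
        exact one_ne_zero h6
      omega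
  · rw [ow, if_neg hP]
    refine mem_Iord_of_mul (u := X 1) ?_ h3
    rw [eval_X]
    exact hP

theorem wd_pderiv (h2 : (2 : k) ≠ 0) {f : MvPolynomial (Fin 2) k} (h : pderiv 1 f ≠ 0) :
    wd (pderiv 1 f) + 2 ≤ wd f := by
  have h0 := psi_ne_zero h
  have h1 := totalDegree_pderiv_le 1 (psi k f)
  rw [pderiv_psi, mul_assoc] at h1
  have h3 : (2 : MvPolynomial (Fin 2) k) = C 2 := (map_ofNat C 2).symm
  have hX : (X 1 : MvPolynomial (Fin 2) k) ≠ 0 := X_ne_zero 1
  rw [h3, totalDegree_mul_of_isDomain (by rw [Ne, C_eq_zero]; exact h2) (mul_ne_zero hX h0),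
    totalDegree_C, totalDegree_mul_of_isDomain hX h0, totalDegree_X] at h1
  change wd (pderiv 1 f) + 2 ≤ (psi k f).totalDegree
  have h4 : wd (pderiv 1 f) = (psi k (pderiv 1 f)).totalDegree := rfl
  omega

/-! ### Existence of companions -/

theorem exists_wcurve (h2 : (2 : k) ≠ 0) {ι : Type*} [Fintype ι] (R : ι → Fin 2 → k)
    (o : ι → ℕ) (e : ℕ) (h : ∑ i, jd (R i) (o i) < cnt2 (e + 1)) :
    ∃ φ : MvPolynomial (Fin 2) k, φ ≠ 0 ∧ wd φ ≤ e ∧ ∀ i, φ ∈ Jord (R i) (o i) := by
  have : ∀ i, FiniteDimensional k (MvPolynomial (Fin 2) k ⧸ Jord (R i) (o i)) :=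
    fun i => finite_quot_Jord h2 _ _
  let L : Vw k e →ₗ[k] (∀ i, MvPolynomial (Fin 2) k ⧸ Jord (R i) (o i)) :=
    (LinearMap.pi fun i => (Ideal.Quotient.mkₐ k (Jord (R i) (o i))).toLinearMap).comp
      (Vw k e).subtype
  obtain ⟨v, hv, hv0⟩ := exists_ker_ne_zero L (by
    rw [finrank_Vw, Module.finrank_pi_fintype]
    simp only [finrank_quot_Jord h2]
    exact h)
  refine ⟨v.1, fun h => hv0 (Subtype.ext h), mem_Vw.1 v.2, ?_⟩
  intro i
  have h1 : Ideal.Quotient.mk (Jord (R i) (o i)) v.1 = 0 := congrFun hv i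
  exact Ideal.Quotient.eq_zero_iff_mem.1 h1

theorem not_dvd_of_wd_lt {f g : MvPolynomial (Fin 2) k} (hg : g ≠ 0)
    (h : wd g < wd f) : ¬ f ∣ g := by
  rintro ⟨c, rfl⟩
  have hf : f ≠ 0 := left_ne_zero_of_mul hg
  have hc : c ≠ 0 := right_ne_zero_of_mul hg
  rw [wd_mul hf hc] at h
  omega

theorem jd_one (P : Fin 2 → k) : jd P 1 = 1 := by
  by_cases hP : P 1 = 0
  · rw [jd, if_pos hP]; decide
  · rw [jd, if_neg hP]; decide

/-- points on a curve, lifted to the double plane -/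
theorem exists_points_w [IsAlgClosed k] {f : MvPolynomial (Fin 2) k} (hf : Prime f)
    {ι : Type*} [Finite ι] (P : ι → Fin 2 → k) (r : ℕ) :
    ∃ Q : Fin r → Fin 2 → k, (Pairwise fun i j => dwn (Q i) ≠ dwn (Q j)) ∧
      (∀ j, f ∈ Jord (Q j) 1) ∧ (∀ i j, dwn (P i) ≠ dwn (Q j)) := by
  obtain ⟨Q, hQinj, hQf, -, hPQ⟩ := exists_points hf (u := 1)
    (fun h => hf.not_isUnit (isUnit_of_dvd_one h)) (fun i => dwn (P i)) r
  have hsq : ∀ j, ∃ z : k, z ^ 2 = Q j 1 := fun j =>
    IsAlgClosed.exists_pow_nat_eq (Q j 1) (by norm_num)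
  choose z hz using hsq
  have hd : ∀ j, dwn (![Q j 0, z j] : Fin 2 → k) = Q j := by
    intro j
    funext i
    match i with
    | 0 => rfl
    | 1 => exact hz j
  refine ⟨fun j => ![Q j 0, z j], ?_, ?_, ?_⟩
  · intro i j hij
    rw [hd, hd]
    exact fun h => hij (hQinj h)
  · intro j
    rw [mem_Jord, mem_Iord_one, eval_psi, hd]
    exact hQf j
  · intro i j
    rw [hd]
    exact hPQ i j

/-- The weighted genus bound. -/
theorem genus_w [IsAlgClosed k] (h2 : (2 : k) ≠ 0) {ι : Type*} [Fintype ι] (P : ι → Fin 2 → k)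
    (hP : Pairwise fun i j => dwn (P i) ≠ dwn (P j)) (f : MvPolynomial (Fin 2) k) (hf : Prime f)
    (C : ι → ℕ) (hC : ∀ i, f ∈ Jord (P i) (C i)) (hd : pderiv 1 f ≠ 0) (e : ℕ)
    (he : wd f = e + 2) :
    4 * ∑ i, tw (P i) (C i) + e % 2 ≤ e ^ 2 := by
  have hwd := wd_pderiv h2 hd
  have hndvd : ¬ f ∣ pderiv 1 f := not_dvd_of_wd_lt hd (by omega)
  have h1 := bezout_w h2 f (pderiv 1 f) (e + 2) e hf he (by omega) hndvd P hP
    (fun i => 4 * tw (P i) (C i)) (fun i => LocW.pair h2 (hC i) (mem_Jord_pderiv h2 (hC i)))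
  rw [← Finset.mul_sum] at h1
  have hpar : ((e + 2) * e) % 2 = e % 2 := by
    rcases Nat.even_or_odd e with h | h
    · rw [Nat.even_iff] at h
      rw [mod_xe h, h]
    · rw [Nat.odd_iff] at h
      rw [mod_oo (by omega) h, h]
  rw [hpar] at h1
  have h4c : 4 * cnt2 (e + 1) + (e + 1 + 1) % 2 = (e + 1 + 1) ^ 2 := four_mul_cnt2 (e + 1)
  have hpar2 : (e + 1 + 1) % 2 = e % 2 := by omega
  rw [hpar2] at h4c
  set S := ∑ i, tw (P i) (C i) with hS
  have hlt : S + 1 ≤ cnt2 (e + 1) := by nlinarith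
  obtain ⟨r, hr⟩ : ∃ r, S + r + 1 = cnt2 (e + 1) := ⟨cnt2 (e + 1) - S - 1, by omega⟩
  obtain ⟨Q, hQ, hQf, hPQ⟩ := exists_points_w hf P r
  have hpair : Pairwise fun i j => dwn (Sum.elim P Q i) ≠ dwn (Sum.elim P Q j) := by
    rintro (i | i) (j | j) hij
    · exact hP (fun h => hij (by rw [h]))
    · exact hPQ i j
    · exact (hPQ j i).symm
    · exact hQ (fun h => hij (by rw [h]))
  obtain ⟨φ, hφ0, hφd, hφ⟩ := exists_wcurve h2 (Sum.elim P Q)
    (Sum.elim (fun i => ow (P i) (C i)) (fun _ => 1)) e (by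
      rw [Fintype.sum_sum_type]
      simp only [Sum.elim_inl, Sum.elim_inr, jd_one, Finset.sum_const, Finset.card_univ,
        Fintype.card_fin, smul_eq_mul, mul_one]
      change S + r < _
      omega)
  have hndvd' : ¬ f ∣ φ := not_dvd_of_wd_lt hφ0 (by omega)
  have h3 := bezout_w h2 f φ (e + 2) e hf he hφd hndvd' (Sum.elim P Q) hpair
    (Sum.elim (fun i => 4 * tw (P i) (C i)) (fun _ => 2)) (by
      rintro (i | j)
      · exact LocW.pair h2 (hC i) (hφ (Sum.inl i))
      · exact LocW.one h2 (hQf j) (hφ (Sum.inr j)))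
  rw [Fintype.sum_sum_type] at h3
  simp only [Sum.elim_inl, Sum.elim_inr, Finset.sum_const, Finset.card_univ,
    Fintype.card_fin, smul_eq_mul] at h3
  rw [← Finset.mul_sum, hpar, ← hS] at h3
  nlinarith

/-! ### The case of vanishing derivative -/

theorem vertical_of_pderiv [CharZero k] [IsAlgClosed k] {f : MvPolynomial (Fin 2) k}
    (hf : Prime f) (hd : pderiv 1 f = 0) :
    ∃ u c : k, c ≠ 0 ∧ f = C c * (X 0 - C u) := by
  obtain ⟨Q, -, hQf, -, -⟩ := exists_points hf (u := 1)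
    (fun h => hf.not_isUnit (isUnit_of_dvd_one h)) (fun _ : Fin 0 => (0 : Fin 2 → k)) 1
  set q := Q 0 with hq
  have hQ0 := hQf 0
  rw [← hq] at hQ0
  set g := tr q f with hg
  have hgd : pderiv 1 g = 0 := by rw [hg, pderiv_tr, hd, map_zero]
  have hsupp : ∀ s ∈ g.support, s 1 = 0 := by
    intro s hs
    by_contra hne
    have h1 : coeff (s - Finsupp.single 1 1) (pderiv 1 g) = 0 := by rw [hgd, coeff_zero]
    rw [coeff_pderiv] at h1
    have h3 : s - Finsupp.single 1 1 + Finsupp.single 1 1 = s := by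
      apply tsub_add_cancel_of_le
      rw [Finsupp.single_le_iff]
      omega
    rw [h3] at h1
    rcases mul_eq_zero.1 h1 with h4 | h4
    · exact (MvPolynomial.mem_support_iff.1 hs) h4
    · have : (((s - Finsupp.single 1 1 : Fin 2 →₀ ℕ) 1 : ℕ) : k) + 1 ≠ 0 := Nat.cast_add_one_ne_zero _
      exact this h4
  have h0 : coeff 0 g = 0 := by
    rw [← constantCoeff_eq, hg, constantCoeff_tr, hQ0]
  have hdvd : (X 0 : MvPolynomial (Fin 2) k) ∣ g := by
    rw [g.as_sum]
    refine Finset.dvd_sum fun s hs => ?_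
    have hs1 := hsupp s hs
    have hs0 : s 0 ≠ 0 := by
      intro h
      have : s = 0 := by
        ext i
        match i with
        | 0 => exact h
        | 1 => exact hs1
      rw [this] at hs
      exact (MvPolynomial.mem_support_iff.1 hs) h0
    have h5 : s = Finsupp.single 0 1 + (s - Finsupp.single 0 1) := by
      rw [add_tsub_cancel_of_le]
      rw [Finsupp.single_le_iff]
      omega
    refine ⟨monomial (s - Finsupp.single 0 1) (coeff s g), ?_⟩
    rw [X, monomial_mul, one_mul, ← h5]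
  have hdvd2 : (X 0 - C (q 0) : MvPolynomial (Fin 2) k) ∣ f := by
    obtain ⟨c, hc⟩ := hdvd
    have h6 := congrArg (tr (-q)) hc
    rw [hg, tr_neg_tr, map_mul, tr_X] at h6
    refine ⟨tr (-q) c, ?_⟩
    rw [h6]
    congr 1
    rw [Pi.neg_apply, C_neg, sub_eq_add_neg]
  obtain ⟨c, hc⟩ := hdvd2
  have hnu : ¬ IsUnit (X 0 - C (q 0) : MvPolynomial (Fin 2) k) := by
    intro hu
    have := (mult_unit (P := q) hu).1
    have hne : (X 0 - C (q 0) : MvPolynomial (Fin 2) k) ≠ 0 := hu.ne_zero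
    have h7 := (mem_Iord_iff_le_mult hne).1 (X_sub_C_mem_Iord q 0)
    omega
  have hcu : IsUnit c := (hf.irreducible.isUnit_or_isUnit hc).resolve_left hnu
  have h8 := (mult_unit (P := q) hcu).2
  rw [totalDegree_eq_zero_iff_eq_C] at h8
  refine ⟨q 0, coeff 0 c, ?_, ?_⟩
  · intro h9
    rw [h9, C_0] at h8
    exact hcu.ne_zero h8
  · rw [← h8, mul_comm]
    exact hc

open Classical in
/-- the genus contribution of a point -/
noncomputable def gw (P : Fin 2 → k) (C : ℕ) : ℤ :=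
  if P 1 = 0 then (C : ℤ) * (C - 2) else 2 * ((C : ℤ) * (C - 1))

theorem gw_le_tw (P : Fin 2 → k) (C : ℕ) : gw P C ≤ 4 * (tw P C : ℤ) := by
  by_cases hP : P 1 = 0
  · rw [gw, if_pos hP, tw, jd, if_pos hP, ow, if_pos hP]
    have h := cnt2_local C
    have h' : ((C * (C - 2) : ℕ) : ℤ) ≤ 4 * (cnt2 (C - 2) : ℤ) := by
      have : C * (C - 2) ≤ 4 * cnt2 (C - 2) := by omega
      exact_mod_cast this
    refine le_trans ?_ h'
    rcases C with _ | _ | C
    · simp
    · simp
    · rw [show C + 1 + 1 - 2 = C by omega]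
      push_cast
      nlinarith
  · rw [gw, if_neg hP, tw, jd, if_neg hP, ow, if_neg hP]
    have h := tri_local C
    have h' : ((2 * (C * (C - 1)) : ℕ) : ℤ) = 4 * (tri (C - 1) : ℤ) := by
      rw [h]; push_cast; ring
    rw [← h']
    rcases C with _ | C
    · simp
    · rw [show C + 1 - 1 = C by omega]
      push_cast
      nlinarith

theorem gw_nonpos (P : Fin 2 → k) {C : ℕ} (hC : C ≤ 1) : gw P C ≤ 0 := by
  by_cases hP : P 1 = 0
  · rw [gw, if_pos hP]
    interval_cases C <;> simp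
  · rw [gw, if_neg hP]
    interval_cases C <;> simp

theorem wd_vertical (u : k) : wd (X 0 - C u : MvPolynomial (Fin 2) k) = 1 := by
  rw [wd, map_sub, psi_X0, psi_C]
  apply le_antisymm
  · refine (totalDegree_sub _ _).trans ?_
    rw [totalDegree_X, totalDegree_C]
    simp
  · have h1 : coeff (expo (1, 0)) (X 0 - C u : MvPolynomial (Fin 2) k) = 1 := by
      classical
      have h7 : (X 0 : MvPolynomial (Fin 2) k) = monomial (expo (1, 0)) 1 := by
        rw [X]; congr 1; simp [expo]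
      rw [h7, coeff_sub, coeff_monomial, if_pos rfl, coeff_C, if_neg, sub_zero]
      intro h
      have := DFunLike.congr_fun h 0
      simp at this
    have h2 : expo (1, 0) ∈ (X 0 - C u : MvPolynomial (Fin 2) k).support := by
      rw [MvPolynomial.mem_support_iff, h1]; exact one_ne_zero
    have h3 := le_totalDegree h2
    change (expo (1, 0)).degree ≤ _ at h3
    rw [expo_degree] at h3
    exact h3

theorem mult_vertical_le (u : k) (P : Fin 2 → k) {N : ℕ}
    (h : (X 0 - C u : MvPolynomial (Fin 2) k) ∈ Jord P N) : N ≤ 1 := by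
  rw [mem_Jord, map_sub, psi_X0, psi_C] at h
  by_contra hcon
  have h5 : (X 0 - C u : MvPolynomial (Fin 2) k) ∈ Iord P 2 := Iord_mono P (by omega) h
  rw [mem_Iord'] at h5
  have h6 := h5 (expo (1, 0)) (by rw [expo_degree]; norm_num)
  classical
  have h7 : (X 0 : MvPolynomial (Fin 2) k) = monomial (expo (1, 0)) 1 := by
    rw [X]; congr 1; simp [expo]
  have h8 : ∀ c : k, coeff (expo (1, 0)) (C c : MvPolynomial (Fin 2) k) = 0 := by
    intro c
    rw [coeff_C, if_neg]
    intro h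
    have := DFunLike.congr_fun h 0
    simp at this
  rw [map_sub, tr_X, tr_C, coeff_sub, coeff_add, h8, h8, h7, coeff_monomial, if_pos rfl,
    add_zero, sub_zero] at h6
  exact one_ne_zero h6

/-- The weighted genus bound, integral form. -/
theorem genus_w' [CharZero k] [IsAlgClosed k] {ι : Type*} [Fintype ι] (P : ι → Fin 2 → k)
    (hP : Pairwise fun i j => dwn (P i) ≠ dwn (P j)) (f : MvPolynomial (Fin 2) k) (hf : Prime f)
    (C : ι → ℕ) (hC : ∀ i, f ∈ Jord (P i) (C i)) :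
    ∑ i, gw (P i) (C i) ≤ ((wd f : ℤ) - 2) ^ 2 := by
  have h2 : (2 : k) ≠ 0 := two_ne_zero
  by_cases hd : pderiv 1 f = 0
  · obtain ⟨u, c, hc, hfu⟩ := vertical_of_pderiv hf hd
    have hle : ∀ i, C i ≤ 1 := by
      intro i
      apply mult_vertical_le u (P i)
      have h3 := hC i
      rw [hfu] at h3
      have h4 : (X 0 - MvPolynomial.C u : MvPolynomial (Fin 2) k) =
          MvPolynomial.C c⁻¹ * (MvPolynomial.C c * (X 0 - MvPolynomial.C u)) := by
        rw [← mul_assoc, ← C_mul, inv_mul_cancel₀ hc, C_1, one_mul]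
      rw [h4]
      exact Ideal.mul_mem_left _ _ h3
    calc ∑ i, gw (P i) (C i) ≤ 0 := Finset.sum_nonpos fun i _ => gw_nonpos _ (hle i)
      _ ≤ _ := sq_nonneg _
  · have hwd := wd_pderiv h2 hd
    obtain ⟨e, he⟩ : ∃ e, wd f = e + 2 := ⟨wd f - 2, by omega⟩
    have h := genus_w h2 P hP f hf C hC hd e he
    have h3 : ∑ i, gw (P i) (C i) ≤ 4 * ∑ i, (tw (P i) (C i) : ℤ) := by
      rw [Finset.mul_sum]
      exact Finset.sum_le_sum fun i _ => gw_le_tw _ _
    have h4 : (4 : ℤ) * ∑ i, (tw (P i) (C i) : ℤ) ≤ (e : ℤ) ^ 2 := by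
      have : 4 * ∑ i, tw (P i) (C i) ≤ e ^ 2 := by omega
      exact_mod_cast this
    rw [he]
    push_cast
    have : ((e : ℤ) + 2 - 2) ^ 2 = (e : ℤ) ^ 2 := by ring
    rw [this]
    exact h3.trans h4

end Pool.Agent.H13
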