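import Mathlib
import Pool.Agent.H13.WGenus

set_option autoImplicit false

namespace Pool.Agent.H13

open Module MvPolynomial

variable {k : Type*} [Field k]

/-! ### Reduction of curves upstairs to the quotient plane -/

theorem totalDegree_tau_le (f : MvPolynomial (Fin 2) k) :
    (tau k f).totalDegree ≤ f.totalDegree := by
  rw [totalDegree, Finset.sup_le_iff]
  intro s hs
  rw [MvPolynomial.mem_support_iff, coeff_tau] at hs
  exact le_totalDegree (MvPolynomial.mem_support_iff.2 (right_ne_zero_of_mul hs))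

theorem tau_ne_zero {f : MvPolynomial (Fin 2) k} (hf : f ≠ 0) : tau k f ≠ 0 := by
  intro h
  exact hf (tau_injective (by rw [h, map_zero]))

theorem refl_eq_self {P : Fin 2 → k} (hP : P 1 = 0) : refl P = P := by
  funext i
  match i with
  | 0 => rfl
  | 1 => change -P 1 = P 1; rw [hP, neg_zero]

/-- The norm of a curve upstairs is the pull-back of a curve downstairs. -/
theorem exists_quotient (h2 : (2 : k) ≠ 0) {F : MvPolynomial (Fin 2) k} (hF : F ≠ 0) :
    ∃ φ : MvPolynomial (Fin 2) k, φ ≠ 0 ∧ wd φ ≤ 2 * F.totalDegree ∧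
      ∀ (P : Fin 2 → k) (m m' : ℕ), F ∈ Iord P m → F ∈ Iord (refl P) m' →
        m + m' ≤ mult P (psi k φ) := by
  obtain ⟨φ, hφ⟩ := exists_psi h2 (f := F * tau k F) (by rw [map_mul, tau_tau, mul_comm])
  have hne : F * tau k F ≠ 0 := mul_ne_zero hF (tau_ne_zero hF)
  refine ⟨φ, ?_, ?_, ?_⟩
  · rintro rfl
    rw [map_zero] at hφ
    exact hne hφ.symm
  · rw [wd, hφ]
    have h1 := totalDegree_mul F (tau k F)
    have h2 := totalDegree_tau_le F
    omega
  · intro P m m' hm hm'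
    rw [hφ, ← mem_Iord_iff_le_mult hne]
    exact mul_mem_Iord hm (tau_mem_Iord hm')

/-- Additivity reduces an inequality to prime curves downstairs. -/
theorem all_of_prime {κ : Type*} [Fintype κ] (P : κ → Fin 2 → k) (w : κ → ℝ) (d : ℝ)
    (hprime : ∀ φ : MvPolynomial (Fin 2) k, Prime φ →
      ∑ i, w i * (mult (P i) (psi k φ) : ℝ) ≤ d * (wd φ : ℝ))
    (φ : MvPolynomial (Fin 2) k) (hφ : φ ≠ 0) :
    ∑ i, w i * (mult (P i) (psi k φ) : ℝ) ≤ d * (wd φ : ℝ) := by
  induction φ using UniqueFactorizationMonoid.induction_on_prime with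
  | h₁ => exact absurd rfl hφ
  | h₂ x hx =>
    have hux : IsUnit (psi k x) := hx.map (psi k)
    have h0 : wd x = 0 := (mult_unit (P := (0 : Fin 2 → k)) hux).2
    have h1 : ∀ i, mult (P i) (psi k x) = 0 := fun i => (mult_unit hux).1
    simp [h0, h1]
  | h₃ a p ha hp ih =>
    have ih' := ih ha
    have h1 := hprime p hp
    have h2 : wd (p * a) = wd p + wd a := wd_mul hp.ne_zero ha
    have h3 : ∀ i, mult (P i) (psi k (p * a)) = mult (P i) (psi k p) + mult (P i) (psi k a) := by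
      intro i
      rw [map_mul, mult_mul (psi_ne_zero hp.ne_zero) (psi_ne_zero ha)]
    rw [h2]
    simp only [h3, Nat.cast_add, mul_add, Finset.sum_add_distrib]
    linarith

/-- Main reduction: inequality for all curves upstairs. -/
theorem upstairs_ineq {κ : Type*} [Fintype κ] (h2 : (2 : k) ≠ 0) (P : κ → Fin 2 → k)
    (w : κ → ℝ) (hw : ∀ i, 0 ≤ w i) (d : ℝ) (hd : 0 ≤ d)
    (hprime : ∀ φ : MvPolynomial (Fin 2) k, Prime φ →
      ∑ i, w i * (mult (P i) (psi k φ) : ℝ) ≤ d * (wd φ : ℝ))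
    {F : MvPolynomial (Fin 2) k} (hF : F ≠ 0) (δ : ℕ) (hδ : F.totalDegree ≤ δ)
    (m m' : κ → ℕ) (hm : ∀ i, F ∈ Iord (P i) (m i)) (hm' : ∀ i, F ∈ Iord (refl (P i)) (m' i)) :
    ∑ i, w i * ((m i : ℝ) + m' i) ≤ 2 * (d * δ) := by
  obtain ⟨φ, hφ0, hφd, hφ⟩ := exists_quotient h2 hF
  have h1 := all_of_prime P w d hprime φ hφ0
  have h3 : ∑ i, w i * ((m i : ℝ) + m' i) ≤ ∑ i, w i * (mult (P i) (psi k φ) : ℝ) := by
    refine Finset.sum_le_sum fun i _ => ?_
    apply mul_le_mul_of_nonneg_left _ (hw i)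
    have := hφ (P i) (m i) (m' i) (hm i) (hm' i)
    exact_mod_cast this
  have h4 : d * (wd φ : ℝ) ≤ 2 * (d * δ) := by
    have h5 : (wd φ : ℝ) ≤ 2 * δ := by
      have : wd φ ≤ 2 * δ := by omega
      exact_mod_cast this
    nlinarith
  linarith

end Pool.Agent.H13
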