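import Mathlib
import Pool.Agent.H13.Invol

set_option autoImplicit false

namespace Pool.Agent.H13

open Module MvPolynomial

variable {k : Type*} [Field k]

/-! ### Restriction to a parametrised curve -/

/-- restriction to the parametrised curve `(x(t), y(t))` -/
noncomputable def th (x y : Polynomial k) : MvPolynomial (Fin 2) k →ₐ[k] Polynomial k :=
  aeval ![x, y]

theorem th_X0 (x y : Polynomial k) : th x y (X 0) = x := by simp [th]
theorem th_X1 (x y : Polynomial k) : th x y (X 1) = y := by simp [th]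
theorem th_C (x y : Polynomial k) (c : k) : th x y (C c) = Polynomial.C c := by
  simp [th]

theorem th_eval (x y : Polynomial k) (t : k) (F : MvPolynomial (Fin 2) k) :
    (th x y F).eval t = eval ![x.eval t, y.eval t] F := by
  induction F using MvPolynomial.induction_on with
  | C a => rw [th_C, Polynomial.eval_C, eval_C]
  | add p q hp hq => rw [map_add, Polynomial.eval_add, hp, hq, map_add]
  | mul_X p i hp =>
    have h : (th x y (X i)).eval t = eval ![x.eval t, y.eval t] (X i) := by
      match i with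
      | 0 => rw [th_X0, eval_X]; rfl
      | 1 => rw [th_X1, eval_X]; rfl
    rw [map_mul, Polynomial.eval_mul, hp, h, map_mul]

theorem th_dvd {x y : Polynomial k} {t : k} {P : Fin 2 → k} (hx : x.eval t = P 0)
    (hy : y.eval t = P 1) {N : ℕ} {F : MvPolynomial (Fin 2) k} (hF : F ∈ Iord P N) :
    (Polynomial.X - Polynomial.C t) ^ N ∣ th x y F := by
  let g : MvPolynomial (Fin 2) k →ₐ[k] Polynomial k := (th x y).comp (tr (-P))
  have hg : th x y F = g (tr P F) := by
    change _ = th x y (tr (-P) (tr P F))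
    rw [tr_neg_tr]
  have hle : Ideal.map g.toRingHom (idealOfVars (Fin 2) k) ≤
      Ideal.span {Polynomial.X - Polynomial.C t} := by
    rw [idealOfVars, Ideal.map_span, Ideal.span_le]
    rintro _ ⟨_, ⟨i, rfl⟩, rfl⟩
    rw [SetLike.mem_coe, Ideal.mem_span_singleton, Polynomial.dvd_iff_isRoot]
    change (th x y (tr (-P) (X i))).eval t = 0
    rw [tr_X, map_add, th_C]
    match i with
    | 0 => rw [th_X0]; simp [hx]
    | 1 => rw [th_X1]; simp [hy]
  have h1 : g (tr P F) ∈ Ideal.map g.toRingHom (idealOfVars (Fin 2) k ^ N) :=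
    Ideal.mem_map_of_mem g.toRingHom (mem_Iord.1 hF)
  rw [Ideal.map_pow] at h1
  have h2 := Ideal.pow_right_mono hle N h1
  rw [Ideal.span_singleton_pow, Ideal.mem_span_singleton] at h2
  rw [hg]
  exact h2

theorem th_natDegree {x y : Polynomial k} {e : ℕ} (hx : x.natDegree ≤ e) (hy : y.natDegree ≤ e)
    (F : MvPolynomial (Fin 2) k) : (th x y F).natDegree ≤ e * F.totalDegree := by
  conv_lhs => rw [F.as_sum]
  rw [map_sum]
  refine Polynomial.natDegree_sum_le_of_forall_le _ _ fun s hs => ?_
  rw [th, aeval_monomial, Finsupp.prod_fintype _ _ (by intro; simp), Fin.prod_univ_two]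
  have h1 : s.degree ≤ F.totalDegree := le_totalDegree hs
  rw [Finsupp.degree_eq_sum, Fin.sum_univ_two] at h1
  have h2 : (Polynomial.C (coeff s F) * (x ^ s 0 * y ^ s 1)).natDegree ≤ e * s 0 + e * s 1 := by
    refine (Polynomial.natDegree_C_mul_le _ _).trans ?_
    refine Polynomial.natDegree_mul_le.trans ?_
    refine add_le_add ?_ ?_
    · refine Polynomial.natDegree_pow_le.trans ?_
      rw [mul_comm]
      exact Nat.mul_le_mul_right _ hx
    · refine Polynomial.natDegree_pow_le.trans ?_
      rw [mul_comm]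
      exact Nat.mul_le_mul_right _ hy
  refine le_trans h2 ?_
  rw [← mul_add]
  exact Nat.mul_le_mul_left _ h1

/-! ### Graph curves -/

/-- the coordinate `T = (ζ - υ - m) / l` -/
noncomputable def TC (l m : k) : MvPolynomial (Fin 2) k := C l⁻¹ * (X 1 - X 0 - C m)

/-- the curve `υ = U(T)` -/
noncomputable def GC (U : Polynomial k) (l m : k) : MvPolynomial (Fin 2) k :=
  X 0 - Polynomial.aeval (TC l m) U

/-- the second coordinate of the parametrisation -/
noncomputable def YY (U : Polynomial k) (l m : k) : Polynomial k :=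
  U + Polynomial.C l * Polynomial.X + Polynomial.C m

theorem th_TC (U : Polynomial k) {l : k} (hl : l ≠ 0) (m : k) :
    th U (YY U l m) (TC l m) = Polynomial.X := by
  rw [TC, map_mul, th_C, map_sub, map_sub, th_X0, th_X1, th_C, YY]
  have : Polynomial.C l⁻¹ * (U + Polynomial.C l * Polynomial.X + Polynomial.C m - U -
      Polynomial.C m) = Polynomial.C (l⁻¹ * l) * Polynomial.X := by
    rw [Polynomial.C_mul]; ring
  rw [this, inv_mul_cancel₀ hl, Polynomial.C_1, one_mul]

theorem th_GC (U : Polynomial k) {l : k} (hl : l ≠ 0) (m : k) :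
    th U (YY U l m) (GC U l m) = 0 := by
  rw [GC, map_sub, th_X0, ← Polynomial.aeval_algHom_apply, th_TC U hl m]
  simp

theorem GC_dvd {U : Polynomial k} {l : k} (hl : l ≠ 0) (m : k) {F : MvPolynomial (Fin 2) k}
    (hF : th U (YY U l m) F = 0) : GC U l m ∣ F := by
  let I : Ideal (MvPolynomial (Fin 2) k) := Ideal.span {GC U l m}
  let ρ : Polynomial k →ₐ[k] MvPolynomial (Fin 2) k := Polynomial.aeval (TC l m)
  have hU : Ideal.Quotient.mkₐ k I (ρ U) = Ideal.Quotient.mkₐ k I (X 0) := by
    symm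
    change Ideal.Quotient.mk I (X 0) = Ideal.Quotient.mk I (ρ U)
    rw [Ideal.Quotient.eq]
    exact Ideal.subset_span rfl
  have key : ((Ideal.Quotient.mkₐ k I).comp ρ).comp (th U (YY U l m)) =
      Ideal.Quotient.mkₐ k I := by
    apply MvPolynomial.algHom_ext
    intro i
    rw [AlgHom.comp_apply, AlgHom.comp_apply]
    match i with
    | 0 => rw [th_X0]; exact hU
    | 1 =>
      rw [th_X1, YY, map_add ρ, map_add ρ, map_mul ρ, map_add, map_add, hU]
      have h1 : ρ (Polynomial.C l) * ρ Polynomial.X = X 1 - X 0 - C m := by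
        change Polynomial.aeval (TC l m) (Polynomial.C l) *
          Polynomial.aeval (TC l m) Polynomial.X = _
        rw [Polynomial.aeval_C, Polynomial.aeval_X, TC, algebraMap_eq, ← mul_assoc, ← C_mul,
          mul_inv_cancel₀ hl, C_1, one_mul]
      have h2 : ρ (Polynomial.C m) = C m := by
        change Polynomial.aeval (TC l m) (Polynomial.C m) = _
        rw [Polynomial.aeval_C, algebraMap_eq]
      rw [h1, h2, ← map_add, ← map_add]
      congr 1
      ring
  have h3 := DFunLike.congr_fun key F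
  rw [AlgHom.comp_apply, hF, map_zero] at h3
  have h4 : Ideal.Quotient.mk I F = 0 := h3.symm
  rw [Ideal.Quotient.eq_zero_iff_mem, Ideal.mem_span_singleton] at h4
  exact h4

theorem pderiv_GC (U : Polynomial k) (l m : k) :
    pderiv 0 (GC U l m) + pderiv 1 (GC U l m) = 1 := by
  have hT : pderiv 0 (TC l m) + pderiv 1 (TC l m) = (0 : MvPolynomial (Fin 2) k) := by
    have h01 : pderiv (0 : Fin 2) (X 1 : MvPolynomial (Fin 2) k) = 0 :=
      pderiv_X_of_ne (by decide)
    have h10 : pderiv (1 : Fin 2) (X 0 : MvPolynomial (Fin 2) k) = 0 :=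
      pderiv_X_of_ne (by decide)
    rw [TC, pderiv_C_mul, pderiv_C_mul]
    simp only [map_sub, pderiv_C, pderiv_X_self, h01, h10]
    ring
  have hX : pderiv 0 (X 0 : MvPolynomial (Fin 2) k) + pderiv 1 (X 0) = 1 := by
    rw [pderiv_X_self, pderiv_X_of_ne (by decide), add_zero]
  have hA : pderiv 0 (Polynomial.aeval (TC l m) U) + pderiv 1 (Polynomial.aeval (TC l m) U) =
      (0 : MvPolynomial (Fin 2) k) := by
    rw [Derivation.map_aeval, Derivation.map_aeval, smul_eq_mul, smul_eq_mul, ← mul_add, hT,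
      mul_zero]
  rw [GC, map_sub, map_sub]
  linear_combination hX - hA

theorem mult_GC_le (U : Polynomial k) (l m : k) (P : Fin 2 → k) : mult P (GC U l m) ≤ 1 := by
  have hne : GC U l m ≠ 0 := by
    intro h
    have := pderiv_GC U l m
    rw [h, map_zero, map_zero, add_zero] at this
    exact zero_ne_one this
  by_contra hcon
  have h1 : GC U l m ∈ Iord P 2 := (mem_Iord_iff_le_mult hne).2 (by omega)
  have h2 := pderiv_mem_Iord 0 h1
  have h3 := pderiv_mem_Iord 1 h1
  have h4 := (Iord P 1).add_mem h2 h3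
  rw [pderiv_GC, mem_Iord_one, map_one] at h4
  exact one_ne_zero h4

theorem prime_GC (U : Polynomial k) {l : k} (hl : l ≠ 0) (m : k) : Prime (GC U l m) := by
  refine ⟨?_, ?_, ?_⟩
  · intro h
    have := pderiv_GC U l m
    rw [h, map_zero, map_zero, add_zero] at this
    exact zero_ne_one this
  · intro h
    have h1 := h.map (th U (YY U l m))
    rw [th_GC U hl m] at h1
    exact not_isUnit_zero h1
  · rintro a b ⟨c, hc⟩
    have h1 := congrArg (th U (YY U l m)) hc
    rw [map_mul, map_mul, th_GC U hl m, zero_mul, mul_eq_zero] at h1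
    rcases h1 with h | h
    · exact Or.inl (GC_dvd hl m h)
    · exact Or.inr (GC_dvd hl m h)

theorem natDegree_le_totalDegree_GC (U : Polynomial k) {l : k} (hl : l ≠ 0) (m : k) :
    U.natDegree ≤ (GC U l m).totalDegree := by
  have h1 := th_natDegree (x := (0 : Polynomial k)) (y := Polynomial.X) (e := 1) (by simp)
    (by simp) (GC U l m)
  rw [one_mul] at h1
  refine le_trans ?_ h1
  rw [GC, map_sub, th_X0, ← Polynomial.aeval_algHom_apply]
  have h2 : th (0 : Polynomial k) Polynomial.X (TC l m) =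
      Polynomial.C l⁻¹ * Polynomial.X + Polynomial.C (-(l⁻¹ * m)) := by
    rw [TC, map_mul, th_C, map_sub, map_sub, th_X0, th_X1, th_C, Polynomial.C_neg,
      Polynomial.C_mul]
    ring
  rw [h2, zero_sub, Polynomial.natDegree_neg]
  have h3 : Polynomial.aeval (Polynomial.C l⁻¹ * Polynomial.X + Polynomial.C (-(l⁻¹ * m))) U =
      U.comp (Polynomial.C l⁻¹ * Polynomial.X + Polynomial.C (-(l⁻¹ * m))) := by
    rw [Polynomial.aeval_def, Polynomial.comp]; rfl
  rw [h3, Polynomial.natDegree_comp, Polynomial.natDegree_linear (inv_ne_zero hl), mul_one]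

theorem mult_tau_le {P : Fin 2 → k} {F : MvPolynomial (Fin 2) k} (hF : F ≠ 0) :
    mult P (tau k F) ≤ mult (refl P) F := by
  rw [← mem_Iord_iff_le_mult hF]
  have h1 := mem_mult (P := P) (tau_ne_zero hF)
  have h2 : tau k F ∈ Iord (refl (refl P)) (mult P (tau k F)) := by
    rw [refl_refl]; exact h1
  have h3 := tau_mem_Iord h2
  rw [tau_tau] at h3
  exact h3

/-- A prime curve downstairs whose pull-back contains the graph curve. -/
theorem kernel_case (h2 : (2 : k) ≠ 0) (U : Polynomial k) {l : k} (hl : l ≠ 0) (m : k)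
    (Q : Fin 2 → k) (hQ : eval Q (GC U l m) = 0) (hQ' : eval (refl Q) (GC U l m) ≠ 0)
    {φ : MvPolynomial (Fin 2) k} (hφ : Prime φ) (h0 : th U (YY U l m) (psi k φ) = 0) :
    2 * U.natDegree ≤ wd φ ∧
      ∀ P, mult P (psi k φ) ≤ mult P (GC U l m) + mult (refl P) (GC U l m) := by
  have hG := prime_GC U hl m
  have hG0 := hG.ne_zero
  -- the reflected curve is prime
  have htG : Prime (tau k (GC U l m)) := by
    refine ⟨tau_ne_zero hG0, ?_, ?_⟩
    · intro h
      have := h.map (tau k)
      rw [tau_tau] at this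
      exact hG.not_isUnit this
    · rintro a b ⟨c, hc⟩
      have h1 : GC U l m ∣ tau k a * tau k b := by
        refine ⟨tau k c, ?_⟩
        rw [← map_mul, hc, map_mul, tau_tau]
      rcases hG.dvd_or_dvd h1 with ⟨e, he⟩ | ⟨e, he⟩
      · left; refine ⟨tau k e, ?_⟩; rw [← map_mul, ← he, tau_tau]
      · right; refine ⟨tau k e, ?_⟩; rw [← map_mul, ← he, tau_tau]
  obtain ⟨H, hH⟩ := GC_dvd hl m h0
  have h1 : tau k (GC U l m) ∣ GC U l m * H := by
    refine ⟨tau k H, ?_⟩
    rw [← hH, ← map_mul, ← hH, tau_psi]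
  have h3 : ¬ tau k (GC U l m) ∣ GC U l m := by
    rintro ⟨c, hc⟩
    apply hQ'
    rw [hc, map_mul]
    have : eval (refl Q) (tau k (GC U l m)) = 0 := by
      rw [← mem_Iord_one] at hQ ⊢
      apply tau_mem_Iord
      rw [refl_refl]
      exact hQ
    rw [this, zero_mul]
  obtain ⟨H', hH'⟩ := (htG.dvd_or_dvd h1).resolve_left h3
  obtain ⟨γ, hγ⟩ := exists_psi h2 (f := GC U l m * tau k (GC U l m))
    (by rw [map_mul, tau_tau, mul_comm])
  have hprod : GC U l m * tau k (GC U l m) ≠ 0 := mul_ne_zero hG0 htG.ne_zero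
  have h4 : psi k φ = psi k γ * H' := by
    rw [hH, hH', hγ, mul_assoc]
  have h5 : tau k H' = H' := by
    have h6 := congrArg (tau k) h4
    rw [tau_psi, map_mul, tau_psi, h4, hγ] at h6
    exact (mul_left_cancel₀ hprod h6).symm
  obtain ⟨χ, hχ⟩ := exists_psi h2 h5
  have h7 : φ = γ * χ := by
    apply psi_injective
    rw [map_mul, hχ, h4]
  have hγu : ¬ IsUnit γ := by
    intro hu
    have h8 := hu.map (psi k)
    rw [hγ] at h8
    exact hG.not_isUnit (isUnit_of_mul_isUnit_left h8)
  have hχu : IsUnit χ := (hφ.irreducible.isUnit_or_isUnit h7).resolve_left hγu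
  have hψχu := hχu.map (psi k)
  have hγ0 : γ ≠ 0 := by
    rintro rfl
    rw [map_zero] at hγ
    exact hprod hγ.symm
  constructor
  · rw [h7, wd_mul hγ0 hχu.ne_zero]
    have h9 : wd γ = (GC U l m).totalDegree + (tau k (GC U l m)).totalDegree := by
      rw [wd, hγ, totalDegree_mul_of_isDomain hG0 htG.ne_zero]
    have h10 : (GC U l m).totalDegree ≤ (tau k (GC U l m)).totalDegree := by
      have := totalDegree_tau_le (tau k (GC U l m))
      rw [tau_tau] at this
      exact this
    have h11 := natDegree_le_totalDegree_GC U hl m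
    omega
  · intro P
    rw [h7, map_mul, mult_mul (psi_ne_zero hγ0) hψχu.ne_zero, (mult_unit hψχu).1, add_zero, hγ,
      mult_mul hG0 htG.ne_zero]
    exact Nat.add_le_add_left (mult_tau_le hG0) _

/-- Product of powers of distinct linear factors dividing a polynomial. -/
theorem prod_dvd {ι : Type*} [Fintype ι] (r : ι → k) (hr : Function.Injective r) (m : ι → ℕ)
    (Φ : Polynomial k) (h : ∀ i, (Polynomial.X - Polynomial.C (r i)) ^ m i ∣ Φ) :
    ∏ i, (Polynomial.X - Polynomial.C (r i)) ^ m i ∣ Φ := by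
  apply Finset.prod_dvd_of_coprime
  · intro i _ j _ hij
    exact (Polynomial.pairwise_coprime_X_sub_C hr hij).pow
  · intro i _
    exact h i

theorem monic_prod {ι : Type*} [Fintype ι] (r : ι → k) (m : ι → ℕ) :
    (∏ i, (Polynomial.X - Polynomial.C (r i)) ^ m i).Monic :=
  Polynomial.monic_prod_of_monic _ _ fun i _ => (Polynomial.monic_X_sub_C (r i)).pow (m i)

theorem natDegree_prod {ι : Type*} [Fintype ι] (r : ι → k) (m : ι → ℕ) :
    (∏ i, (Polynomial.X - Polynomial.C (r i)) ^ m i).natDegree = ∑ i, m i := by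
  rw [Polynomial.natDegree_prod_of_monic _ _
    (fun i _ => (Polynomial.monic_X_sub_C (r i)).pow (m i))]
  refine Finset.sum_congr rfl fun i _ => ?_
  rw [Polynomial.natDegree_pow, Polynomial.natDegree_X_sub_C, mul_one]

theorem sum_mult_le {ι : Type*} [Fintype ι] (r : ι → k) (hr : Function.Injective r) (m : ι → ℕ)
    (Φ : Polynomial k) (hΦ : Φ ≠ 0) (h : ∀ i, (Polynomial.X - Polynomial.C (r i)) ^ m i ∣ Φ) :
    ∑ i, m i ≤ Φ.natDegree := by
  rw [← natDegree_prod r m]
  exact Polynomial.natDegree_le_of_dvd (prod_dvd r hr m Φ h) hΦ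

/-- Equality case: the polynomial is the product. -/
theorem eq_prod_of_degree {ι : Type*} [Fintype ι] (r : ι → k) (hr : Function.Injective r)
    (m : ι → ℕ) (Φ : Polynomial k) (hΦ : Φ ≠ 0)
    (h : ∀ i, (Polynomial.X - Polynomial.C (r i)) ^ m i ∣ Φ) (hd : Φ.natDegree ≤ ∑ i, m i) :
    ∃ c : k, c ≠ 0 ∧ Φ = Polynomial.C c * ∏ i, (Polynomial.X - Polynomial.C (r i)) ^ m i := by
  obtain ⟨H, hH⟩ := prod_dvd r hr m Φ h
  have hm := monic_prod r m
  have hH0 : H ≠ 0 := by
    rintro rfl
    rw [mul_zero] at hH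
    exact hΦ hH
  have h1 : Φ.natDegree = ∑ i, m i + H.natDegree := by
    rw [hH, hm.natDegree_mul' hH0, natDegree_prod]
  have h2 : H.natDegree = 0 := by omega
  rw [Polynomial.natDegree_eq_zero] at h2
  obtain ⟨c, hc⟩ := h2
  refine ⟨c, ?_, ?_⟩
  · rintro rfl
    rw [Polynomial.C_0] at hc
    exact hH0 hc.symm
  · rw [hH, ← hc, mul_comm]

end Pool.Agent.H13
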