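import Mathlib
import Pool.Agent.H13.Defs
import Pool.Agent.H13.Frozen
import Pool.Agent.H13.Mult

set_option autoImplicit false

namespace Pool.Agent.H13

open Module MvPolynomial

/-! ### Factors of homogeneous polynomials -/

theorem order_le_totalDegree {F : MvPolynomial (Fin 3) ℂ} (hF : F ≠ 0) :
    (F : MvPowerSeries (Fin 3) ℂ).order ≤ F.totalDegree := by
  obtain ⟨s, hs⟩ := support_nonempty.2 hF
  have h1 : (F : MvPowerSeries (Fin 3) ℂ).order ≤ (s.degree : ℕ∞) := by
    apply MvPowerSeries.order_le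
    rw [MvPolynomial.coeff_coe]
    exact MvPolynomial.mem_support_iff.1 hs
  refine h1.trans ?_
  have := le_totalDegree hs
  exact_mod_cast this

theorem le_order_of_homog {F : MvPolynomial (Fin 3) ℂ} {d : ℕ} (hF : F.IsHomogeneous d) :
    (d : ℕ∞) ≤ (F : MvPowerSeries (Fin 3) ℂ).order := by
  apply MvPowerSeries.nat_le_order
  intro s hs
  rw [MvPolynomial.coeff_coe]
  exact hF.coeff_eq_zero (by omega)

theorem homog_of_le_order {F : MvPolynomial (Fin 3) ℂ}
    (h : (F.totalDegree : ℕ∞) ≤ (F : MvPowerSeries (Fin 3) ℂ).order) :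
    F.IsHomogeneous F.totalDegree := by
  intro s hs
  have h1 : s ∈ F.support := MvPolynomial.mem_support_iff.2 hs
  have h2 := le_totalDegree h1
  have h3 : (F : MvPowerSeries (Fin 3) ℂ).order ≤ (s.degree : ℕ∞) := by
    apply MvPowerSeries.order_le
    rw [MvPolynomial.coeff_coe]
    exact hs
  have h4 : F.totalDegree ≤ s.degree := by exact_mod_cast h.trans h3
  have h5 : s.degree ≤ F.totalDegree := h2
  have h6 : (Finsupp.weight 1) s = s.degree := by
    rw [Finsupp.degree_eq_weight_one (R := ℕ)]; rfl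
  rw [h6]
  omega

theorem homog_factor {F G : MvPolynomial (Fin 3) ℂ} (hF : F ≠ 0) (hG : G ≠ 0) {d : ℕ}
    (h : (F * G).IsHomogeneous d) :
    F.IsHomogeneous F.totalDegree ∧ G.IsHomogeneous G.totalDegree ∧
      F.totalDegree + G.totalDegree = d := by
  have hd : F.totalDegree + G.totalDegree = d := by
    rw [← totalDegree_mul_of_isDomain hF hG]
    exact h.totalDegree (mul_ne_zero hF hG)
  have h1 := le_order_of_homog h
  rw [MvPolynomial.coe_mul, MvPowerSeries.order_mul] at h1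
  have h2 := order_le_totalDegree hF
  have h3 := order_le_totalDegree hG
  have hfin : ∀ {H : MvPolynomial (Fin 3) ℂ}, H ≠ 0 → ∃ a : ℕ,
      (H : MvPowerSeries (Fin 3) ℂ).order = (a : ℕ∞) := by
    intro H hH
    have : (H : MvPowerSeries (Fin 3) ℂ) ≠ 0 := by
      intro h
      apply hH
      apply MvPolynomial.coe_injective
      rw [h, MvPolynomial.coe_zero]
    exact ⟨_, (MvPowerSeries.ne_zero_iff_order_finite.1 this).symm⟩
  obtain ⟨a, ha⟩ := hfin hF
  obtain ⟨b, hb⟩ := hfin hG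
  rw [ha] at h1 h2
  rw [hb] at h1 h3
  have h1' : d ≤ a + b := by exact_mod_cast h1
  have h2' : a ≤ F.totalDegree := by exact_mod_cast h2
  have h3' : b ≤ G.totalDegree := by exact_mod_cast h3
  refine ⟨homog_of_le_order ?_, homog_of_le_order ?_, hd⟩
  · rw [ha]; exact_mod_cast (by omega : F.totalDegree ≤ a)
  · rw [hb]; exact_mod_cast (by omega : G.totalDegree ≤ b)

theorem dehom_mul (F G : MvPolynomial (Fin 3) ℂ) : dehom (F * G) = dehom F * dehom G := by
  simp [dehom]

/-- Homogenisation. -/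
theorem exists_homog (φ : MvPolynomial (Fin 2) ℂ) (d : ℕ) (hd : φ.totalDegree ≤ d) :
    ∃ G : MvPolynomial (Fin 3) ℂ, G.IsHomogeneous d ∧ dehom G = φ := by
  classical
  let τ : (Fin 2 →₀ ℕ) → (Fin 3 →₀ ℕ) := fun s =>
    Finsupp.single 0 (s 0) + Finsupp.single 1 (s 1) + Finsupp.single 2 (d - s 0 - s 1)
  refine ⟨∑ s ∈ φ.support, monomial (τ s) (coeff s φ), ?_, ?_⟩
  · apply IsHomogeneous.sum
    intro s hs
    apply isHomogeneous_monomial
    have h1 := (le_totalDegree hs).trans hd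
    change s.degree ≤ d at h1
    rw [Finsupp.degree_eq_sum, Fin.sum_univ_two] at h1
    rw [Finsupp.degree_eq_sum, Fin.sum_univ_three]
    simp [τ]
    omega
  · have h1 : ∀ s, dehom (monomial (τ s) (coeff s φ)) = monomial s (coeff s φ) := by
      intro s
      rw [dehom_monomial]
      congr 1
      have : ((τ s) 0, (τ s) 1) = (s 0, s 1) := by
        simp [τ]
      rw [this, expo_surj]
    have h2 : dehom (∑ s ∈ φ.support, monomial (τ s) (coeff s φ)) =
        ∑ s ∈ φ.support, dehom (monomial (τ s) (coeff s φ)) := by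
      simp only [dehom, map_sum]
    rw [h2, Finset.sum_congr rfl fun s _ => h1 s, ← φ.as_sum]

theorem mem_curveClasses_of_prime {n : ℕ} (p : Fin n → Fin 2 → ℂ) {F : MvPolynomial (Fin 3) ℂ}
    (hF : Prime F) {d : ℕ} (hd : F.IsHomogeneous d) :
    ((d : ℝ), fun i => ((mult (p i) (dehom F) : ℕ) : ℝ)) ∈ curveClasses p := by
  left
  refine ⟨F, d, fun i => mult (p i) (dehom F), hd, hF.irreducible, ?_, rfl⟩
  intro i
  have hne := dehom_ne_zero hd hF.ne_zero
  have h1 := mem_mult (P := p i) hne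
  have h2 := not_mem_mult (P := p i) hne
  rw [mem_Iord, mem_pow_idealOfVars_iff, tr_dehom] at h1 h2
  constructor
  · intro s hs
    have := h1 s hs
    rwa [Finsupp.degree_eq_sum, Fin.sum_univ_two] at this
  · push Not at h2
    obtain ⟨s, hs, hlt⟩ := h2
    refine ⟨s, hs, ?_⟩
    have := h1 s hs
    rw [Finsupp.degree_eq_sum, Fin.sum_univ_two] at this hlt
    change s 0 + s 1 = mult (p i) (dehom F)
    omega

theorem effective_mem {n : ℕ} (p : Fin n → Fin 2 → ℂ) (G : MvPolynomial (Fin 3) ℂ) :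
    G ≠ 0 → ∀ d : ℕ, G.IsHomogeneous d →
    ((d : ℝ), fun i => ((mult (p i) (dehom G) : ℕ) : ℝ)) ∈
      Submodule.span {c : ℝ // 0 ≤ c} (curveClasses p) := by
  induction G using UniqueFactorizationMonoid.induction_on_prime with
  | h₁ => intro h; exact absurd rfl h
  | h₂ x hx =>
    intro _ d hd
    have hu : IsUnit (dehom x) := by
      rw [dehom]; exact hx.map _
    obtain ⟨g, hg⟩ := hx.exists_right_inv
    have hx0 := hx.ne_zero
    have hg0 : g ≠ 0 := by rintro rfl; simp at hg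
    have hd0 : d = 0 := by
      have h1 := congrArg totalDegree hg
      rw [totalDegree_mul_of_isDomain hx0 hg0, totalDegree_one] at h1
      have h2 := hd.totalDegree hx0
      omega
    have h0 : (((d : ℕ) : ℝ), fun i => ((mult (p i) (dehom x) : ℕ) : ℝ)) =
        (0 : ℝ × (Fin n → ℝ)) := by
      apply Prod.ext
      · simp [hd0]
      · funext i
        simp only [(mult_unit (P := p i) hu).1]; simp
    rw [h0]
    exact zero_mem _
  | h₃ a q ha hq iha =>
    intro _ d hd
    obtain ⟨h1, h2, h3⟩ := homog_factor hq.ne_zero ha hd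
    have e1 := iha ha _ h2
    have e2 : (((q.totalDegree : ℕ) : ℝ), fun i => ((mult (p i) (dehom q) : ℕ) : ℝ)) ∈
      Submodule.span {c : ℝ // 0 ≤ c} (curveClasses p) :=
      Submodule.subset_span (mem_curveClasses_of_prime p hq h1)
    have e3 := Submodule.add_mem _ e2 e1
    convert e3 using 1
    apply Prod.ext
    · simp only [Prod.fst_add]
      rw [← h3]; push_cast; ring
    · funext i
      simp only [Prod.snd_add, Pi.add_apply]
      rw [dehom_mul, mult_mul (dehom_ne_zero h1 hq.ne_zero) (dehom_ne_zero h2 ha)]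
      push_cast; ring

theorem class_mem_of_count {n : ℕ} (p : Fin n → Fin 2 → ℂ) (d : ℕ) (m : Fin n → ℕ)
    (h : ∑ i, m i * (m i + 1) < (d + 1) * (d + 2)) :
    (((d : ℕ) : ℝ), fun i => ((m i : ℕ) : ℝ)) ∈
      Submodule.span {c : ℝ // 0 ≤ c} (curveClasses p) := by
  set K := Submodule.span {c : ℝ // 0 ≤ c} (curveClasses p) with hK
  have hcount : ∑ i, tri (m i) + Fintype.card (Fin 0) < tri (d + 1) := by
    have e1 := two_mul_tri (d + 1)
    have e2 : 2 * ∑ i, tri (m i) = ∑ i, m i * (m i + 1) := by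
      rw [Finset.mul_sum]
      exact Finset.sum_congr rfl fun i _ => two_mul_tri (m i)
    simp only [Fintype.card_fin, add_zero]
    nlinarith
  obtain ⟨φ, hφ0, hφd, hφ, -⟩ := exists_curve p (fun i : Fin 0 => i.elim0) d m hcount
  obtain ⟨G, hGh, hG⟩ := exists_homog φ d hφd
  have hG0 : G ≠ 0 := by
    rintro rfl
    apply hφ0
    rw [← hG]; simp [dehom]
  have h1 := effective_mem p G hG0 d hGh
  rw [hG] at h1
  have hm : ∀ i, m i ≤ mult (p i) φ := fun i => (mem_Iord_iff_le_mult hφ0).1 (hφ i)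
  have h3 : ∑ i : Fin n, (⟨((mult (p i) φ - m i : ℕ) : ℝ), Nat.cast_nonneg _⟩ : {c : ℝ // 0 ≤ c}) •
      ((0 : ℝ), (Pi.single i (-1 : ℝ) : Fin n → ℝ)) ∈ K :=
    K.sum_mem fun i _ => K.smul_mem _ (Submodule.subset_span (Or.inr ⟨i, rfl⟩))
  have h4 := K.add_mem h1 h3
  convert h4 using 1
  have hs : ∀ (c : {c : ℝ // 0 ≤ c}) (v : ℝ × (Fin n → ℝ)), c • v = (c.1 • v) := fun c v => rfl
  simp only [hs]
  apply Prod.ext
  · simp only [Prod.fst_add, Prod.fst_sum, Prod.smul_fst, smul_eq_mul, mul_zero,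
      Finset.sum_const_zero, add_zero]
  · funext j
    simp only [Prod.snd_add, Prod.smul_snd, Prod.snd_sum, Pi.add_apply,
      Finset.sum_apply, Pi.smul_apply, smul_eq_mul, Pi.single_apply]
    rw [Finset.sum_eq_single j]
    · rw [if_pos rfl, Nat.cast_sub (hm j)]
      ring
    · intro b _ hb
      rw [if_neg (Ne.symm hb)]; ring
    · intro h; exact absurd (Finset.mem_univ j) h

theorem pos_subset_mori {n : ℕ} (p : Fin n → Fin 2 → ℂ) {x : ℝ × (Fin n → ℝ)}
    (hx : 0 ≤ x.1 ∧ ∑ i, x.2 i ^ 2 ≤ x.1 ^ 2) : x ∈ moriCone p := by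
  set K := Submodule.span {c : ℝ // 0 ≤ c} (curveClasses p) with hK
  obtain ⟨hx0, hx2⟩ := hx
  -- approximating sequence
  let D : ℕ → ℕ := fun N => ⌈x.1 * N⌉₊ + n
  let M : ℕ → Fin n → ℕ := fun N i => ⌊max (x.2 i) 0 * N⌋₊
  let y : ℕ → ℝ × (Fin n → ℝ) := fun N =>
    ((D N : ℝ) / N, fun i => (M N i : ℝ) / N - max (-x.2 i) 0)
  have hmax : ∀ i, max (x.2 i) 0 ≤ x.1 := by
    intro i
    apply max_le _ hx0
    have h1 : x.2 i ^ 2 ≤ x.1 ^ 2 :=
      (Finset.single_le_sum (f := fun i => x.2 i ^ 2) (fun i _ => sq_nonneg _)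
        (Finset.mem_univ i)).trans hx2
    exact le_of_sq_le_sq h1 hx0 |> fun h => h
  have hcount : ∀ N : ℕ, ∑ i, M N i * (M N i + 1) < (D N + 1) * (D N + 2) := by
    intro N
    have hN : (0 : ℝ) ≤ N := Nat.cast_nonneg N
    have hM : ∀ i, (M N i : ℝ) ≤ max (x.2 i) 0 * N := fun i =>
      Nat.floor_le (mul_nonneg (le_max_right _ _) hN)
    have hD : x.1 * N + n ≤ (D N : ℝ) := by
      simp only [D]
      push_cast
      have := Nat.le_ceil (x.1 * N)
      linarith
    have h1 : ∑ i, ((M N i : ℝ) * (M N i + 1)) ≤ x.1 ^ 2 * N ^ 2 + n * (x.1 * N) := by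
      have h2 : ∀ i, ((M N i : ℝ) * (M N i + 1)) ≤ x.2 i ^ 2 * N ^ 2 + x.1 * N := by
        intro i
        have a1 := hM i
        have a2 : (0 : ℝ) ≤ M N i := Nat.cast_nonneg _
        have a3 : max (x.2 i) 0 * N ≤ x.1 * N := mul_le_mul_of_nonneg_right (hmax i) hN
        have a4 : (max (x.2 i) 0) ^ 2 ≤ x.2 i ^ 2 := by
          rcases le_total (x.2 i) 0 with h | h
          · rw [max_eq_right h]; simp; positivity
          · rw [max_eq_left h]
        have a5 : (M N i : ℝ) ^ 2 ≤ (max (x.2 i) 0 * N) ^ 2 := by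
          apply pow_le_pow_left₀ a2 a1
        have a6 : (max (x.2 i) 0 * N) ^ 2 ≤ x.2 i ^ 2 * N ^ 2 := by
          rw [mul_pow]
          exact mul_le_mul_of_nonneg_right a4 (sq_nonneg _)
        nlinarith
      calc ∑ i, ((M N i : ℝ) * (M N i + 1)) ≤ ∑ i, (x.2 i ^ 2 * N ^ 2 + x.1 * N) :=
            Finset.sum_le_sum fun i _ => h2 i
        _ = (∑ i, x.2 i ^ 2) * N ^ 2 + n * (x.1 * N) := by
            rw [Finset.sum_add_distrib, Finset.sum_mul]; simp
        _ ≤ x.1 ^ 2 * N ^ 2 + n * (x.1 * N) := by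
            have := mul_le_mul_of_nonneg_right hx2 (sq_nonneg (N : ℝ))
            linarith
    have h3 : x.1 ^ 2 * N ^ 2 + n * (x.1 * N) ≤ (D N : ℝ) ^ 2 := by
      have hn : (0 : ℝ) ≤ n := Nat.cast_nonneg n
      have hxN : 0 ≤ x.1 * N := mul_nonneg hx0 hN
      have h4 : (x.1 * N + n) ^ 2 ≤ (D N : ℝ) ^ 2 := by
        apply pow_le_pow_left₀ (by positivity) hD
      nlinarith [mul_nonneg hn hxN, sq_nonneg (n : ℝ)]
    have h5 : ((∑ i, M N i * (M N i + 1) : ℕ) : ℝ) < (((D N + 1) * (D N + 2) : ℕ) : ℝ) := by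
      push_cast
      have hD0 : (0 : ℝ) ≤ D N := Nat.cast_nonneg _
      nlinarith
    exact_mod_cast h5
  have hy : ∀ N : ℕ, 0 < N → y N ∈ K := by
    intro N hN
    have h1 := class_mem_of_count p (D N) (M N) (hcount N)
    have h2 := K.smul_mem (⟨(N : ℝ)⁻¹, by positivity⟩ : {c : ℝ // 0 ≤ c}) h1
    have h3 : ∑ i : Fin n, (⟨max (-x.2 i) 0, le_max_right _ _⟩ : {c : ℝ // 0 ≤ c}) •
        ((0 : ℝ), (Pi.single i (-1 : ℝ) : Fin n → ℝ)) ∈ K :=
      K.sum_mem fun i _ => K.smul_mem _ (Submodule.subset_span (Or.inr ⟨i, rfl⟩))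
    have h4 := K.add_mem h2 h3
    convert h4 using 1
    have hs : ∀ (c : {c : ℝ // 0 ≤ c}) (v : ℝ × (Fin n → ℝ)), c • v = (c.1 • v) :=
      fun c v => rfl
    simp only [hs]
    apply Prod.ext
    · simp only [Prod.fst_add, Prod.fst_sum, Prod.smul_fst, smul_eq_mul, mul_zero,
        Finset.sum_const_zero, add_zero, y]
      rw [div_eq_inv_mul]
    · funext j
      simp only [Prod.snd_add, Prod.smul_snd, Prod.snd_sum, Pi.add_apply,
        Finset.sum_apply, Pi.smul_apply, smul_eq_mul, Pi.single_apply, y]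
      rw [Finset.sum_eq_single j]
      · rw [if_pos rfl, div_eq_inv_mul]; ring
      · intro b _ hb
        rw [if_neg (Ne.symm hb)]; ring
      · intro h; exact absurd (Finset.mem_univ j) h
  have hlim : Filter.Tendsto y Filter.atTop (nhds x) := by
    have hx' : x = (x.1, fun i => max (x.2 i) 0 - max (-x.2 i) 0) := by
      apply Prod.ext
      · rfl
      · funext i
        simp only
        rcases le_total (x.2 i) 0 with h | h
        · rw [max_eq_right h, max_eq_left (by linarith)]; ring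
        · rw [max_eq_left h, max_eq_right (by linarith)]; ring
    rw [hx']
    apply Filter.Tendsto.prodMk_nhds
    · have h1 : Filter.Tendsto (fun N : ℕ => ((⌈x.1 * (N : ℝ)⌉₊ : ℝ) / (N : ℝ)))
          Filter.atTop (nhds x.1) :=
        (tendsto_nat_ceil_mul_div_atTop hx0).comp tendsto_natCast_atTop_atTop
      have h2 : Filter.Tendsto (fun N : ℕ => ((n : ℝ) / (N : ℝ))) Filter.atTop (nhds 0) :=
        tendsto_const_div_atTop_nhds_zero_nat (n : ℝ)
      have h3 := h1.add h2
      rw [add_zero] at h3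
      refine h3.congr fun N => ?_
      simp only [D]
      push_cast
      rw [add_div]
    · rw [tendsto_pi_nhds]
      intro i
      apply Filter.Tendsto.sub_const
      exact (tendsto_nat_floor_mul_div_atTop (le_max_right _ _)).comp tendsto_natCast_atTop_atTop
  refine mem_closure_of_tendsto hlim ?_
  filter_upwards [Filter.eventually_gt_atTop 0] with N hN
  exact hy N hN

theorem closure_add_mem {n : ℕ} (K : Submodule {c : ℝ // 0 ≤ c} (ℝ × (Fin n → ℝ)))
    {x y : ℝ × (Fin n → ℝ)} (hx : x ∈ closure (K : Set (ℝ × (Fin n → ℝ))))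
    (hy : y ∈ closure (K : Set (ℝ × (Fin n → ℝ)))) :
    x + y ∈ closure (K : Set (ℝ × (Fin n → ℝ))) :=
  map_mem_closure₂ continuous_add hx hy fun _ ha _ hb => K.add_mem ha hb

theorem closure_smul_mem {n : ℕ} (K : Submodule {c : ℝ // 0 ≤ c} (ℝ × (Fin n → ℝ)))
    {x : ℝ × (Fin n → ℝ)} (c : {c : ℝ // 0 ≤ c})
    (hx : x ∈ closure (K : Set (ℝ × (Fin n → ℝ)))) :
    c • x ∈ closure (K : Set (ℝ × (Fin n → ℝ))) :=
  map_mem_closure (f := fun z : ℝ × (Fin n → ℝ) => c.1 • z) (continuous_const_smul c.1) hx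
    fun _ ha => K.smul_mem c ha

/-- A closed-cone version of `Submodule.span_le`. -/
theorem closure_span_le {n : ℕ} {S : Set (ℝ × (Fin n → ℝ))}
    (K : Submodule {c : ℝ // 0 ≤ c} (ℝ × (Fin n → ℝ)))
    (h : S ⊆ closure (K : Set (ℝ × (Fin n → ℝ)))) :
    closure (Submodule.span {c : ℝ // 0 ≤ c} S : Set (ℝ × (Fin n → ℝ))) ⊆
      closure (K : Set (ℝ × (Fin n → ℝ))) := by
  apply closure_minimal _ isClosed_closure
  intro x hx
  induction hx using Submodule.span_induction with
  | mem x hx => exact h hx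
  | zero => exact subset_closure K.zero_mem
  | add x y _ _ hx hy => exact closure_add_mem K hx hy
  | smul c x _ hx => exact closure_smul_mem K c hx

/-- The expected cone is contained in the cone of curves. -/
theorem expected_subset_mori {n : ℕ} (p : Fin n → Fin 2 → ℂ) : expectedCone p ⊆ moriCone p := by
  apply closure_span_le
  rintro v (hv | hv)
  · exact subset_closure (Submodule.subset_span hv.1)
  · exact pos_subset_mori p hv

end Pool.Agent.H13
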