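import Mathlib
import Pool.Agent.H13.ConeA
import Pool.Agent.H13.Frozen

set_option autoImplicit false

namespace Pool.Agent.H13

open Module MvPolynomial

theorem single_mem_cone (n : ℕ) : ((1 : ℝ), (0 : Fin n → ℝ)) ∈
    Submodule.span {c : ℝ // 0 ≤ c} (TT n ∪ Pos n) := by
  apply Submodule.subset_span
  right
  refine ⟨by norm_num, ?_⟩
  simp

/-- The class of an effective curve at the special points. -/
theorem special_cone {k : Type*} [Field k] [CharP k 2] [IsAlgClosed k] {n : ℕ} (hn : n ≤ 21)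
    (P : Fin 21 → Fin 2 → k) (hPinj : Function.Injective P) (hP : ∀ i, IsZ (P i))
    (d : ℕ) (m : Fin n → ℕ) (h : HasCurve (fun i => P (Fin.castLE hn i)) d m) :
    (((d : ℕ) : ℝ), fun i => ((m i : ℕ) : ℝ)) ∈
      Submodule.span {c : ℝ // 0 ≤ c} (TT n ∪ Pos n) :=
  span_of_hasCurve (fun i => P (Fin.castLE hn i)) _ (single_mem_cone n)
    (fun i => Submodule.subset_span (Or.inl (Or.inr ⟨i, rfl⟩)))
    (fun _ hf => special_prime hn P hPinj hP hf) d m h

theorem curve_mem_cone {n : ℕ} (hn : n ≤ 21) :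
    VeryGeneral n (fun p => ∀ v ∈ curveClasses p,
      v ∈ Submodule.span {c : ℝ // 0 ≤ c} (TT n ∪ Pos n)) := by
  obtain ⟨P, hPinj, hP⟩ := exists_special_points (k := AlgebraicClosure (ZMod 2))
  obtain ⟨f, hf0, hf⟩ := transfer_all (le_refl n) (fun i : Fin n => P (Fin.castLE hn i))
  refine ⟨f, hf0, fun p hp v hv => ?_⟩
  rcases curveClasses_sub p hv with ⟨d, m, hc, rfl⟩ | ⟨i, rfl⟩
  · exact special_cone hn P hPinj hP d m (hf p hp d m hc)
  · exact Submodule.subset_span (Or.inl (Or.inr ⟨i, rfl⟩))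

theorem thmA (n : ℕ) (hn : n ≤ 21) :
    VeryGeneral n (fun p => moriCone p ⊆
      closure ((Submodule.span {c : ℝ // 0 ≤ c} (TT n ∪ Pos n) : Set (ℝ × (Fin n → ℝ))))) := by
  obtain ⟨f, hf0, hf⟩ := curve_mem_cone hn
  refine ⟨f, hf0, fun p hp => closure_mono ?_⟩
  exact Submodule.span_le.2 (hf p hp)

end Pool.Agent.H13
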