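import Mathlib
import Pool.Agent.H13.ThmA
import Pool.Agent.H13.PosSub

set_option autoImplicit false

namespace Pool.Agent.H13

open Module MvPolynomial

/-- The intersection form. -/
def BB {n : ℕ} (x v : ℝ × (Fin n → ℝ)) : ℝ := x.1 * v.1 - ∑ i, x.2 i * v.2 i

theorem BB_add {n : ℕ} (x v w : ℝ × (Fin n → ℝ)) : BB x (v + w) = BB x v + BB x w := by
  simp only [BB, Prod.fst_add, Prod.snd_add, Pi.add_apply, mul_add, Finset.sum_add_distrib]
  ring

theorem BB_smul {n : ℕ} (x v : ℝ × (Fin n → ℝ)) (c : ℝ) : BB x (c • v) = c * BB x v := by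
  simp only [BB, Prod.smul_fst, Prod.smul_snd, Pi.smul_apply, smul_eq_mul]
  rw [mul_sub, Finset.mul_sum]
  congr 1
  · ring
  · exact Finset.sum_congr rfl fun i _ => by ring

theorem BB_zero {n : ℕ} (x : ℝ × (Fin n → ℝ)) : BB x 0 = 0 := by
  simp [BB]

theorem BB_continuous {n : ℕ} (x : ℝ × (Fin n → ℝ)) : Continuous (BB x) := by
  unfold BB
  fun_prop

/-- Linear inequalities pass to closed cones. -/
theorem BB_nonneg_closure {n : ℕ} (x : ℝ × (Fin n → ℝ)) (S : Set (ℝ × (Fin n → ℝ)))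
    (h : ∀ v ∈ S, 0 ≤ BB x v) (v : ℝ × (Fin n → ℝ))
    (hv : v ∈ closure (Submodule.span {c : ℝ // 0 ≤ c} S : Set (ℝ × (Fin n → ℝ)))) :
    0 ≤ BB x v := by
  have hcl : IsClosed {v | 0 ≤ BB x v} := isClosed_le continuous_const (BB_continuous x)
  refine closure_minimal ?_ hcl hv
  intro w hw
  induction hw using Submodule.span_induction with
  | mem w hw => exact h w hw
  | zero => change 0 ≤ BB x 0; rw [BB_zero]
  | add a b _ _ ha hb =>
    change 0 ≤ BB x (a + b)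
    rw [BB_add]
    exact add_nonneg ha hb
  | smul c a _ ha =>
    change 0 ≤ BB x (c.1 • a)
    rw [BB_smul]
    exact mul_nonneg c.2 ha

theorem BB_nonneg_span {n : ℕ} (x : ℝ × (Fin n → ℝ)) (S : Set (ℝ × (Fin n → ℝ)))
    (h : ∀ v ∈ S, 0 ≤ BB x v) (v : ℝ × (Fin n → ℝ))
    (hv : v ∈ Submodule.span {c : ℝ // 0 ≤ c} S) : 0 ≤ BB x v :=
  BB_nonneg_closure x S h v (subset_closure hv)

theorem BB_Pos {n : ℕ} {x v : ℝ × (Fin n → ℝ)} (hx : x ∈ Pos n) (hv : v ∈ Pos n) :
    0 ≤ BB x v := by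
  obtain ⟨hx0, hx2⟩ := hx
  obtain ⟨hv0, hv2⟩ := hv
  have h1 := Finset.sum_mul_sq_le_sq_mul_sq Finset.univ x.2 v.2
  have h2 : (∑ i, x.2 i * v.2 i) ^ 2 ≤ (x.1 * v.1) ^ 2 := by
    calc (∑ i, x.2 i * v.2 i) ^ 2 ≤ (∑ i, x.2 i ^ 2) * ∑ i, v.2 i ^ 2 := h1
      _ ≤ x.1 ^ 2 * v.1 ^ 2 := by
          apply mul_le_mul hx2 hv2 (Finset.sum_nonneg fun i _ => sq_nonneg _) (sq_nonneg _)
      _ = (x.1 * v.1) ^ 2 := by ring
  have h3 := abs_le_of_sq_le_sq h2 (mul_nonneg hx0 hv0)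
  unfold BB
  linarith [(abs_le.1 h3).2]

theorem int_quad (c : ℤ) : -2 ≤ c ^ 2 - 3 * c := by
  have h : 0 ≤ (c - 1) * (c - 2) := by
    rcases le_or_gt c 1 with h | h
    · exact mul_nonneg_of_nonpos_of_nonpos (by linarith) (by linarith)
    · exact mul_nonneg (by linarith) (by linarith)
  linarith

theorem final_contra (c S a : ℤ) (h1 : 1 ≤ a) (h2 : a ≤ 4)
    (h3 : 5 * (5 * 1 - a) = 2 * c + S)
    (h4 : S ≤ (5 * 1 - a) ^ 2 - (1 ^ 2 - 1) - c ^ 2 + c) (h5 : -2 ≤ c ^ 2 - 3 * c) : False := by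
  have h6 : a = 1 ∨ a = 2 ∨ a = 3 ∨ a = 4 := by omega
  rcases h6 with rfl | rfl | rfl | rfl <;> norm_num at h3 h4 <;> linarith

/-- The arithmetic heart: integral classes of square `-1` are nonnegative on the hyperplane. -/
theorem lattice18 (i₀ : Fin 18) (x : ℝ × (Fin 18 → ℝ)) (hx : x ∈ Pos 18)
    (hxP : 5 * x.1 = 2 * x.2 i₀ + ∑ i, x.2 i) (v : ℝ × (Fin 18 → ℝ)) (hv : v ∈ TT 18) :
    0 ≤ BB x v := by
  classical
  -- the class u
  let u : Fin 18 → ℤ := fun i => if i = i₀ then 3 else 1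
  have hu1 : ∀ g : Fin 18 → ℤ, ∑ i, u i * g i = 2 * g i₀ + ∑ i, g i := by
    intro g
    have h1 : ∀ i, u i * g i = (if i = i₀ then 2 * g i else 0) + g i := by
      intro i; simp only [u]; split_ifs <;> ring
    rw [Finset.sum_congr rfl fun i _ => h1 i, Finset.sum_add_distrib, Finset.sum_ite_eq']
    simp
  have hu2 : ∑ i, u i ^ 2 = 26 := by
    have h1 : ∀ i, u i ^ 2 = (if i = i₀ then 8 else 0) + 1 := by
      intro i; simp only [u]; split_ifs <;> norm_num
    rw [Finset.sum_congr rfl fun i _ => h1 i, Finset.sum_add_distrib, Finset.sum_ite_eq']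
    simp
  have hxu : 5 * x.1 - ∑ i, x.2 i * (u i : ℝ) = 0 := by
    have h1 : ∀ i, x.2 i * (u i : ℝ) = (if i = i₀ then 2 * x.2 i else 0) + x.2 i := by
      intro i; simp only [u]; split_ifs <;> push_cast <;> ring
    rw [Finset.sum_congr rfl fun i _ => h1 i, Finset.sum_add_distrib, Finset.sum_ite_eq']
    simp only [Finset.mem_univ, if_true]
    linarith
  -- a general statement for integral classes
  have key : ∀ (a : ℤ) (b : Fin 18 → ℤ), a ^ 2 + 1 = ∑ i, b i ^ 2 →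
      0 ≤ a + 5 * (5 * a - ∑ i, u i * b i) → 0 ≤ BB x ((a : ℝ), fun i => (b i : ℝ)) := by
    intro a b hab hz
    set j : ℤ := 5 * a - ∑ i, u i * b i with hj
    -- z = v + j u
    have hodd : Odd j := by
      have h1 : (∑ i, (b i ^ 2 + b i)) % 2 = 0 := by
        apply Int.emod_eq_zero_of_dvd
        apply Finset.dvd_sum
        intro i _
        have : Even (b i ^ 2 + b i) := by
          have := Int.even_mul_succ_self (b i)
          have e : b i ^ 2 + b i = b i * (b i + 1) := by ring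
          rwa [e]
        exact even_iff_two_dvd.1 this
      rw [Finset.sum_add_distrib, ← hab] at h1
      rw [hu1 b] at hj
      have h2 : Even (a ^ 2 + a) := by
        have := Int.even_mul_succ_self a
        have e : a ^ 2 + a = a * (a + 1) := by ring
        rwa [e]
      obtain ⟨r, hr⟩ := h2
      rw [← Int.not_even_iff_odd]
      rintro ⟨q, hq⟩
      omega
    have hj1 : 1 ≤ j ^ 2 := by
      have : j ≠ 0 := by rintro h; rw [h] at hodd; simp at hodd
      have := sq_nonneg j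
      have h3 : j ^ 2 ≠ 0 := by positivity
      omega
    have hz2 : ∑ i, (b i + j * u i) ^ 2 ≤ (a + 5 * j) ^ 2 := by
      have h1 : ∑ i, (b i + j * u i) ^ 2 = ∑ i, b i ^ 2 + 2 * j * ∑ i, u i * b i +
          j ^ 2 * ∑ i, u i ^ 2 := by
        rw [Finset.mul_sum, Finset.mul_sum, ← Finset.sum_add_distrib, ← Finset.sum_add_distrib]
        exact Finset.sum_congr rfl fun i _ => by ring
      rw [h1, hu2, ← hab]
      have h2 : ∑ i, u i * b i = 5 * a - j := by rw [hj]; ring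
      rw [h2]
      nlinarith
    have hzPos : (((a + 5 * j : ℤ) : ℝ), fun i => ((b i + j * u i : ℤ) : ℝ)) ∈ Pos 18 := by
      refine ⟨?_, ?_⟩
      · simp only; exact_mod_cast hz
      · simp only; exact_mod_cast hz2
    have h3 := BB_Pos hx hzPos
    have h4 : BB x (((a + 5 * j : ℤ) : ℝ), fun i => ((b i + j * u i : ℤ) : ℝ)) =
        BB x ((a : ℝ), fun i => (b i : ℝ)) + j * (5 * x.1 - ∑ i, x.2 i * (u i : ℝ)) := by
      simp only [BB]
      push_cast
      rw [mul_sub, Finset.mul_sum]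
      have h5 : ∑ i, x.2 i * ((b i : ℝ) + j * (u i : ℝ)) =
          ∑ i, x.2 i * (b i : ℝ) + ∑ i, (j : ℝ) * (x.2 i * (u i : ℝ)) := by
        rw [← Finset.sum_add_distrib]
        exact Finset.sum_congr rfl fun i _ => by ring
      rw [h5]; ring
    rw [hxu, mul_zero, add_zero] at h4
    rw [← h4]; exact h3
  rcases hv with ⟨a, b, rfl, ha1, hab⟩ | ⟨i, rfl⟩
  · -- positive degree
    have hab' : (a : ℤ) ^ 2 + 1 = ∑ i, (b i : ℤ) ^ 2 := by
      rcases hab with h | ⟨-, -, h⟩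
      · exact_mod_cast h
      · have : a ^ 2 + 1 = ∑ i, b i ^ 2 := by omega
        exact_mod_cast this
    have h := key (a : ℤ) (fun i => (b i : ℤ)) hab'
    have hcast : ((((a : ℤ) : ℝ), fun i => (((b i : ℕ) : ℤ) : ℝ)) : ℝ × (Fin 18 → ℝ)) =
        ((a : ℝ), fun i => (b i : ℝ)) := by
      apply Prod.ext
      · simp
      · funext i; simp
    rw [hcast] at h
    apply h
    by_contra hneg
    push Not at hneg
    set S := ∑ i, u i * (b i : ℤ) with hS
    set j : ℤ := 5 * a - S with hj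
    -- J = -j
    obtain ⟨J, hJ⟩ : ∃ J, J = -j := ⟨_, rfl⟩
    have hu1' := hu1 (fun i => (b i : ℤ))
    have hodd : Odd J := by
      have h1 : (∑ i, ((b i : ℤ) ^ 2 + b i)) % 2 = 0 := by
        apply Int.emod_eq_zero_of_dvd
        apply Finset.dvd_sum
        intro i _
        have : Even ((b i : ℤ) ^ 2 + b i) := by
          have := Int.even_mul_succ_self (b i : ℤ)
          have e : (b i : ℤ) ^ 2 + b i = b i * (b i + 1) := by ring
          rwa [e]
        exact even_iff_two_dvd.1 this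
      rw [Finset.sum_add_distrib, ← hab'] at h1
      have h2 : Even ((a : ℤ) ^ 2 + a) := by
        have := Int.even_mul_succ_self (a : ℤ)
        have e : (a : ℤ) ^ 2 + a = a * (a + 1) := by ring
        rwa [e]
      obtain ⟨r, hr⟩ := h2
      rw [← Int.not_even_iff_odd]
      rintro ⟨q, hq⟩
      omega
    have ha1' : (1 : ℤ) ≤ a := by exact_mod_cast ha1
    have hJpos : 1 ≤ J := by
      obtain ⟨q, hq⟩ := hodd
      omega
    -- Cauchy-Schwarz with u
    set c : Fin 18 → ℤ := fun i => J * u i - b i with hc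
    have hcu : ∑ i, u i * c i = 5 * (5 * J - a) := by
      have h1 : ∑ i, u i * c i = J * ∑ i, u i ^ 2 - ∑ i, u i * (b i : ℤ) := by
        rw [Finset.mul_sum, ← Finset.sum_sub_distrib]
        exact Finset.sum_congr rfl fun i _ => by simp only [hc]; ring
      rw [h1, hu2, ← hS]
      have : S = 5 * a - j := by rw [hj]; ring
      rw [this]
      have : j = -J := by rw [hJ]; ring
      rw [this]; ring
    have hc2 : ∑ i, c i ^ 2 = (5 * J - a) ^ 2 - (J ^ 2 - 1) := by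
      have h1 : ∑ i, c i ^ 2 = J ^ 2 * ∑ i, u i ^ 2 - 2 * J * ∑ i, u i * (b i : ℤ) +
          ∑ i, (b i : ℤ) ^ 2 := by
        rw [Finset.mul_sum, Finset.mul_sum, ← Finset.sum_sub_distrib, ← Finset.sum_add_distrib]
        exact Finset.sum_congr rfl fun i _ => by simp only [hc]; ring
      rw [h1, hu2, ← hS, ← hab']
      have : S = 5 * a - j := by rw [hj]; ring
      rw [this]
      have : j = -J := by rw [hJ]; ring
      rw [this]; ring
    have hcs := Finset.sum_mul_sq_le_sq_mul_sq Finset.univ u c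
    rw [hcu, hu2, hc2] at hcs
    have hlt : (a : ℤ) < 5 * J := by
      have : j = -J := by rw [hJ]; ring
      rw [this] at hneg
      linarith
    have hJ2 : J ≤ 2 := by nlinarith
    have hJ1 : J = 1 := by
      obtain ⟨q, hq⟩ := hodd
      omega
    -- the case J = 1
    have hc0 : ∑ i, c i ≤ ∑ i, c i ^ 2 - c i₀ ^ 2 + c i₀ := by
      have h1 : ∀ g : Fin 18 → ℤ, ∑ i, g i = g i₀ + ∑ i ∈ Finset.univ.erase i₀, g i := fun g =>
        (Finset.add_sum_erase _ _ (Finset.mem_univ i₀)).symm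
      rw [h1 c, h1 (fun i => c i ^ 2)]
      have h2 : ∑ i ∈ Finset.univ.erase i₀, c i ≤ ∑ i ∈ Finset.univ.erase i₀, c i ^ 2 := by
        apply Finset.sum_le_sum
        intro i _
        exact Int.le_self_sq (c i)
      linarith
    have hcu' := hu1 c
    rw [hcu, hJ1] at hcu'
    rw [hc2, hJ1] at hc0
    have ha4 : (a : ℤ) ≤ 4 := by omega
    have hq := int_quad (c i₀)
    exact final_contra (c i₀) (∑ i, c i) a ha1' ha4 hcu' hc0 hq
  · -- exceptional classes
    have h := key 0 (fun l => if l = i then -1 else 0) (by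
      have : ∀ l, (if l = i then (-1 : ℤ) else 0) ^ 2 = if l = i then 1 else 0 := by
        intro l; split_ifs <;> norm_num
      rw [Finset.sum_congr rfl fun l _ => this l]
      simp) (by
      simp only [mul_ite, mul_neg, mul_one, mul_zero, Finset.sum_ite_eq', Finset.mem_univ, if_true]
      simp only [u]
      split_ifs <;> norm_num)
    have hcast : ((((0 : ℤ) : ℝ), fun l => (((if l = i then (-1 : ℤ) else 0) : ℤ) : ℝ)) :
        ℝ × (Fin 18 → ℝ)) = ((0 : ℝ), (Pi.single i (-1 : ℝ) : Fin 18 → ℝ)) := by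
      apply Prod.ext
      · simp
      · funext l
        simp only [Pi.single_apply]
        split_ifs <;> simp
    rw [hcast] at h
    exact h

theorem sum_castLE {n0 n : ℕ} (hn : n0 ≤ n) (g : Fin n → ℝ)
    (hg : ∀ i : Fin n, n0 ≤ (i : ℕ) → g i = 0) :
    ∑ i, g i = ∑ j : Fin n0, g (Fin.castLE hn j) := by
  classical
  have h1 : ∑ j : Fin n0, g (Fin.castLE hn j) =
      ∑ i ∈ Finset.univ.map ⟨Fin.castLE hn, Fin.castLE_injective hn⟩, g i := by
    rw [Finset.sum_map]; rfl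
  rw [h1]
  symm
  apply Finset.sum_subset (Finset.subset_univ _)
  intro i _ hi
  apply hg
  by_contra hlt
  push Not at hlt
  apply hi
  rw [Finset.mem_map]
  exact ⟨⟨i, hlt⟩, Finset.mem_univ _, rfl⟩

/-- On the hyperplane, forward positive classes are nef. -/
theorem nef18 (n : ℕ) (hn : 18 ≤ n) :
    VeryGeneral n (fun p => ∀ i₀ : Fin n, (i₀ : ℕ) < 18 → ∀ x : ℝ × (Fin n → ℝ),
      x ∈ Pos n → 5 * x.1 = 2 * x.2 i₀ + ∑ i, x.2 i →
      (∀ i : Fin n, 18 ≤ (i : ℕ) → x.2 i = 0) → ∀ v ∈ moriCone p, 0 ≤ BB x v) := by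
  obtain ⟨P, hPinj, hP⟩ := exists_special_points (k := AlgebraicClosure (ZMod 2))
  have h18 : 18 ≤ 21 := by norm_num
  obtain ⟨f, hf0, hf⟩ := transfer_all hn (fun i : Fin 18 => P (Fin.castLE h18 i))
  refine ⟨f, hf0, fun p hp i₀ hi₀ x hx hxP hx0 v hv => ?_⟩
  refine BB_nonneg_closure x (curveClasses p) ?_ v hv
  -- restriction of x
  set x' : ℝ × (Fin 18 → ℝ) := (x.1, fun j => x.2 (Fin.castLE hn j)) with hx'
  have hx'Pos : x' ∈ Pos 18 := by
    refine ⟨hx.1, ?_⟩
    have h1 := sum_castLE hn (fun i => x.2 i ^ 2) (fun i hi => by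
      rw [hx0 i hi]; ring)
    change ∑ j, (x.2 (Fin.castLE hn j)) ^ 2 ≤ x.1 ^ 2
    rw [← h1]
    exact hx.2
  have hi0 : Fin.castLE hn ⟨i₀, hi₀⟩ = i₀ := rfl
  have hx'P : 5 * x'.1 = 2 * x'.2 ⟨i₀, hi₀⟩ + ∑ i, x'.2 i := by
    have h1 := sum_castLE hn x.2 hx0
    change 5 * x.1 = 2 * x.2 (Fin.castLE hn ⟨i₀, hi₀⟩) + ∑ j, x.2 (Fin.castLE hn j)
    rw [← h1, hi0]
    exact hxP
  have hnef : ∀ w ∈ TT 18 ∪ Pos 18, 0 ≤ BB x' w := by
    rintro w (hw | hw)
    · exact lattice18 ⟨i₀, hi₀⟩ x' hx'Pos hx'P w hw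
    · exact BB_Pos hx'Pos hw
  intro w hw
  rcases curveClasses_sub p hw with ⟨d, m, hc, rfl⟩ | ⟨i, rfl⟩
  · have hc' : HasCurve (fun i => p (Fin.castLE hn i)) d (fun j => m (Fin.castLE hn j)) := by
      obtain ⟨F, h0, h1, h2⟩ := hc
      exact ⟨F, h0, h1, fun i => h2 _⟩
    have h3 := special_cone h18 P hPinj hP d _ (hf p hp d _ hc')
    have h4 := BB_nonneg_span x' _ hnef _ h3
    have h5 : BB x' ((d : ℝ), fun j => (m (Fin.castLE hn j) : ℝ)) =
        BB x ((d : ℝ), fun i => (m i : ℝ)) := by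
      simp only [BB, hx']
      rw [sum_castLE hn (fun i => x.2 i * (m i : ℝ)) (fun i hi => by
        rw [hx0 i hi]; ring)]
    rw [← h5]
    exact h4
  · rcases Nat.lt_or_ge (i : ℕ) 18 with hi | hi
    · have h4 := hnef ((0 : ℝ), (Pi.single ⟨i, hi⟩ (-1 : ℝ) : Fin 18 → ℝ))
        (Or.inl (Or.inr ⟨_, rfl⟩))
      have e : Fin.castLE hn ⟨i, hi⟩ = i := rfl
      simp only [BB, hx', Pi.single_apply, mul_ite, mul_neg, mul_one, mul_zero,
        Finset.sum_ite_eq', Finset.mem_univ, if_true, e] at h4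
      simp only [BB, Pi.single_apply, mul_ite, mul_neg, mul_one, mul_zero,
        Finset.sum_ite_eq', Finset.mem_univ, if_true]
      exact h4
    · simp only [BB, Pi.single_apply, mul_ite, mul_neg, mul_one, mul_zero,
        Finset.sum_ite_eq', Finset.mem_univ, if_true]
      rw [hx0 i hi]; simp

/-- Separation inside the hyperplane. -/
theorem separate18 (n : ℕ) (hn : 18 ≤ n) (i₀ : Fin n) (hi₀ : (i₀ : ℕ) < 18)
    (y : ℝ × (Fin n → ℝ)) (hyP : 5 * y.1 = 2 * y.2 i₀ + ∑ i, y.2 i)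
    (hy0 : ∀ i : Fin n, 18 ≤ (i : ℕ) → y.2 i = 0) (hy : y ∉ Pos n) :
    ∃ x : ℝ × (Fin n → ℝ), x ∈ Pos n ∧ 5 * x.1 = 2 * x.2 i₀ + ∑ i, x.2 i ∧
      (∀ i : Fin n, 18 ≤ (i : ℕ) → x.2 i = 0) ∧ BB x y < 0 := by
  classical
  set g : Fin n → ℝ := fun i => if i = i₀ then 15 else if (i : ℕ) < 18 then 5 else 0 with hg
  have hg0 : ∀ i : Fin n, 18 ≤ (i : ℕ) → g i = 0 := by
    intro i hi
    have h1 : i ≠ i₀ := by rintro rfl; omega
    simp only [hg]
    rw [if_neg h1, if_neg (by omega)]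
  -- sums against g
  have hgsum : ∀ h : Fin n → ℝ, (∀ i : Fin n, 18 ≤ (i : ℕ) → h i = 0) →
      ∑ i, g i * h i = 5 * (2 * h i₀ + ∑ i, h i) := by
    intro h hh
    have h1 : ∀ i, g i * h i = (if i = i₀ then 10 * h i else 0) + 5 * h i := by
      intro i
      simp only [hg]
      by_cases hi : i = i₀
      · rw [if_pos hi, if_pos hi]; ring
      · rw [if_neg hi, if_neg hi]
        rcases Nat.lt_or_ge (i : ℕ) 18 with hi' | hi'
        · rw [if_pos hi']; ring
        · rw [hh i hi']; ring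
    rw [Finset.sum_congr rfl fun i _ => h1 i, Finset.sum_add_distrib, Finset.sum_ite_eq',
      ← Finset.mul_sum]
    simp only [Finset.mem_univ, if_true]
    ring
  have hgP : (2 : ℝ) * g i₀ + ∑ i, g i = 5 * 26 := by
    have h2 : ∑ i, g i = ∑ j : Fin 18, g (Fin.castLE hn j) := sum_castLE hn g hg0
    have h3 : ∀ j : Fin 18, g (Fin.castLE hn j) =
        (if j = ⟨i₀, hi₀⟩ then 10 else 0) + 5 := by
      intro j
      simp only [hg]
      by_cases hj : j = ⟨i₀, hi₀⟩
      · have h4 : Fin.castLE hn j = i₀ := by rw [hj]; rfl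
        rw [if_pos h4, if_pos hj]; norm_num
      · have h4 : Fin.castLE hn j ≠ i₀ := by
          intro h
          apply hj
          apply Fin.ext
          exact (congrArg (Fin.val : Fin n → ℕ) h)
        rw [if_neg h4, if_neg hj, if_pos (by simp)]
        norm_num
    rw [h2, Finset.sum_congr rfl fun j _ => h3 j, Finset.sum_add_distrib, Finset.sum_ite_eq']
    simp only [hg, Finset.mem_univ, if_true]
    norm_num
  have hgg : ∑ i, g i * g i = 650 := by
    rw [hgsum g hg0, hgP]; norm_num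
  have hgy : ∑ i, g i * y.2 i = 25 * y.1 := by
    rw [hgsum y.2 hy0]; linarith
  by_cases h1 : y.1 < 0
  · refine ⟨(26, g), ⟨by norm_num, ?_⟩, ?_, hg0, ?_⟩
    · have : ∀ i, g i ^ 2 = g i * g i := fun i => by ring
      simp only [this, hgg]; norm_num
    · simp only; linarith [hgP]
    · simp only [BB, hgy]; linarith
  · push Not at h1
    have h2 : y.1 ^ 2 < ∑ i, y.2 i ^ 2 := by
      by_contra h
      push Not at h
      exact hy ⟨h1, h⟩
    set Y := ∑ i, y.2 i ^ 2 with hY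
    set q := y.1 ^ 2 / 26 - (y.1 ^ 2 - Y) with hq
    have hq0 : 0 < q := by rw [hq]; nlinarith [sq_nonneg y.1]
    set s := Real.sqrt (q / 26) with hs
    have hs2 : s ^ 2 = q / 26 := Real.sq_sqrt (by positivity)
    have hs0 : 0 < s := Real.sqrt_pos.2 (by positivity)
    set t := y.1 / 26 with ht
    -- x = s h + y - t h
    have hx2 : ∑ i, ((s - t) * g i + y.2 i) ^ 2 = (s - t) ^ 2 * 650 +
        2 * (s - t) * (25 * y.1) + Y := by
      rw [← hgg, ← hgy, hY, Finset.mul_sum, Finset.mul_sum, ← Finset.sum_add_distrib,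
        ← Finset.sum_add_distrib]
      exact Finset.sum_congr rfl fun i _ => by ring
    refine ⟨((s - t) * 26 + y.1, fun i => (s - t) * g i + y.2 i), ⟨?_, ?_⟩, ?_, ?_, ?_⟩
    · simp only; rw [ht]; linarith
    · simp only
      rw [hx2]
      have e1 : (s - t) * 26 + y.1 = 26 * s := by rw [ht]; ring
      rw [e1]
      have e2 : Y = q - y.1 ^ 2 / 26 + y.1 ^ 2 := by rw [hq]; ring
      rw [e2, ht]
      nlinarith
    · simp only
      rw [Finset.sum_add_distrib, ← Finset.mul_sum]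
      linear_combination (-(s - t)) * hgP + hyP
    · intro i hi
      simp only
      rw [hg0 i hi, hy0 i hi]; ring
    · simp only [BB]
      have e1 : ∑ i, ((s - t) * g i + y.2 i) * y.2 i = (s - t) * (25 * y.1) + Y := by
        rw [← hgy, hY, Finset.mul_sum, ← Finset.sum_add_distrib]
        exact Finset.sum_congr rfl fun i _ => by ring
      rw [e1]
      have e2 : ((s - t) * 26 + y.1) * y.1 - ((s - t) * (25 * y.1) + Y) = s * y.1 - q := by
        rw [hq, ht]; ring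
      rw [e2]
      have e3 : q = 26 * s ^ 2 := by rw [hs2]; ring
      rw [e3]
      have e4 : y.1 < 26 * s := by
        have h5 : y.1 ^ 2 < (26 * s) ^ 2 := by
          have : (26 * s) ^ 2 = 26 * q := by rw [mul_pow, hs2]; ring
          rw [this, hq]; nlinarith
        exact lt_of_pow_lt_pow_left₀ 2 (by positivity) h5
      nlinarith

theorem BB_comm {n : ℕ} (x v : ℝ × (Fin n → ℝ)) : BB x v = BB v x := by
  simp only [BB]
  congr 1
  · ring
  · exact Finset.sum_congr rfl fun i _ => by ring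

/-- **Theorem B.** -/
theorem thmB (n : ℕ) (hn : 18 ≤ n) :
    VeryGeneral n (fun p => ∀ i₀ : Fin n, (i₀ : ℕ) < 18 → ∀ y : ℝ × (Fin n → ℝ),
      5 * y.1 = 2 * y.2 i₀ + ∑ i, y.2 i → (∀ i : Fin n, 18 ≤ (i : ℕ) → y.2 i = 0) →
      ((y ∈ moriCone p ↔ y ∈ expectedCone p) ∧
        (y ∈ moriCone p ↔ 0 ≤ y.1 ∧ ∑ i, y.2 i ^ 2 ≤ y.1 ^ 2) ∧
        (y ∈ moriCone p ↔ ∀ v ∈ moriCone p, 0 ≤ y.1 * v.1 - ∑ i, y.2 i * v.2 i))) := by
  obtain ⟨f, hf0, hf⟩ := nef18 n hn
  refine ⟨f, hf0, fun p hp i₀ hi₀ y hyP hy0 => ?_⟩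
  have h1 : y ∈ moriCone p → y ∈ Pos n := by
    intro hy
    by_contra hneg
    obtain ⟨x, hx, hxP, hx0, hlt⟩ := separate18 n hn i₀ hi₀ y hyP hy0 hneg
    have := hf p hp i₀ hi₀ x hx hxP hx0 y hy
    linarith
  have h2 : y ∈ Pos n → y ∈ expectedCone p := fun hy =>
    subset_closure (Submodule.subset_span (Or.inr hy))
  have h3 : y ∈ expectedCone p → y ∈ moriCone p := fun hy => expected_subset_mori p hy
  have h4 : y ∈ Pos n → ∀ v ∈ moriCone p, 0 ≤ y.1 * v.1 - ∑ i, y.2 i * v.2 i :=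
    fun hy v hv => hf p hp i₀ hi₀ y hy hyP hy0 v hv
  have h5 : (∀ v ∈ moriCone p, 0 ≤ y.1 * v.1 - ∑ i, y.2 i * v.2 i) → y ∈ Pos n := by
    intro hnef
    by_contra hneg
    obtain ⟨x, hx, hxP, hx0, hlt⟩ := separate18 n hn i₀ hi₀ y hyP hy0 hneg
    have h6 : 0 ≤ BB y x := hnef x (pos_subset_mori p hx)
    rw [BB_comm] at h6
    linarith
  exact ⟨⟨fun hy => h2 (h1 hy), h3⟩, ⟨h1, fun hy => h3 (h2 hy)⟩,
    ⟨fun hy => h4 (h1 hy), fun hy => h3 (h2 (h5 hy))⟩⟩

end Pool.Agent.H13
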