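import Mathlib
import Pool.Agent.H13.ThmB

set_option autoImplicit false

namespace Pool.Agent.H13

open Module

/-! ### Separation inside a linear subspace -/

theorem BB_neg {n : ℕ} (x v : ℝ × (Fin n → ℝ)) : BB x (-v) = -BB x v := by
  have h := BB_smul x v (-1)
  rw [neg_one_smul, neg_one_mul] at h
  exact h

theorem BB_Pos_strict {n : ℕ} {h y : ℝ × (Fin n → ℝ)} (h1 : 0 < h.1) (hh : 0 < BB h h)
    (hy1 : y.1 < 0) (hy2 : ∑ i, y.2 i ^ 2 ≤ y.1 ^ 2) : BB h y < 0 := by
  have e0 : ∑ i, h.2 i ^ 2 < h.1 ^ 2 := by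
    have e : ∑ i, h.2 i ^ 2 = ∑ i, h.2 i * h.2 i := Finset.sum_congr rfl fun i _ => by ring
    rw [e]
    unfold BB at hh
    nlinarith
  have h3 := Finset.sum_mul_sq_le_sq_mul_sq Finset.univ h.2 y.2
  have hy : 0 < y.1 ^ 2 := by
    have := mul_pos_of_neg_of_neg hy1 hy1
    nlinarith
  have h4 : (∑ i, h.2 i * y.2 i) ^ 2 < (-(h.1 * y.1)) ^ 2 := by
    calc (∑ i, h.2 i * y.2 i) ^ 2 ≤ (∑ i, h.2 i ^ 2) * ∑ i, y.2 i ^ 2 := h3
      _ ≤ (∑ i, h.2 i ^ 2) * y.1 ^ 2 :=
          mul_le_mul_of_nonneg_left hy2 (Finset.sum_nonneg fun i _ => sq_nonneg _)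
      _ < h.1 ^ 2 * y.1 ^ 2 := mul_lt_mul_of_pos_right e0 hy
      _ = (-(h.1 * y.1)) ^ 2 := by ring
  have h5 : 0 ≤ -(h.1 * y.1) := by
    have := mul_neg_of_pos_of_neg h1 hy1
    linarith
  have h6 := abs_lt_of_sq_lt_sq' h4 h5
  unfold BB
  linarith [h6.1]

/-- In a linear subspace containing a class of positive square, a class outside of the positive
cone is negative on a class of the positive cone in the subspace. -/
theorem separateL {n : ℕ} (L : Submodule ℝ (ℝ × (Fin n → ℝ))) (h : ℝ × (Fin n → ℝ))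
    (hL : h ∈ L) (h1 : 0 < h.1) (hh : 0 < BB h h) (y : ℝ × (Fin n → ℝ)) (hyL : y ∈ L)
    (hy : y ∉ Pos n) : ∃ x ∈ L, x ∈ Pos n ∧ BB x y < 0 := by
  have ePos : ∀ x : ℝ × (Fin n → ℝ), ∑ i, x.2 i ^ 2 ≤ x.1 ^ 2 ↔ 0 ≤ BB x x := by
    intro x
    have e : ∑ i, x.2 i ^ 2 = ∑ i, x.2 i * x.2 i := Finset.sum_congr rfl fun i _ => by ring
    rw [e]
    unfold BB
    constructor <;> intro h <;> nlinarith
  by_cases hneg : 0 ≤ BB y y
  · -- then `y.1 < 0`
    have hy1 : y.1 < 0 := by
      by_contra hcon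
      push Not at hcon
      exact hy ⟨hcon, (ePos y).2 hneg⟩
    exact ⟨h, hL, ⟨h1.le, (ePos h).2 hh.le⟩, BB_Pos_strict h1 hh hy1 ((ePos y).2 hneg)⟩
  · push Not at hneg
    set c := BB h h with hc
    set β := BB h y with hβ
    set q := β ^ 2 / c - BB y y with hq
    have hq0 : 0 < q := by
      have : 0 ≤ β ^ 2 / c := div_nonneg (sq_nonneg _) hh.le
      linarith
    set s := Real.sqrt (q / c) with hs
    have hs2 : s ^ 2 = q / c := Real.sq_sqrt (div_nonneg hq0.le hh.le)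
    have hs0 : 0 < s := Real.sqrt_pos.2 (div_pos hq0 hh)
    set r := s - β / c with hr
    have hcs : c * s ^ 2 = q := by rw [hs2]; field_simp
    have hrc : r * c = s * c - β := by rw [hr, sub_mul, div_mul_cancel₀ _ hh.ne']
    have hcq : c * q = β ^ 2 - c * BB y y := by
      rw [hq, mul_sub, mul_div_cancel₀ _ hh.ne']
    have hx1 : BB (r • h + y) h = s * c := by
      rw [BB_comm, BB_add, BB_smul, ← hc, ← hβ, hrc]; ring
    have hx2 : BB (r • h + y) y = s * β - q := by
      rw [BB_comm, BB_add, BB_smul, BB_comm y h, ← hβ]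
      have : c * (r * β + BB y y - (s * β - q)) = 0 := by
        linear_combination β * hrc + hcq
      have := (mul_eq_zero.1 this).resolve_left hh.ne'
      linarith
    have hxx : BB (r • h + y) (r • h + y) = 0 := by
      rw [BB_add, BB_smul, hx1, hx2]
      linear_combination s * hrc + hcs
    refine ⟨r • h + y, L.add_mem (L.smul_mem _ hL) hyL, ⟨?_, (ePos _).2 hxx.ge⟩, ?_⟩
    · by_contra hcon
      push Not at hcon
      have h3 := BB_Pos_strict h1 hh hcon ((ePos _).2 hxx.ge)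
      rw [BB_comm, hx1] at h3
      have := mul_pos hs0 hh
      linarith
    · rw [hx2]
      have h4 : β < c * s := by
        have h5 : β ^ 2 < (c * s) ^ 2 := by
          have e : (c * s) ^ 2 = c * q := by rw [← hcs]; ring
          rw [e, hcq]
          have := mul_neg_of_pos_of_neg hh hneg
          linarith
        exact (abs_lt_of_sq_lt_sq' h5 (mul_pos hh hs0).le).2
      have h6 : s * β < s * (c * s) := mul_lt_mul_of_pos_left h4 hs0
      nlinarith

end Pool.Agent.H13
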