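import Mathlib
import Pool.Agent.H13.Param
import Pool.Agent.H13.ThmB
import Pool.Agent.H13.DefsT1

set_option autoImplicit false

namespace Pool.Agent.H13

open Module MvPolynomial

/-! ### Integer Cauchy-Schwarz -/

theorem cauchyZ {ι : Type*} [Fintype ι] (w : ι → ℤ) (hw : ∀ i, 0 ≤ w i) (x y : ι → ℤ) (X Y : ℤ)
    (hX : 0 < X) (hY : 0 < Y) (h1 : ∑ i, w i * x i ^ 2 ≤ X ^ 2) (h2 : ∑ i, w i * y i ^ 2 ≤ Y ^ 2) :
    ∑ i, w i * (x i * y i) ≤ X * Y ∧
      (∑ i, w i * (x i * y i) = X * Y → ∀ i, 0 < w i → Y * x i = X * y i) := by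
  have hid : ∑ i, w i * (Y * x i - X * y i) ^ 2 =
      Y ^ 2 * (∑ i, w i * x i ^ 2) - 2 * (X * Y) * (∑ i, w i * (x i * y i)) +
        X ^ 2 * (∑ i, w i * y i ^ 2) := by
    rw [Finset.mul_sum, Finset.mul_sum, Finset.mul_sum, ← Finset.sum_sub_distrib,
      ← Finset.sum_add_distrib]
    exact Finset.sum_congr rfl fun i _ => by ring
  have hnn : ∀ i ∈ Finset.univ, 0 ≤ w i * (Y * x i - X * y i) ^ 2 := fun i _ =>
    mul_nonneg (hw i) (sq_nonneg _)
  have hs := Finset.sum_nonneg hnn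
  have hXY : 0 < X * Y := mul_pos hX hY
  have hb : ∑ i, w i * (Y * x i - X * y i) ^ 2 ≤
      2 * (X * Y) * (X * Y - ∑ i, w i * (x i * y i)) := by
    rw [hid]
    have e1 : Y ^ 2 * (∑ i, w i * x i ^ 2) ≤ Y ^ 2 * X ^ 2 :=
      mul_le_mul_of_nonneg_left h1 (sq_nonneg _)
    have e2 : X ^ 2 * (∑ i, w i * y i ^ 2) ≤ X ^ 2 * Y ^ 2 :=
      mul_le_mul_of_nonneg_left h2 (sq_nonneg _)
    nlinarith
  constructor
  · by_contra hcon
    push Not at hcon
    have : 2 * (X * Y) * (X * Y - ∑ i, w i * (x i * y i)) < 0 :=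
      mul_neg_of_pos_of_neg (by linarith) (by linarith)
    linarith
  · intro heq i hi
    rw [heq, sub_self, mul_zero] at hb
    have h0 : ∑ i, w i * (Y * x i - X * y i) ^ 2 = 0 := le_antisymm hb hs
    have h3 := (Finset.sum_eq_zero_iff_of_nonneg hnn).1 h0 i (Finset.mem_univ i)
    rcases mul_eq_zero.1 h3 with h | h
    · omega
    · have := pow_eq_zero_iff (two_ne_zero) |>.1 h
      linarith

/-! ### The configuration -/

/-- parameters of the special points -/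
noncomputable def r1 : Fin 6 → ℂ := ![-3, 1 / 3, -2, -3 / 2, -4 / 3, -6 / 5]

/-- special points -/
noncomputable def P1 (i : Fin 6) : Fin 2 → ℂ := ![r1 i ^ 2, r1 i ^ 2 + 8 / 3 * r1 i - 1]

noncomputable def U1 : Polynomial ℂ := Polynomial.X ^ 2

theorem eval_GC {k : Type*} [Field k] (U : Polynomial k) (l m : k) (Q : Fin 2 → k) :
    eval Q (GC U l m) = Q 0 - U.eval (l⁻¹ * (Q 1 - Q 0 - m)) := by
  rw [GC, map_sub, eval_X]
  congr 1
  have h1 : (eval Q : MvPolynomial (Fin 2) k →+* k) (Polynomial.aeval (TC l m) U) =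
      Polynomial.eval₂ ((eval Q).comp (algebraMap k (MvPolynomial (Fin 2) k)))
        (eval Q (TC l m)) U := by
    rw [Polynomial.aeval_def, Polynomial.hom_eval₂]
  rw [h1]
  have h2 : ((eval Q).comp (algebraMap k (MvPolynomial (Fin 2) k))) = RingHom.id k := by
    ext c
    simp [algebraMap_eq]
  rw [h2, TC, map_mul, map_sub, map_sub, eval_C, eval_C, eval_X, eval_X]
  rfl

theorem mult_eq_zero {k : Type*} [Field k] {P : Fin 2 → k} {F : MvPolynomial (Fin 2) k}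
    (hF : F ≠ 0) (h : eval P F ≠ 0) : mult P F = 0 := by
  by_contra hne
  apply h
  rw [← mem_Iord_one, mem_Iord_iff_le_mult hF]
  omega

theorem U1_eval (t : ℂ) : U1.eval t = t ^ 2 := by simp [U1]

theorem YY1_eval (t : ℂ) : (YY U1 (8 / 3) (-1)).eval t = t ^ 2 + 8 / 3 * t - 1 := by
  simp [YY, U1]
  ring

theorem r1_inj : Function.Injective r1 := by
  intro i j h
  fin_cases i <;> fin_cases j <;> first | rfl | (exfalso; revert h; simp [r1]; try norm_num)

theorem P1_dwn : Pairwise fun i j => dwn (P1 i) ≠ dwn (P1 j) := by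
  intro i j hij h
  have h0 : r1 i ^ 2 = r1 j ^ 2 := congrFun h 0
  apply hij
  fin_cases i <;> fin_cases j <;> first | rfl | (exfalso; revert h0; simp [r1]; try norm_num)

theorem P1_zero0 : P1 0 1 = 0 := by
  change r1 0 ^ 2 + 8 / 3 * r1 0 - 1 = 0
  have : r1 0 = -3 := rfl
  rw [this]; norm_num

theorem P1_zero1 : P1 1 1 = 0 := by
  change r1 1 ^ 2 + 8 / 3 * r1 1 - 1 = 0
  have : r1 1 = 1 / 3 := rfl
  rw [this]; norm_num

theorem P1_ne (i : Fin 6) (h0 : i ≠ 0) (h1 : i ≠ 1) : P1 i 1 ≠ 0 := by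
  change r1 i ^ 2 + 8 / 3 * r1 i - 1 ≠ 0
  fin_cases i
  · exact absurd rfl h0
  · exact absurd rfl h1
  · simp [r1]; norm_num
  · simp [r1]; norm_num
  · simp [r1]; norm_num
  · simp [r1]; norm_num


/-- weights of the orbits -/
def w1 : Fin 6 → ℤ := ![1, 1, 2, 2, 2, 2]

/-- numerical conditions on the class `(d; D 0, D 1, D 2, D 2, …, D 5, D 5)` -/
def Cond1 (d : ℤ) (D : Fin 6 → ℤ) : Prop :=
  0 < d ∧ (∀ i, 0 ≤ D i) ∧ D 0 + D 1 ≤ d ∧ ∑ i, w1 i * D i ^ 2 = d ^ 2 ∧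
  (2 * d = ∑ i, D i + 1 ∨
    (2 * d = ∑ i, D i + 2 ∧ 2 ∣ d ∧ 2 ∣ D 0 ∧ 2 ∣ D 1 ∧ ∃ j, 1 < j ∧ 2 ∣ D j))

theorem T1_num (d : ℤ) (D : Fin 6 → ℤ) (hD : Cond1 d D) (E : ℤ) (C : Fin 6 → ℤ) (hE : 0 < E)
    (hJ : C 0 * (C 0 - 2) + C 1 * (C 1 - 2) + 2 * (C 2 * (C 2 - 1)) + 2 * (C 3 * (C 3 - 1)) +
      2 * (C 4 * (C 4 - 1)) + 2 * (C 5 * (C 5 - 1)) ≤ (E - 2) ^ 2)
    (hg : ∑ i, C i + 1 ≤ 2 * E) :
    ∑ i, w1 i * (D i * C i) ≤ d * E := by
  obtain ⟨hd, hD0, hge, hDD, hf⟩ := hD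
  have hw : ∀ i, 0 < w1 i := by intro i; fin_cases i <;> decide
  have hw' : ∀ i, 0 ≤ w1 i := fun i => (hw i).le
  have w0 : w1 0 = 1 := rfl
  have w1' : w1 1 = 1 := rfl
  have w2 : w1 2 = 2 := rfl
  have w3 : w1 3 = 2 := rfl
  have w4 : w1 4 = 2 := rfl
  have w5 : w1 5 = 2 := rfl
  rcases lt_or_ge (∑ i, C i + 1) (2 * E) with h2 | h2
  · -- g ≥ 2
    refine (cauchyZ w1 hw' D C d E hd hE hDD.le ?_).1
    simp only [Fin.sum_univ_six, w0, w1', w2, w3, w4, w5] at h2 ⊢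
    nlinarith
  · -- g = 1
    set F : Fin 6 → ℤ := ![2, 2, 1, 1, 1, 1] with hF
    have f0 : F 0 = 2 := rfl
    have f1 : F 1 = 2 := rfl
    have f2 : F 2 = 1 := rfl
    have f3 : F 3 = 1 := rfl
    have f4 : F 4 = 1 := rfl
    have f5 : F 5 = 1 := rfl
    have hcs := cauchyZ w1 hw' D (fun i => 2 * C i + F i) d (2 * E + 4) hd (by linarith) hDD.le (by
      simp only [Fin.sum_univ_six, w0, w1', w2, w3, w4, w5, f0, f1, f2, f3, f4, f5] at hg h2 ⊢
      nlinarith)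
    obtain ⟨hcs1, hcs2⟩ := hcs
    have hsum : ∑ i, w1 i * (D i * (2 * C i + F i)) =
        2 * ∑ i, w1 i * (D i * C i) + 2 * ∑ i, D i := by
      simp only [Fin.sum_univ_six, w0, w1', w2, w3, w4, w5, f0, f1, f2, f3, f4, f5]
      ring
    rw [hsum] at hcs1 hcs2
    by_contra hcon
    push Not at hcon
    have hZ0 : (2 : ℤ) * E + 4 = ∑ i, C i + 5 := by linarith
    -- equality must hold
    have heq : 2 * ∑ i, w1 i * (D i * C i) + 2 * ∑ i, D i = d * (2 * E + 4) := by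
      rcases hf with hf | ⟨hf, e1, e2, e3, -⟩
      · have h5 : d * (2 * E + 4) = 2 * (d * E) + 4 * d := by ring
        linarith
      · have h5 : d * (2 * E + 4) = 2 * (d * E) + 4 * d := by ring
        have h6 : (2 : ℤ) ∣ ∑ i, w1 i * (D i * C i) - d * E := by
          obtain ⟨x, hx⟩ := e1
          obtain ⟨y, hy⟩ := e2
          obtain ⟨z, hz⟩ := e3
          refine ⟨y * C 0 + z * C 1 + D 2 * C 2 + D 3 * C 3 + D 4 * C 4 + D 5 * C 5 - x * E, ?_⟩
          simp only [Fin.sum_univ_six, w0, w1', w2, w3, w4, w5]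
          rw [hx, hy, hz]
          ring
        have h7 : 0 < ∑ i, w1 i * (D i * C i) - d * E := by linarith
        have h8 := Int.le_of_dvd h7 h6
        linarith
    have hprop := hcs2 heq
    have hprop' : ∀ i, (2 * E + 4) * D i = d * (2 * C i + F i) := fun i => hprop i (hw i)
    -- pairing with F
    have hpair : (2 * E + 4) * ∑ i, D i = d * (2 * ∑ i, C i + 8) - d * 0 := by
      have := Finset.sum_congr (rfl : (Finset.univ : Finset (Fin 6)) = Finset.univ)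
        (fun i _ => hprop' i)
      rw [← Finset.mul_sum, ← Finset.mul_sum, Finset.sum_add_distrib, ← Finset.mul_sum] at this
      rw [this]
      simp only [Fin.sum_univ_six, f0, f1, f2, f3, f4, f5]
      ring
    have hEs : (2 : ℤ) * E = ∑ i, C i + 1 := by linarith
    rcases hf with hf | ⟨hf, e1, e2, e3, j, hj, hjd⟩
    · have h9 : ∑ i, C i + 5 = 2 * d := by
        have h10 : (∑ i, C i + 5) * (2 * d - 1) = d * (2 * ∑ i, C i + 8) := by
          have : ∑ i, D i = 2 * d - 1 := by linarith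
          rw [← hZ0, ← this, hpair]; ring
        linear_combination -h10
      have h11 := hprop' 2
      rw [hZ0, h9, f2] at h11
      have h12 : 2 * D 2 = 2 * C 2 + 1 := by
        have : d * (2 * D 2) = d * (2 * C 2 + 1) := by linarith
        exact mul_left_cancel₀ hd.ne' this
      omega
    · have h9 : ∑ i, C i + 5 = d := by
        have h10 : (∑ i, C i + 5) * (2 * d - 2) = d * (2 * ∑ i, C i + 8) := by
          have : ∑ i, D i = 2 * d - 2 := by linarith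
          rw [← hZ0, ← this, hpair]; ring
        have h14 : 2 * (∑ i, C i + 5) = 2 * d := by linear_combination -h10
        linarith
      have h11 := hprop' j
      rw [hZ0, h9] at h11
      have h12 : D j = 2 * C j + F j := mul_left_cancel₀ hd.ne' h11
      have h13 : F j = 1 := by
        fin_cases j
        · exact absurd hj (by decide)
        · exact absurd hj (by decide)
        · rfl
        · rfl
        · rfl
        · rfl
      rw [h13] at h12
      omega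

theorem pow_eq (m0 m1 m2 m3 m4 m5 : ℕ)
    (h : (4 : ℤ) ^ m0 * 2 ^ m1 * 3 ^ m2 * 5 ^ m3 * 7 ^ m4 * 11 ^ m5 = 2 ^ m0 * (-4) ^ m1) :
    m0 = m1 ∧ m2 = 0 ∧ m3 = 0 ∧ m4 = 0 ∧ m5 = 0 := by
  have h1 := congrArg Int.natAbs h
  simp only [Int.natAbs_mul, Int.natAbs_pow, Int.natAbs_neg, Int.reduceAbs] at h1
  have hp : ∀ p : ℕ, p.Prime → p ≠ 2 →
      ¬ p ∣ 2 ^ m0 * 4 ^ m1 := by
    intro p hp hp2 hdvd
    rcases hp.dvd_mul.1 hdvd with h | h
    · have := hp.dvd_of_dvd_pow h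
      exact hp2 ((Nat.prime_dvd_prime_iff_eq hp Nat.prime_two).1 this)
    · have := hp.dvd_of_dvd_pow h
      have h4 : p ∣ 2 * 2 := this
      rcases hp.dvd_mul.1 h4 with h | h <;>
        exact hp2 ((Nat.prime_dvd_prime_iff_eq hp Nat.prime_two).1 h)
  have z2 : m2 = 0 := by
    by_contra hne
    apply hp 3 (by norm_num) (by norm_num)
    rw [← h1]
    have : 3 ∣ 3 ^ m2 := dvd_pow_self 3 hne
    exact Dvd.dvd.mul_right (Dvd.dvd.mul_right (Dvd.dvd.mul_right (Dvd.dvd.mul_left this _) _) _) _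
  have z3 : m3 = 0 := by
    by_contra hne
    apply hp 5 (by norm_num) (by norm_num)
    rw [← h1]
    have : 5 ∣ 5 ^ m3 := dvd_pow_self 5 hne
    exact Dvd.dvd.mul_right (Dvd.dvd.mul_right (Dvd.dvd.mul_left this _) _) _
  have z4 : m4 = 0 := by
    by_contra hne
    apply hp 7 (by norm_num) (by norm_num)
    rw [← h1]
    have : 7 ∣ 7 ^ m4 := dvd_pow_self 7 hne
    exact Dvd.dvd.mul_right (Dvd.dvd.mul_left this _) _
  have z5 : m5 = 0 := by
    by_contra hne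
    apply hp 11 (by norm_num) (by norm_num)
    rw [← h1]
    have : 11 ∣ 11 ^ m5 := dvd_pow_self 11 hne
    exact Dvd.dvd.mul_left this _
  subst z2 z3 z4 z5
  refine ⟨?_, rfl, rfl, rfl, rfl⟩
  have h2 : (2 : ℕ) ^ (2 * m0 + m1) = 2 ^ (m0 + 2 * m1) := by
    have e4 : (4 : ℕ) = 2 ^ 2 := rfl
    rw [e4] at h1
    simp only [pow_zero, mul_one] at h1
    rw [← pow_mul, ← pow_mul] at h1
    rw [pow_add, pow_add]
    exact h1
  have := Nat.pow_right_injective (le_refl 2) h2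
  omega

/-- Prime curves downstairs are nonnegative on the classes of `Cond1`. -/
theorem prime1 (d : ℤ) (D : Fin 6 → ℤ) (hD : Cond1 d D) (φ : MvPolynomial (Fin 2) ℂ)
    (hφ : Prime φ) :
    ∑ i, w1 i * (D i * (mult (P1 i) (psi ℂ φ) : ℤ)) ≤ d * (wd φ : ℤ) := by
  have h2 : (2 : ℂ) ≠ 0 := two_ne_zero
  have hl : (8 / 3 : ℂ) ≠ 0 := by norm_num
  have hψ := psi_ne_zero hφ.ne_zero
  have hD' := hD
  obtain ⟨hd, hD0, hge, hDD, hf⟩ := hD'
  have w0 : w1 0 = 1 := rfl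
  have w1' : w1 1 = 1 := rfl
  have w2 : w1 2 = 2 := rfl
  have w3 : w1 3 = 2 := rfl
  have w4 : w1 4 = 2 := rfl
  have w5 : w1 5 = 2 := rfl
  set C : Fin 6 → ℕ := fun i => mult (P1 i) (psi ℂ φ) with hC
  change ∑ i, w1 i * (D i * (C i : ℤ)) ≤ d * (wd φ : ℤ)
  by_cases h0 : th U1 (YY U1 (8 / 3) (-1)) (psi ℂ φ) = 0
  · -- the special curve
    have hne := (prime_GC U1 hl (-1)).ne_zero
    obtain ⟨k1, k2⟩ := kernel_case h2 U1 hl (-1) ![0, -1] (by
      rw [eval_GC, U1_eval]; norm_num) (by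
      rw [eval_GC, U1_eval]
      simp [refl]) hφ h0
    have hdeg : U1.natDegree = 2 := by simp [U1]
    rw [hdeg] at k1
    have hm1 : ∀ i, mult (P1 i) (GC U1 (8 / 3) (-1)) ≤ 1 := fun i => mult_GC_le _ _ _ _
    have hm2 : ∀ i, mult (refl (P1 i)) (GC U1 (8 / 3) (-1)) ≤ 1 := fun i => mult_GC_le _ _ _ _
    have hm3 : ∀ i : Fin 6, i ≠ 0 → i ≠ 1 →
        mult (refl (P1 i)) (GC U1 (8 / 3) (-1)) = 0 := by
      intro i h0 h1
      apply mult_eq_zero hne
      rw [eval_GC, U1_eval]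
      have e0 : refl (P1 i) 0 = r1 i ^ 2 := rfl
      have e1 : refl (P1 i) 1 = -(r1 i ^ 2 + 8 / 3 * r1 i - 1) := rfl
      rw [e0, e1]
      fin_cases i
      · exact absurd rfl h0
      · exact absurd rfl h1
      · simp [r1]; norm_num
      · simp [r1]; norm_num
      · simp [r1]; norm_num
      · simp [r1]; norm_num
    have c0 : (C 0 : ℤ) ≤ 2 := by
      have := k2 (P1 0); have := hm1 0; have := hm2 0; simp only [hC]; omega
    have c1 : (C 1 : ℤ) ≤ 2 := by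
      have := k2 (P1 1); have := hm1 1; have := hm2 1; simp only [hC]; omega
    have c2 : (C 2 : ℤ) ≤ 1 := by
      have := k2 (P1 2); have := hm1 2; have := hm3 2 (by decide) (by decide)
      simp only [hC]; omega
    have c3 : (C 3 : ℤ) ≤ 1 := by
      have := k2 (P1 3); have := hm1 3; have := hm3 3 (by decide) (by decide)
      simp only [hC]; omega
    have c4 : (C 4 : ℤ) ≤ 1 := by
      have := k2 (P1 4); have := hm1 4; have := hm3 4 (by decide) (by decide)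
      simp only [hC]; omega
    have c5 : (C 5 : ℤ) ≤ 1 := by
      have := k2 (P1 5); have := hm1 5; have := hm3 5 (by decide) (by decide)
      simp only [hC]; omega
    have hE : (4 : ℤ) ≤ wd φ := by
      have : 4 ≤ wd φ := by omega
      exact_mod_cast this
    have hE2 : d * 4 ≤ d * (wd φ : ℤ) := mul_le_mul_of_nonneg_left hE hd.le
    have hS : ∑ i, D i ≤ 2 * d := by
      rcases hf with hf | ⟨hf, -⟩ <;> linarith
    have m0 := mul_le_mul_of_nonneg_left c0 (hD0 0)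
    have m1 := mul_le_mul_of_nonneg_left c1 (hD0 1)
    have m2 := mul_le_mul_of_nonneg_left c2 (hD0 2)
    have m3 := mul_le_mul_of_nonneg_left c3 (hD0 3)
    have m4 := mul_le_mul_of_nonneg_left c4 (hD0 4)
    have m5 := mul_le_mul_of_nonneg_left c5 (hD0 5)
    simp only [Fin.sum_univ_six, w0, w1', w2, w3, w4, w5] at hS ⊢
    linarith
  · set Φ := th U1 (YY U1 (8 / 3) (-1)) (psi ℂ φ) with hΦ
    have hx : U1.natDegree ≤ 2 := by simp [U1]
    have hy : (YY U1 (8 / 3) (-1)).natDegree ≤ 2 := by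
      rw [YY, U1]
      compute_degree
    have hdeg : Φ.natDegree ≤ 2 * wd φ := th_natDegree hx hy (psi ℂ φ)
    have hdvd : ∀ i, (Polynomial.X - Polynomial.C (r1 i)) ^ C i ∣ Φ := by
      intro i
      refine th_dvd (P := P1 i) ?_ ?_ (mem_mult hψ)
      · rw [U1_eval]; rfl
      · rw [YY1_eval]; rfl
    have hI := sum_mult_le r1 r1_inj C Φ h0 hdvd
    have hE1 : 1 ≤ wd φ := by
      have hpr := hφ
      by_contra hcon
      have hz : wd φ = 0 := by omega
      rw [wd, totalDegree_eq_zero_iff_eq_C] at hz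
      have h5 : psi ℂ φ = psi ℂ (MvPolynomial.C (coeff 0 (psi ℂ φ))) := by
        rw [psi_C]; exact hz
      have h6 := psi_injective h5
      have hne : coeff 0 (psi ℂ φ) ≠ 0 := by
        intro h7
        rw [h7, C_0] at h6
        exact hφ.ne_zero h6
      apply hφ.not_isUnit
      rw [h6]
      exact (IsUnit.mk0 _ hne).map MvPolynomial.C
    rcases Nat.lt_or_ge (∑ i, C i) (2 * wd φ) with hlt | hge'
    · -- g ≥ 1
      have hJ := genus_w' P1 P1_dwn φ hφ C (fun i => by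
        rw [mem_Jord]; exact mem_mult hψ)
      rw [Fin.sum_univ_six] at hJ
      simp only [gw, if_pos P1_zero0, if_pos P1_zero1,
        if_neg (P1_ne 2 (by decide) (by decide)), if_neg (P1_ne 3 (by decide) (by decide)),
        if_neg (P1_ne 4 (by decide) (by decide)), if_neg (P1_ne 5 (by decide) (by decide))] at hJ
      refine T1_num d D hD (wd φ) (fun i => (C i : ℤ)) (by exact_mod_cast hE1) hJ ?_
      have : ∑ i, C i + 1 ≤ 2 * wd φ := by omega
      exact_mod_cast this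
    · -- g = 0
      obtain ⟨c, hc, hprod⟩ := eq_prod_of_degree r1 r1_inj C Φ h0 hdvd (by omega)
      have he : Φ.eval 1 = Φ.eval (-1) := by
        rw [hΦ, th_eval, th_eval, eval_psi, eval_psi, U1_eval, YY1_eval, U1_eval, YY1_eval]
        have : dwn (![(1 : ℂ) ^ 2, 1 ^ 2 + 8 / 3 * 1 - 1] : Fin 2 → ℂ) =
            dwn ![(-1 : ℂ) ^ 2, (-1) ^ 2 + 8 / 3 * (-1) - 1] := by
          funext i
          match i with
          | 0 => change (1 : ℂ) ^ 2 = (-1) ^ 2; norm_num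
          | 1 => change ((1 : ℂ) ^ 2 + 8 / 3 * 1 - 1) ^ 2 = ((-1) ^ 2 + 8 / 3 * (-1) - 1) ^ 2
                 norm_num
        rw [this]
      rw [hprod, Polynomial.eval_mul, Polynomial.eval_mul, Polynomial.eval_C,
        Polynomial.eval_C, Polynomial.eval_prod, Polynomial.eval_prod] at he
      have he2 := mul_left_cancel₀ hc he
      simp only [Fin.prod_univ_six, Polynomial.eval_pow, Polynomial.eval_sub, Polynomial.eval_X,
        Polynomial.eval_C] at he2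
      have e0 : r1 0 = -3 := rfl
      have e1 : r1 1 = 1 / 3 := rfl
      have e2 : r1 2 = -2 := rfl
      have e3 : r1 3 = -3 / 2 := rfl
      have e4 : r1 4 = -4 / 3 := rfl
      have e5 : r1 5 = -6 / 5 := rfl
      rw [e0, e1, e2, e3, e4, e5] at he2
      have key : ((4 : ℤ) ^ C 0 * 2 ^ C 1 * 3 ^ C 2 * 5 ^ C 3 * 7 ^ C 4 * 11 ^ C 5 : ℂ) =
          2 ^ C 0 * (-4) ^ C 1 := by
        have f0 : ((1 : ℂ) - -3) = 4 := by norm_num
        have f1 : ((1 : ℂ) - 1 / 3) = 2 / 3 := by norm_num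
        have f2 : ((1 : ℂ) - -2) = 3 := by norm_num
        have f3 : ((1 : ℂ) - -3 / 2) = 5 / 2 := by norm_num
        have f4 : ((1 : ℂ) - -4 / 3) = 7 / 3 := by norm_num
        have f5 : ((1 : ℂ) - -6 / 5) = 11 / 5 := by norm_num
        have g0 : ((-1 : ℂ) - -3) = 2 := by norm_num
        have g1 : ((-1 : ℂ) - 1 / 3) = -4 / 3 := by norm_num
        have g2 : ((-1 : ℂ) - -2) = 1 := by norm_num
        have g3 : ((-1 : ℂ) - -3 / 2) = 1 / 2 := by norm_num
        have g4 : ((-1 : ℂ) - -4 / 3) = 1 / 3 := by norm_num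
        have g5 : ((-1 : ℂ) - -6 / 5) = 1 / 5 := by norm_num
        rw [f0, f1, f2, f3, f4, f5, g0, g1, g2, g3, g4, g5] at he2
        simp only [div_pow, one_pow] at he2
        have n1 : (3 : ℂ) ^ C 1 ≠ 0 := pow_ne_zero _ (by norm_num)
        have n3 : (2 : ℂ) ^ C 3 ≠ 0 := pow_ne_zero _ (by norm_num)
        have n4 : (3 : ℂ) ^ C 4 ≠ 0 := pow_ne_zero _ (by norm_num)
        have n5 : (5 : ℂ) ^ C 5 ≠ 0 := pow_ne_zero _ (by norm_num)
        field_simp at he2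
        push_cast
        linear_combination he2
      have keyZ : (4 : ℤ) ^ C 0 * 2 ^ C 1 * 3 ^ C 2 * 5 ^ C 3 * 7 ^ C 4 * 11 ^ C 5 =
          2 ^ C 0 * (-4) ^ C 1 := by
        exact_mod_cast key
      obtain ⟨z0, z2, z3, z4, z5⟩ := pow_eq _ _ _ _ _ _ keyZ
      have hsumC : (C 0 : ℤ) = wd φ := by
        have h8 : ∑ i, C i ≤ 2 * wd φ := hI.trans hdeg
        have h9 : ∑ i, C i = 2 * wd φ := by omega
        rw [Fin.sum_univ_six] at h9
        have : C 0 = wd φ := by omega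
        exact_mod_cast this
      have hC1 : (C 1 : ℤ) = wd φ := by rw [← z0]; exact hsumC
      simp only [Fin.sum_univ_six, w0, w1', w2, w3, w4, w5]
      rw [z2, z3, z4, z5, hsumC, hC1]
      have h10 := mul_le_mul_of_nonneg_right hge (show (0 : ℤ) ≤ wd φ by positivity)
      push_cast
      linarith


/-! ### Transfer to very general points -/

theorem nef_of_special {n0 n : ℕ} (hn : n0 ≤ n) (P : Fin n0 → Fin 2 → ℂ) :
    VeryGeneral n (fun p => ∀ x : ℝ × (Fin n → ℝ), (∀ i : Fin n, n0 ≤ (i : ℕ) → x.2 i = 0) →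
      (∀ i, 0 ≤ x.2 i) →
      (∀ (δ : ℕ) (m : Fin n0 → ℕ), HasCurve P δ m →
        ∑ j, x.2 (Fin.castLE hn j) * (m j : ℝ) ≤ x.1 * δ) →
      ∀ v ∈ moriCone p, 0 ≤ BB x v) := by
  obtain ⟨f, hf0, hf⟩ := transfer_all hn P
  refine ⟨f, hf0, fun p hp x hx0 hxn hx v hv => ?_⟩
  refine BB_nonneg_closure x (curveClasses p) ?_ v hv
  intro w hw
  rcases curveClasses_sub p hw with ⟨d, m, hc, rfl⟩ | ⟨i, rfl⟩
  · have hc' : HasCurve (fun i => p (Fin.castLE hn i)) d (fun j => m (Fin.castLE hn j)) := by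
      obtain ⟨F, h0, h1, h2⟩ := hc
      exact ⟨F, h0, h1, fun i => h2 _⟩
    have h3 := hx d _ (hf p hp d _ hc')
    simp only [BB]
    rw [sum_castLE hn (fun i => x.2 i * (m i : ℝ)) (fun i hi => by
        rw [hx0 i hi]; ring)]
    linarith
  · simp only [BB, Pi.single_apply, mul_ite, mul_neg, mul_one, mul_zero,
      Finset.sum_ite_eq', Finset.mem_univ, if_true]
    have := hxn i
    linarith

/-- the ten special points -/
noncomputable def Q1 : Fin 10 → Fin 2 → ℂ :=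
  ![P1 0, P1 1, P1 2, refl (P1 2), P1 3, refl (P1 3), P1 4, refl (P1 4), P1 5, refl (P1 5)]

theorem curve1 (d : ℤ) (D : Fin 6 → ℤ) (hD : Cond1 d D) (δ : ℕ) (m : Fin 10 → ℕ)
    (hc : HasCurve Q1 δ m) :
    (D 0 : ℝ) * m 0 + D 1 * m 1 + D 2 * (m 2 + m 3) + D 3 * (m 4 + m 5) + D 4 * (m 6 + m 7) +
      D 5 * (m 8 + m 9) ≤ d * δ := by
  obtain ⟨F, hF0, hFd, hF⟩ := hc
  have hw' : ∀ i, 0 ≤ w1 i := by intro i; fin_cases i <;> decide
  have hprime : ∀ φ : MvPolynomial (Fin 2) ℂ, Prime φ →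
      ∑ i, ((w1 i * D i : ℤ) : ℝ) * (mult (P1 i) (psi ℂ φ) : ℝ) ≤ (d : ℝ) * (wd φ : ℝ) := by
    intro φ hφ
    have h := prime1 d D hD φ hφ
    have h' : ((∑ i, w1 i * (D i * (mult (P1 i) (psi ℂ φ) : ℤ)) : ℤ) : ℝ) ≤
        ((d * (wd φ : ℤ) : ℤ) : ℝ) := by exact_mod_cast h
    push_cast at h'
    refine le_trans (le_of_eq ?_) h'
    refine Finset.sum_congr rfl fun i _ => ?_
    push_cast
    ring
  have r0 : refl (P1 0) = P1 0 := refl_eq_self P1_zero0
  have r1' : refl (P1 1) = P1 1 := refl_eq_self P1_zero1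
  have h := upstairs_ineq (k := ℂ) two_ne_zero P1 (fun i => ((w1 i * D i : ℤ) : ℝ))
    (fun i => by exact_mod_cast mul_nonneg (hw' i) (hD.2.1 i)) d
    (by exact_mod_cast hD.1.le) hprime hF0 δ hFd ![m 0, m 1, m 2, m 4, m 6, m 8]
    ![m 0, m 1, m 3, m 5, m 7, m 9] (by
      intro i
      fin_cases i
      · exact hF 0
      · exact hF 1
      · exact hF 2
      · exact hF 4
      · exact hF 6
      · exact hF 8) (by
      intro i
      fin_cases i
      · change F ∈ Iord (refl (P1 0)) (m 0); rw [r0]; exact hF 0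
      · change F ∈ Iord (refl (P1 1)) (m 1); rw [r1']; exact hF 1
      · exact hF 3
      · exact hF 5
      · exact hF 7
      · exact hF 9)
  have w0 : w1 0 = 1 := rfl
  have w1' : w1 1 = 1 := rfl
  have w2 : w1 2 = 2 := rfl
  have w3 : w1 3 = 2 := rfl
  have w4 : w1 4 = 2 := rfl
  have w5 : w1 5 = 2 := rfl
  rw [Fin.sum_univ_six] at h
  have v0 : (![m 0, m 1, m 2, m 4, m 6, m 8] : Fin 6 → ℕ) 0 = m 0 := rfl
  have v1 : (![m 0, m 1, m 2, m 4, m 6, m 8] : Fin 6 → ℕ) 1 = m 1 := rfl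
  have v2 : (![m 0, m 1, m 2, m 4, m 6, m 8] : Fin 6 → ℕ) 2 = m 2 := rfl
  have v3 : (![m 0, m 1, m 2, m 4, m 6, m 8] : Fin 6 → ℕ) 3 = m 4 := rfl
  have v4 : (![m 0, m 1, m 2, m 4, m 6, m 8] : Fin 6 → ℕ) 4 = m 6 := rfl
  have v5 : (![m 0, m 1, m 2, m 4, m 6, m 8] : Fin 6 → ℕ) 5 = m 8 := rfl
  have u0 : (![m 0, m 1, m 3, m 5, m 7, m 9] : Fin 6 → ℕ) 0 = m 0 := rfl
  have u1 : (![m 0, m 1, m 3, m 5, m 7, m 9] : Fin 6 → ℕ) 1 = m 1 := rfl
  have u2 : (![m 0, m 1, m 3, m 5, m 7, m 9] : Fin 6 → ℕ) 2 = m 3 := rfl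
  have u3 : (![m 0, m 1, m 3, m 5, m 7, m 9] : Fin 6 → ℕ) 3 = m 5 := rfl
  have u4 : (![m 0, m 1, m 3, m 5, m 7, m 9] : Fin 6 → ℕ) 4 = m 7 := rfl
  have u5 : (![m 0, m 1, m 3, m 5, m 7, m 9] : Fin 6 → ℕ) 5 = m 9 := rfl
  simp only [w0, w1', w2, w3, w4, w5, v0, v1, v2, v3, v4, v5, u0, u1, u2, u3, u4, u5] at h
  push_cast at h
  linarith

/-- **Theorem T1.** -/
theorem thm1 (n : ℕ) (hn : 10 ≤ n) :
    VeryGeneral n (fun p => ∀ d a₁ a₂ b₁ b₂ b₃ b₄ : ℕ, Admissible d a₁ a₂ b₁ b₂ b₃ b₄ →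
      ∀ v ∈ moriCone p, 0 ≤ (d : ℝ) * v.1 - ∑ i, mults1 n a₁ a₂ b₁ b₂ b₃ b₄ i * v.2 i) := by
  obtain ⟨f, hf0, hf⟩ := nef_of_special hn Q1
  refine ⟨f, hf0, fun p hp d a₁ a₂ b₁ b₂ b₃ b₄ ⟨hge, hDD, hcond⟩ v hv => ?_⟩
  have hC : Cond1 d ![(a₁ : ℤ), a₂, b₁, b₂, b₃, b₄] := by
    refine ⟨?_, ?_, ?_, ?_, ?_⟩
    · have : 0 < d := by
        rcases hcond with h | ⟨h, -⟩ <;> omega
      exact_mod_cast this
    · intro i; fin_cases i <;> simp
    · simp only [Matrix.cons_val_zero, Matrix.cons_val_one]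
      exact_mod_cast hge
    · rw [Fin.sum_univ_six]
      simp [w1]
      have : ((d ^ 2 : ℕ) : ℤ) =
          ((a₁ ^ 2 + a₂ ^ 2 + 2 * (b₁ ^ 2 + b₂ ^ 2 + b₃ ^ 2 + b₄ ^ 2) : ℕ) : ℤ) := by
        exact_mod_cast hDD
      push_cast at this
      linarith
    · rw [Fin.sum_univ_six]
      rcases hcond with h | ⟨h, h1, h2, h3, h4⟩
      · left
        simp
        omega
      · right
        refine ⟨by simp; omega, ?_, ?_, ?_, ?_⟩
        · exact_mod_cast h1.two_dvd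
        · change (2 : ℤ) ∣ (a₁ : ℤ); exact_mod_cast h2.two_dvd
        · change (2 : ℤ) ∣ (a₂ : ℤ); exact_mod_cast h3.two_dvd
        · rcases h4 with h | h | h | h
          · exact ⟨2, by decide, by change (2 : ℤ) ∣ (b₁ : ℤ); exact_mod_cast h.two_dvd⟩
          · exact ⟨3, by decide, by change (2 : ℤ) ∣ (b₂ : ℤ); exact_mod_cast h.two_dvd⟩
          · exact ⟨4, by decide, by change (2 : ℤ) ∣ (b₃ : ℤ); exact_mod_cast h.two_dvd⟩
          · exact ⟨5, by decide, by change (2 : ℤ) ∣ (b₄ : ℤ); exact_mod_cast h.two_dvd⟩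
  refine hf p hp ((d : ℝ), mults1 n a₁ a₂ b₁ b₂ b₃ b₄) ?_ ?_ ?_ v hv
  · intro i hi
    simp only [mults1]
    rw [List.getD_eq_default]
    · simp
    · simpa using hi
  · intro i
    simp only [mults1]
    positivity
  · intro δ m hc
    have h := curve1 d _ hC δ m hc
    simp at h
    simp only [Fin.sum_univ_succ, Fin.sum_univ_zero, mults1]
    simp
    linarith


/-- The family `(4 k² - 2 k + 1; 2 k² - 2 k + 1, 2 k² - 2 k, (k²)⁸)`, with `k = j + 1`. -/
theorem admissible_family (j : ℕ) :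
    Admissible (4 * j ^ 2 + 6 * j + 3) (2 * j ^ 2 + 2 * j + 1) (2 * j ^ 2 + 2 * j)
      ((j + 1) ^ 2) ((j + 1) ^ 2) ((j + 1) ^ 2) ((j + 1) ^ 2) := by
  refine ⟨by nlinarith, by ring, Or.inl (by ring)⟩

end Pool.Agent.H13
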