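import Mathlib
import Pool.Agent.H13.T1

set_option autoImplicit false

namespace Pool.Agent.H13

open Module MvPolynomial

/-! ### Degree and second coefficient -/

/-- degree at most `3 n` and vanishing coefficient of `t ^ (3 n - 1)` -/
def Qd (n : ℕ) (f : Polynomial ℂ) : Prop :=
  f.natDegree ≤ 3 * n ∧ ∀ i, i + 1 = 3 * n → f.coeff i = 0

theorem Qd.mono {n m : ℕ} {f : Polynomial ℂ} (h : Qd n f) (hnm : n ≤ m) : Qd m f := by
  refine ⟨by have := h.1; omega, fun i hi => ?_⟩
  rcases Nat.eq_or_lt_of_le hnm with rfl | hlt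
  · exact h.2 i hi
  · apply Polynomial.coeff_eq_zero_of_natDegree_lt
    have := h.1
    omega

theorem Qd.add {n : ℕ} {f g : Polynomial ℂ} (hf : Qd n f) (hg : Qd n g) : Qd n (f + g) := by
  refine ⟨(Polynomial.natDegree_add_le _ _).trans (max_le hf.1 hg.1), fun i hi => ?_⟩
  rw [Polynomial.coeff_add, hf.2 i hi, hg.2 i hi, add_zero]

theorem Qd.mul {n m : ℕ} {f g : Polynomial ℂ} (hf : Qd n f) (hg : Qd m g) :
    Qd (n + m) (f * g) := by
  refine ⟨?_, fun i hi => ?_⟩
  · refine Polynomial.natDegree_mul_le.trans ?_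
    have := hf.1
    have := hg.1
    omega
  · rw [Polynomial.coeff_mul]
    apply Finset.sum_eq_zero
    rintro ⟨a, b⟩ hab
    rw [Finset.HasAntidiagonal.mem_antidiagonal] at hab
    simp only at hab ⊢
    rcases lt_trichotomy (a + 1) (3 * n) with h | h | h
    · rw [Polynomial.coeff_eq_zero_of_natDegree_lt (p := g) (n := b) (by have := hg.1; omega),
        mul_zero]
    · rw [hf.2 a h, zero_mul]
    · rcases Nat.lt_or_ge (3 * n) a with h' | h'
      · rw [Polynomial.coeff_eq_zero_of_natDegree_lt (p := f) (n := a) (by have := hf.1; omega),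
          zero_mul]
      · rw [hg.2 b (by omega), mul_zero]

theorem Qd.const (c : ℂ) : Qd 0 (Polynomial.C c) := by
  refine ⟨by simp, fun i hi => by omega⟩

theorem Qd.pow {f : Polynomial ℂ} (hf : Qd 1 f) (n : ℕ) : Qd n (f ^ n) := by
  induction n with
  | zero => rw [pow_zero]; exact Qd.const 1
  | succ n ih => rw [pow_succ]; exact ih.mul hf

theorem Qd.zero (n : ℕ) : Qd n 0 := by
  refine ⟨by simp, fun i _ => by simp⟩

theorem Qd.sum {ι : Type*} (s : Finset ι) (n : ℕ) (f : ι → Polynomial ℂ)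
    (h : ∀ i ∈ s, Qd n (f i)) : Qd n (∑ i ∈ s, f i) := by
  classical
  induction s using Finset.induction_on with
  | empty => rw [Finset.sum_empty]; exact Qd.zero n
  | insert a s ha ih =>
    rw [Finset.sum_insert ha]
    exact (h a (Finset.mem_insert_self _ _)).add
      (ih fun i hi => h i (Finset.mem_insert_of_mem hi))

theorem th_Qd {x y : Polynomial ℂ} (hx : Qd 1 x) (hy : Qd 1 y) (F : MvPolynomial (Fin 2) ℂ) :
    Qd F.totalDegree (th x y F) := by
  conv_rhs => rw [F.as_sum]
  rw [map_sum]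
  refine Qd.sum _ _ _ fun s hs => ?_
  rw [th, aeval_monomial, Finsupp.prod_fintype _ _ (by intro; simp), Fin.prod_univ_two]
  have h1 : s.degree ≤ F.totalDegree := le_totalDegree hs
  rw [Finsupp.degree_eq_sum, Fin.sum_univ_two] at h1
  have h2 : Qd (0 + (s 0 + s 1)) (Polynomial.C (coeff s F) * (x ^ s 0 * y ^ s 1)) :=
    (Qd.const _).mul ((hx.pow _).mul (hy.pow _))
  exact h2.mono (by omega)

/-- In the equality case the weighted sum of the roots vanishes. -/
theorem sum_roots_zero {ι : Type*} [Fintype ι] (r : ι → ℂ) (m : ι → ℕ) (c : ℂ) (hc : c ≠ 0)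
    (E : ℕ) (hE : 0 < E) (hm : ∑ i, m i = 3 * E)
    (hQ : Qd E (Polynomial.C c * ∏ i, (Polynomial.X - Polynomial.C (r i)) ^ m i)) :
    ∑ i, (m i : ℂ) * r i = 0 := by
  have h1 := hQ.2 (3 * E - 1) (by omega)
  rw [Polynomial.coeff_C_mul] at h1
  have h2 := (mul_eq_zero.1 h1).resolve_left hc
  have h3 : (∏ i, (Polynomial.X - Polynomial.C (r i)) ^ m i).nextCoeff = 0 := by
    rw [Polynomial.nextCoeff_of_natDegree_pos (by rw [natDegree_prod, hm]; omega),
      natDegree_prod, hm]
    exact h2
  rw [Polynomial.Monic.nextCoeff_prod _ _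
    (fun i _ => (Polynomial.monic_X_sub_C (r i)).pow (m i))] at h3
  have h4 : ∀ i, ((Polynomial.X - Polynomial.C (r i)) ^ m i).nextCoeff = -((m i : ℂ) * r i) := by
    intro i
    rw [Polynomial.Monic.nextCoeff_pow (Polynomial.monic_X_sub_C (r i)),
      Polynomial.nextCoeff_X_sub_C]
    simp
  simp only [h4, Finset.sum_neg_distrib, neg_eq_zero] at h3
  exact h3

/-! ### Vertical graphs `w = f(υ)` downstairs -/

/-- the curve `w = f(υ)` -/
noncomputable def HC {k : Type*} [Field k] (f : Polynomial k) : MvPolynomial (Fin 2) k :=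
  X 1 - Polynomial.aeval (X 0) f

section HC

variable {k : Type*} [Field k]

theorem th_HC (f : Polynomial k) : th Polynomial.X f (HC f) = 0 := by
  rw [HC, map_sub, th_X1, ← Polynomial.aeval_algHom_apply, th_X0]
  simp

theorem HC_dvd {f : Polynomial k} {F : MvPolynomial (Fin 2) k}
    (hF : th Polynomial.X f F = 0) : HC f ∣ F := by
  let I : Ideal (MvPolynomial (Fin 2) k) := Ideal.span {HC f}
  let ρ : Polynomial k →ₐ[k] MvPolynomial (Fin 2) k := Polynomial.aeval (X 0)
  have key : ((Ideal.Quotient.mkₐ k I).comp ρ).comp (th Polynomial.X f) =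
      Ideal.Quotient.mkₐ k I := by
    apply MvPolynomial.algHom_ext
    intro i
    rw [AlgHom.comp_apply, AlgHom.comp_apply]
    match i with
    | 0 =>
      rw [th_X0]
      have : ρ Polynomial.X = X 0 := Polynomial.aeval_X _
      rw [this]
    | 1 =>
      rw [th_X1]
      symm
      change Ideal.Quotient.mk I (X 1) = Ideal.Quotient.mk I (ρ f)
      rw [Ideal.Quotient.eq]
      exact Ideal.subset_span rfl
  have h3 := DFunLike.congr_fun key F
  rw [AlgHom.comp_apply, hF, map_zero] at h3
  have h4 : Ideal.Quotient.mk I F = 0 := h3.symm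
  rw [Ideal.Quotient.eq_zero_iff_mem, Ideal.mem_span_singleton] at h4
  exact h4

theorem pderiv_HC (f : Polynomial k) : pderiv 1 (HC f) = 1 := by
  rw [HC, map_sub, pderiv_X_self, Derivation.map_aeval,
    pderiv_X_of_ne (show (0 : Fin 2) ≠ 1 by decide), smul_zero, sub_zero]

theorem prime_HC (f : Polynomial k) : Prime (HC f) := by
  refine ⟨?_, ?_, ?_⟩
  · intro h
    have := pderiv_HC f
    rw [h, map_zero] at this
    exact zero_ne_one this
  · intro h
    have h1 := h.map (th Polynomial.X f)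
    rw [th_HC f] at h1
    exact not_isUnit_zero h1
  · rintro a b ⟨c, hc⟩
    have h1 := congrArg (th Polynomial.X f) hc
    rw [map_mul, map_mul, th_HC f, zero_mul, mul_eq_zero] at h1
    rcases h1 with h | h
    · exact Or.inl (HC_dvd h)
    · exact Or.inr (HC_dvd h)

theorem eval_HC (f : Polynomial k) (Q : Fin 2 → k) :
    eval Q (HC f) = Q 1 - f.eval (Q 0) := by
  rw [HC, map_sub, eval_X]
  congr 1
  have h1 : (eval Q : MvPolynomial (Fin 2) k →+* k) (Polynomial.aeval (X 0) f) =
      Polynomial.eval₂ ((eval Q).comp (algebraMap k (MvPolynomial (Fin 2) k)))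
        (eval Q (X 0)) f := by
    rw [Polynomial.aeval_def, Polynomial.hom_eval₂]
  rw [h1]
  have h2 : ((eval Q).comp (algebraMap k (MvPolynomial (Fin 2) k))) = RingHom.id k := by
    ext c
    simp [algebraMap_eq]
  rw [h2, eval_X]
  rfl

end HC

end Pool.Agent.H13
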