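import Mathlib
import Pool.Agent.H13.T2a

set_option autoImplicit false

namespace Pool.Agent.H13

open Module MvPolynomial

/-! ### Constants -/

noncomputable def q0 : ℂ := (Real.sqrt 2 : ℝ)
noncomputable def q1 : ℂ := (Real.sqrt 665 : ℝ)
noncomputable def q2 : ℂ := (Real.sqrt 20 : ℝ)
noncomputable def q3 : ℂ := (Real.sqrt 7 : ℝ) * Complex.I

theorem q0_sq : q0 ^ 2 = 2 := by
  have : (Real.sqrt 2) ^ 2 = 2 := Real.sq_sqrt (by norm_num)
  rw [q0]; exact_mod_cast this

theorem q1_sq : q1 ^ 2 = 665 := by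
  have : (Real.sqrt 665) ^ 2 = 665 := Real.sq_sqrt (by norm_num)
  rw [q1]; exact_mod_cast this

theorem q2_sq : q2 ^ 2 = 20 := by
  have : (Real.sqrt 20) ^ 2 = 20 := Real.sq_sqrt (by norm_num)
  rw [q2]; exact_mod_cast this

theorem q3_sq : q3 ^ 2 = -7 := by
  have h : (Real.sqrt 7) ^ 2 = 7 := Real.sq_sqrt (by norm_num)
  have h' : ((Real.sqrt 7 : ℝ) : ℂ) ^ 2 = 7 := by exact_mod_cast h
  rw [q3, mul_pow, Complex.I_sq, h']
  norm_num

theorem q0_ne (a b : ℂ) (h : a ^ 2 ≠ 2 * b ^ 2) : a + b * q0 ≠ 0 := by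
  intro h0
  apply h
  have h1 : a = -(b * q0) := by linear_combination h0
  rw [h1]
  linear_combination b ^ 2 * q0_sq

theorem q0_irr (a b : ℤ) (h : (a : ℂ) + b * q0 = 0) : b = 0 := by
  by_contra hb
  have h1 : (a : ℝ) + b * Real.sqrt 2 = 0 := by
    rw [q0] at h
    exact_mod_cast h
  have hb' : (b : ℝ) ≠ 0 := by exact_mod_cast hb
  have h2 : Real.sqrt 2 = ((-a / b : ℚ) : ℝ) := by
    push_cast
    field_simp
    linarith
  exact irrational_sqrt_two ⟨_, h2.symm⟩

theorem sq_ne {x : ℂ} {a : ℂ} (hx : x ^ 2 = a) (ha : a ≠ 0) : x ≠ 0 := by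
  rintro rfl
  apply ha
  rw [← hx]
  norm_num

/-! ### The configuration -/

/-- parameters of the special points on the cuspidal cubic -/
noncomputable def r2 : Fin 10 → ℂ :=
  ![3, 7, -10, (-1 + q1) / 2, (-1 - q1) / 2, -7 + q2, -7 - q2, (15 + q3) / 2, (15 - q3) / 2, q0]

noncomputable def U2 : Polynomial ℂ :=
  Polynomial.C (1 / 44) * (Polynomial.X ^ 3 - Polynomial.C 167 * Polynomial.X +
    Polynomial.C 210)

theorem U2_eval (t : ℂ) : U2.eval t = (t ^ 3 - 167 * t + 210) / 44 := by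
  simp [U2]
  ring

theorem YY2_eval (t : ℂ) : (YY U2 2 0).eval t = (t ^ 3 - 79 * t + 210) / 44 := by
  simp [YY, U2]
  ring

/-- first coordinates -/
noncomputable def u2 : Fin 10 → ℂ :=
  ![-6, -14, 20, 1, 1, 14, 14, -15, -15, (210 - 165 * q0) / 44]

/-- second coordinates -/
noncomputable def z2 : Fin 10 → ℂ :=
  ![0, 0, 0, q1, -q1, 2 * q2, -(2 * q2), q3, -q3, (210 - 77 * q0) / 44]

theorem U2_r2 (i : Fin 10) : U2.eval (r2 i) = u2 i := by
  rw [U2_eval]
  fin_cases i
  · simp [r2, u2]; norm_num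
  · simp [r2, u2]; norm_num
  · simp [r2, u2]; norm_num
  · simp [r2, u2]; linear_combination (q1 / 352 - 3 / 352) * q1_sq
  · simp [r2, u2]; linear_combination (-q1 / 352 - 3 / 352) * q1_sq
  · simp [r2, u2]; linear_combination (q2 / 44 - 21 / 44) * q2_sq
  · simp [r2, u2]; linear_combination (-q2 / 44 - 21 / 44) * q2_sq
  · simp [r2, u2]; linear_combination (q3 / 352 + 45 / 352) * q3_sq
  · simp [r2, u2]; linear_combination (-q3 / 352 + 45 / 352) * q3_sq
  · simp [r2, u2]; linear_combination q0 * q0_sq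

theorem YY2_r2 (i : Fin 10) : (YY U2 2 0).eval (r2 i) = z2 i := by
  have h : (YY U2 2 0).eval (r2 i) = U2.eval (r2 i) + 2 * r2 i := by
    rw [YY2_eval, U2_eval]; ring
  rw [h, U2_r2]
  fin_cases i
  · simp [r2, u2, z2]; norm_num
  · simp [r2, u2, z2]; norm_num
  · simp [r2, u2, z2]; norm_num
  · simp [r2, u2, z2]; ring
  · simp [r2, u2, z2]; ring
  · simp [r2, u2, z2]; ring
  · simp [r2, u2, z2]; ring
  · simp [r2, u2, z2]; ring
  · simp [r2, u2, z2]; ring
  · simp [r2, u2, z2]; ring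

theorem uq_ne (c : ℂ) (hc : (210 - 44 * c) ^ 2 ≠ 54450) : (210 - 165 * q0) / 44 ≠ c := by
  intro h
  apply hc
  have h1 : 210 - 44 * c = 165 * q0 := by rw [← h]; ring
  rw [h1]
  linear_combination 27225 * q0_sq

theorem q1_ne : q1 ≠ 0 := sq_ne q1_sq (by norm_num)
theorem q2_ne : q2 ≠ 0 := sq_ne q2_sq (by norm_num)
theorem q3_ne : q3 ≠ 0 := sq_ne q3_sq (by norm_num)

theorem r2_inj : Function.Injective r2 := by
  intro i j h
  have hu : u2 i = u2 j := by rw [← U2_r2, ← U2_r2, h]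
  have hz : z2 i = z2 j := by rw [← YY2_r2, ← YY2_r2, h]
  have n1 := q1_ne
  have n2 := q2_ne
  have n3 := q3_ne
  have m1 : q1 ≠ -q1 := fun h => n1 (by linear_combination h / 2)
  have m2 : 2 * q2 ≠ -(2 * q2) := fun h => n2 (by linear_combination h / 4)
  have m3 : q3 ≠ -q3 := fun h => n3 (by linear_combination h / 2)
  have k1 := uq_ne (-6) (by norm_num)
  have k2 := uq_ne (-14) (by norm_num)
  have k3 := uq_ne 20 (by norm_num)
  have k4 := uq_ne 1 (by norm_num)
  have k5 := uq_ne 14 (by norm_num)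
  have k6 := uq_ne (-15) (by norm_num)
  fin_cases i <;> fin_cases j <;> first
    | rfl
    | (exfalso
       first
         | (change (_ : ℂ) = _ at hu
            simp only [u2, Fin.zero_eta, Fin.mk_one, Fin.reduceFinMk, Matrix.cons_val_zero,
              Matrix.cons_val_one, Matrix.cons_val] at hu
            first
              | (norm_num at hu; done)
              | exact k1 hu | exact k2 hu | exact k3 hu | exact k4 hu | exact k5 hu | exact k6 hu
              | exact k1 hu.symm | exact k2 hu.symm | exact k3 hu.symm | exact k4 hu.symm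
              | exact k5 hu.symm | exact k6 hu.symm)
         | (simp only [z2, Fin.zero_eta, Fin.mk_one, Fin.reduceFinMk, Matrix.cons_val_zero,
              Matrix.cons_val_one, Matrix.cons_val] at hz
            first
              | exact m1 hz | exact m2 hz | exact m3 hz
              | exact m1 hz.symm | exact m2 hz.symm | exact m3 hz.symm))


/-- the special points (representatives of the orbits) -/
noncomputable def P2 : Fin 7 → Fin 2 → ℂ :=
  ![![-6, 0], ![-14, 0], ![20, 0], ![1, q1], ![14, 2 * q2], ![-15, q3],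
    ![(210 - 165 * q0) / 44, (210 - 77 * q0) / 44]]

theorem P2_dwn : Pairwise fun i j => dwn (P2 i) ≠ dwn (P2 j) := by
  intro i j hij h
  have hu : P2 i 0 = P2 j 0 := congrFun h 0
  have k1 := uq_ne (-6) (by norm_num)
  have k2 := uq_ne (-14) (by norm_num)
  have k3 := uq_ne 20 (by norm_num)
  have k4 := uq_ne 1 (by norm_num)
  have k5 := uq_ne 14 (by norm_num)
  have k6 := uq_ne (-15) (by norm_num)
  apply hij
  fin_cases i <;> fin_cases j <;> first
    | rfl
    | (exfalso
       simp only [P2, Fin.zero_eta, Fin.mk_one, Fin.reduceFinMk, Matrix.cons_val_zero,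
              Matrix.cons_val_one, Matrix.cons_val] at hu
       first
         | (norm_num at hu; done)
         | exact k1 hu | exact k2 hu | exact k3 hu | exact k4 hu | exact k5 hu | exact k6 hu
         | exact k1 hu.symm | exact k2 hu.symm | exact k3 hu.symm | exact k4 hu.symm
         | exact k5 hu.symm | exact k6 hu.symm)

theorem zq_ne : (210 - 77 * q0) / 44 ≠ 0 := by
  intro h
  have h1 : (210 : ℂ) + (-77) * q0 = 0 := by linear_combination 44 * h
  exact q0_ne 210 (-77) (by norm_num) h1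

theorem P2_one (i : Fin 7) : (P2 i 1 = 0 ↔ (i : ℕ) < 3) := by
  fin_cases i
  · simp [P2]
  · simp [P2]
  · simp [P2]
  · simp [P2, q1_ne]
  · simp [P2, q2_ne]
  · simp [P2, q3_ne]
  · simpa [P2] using zq_ne

/-- root multiplicities as a function of the orbit multiplicities -/
def mm2 (C : Fin 7 → ℕ) : Fin 10 → ℕ :=
  ![C 0, C 1, C 2, C 3, C 3, C 4, C 4, C 5, C 5, C 6]

theorem dvd2 {φ : MvPolynomial (Fin 2) ℂ} (C : Fin 7 → ℕ) (hC : ∀ i, psi ℂ φ ∈ Iord (P2 i) (C i))
    (i : Fin 10) :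
    (Polynomial.X - Polynomial.C (r2 i)) ^ (mm2 C i) ∣ th U2 (YY U2 2 0) (psi ℂ φ) := by
  have hrefl : ∀ j, psi ℂ φ ∈ Iord (refl (P2 j)) (C j) := by
    intro j
    have h : psi ℂ φ ∈ Iord (refl (refl (P2 j))) (C j) := by rw [refl_refl]; exact hC j
    have h2 := tau_mem_Iord h
    rwa [tau_psi] at h2
  have hx := U2_r2 i
  have hy := YY2_r2 i
  fin_cases i
  · exact th_dvd (P := P2 0) hx hy (hC 0)
  · exact th_dvd (P := P2 1) hx hy (hC 1)
  · exact th_dvd (P := P2 2) hx hy (hC 2)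
  · exact th_dvd (P := P2 3) hx hy (hC 3)
  · exact th_dvd (P := refl (P2 3)) hx hy (hrefl 3)
  · exact th_dvd (P := P2 4) hx hy (hC 4)
  · exact th_dvd (P := refl (P2 4)) hx hy (hrefl 4)
  · exact th_dvd (P := P2 5) hx hy (hC 5)
  · exact th_dvd (P := refl (P2 5)) hx hy (hrefl 5)
  · exact th_dvd (P := P2 6) hx hy (hC 6)

theorem sum_mm2 (C : Fin 7 → ℕ) :
    ∑ i, mm2 C i = C 0 + C 1 + C 2 + 2 * (C 3 + C 4 + C 5) + C 6 := by
  simp only [Fin.sum_univ_succ, Fin.sum_univ_zero, mm2]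
  simp
  ring

theorem U2_Qd : Qd 1 U2 := by
  constructor
  · rw [U2]
    compute_degree
  · intro i hi
    have : i = 2 := by omega
    subst this
    simp [U2, Polynomial.coeff_X, Polynomial.coeff_C]

theorem Y2_Qd : Qd 1 (YY U2 2 0) := by
  constructor
  · rw [YY, U2]
    compute_degree
  · intro i hi
    have : i = 2 := by omega
    subst this
    simp [YY, U2, Polynomial.coeff_X, Polynomial.coeff_C]

end Pool.Agent.H13
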