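import Mathlib
import Pool.Agent.H13.T2b

set_option autoImplicit false

namespace Pool.Agent.H13

open Module MvPolynomial

/-! ### Numerical part -/

theorem cauchyR {ι : Type*} [Fintype ι] (w : ι → ℝ) (hw : ∀ i, 0 ≤ w i) (x y : ι → ℝ) (X Y : ℝ)
    (hX : 0 ≤ X) (hY : 0 ≤ Y) (h1 : ∑ i, w i * x i ^ 2 ≤ X ^ 2) (h2 : ∑ i, w i * y i ^ 2 ≤ Y ^ 2) :
    ∑ i, w i * (x i * y i) ≤ X * Y := by
  have h3 := Finset.sum_mul_sq_le_sq_mul_sq Finset.univ (fun i => Real.sqrt (w i) * x i)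
    (fun i => Real.sqrt (w i) * y i)
  have e1 : ∀ i, Real.sqrt (w i) * x i * (Real.sqrt (w i) * y i) = w i * (x i * y i) := by
    intro i
    have := Real.mul_self_sqrt (hw i)
    calc Real.sqrt (w i) * x i * (Real.sqrt (w i) * y i) =
        (Real.sqrt (w i) * Real.sqrt (w i)) * (x i * y i) := by ring
      _ = _ := by rw [this]
  have e2 : ∀ z : ι → ℝ, ∀ i, (Real.sqrt (w i) * z i) ^ 2 = w i * z i ^ 2 := by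
    intro z i
    rw [mul_pow, Real.sq_sqrt (hw i)]
  simp only [e1, e2 x, e2 y] at h3
  have h4 : (∑ i, w i * (x i * y i)) ^ 2 ≤ (X * Y) ^ 2 := by
    calc (∑ i, w i * (x i * y i)) ^ 2 ≤ (∑ i, w i * x i ^ 2) * ∑ i, w i * y i ^ 2 := h3
      _ ≤ X ^ 2 * Y ^ 2 := by
          apply mul_le_mul h1 h2 (Finset.sum_nonneg fun i _ => mul_nonneg (hw i) (sq_nonneg _))
            (sq_nonneg _)
      _ = (X * Y) ^ 2 := by ring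
  have h5 := abs_le_of_sq_le_sq h4 (mul_nonneg hX hY)
  exact (abs_le.1 h5).2

/-- weights of the orbits -/
def w2 : Fin 7 → ℝ := ![1, 1, 1, 2, 2, 2, 2]

theorem w2_nonneg (i : Fin 7) : 0 ≤ w2 i := by
  fin_cases i <;> simp [w2]

/-- the linear conditions and positivity -/
def Cond2 (d : ℝ) (D : Fin 7 → ℝ) : Prop :=
  0 ≤ d ∧ D 3 + D 4 + D 5 = d ∧ D 0 + D 1 + D 2 = d - D 6 ∧ ∑ i, w2 i * D i ^ 2 ≤ d ^ 2

theorem sum_w2 (f : Fin 7 → ℝ) :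
    ∑ i, w2 i * f i = f 0 + f 1 + f 2 + 2 * f 3 + 2 * f 4 + 2 * f 5 + 2 * f 6 := by
  simp only [Fin.sum_univ_succ, Fin.sum_univ_zero, w2]
  simp
  ring

theorem Cond2.cs {d : ℝ} {D : Fin 7 → ℝ} (h : Cond2 d D) (Z : ℝ) (z : Fin 7 → ℝ) (hZ : 0 ≤ Z)
    (hz : z 0 ^ 2 + z 1 ^ 2 + z 2 ^ 2 + 2 * z 3 ^ 2 + 2 * z 4 ^ 2 + 2 * z 5 ^ 2 + 2 * z 6 ^ 2 ≤
      Z ^ 2) :
    D 0 * z 0 + D 1 * z 1 + D 2 * z 2 + 2 * (D 3 * z 3) + 2 * (D 4 * z 4) + 2 * (D 5 * z 5) +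
      2 * (D 6 * z 6) ≤ d * Z := by
  have h1 := cauchyR w2 w2_nonneg D z d Z h.1 hZ h.2.2.2 (by
    rw [sum_w2]
    exact hz)
  rw [sum_w2] at h1
  exact h1

theorem Cond2.nonneg {d : ℝ} {D : Fin 7 → ℝ} (h : Cond2 d D) (i : Fin 7) : 0 ≤ D i := by
  obtain ⟨hd, hb, ha, hq⟩ := id h
  have h0 := h.cs 6 ![1, 2, 2, 2, 2, 2, 1] (by norm_num) (by simp; norm_num)
  have h1 := h.cs 6 ![2, 1, 2, 2, 2, 2, 1] (by norm_num) (by simp; norm_num)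
  have h2 := h.cs 6 ![2, 2, 1, 2, 2, 2, 1] (by norm_num) (by simp; norm_num)
  have h3 := h.cs 14 ![4, 4, 4, 4, 5, 5, 2] (by norm_num) (by simp; norm_num)
  have h4 := h.cs 14 ![4, 4, 4, 5, 4, 5, 2] (by norm_num) (by simp; norm_num)
  have h5 := h.cs 14 ![4, 4, 4, 5, 5, 4, 2] (by norm_num) (by simp; norm_num)
  have h6 := h.cs 6 ![2, 2, 2, 2, 2, 2, 0] (by norm_num) (by simp; norm_num)
  simp at h0 h1 h2 h3 h4 h5 h6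
  fin_cases i
  · change 0 ≤ D 0; linarith
  · change 0 ≤ D 1; linarith
  · change 0 ≤ D 2; linarith
  · change 0 ≤ D 3; linarith
  · change 0 ≤ D 4; linarith
  · change 0 ≤ D 5; linarith
  · change 0 ≤ D 6; linarith

theorem fin_check (p q u v : ℤ) (h1 : 3 * p + 10 * q = u + 15 * v)
    (h2 : (3 : ℤ) ∣ p + 2 * q - u - 2 * v)
    (h3 : p ^ 2 + q ^ 2 + (p + q) ^ 2 + 2 * (u ^ 2 + v ^ 2 + (u + v) ^ 2) ≤ 12) :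
    p = 0 ∧ q = 0 ∧ u = 0 ∧ v = 0 := by
  have sp := sq_nonneg (2 * q + p)
  have sq' := sq_nonneg (2 * p + q)
  have su := sq_nonneg (2 * v + u)
  have sv := sq_nonneg (2 * u + v)
  have p1 : p ≤ 2 := by nlinarith [sq_nonneg u, sq_nonneg v, sq_nonneg (u + v)]
  have p2 : -2 ≤ p := by nlinarith [sq_nonneg u, sq_nonneg v, sq_nonneg (u + v)]
  have q1 : q ≤ 2 := by nlinarith [sq_nonneg u, sq_nonneg v, sq_nonneg (u + v)]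
  have q2 : -2 ≤ q := by nlinarith [sq_nonneg u, sq_nonneg v, sq_nonneg (u + v)]
  have u1 : u ≤ 2 := by nlinarith [sq_nonneg p, sq_nonneg q, sq_nonneg (p + q)]
  have u2 : -2 ≤ u := by nlinarith [sq_nonneg p, sq_nonneg q, sq_nonneg (p + q)]
  have v1 : v ≤ 2 := by nlinarith [sq_nonneg p, sq_nonneg q, sq_nonneg (p + q)]
  have v2 : -2 ≤ v := by nlinarith [sq_nonneg p, sq_nonneg q, sq_nonneg (p + q)]
  clear sp sq' su sv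
  interval_cases p <;> interval_cases q <;> interval_cases u <;> first | omega | (interval_cases v <;> omega)

theorem aux_g (g : ℤ) (h : 1 ≤ g) : 4 ≤ 2 * g + 2 * g ^ 2 := by nlinarith

theorem aux_r (r : ℤ) (h : 2 ≤ r) : 4 ≤ 2 * r ^ 2 - 2 * r := by nlinarith

theorem aux_r' (r : ℤ) (h : 0 ≤ r) : 0 ≤ 2 * r ^ 2 - 2 * r := by
  rcases lt_or_ge 0 r with h1 | h1
  · have : 1 ≤ r := h1
    nlinarith
  · have : r = 0 := le_antisymm h1 h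
    rw [this]; norm_num

theorem T2_key (E : ℤ) (C : Fin 7 → ℤ) (g ρ : ℤ)
    (hgdef : g = 3 * E - (C 0 + C 1 + C 2) - 2 * (C 3 + C 4 + C 5) - C 6)
    (hρdef : ρ = E - (C 3 + C 4 + C 5)) (hg0 : 0 ≤ g) (hρ0 : 0 ≤ ρ)
    (hJ : C 0 * (C 0 - 2) + C 1 * (C 1 - 2) + C 2 * (C 2 - 2) + 2 * (C 3 * (C 3 - 1)) +
      2 * (C 4 * (C 4 - 1)) + 2 * (C 5 * (C 5 - 1)) + 2 * (C 6 * (C 6 - 1)) ≤ (E - 2) ^ 2)
    (heq : g = 0 → C 6 = 0 ∧ 3 * C 0 + 7 * C 1 - 10 * C 2 - C 3 - 14 * C 4 + 15 * C 5 = 0) :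
    (C 0 + 2 * g) ^ 2 + (C 1 + 2 * g) ^ 2 + (C 2 + 2 * g) ^ 2 +
      2 * (C 3 + ρ + 2 * g) ^ 2 + 2 * (C 4 + ρ + 2 * g) ^ 2 + 2 * (C 5 + ρ + 2 * g) ^ 2 +
      2 * (C 6 + g) ^ 2 ≤ (E + 2 * ρ + 6 * g) ^ 2 := by
  have hid : (E + 2 * ρ + 6 * g) ^ 2 - ((C 0 + 2 * g) ^ 2 + (C 1 + 2 * g) ^ 2 +
      (C 2 + 2 * g) ^ 2 + 2 * (C 3 + ρ + 2 * g) ^ 2 + 2 * (C 4 + ρ + 2 * g) ^ 2 +
      2 * (C 5 + ρ + 2 * g) ^ 2 + 2 * (C 6 + g) ^ 2) =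
      (E ^ 2 - (C 0 ^ 2 + C 1 ^ 2 + C 2 ^ 2 + 2 * C 3 ^ 2 + 2 * C 4 ^ 2 + 2 * C 5 ^ 2 +
        2 * C 6 ^ 2)) + 2 * ρ ^ 2 + 2 * g ^ 2 := by
    rw [hgdef, hρdef]; ring
  have hid2 : (E - 2) ^ 2 - (C 0 * (C 0 - 2) + C 1 * (C 1 - 2) + C 2 * (C 2 - 2) +
      2 * (C 3 * (C 3 - 1)) + 2 * (C 4 * (C 4 - 1)) + 2 * (C 5 * (C 5 - 1)) +
      2 * (C 6 * (C 6 - 1))) = E ^ 2 - (C 0 ^ 2 + C 1 ^ 2 + C 2 ^ 2 + 2 * C 3 ^ 2 +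
    2 * C 4 ^ 2 + 2 * C 5 ^ 2 + 2 * C 6 ^ 2) - (2 * g - 2 * ρ - 4) := by
    rw [hgdef, hρdef]; ring
  obtain ⟨M, hMdef⟩ : ∃ M : ℤ, M = E ^ 2 - (C 0 ^ 2 + C 1 ^ 2 + C 2 ^ 2 + 2 * C 3 ^ 2 +
    2 * C 4 ^ 2 + 2 * C 5 ^ 2 + 2 * C 6 ^ 2) := ⟨_, rfl⟩
  have hM : 2 * g - 2 * ρ - 4 ≤ M := by rw [← hMdef] at hid2; linarith
  rw [← hMdef] at hid
  have goal' : 0 ≤ M + 2 * ρ ^ 2 + 2 * g ^ 2 := by
    rcases lt_or_ge 0 g with hgp | hgp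
    · have h1 : 1 ≤ g := hgp
      have h6 : 4 ≤ 2 * g + 2 * g ^ 2 := aux_g g h1
      have h7 : 0 ≤ 2 * ρ ^ 2 - 2 * ρ := aux_r' ρ hρ0
      linarith
    · have hgz : g = 0 := le_antisymm hgp hg0
      obtain ⟨h6, hrel⟩ := heq hgz
      rcases lt_or_ge 1 ρ with hρ2 | hρ2
      · have h1 : 2 ≤ ρ := hρ2
        have h7 : 4 ≤ 2 * ρ ^ 2 - 2 * ρ := aux_r ρ h1
        rw [hgz] at hM ⊢
        linarith
      · -- the finite case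
        have hE' : E = ρ + (C 3 + C 4 + C 5) := by linarith
        have hsum : C 0 + C 1 + C 2 = 3 * ρ + (C 3 + C 4 + C 5) := by linarith
        have hρρ : ρ ^ 2 = ρ := by
          have : ρ = 0 ∨ ρ = 1 := by omega
          rcases this with h | h <;> rw [h] <;> norm_num
        have h3z : 3 * (M + 2 * ρ ^ 2) =
            -((C 0 - C 1) ^ 2 + (C 1 - C 2) ^ 2 + ((C 0 - C 1) + (C 1 - C 2)) ^ 2 +
              2 * ((C 3 - C 4) ^ 2 + (C 4 - C 5) ^ 2 + ((C 3 - C 4) + (C 4 - C 5)) ^ 2)) := by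
          rw [hMdef, h6]
          have e0 : C 0 = 3 * ρ + (C 3 + C 4 + C 5) - C 1 - C 2 := by linarith
          rw [hE', e0]
          ring
        rw [hgz] at hM
        have hb : (C 0 - C 1) ^ 2 + (C 1 - C 2) ^ 2 + ((C 0 - C 1) + (C 1 - C 2)) ^ 2 +
              2 * ((C 3 - C 4) ^ 2 + (C 4 - C 5) ^ 2 + ((C 3 - C 4) + (C 4 - C 5)) ^ 2) ≤ 12 := by
          rw [hρρ] at h3z
          linarith
        have hfin := fin_check (C 0 - C 1) (C 1 - C 2) (C 3 - C 4) (C 4 - C 5) (by linarith)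
          ⟨ρ - C 2 + C 5, by linarith⟩ hb
        obtain ⟨f1, f2, f3, f4⟩ := hfin
        rw [f1, f2, f3, f4] at h3z
        rw [hgz]
        norm_num at h3z ⊢
        linarith
  linarith

theorem T2_num {d : ℝ} {D : Fin 7 → ℝ} (hD : Cond2 d D) (E : ℤ) (C : Fin 7 → ℤ) (hE : 0 < E)
    (hJ : C 0 * (C 0 - 2) + C 1 * (C 1 - 2) + C 2 * (C 2 - 2) + 2 * (C 3 * (C 3 - 1)) +
      2 * (C 4 * (C 4 - 1)) + 2 * (C 5 * (C 5 - 1)) + 2 * (C 6 * (C 6 - 1)) ≤ (E - 2) ^ 2)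
    (hg : C 0 + C 1 + C 2 + 2 * (C 3 + C 4 + C 5) + C 6 ≤ 3 * E)
    (hr : C 3 + C 4 + C 5 ≤ E)
    (heq : C 0 + C 1 + C 2 + 2 * (C 3 + C 4 + C 5) + C 6 = 3 * E →
      C 6 = 0 ∧ 3 * C 0 + 7 * C 1 - 10 * C 2 - C 3 - 14 * C 4 + 15 * C 5 = 0) :
    D 0 * C 0 + D 1 * C 1 + D 2 * C 2 + 2 * (D 3 * C 3) + 2 * (D 4 * C 4) + 2 * (D 5 * C 5) +
      2 * (D 6 * C 6) ≤ d * E := by
  obtain ⟨g, hgdef⟩ : ∃ g : ℤ, g = 3 * E - (C 0 + C 1 + C 2) - 2 * (C 3 + C 4 + C 5) - C 6 :=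
    ⟨_, rfl⟩
  obtain ⟨ρ, hρdef⟩ : ∃ ρ : ℤ, ρ = E - (C 3 + C 4 + C 5) := ⟨_, rfl⟩
  have hg0 : 0 ≤ g := by rw [hgdef]; linarith
  have hρ0 : 0 ≤ ρ := by rw [hρdef]; linarith
  have key := T2_key E C g ρ hgdef hρdef hg0 hρ0 hJ (fun h => heq (by linarith))
  have keyR : ((C 0 : ℝ) + 2 * g) ^ 2 + (C 1 + 2 * g) ^ 2 + (C 2 + 2 * g) ^ 2 +
      2 * (C 3 + ρ + 2 * g) ^ 2 + 2 * (C 4 + ρ + 2 * g) ^ 2 + 2 * (C 5 + ρ + 2 * g) ^ 2 +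
      2 * (C 6 + g) ^ 2 ≤ (E + 2 * ρ + 6 * g) ^ 2 := by
    exact_mod_cast key
  have h := hD.cs ((E : ℝ) + 2 * ρ + 6 * g)
    ![(C 0 : ℝ) + 2 * g, C 1 + 2 * g, C 2 + 2 * g, C 3 + ρ + 2 * g, C 4 + ρ + 2 * g,
      C 5 + ρ + 2 * g, C 6 + g] (by
      have : (0 : ℤ) ≤ E + 2 * ρ + 6 * g := by linarith
      exact_mod_cast this) (by simpa using keyR)
  simp at h
  obtain ⟨hd, hb, ha, -⟩ := hD
  have e1 : D 0 * (C 0 + 2 * g) + D 1 * (C 1 + 2 * g) + D 2 * (C 2 + 2 * g) +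
      2 * (D 3 * (C 3 + ρ + 2 * g)) + 2 * (D 4 * (C 4 + ρ + 2 * g)) +
      2 * (D 5 * (C 5 + ρ + 2 * g)) + 2 * (D 6 * (C 6 + g)) =
      D 0 * C 0 + D 1 * C 1 + D 2 * C 2 + 2 * (D 3 * C 3) + 2 * (D 4 * C 4) + 2 * (D 5 * C 5) +
      2 * (D 6 * C 6) + 2 * g * (D 0 + D 1 + D 2) + 2 * (ρ + 2 * g) * (D 3 + D 4 + D 5) +
      2 * g * D 6 := by ring
  rw [ha, hb] at e1
  linarith

end Pool.Agent.H13
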