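import Mathlib
import Pool.Agent.H13.T2c

set_option autoImplicit false

namespace Pool.Agent.H13

open Module MvPolynomial

theorem one_le_wd {φ : MvPolynomial (Fin 2) ℂ} (hφ : Prime φ) : 1 ≤ wd φ := by
  by_contra hcon
  have hz : wd φ = 0 := by omega
  rw [wd, totalDegree_eq_zero_iff_eq_C] at hz
  have h5 : psi ℂ φ = psi ℂ (MvPolynomial.C (coeff 0 (psi ℂ φ))) := by
    rw [psi_C]; exact hz
  have h6 := psi_injective h5
  have hne : coeff 0 (psi ℂ φ) ≠ 0 := by
    intro h7
    rw [h7, C_0] at h6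
    exact hφ.ne_zero h6
  apply hφ.not_isUnit
  rw [h6]
  exact (IsUnit.mk0 _ hne).map MvPolynomial.C

/-! ### The conic `w = 668 - 3 υ²` -/

noncomputable def f2 : Polynomial ℂ := Polynomial.C 668 - Polynomial.C 3 * Polynomial.X ^ 2

theorem f2_eval (t : ℂ) : f2.eval t = 668 - 3 * t ^ 2 := by simp [f2]

theorem f2_natDegree_le : f2.natDegree ≤ 2 := by
  rw [f2]; compute_degree

theorem psi_HC_f2 : psi ℂ (HC f2) = X 1 ^ 2 - (C 668 - C 3 * X 0 ^ 2) := by
  rw [HC, f2]
  simp [algebraMap_eq]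

theorem wd_HC_f2 : wd (HC f2) ≤ 2 := by
  rw [wd, psi_HC_f2]
  refine (totalDegree_sub _ _).trans (max_le ?_ ?_)
  · rw [totalDegree_X_pow]
  · refine (totalDegree_sub _ _).trans (max_le ?_ ?_)
    · rw [totalDegree_C]; omega
    · refine (totalDegree_mul _ _).trans ?_
      rw [totalDegree_C, totalDegree_X_pow]

theorem two_le_wd_HC_f2 : 2 ≤ wd (HC f2) := by
  have h1 := th_natDegree (x := (0 : Polynomial ℂ)) (y := Polynomial.X) (e := 1) (by simp)
    (by simp) (psi ℂ (HC f2))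
  rw [one_mul] at h1
  refine le_trans ?_ h1
  rw [psi_HC_f2]
  simp only [map_sub, map_mul, map_pow, th_X0, th_X1, th_C]
  have : (Polynomial.X ^ 2 - (Polynomial.C 668 - Polynomial.C 3 * 0 ^ 2) : Polynomial ℂ) =
      Polynomial.X ^ 2 - Polynomial.C 668 := by
    rw [zero_pow two_ne_zero, mul_zero, sub_zero]
  rw [this, Polynomial.natDegree_X_pow_sub_C]

theorem eval_psi_HC_f2 (Q : Fin 2 → ℂ) :
    eval Q (psi ℂ (HC f2)) = Q 1 ^ 2 - (668 - 3 * Q 0 ^ 2) := by
  rw [psi_HC_f2]
  simp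

theorem mult_HC_f2_le {Q : Fin 2 → ℂ} (hQ : Q 1 ≠ 0) : mult Q (psi ℂ (HC f2)) ≤ 1 := by
  have hne := psi_ne_zero (k := ℂ) (prime_HC f2).ne_zero
  by_contra hcon
  have h1 : psi ℂ (HC f2) ∈ Iord Q 2 := (mem_Iord_iff_le_mult hne).2 (by omega)
  have h2 := pderiv_mem_Iord 1 h1
  have h3 : pderiv 1 (psi ℂ (HC f2)) = C 2 * X 1 := by
    rw [psi_HC_f2]
    have h01 : pderiv (1 : Fin 2) (X 0 : MvPolynomial (Fin 2) ℂ) = 0 :=
      pderiv_X_of_ne (by decide)
    simp only [map_sub, pderiv_C, Derivation.leibniz, Derivation.leibniz_pow, h01, pderiv_X_self]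
    simp
    exact (map_ofNat C 2).symm
  rw [h3, mem_Iord_one, map_mul, eval_C, eval_X] at h2
  rcases mul_eq_zero.1 h2 with h | h
  · exact two_ne_zero h
  · exact hQ h

/-- the three pairs of points on the conic -/
noncomputable def R2 : Fin 3 → Fin 2 → ℂ := ![P2 3, P2 4, P2 5]

theorem HC_f2_b (i : Fin 3) : HC f2 ∈ Jord (R2 i) 1 := by
  rw [mem_Jord, mem_Iord_one, eval_psi_HC_f2]
  fin_cases i
  · change (P2 3 1) ^ 2 - (668 - 3 * (P2 3 0) ^ 2) = 0
    have e0 : P2 3 0 = 1 := rfl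
    have e1 : P2 3 1 = q1 := rfl
    rw [e0, e1, q1_sq]; norm_num
  · change (P2 4 1) ^ 2 - (668 - 3 * (P2 4 0) ^ 2) = 0
    have e0 : P2 4 0 = 14 := rfl
    have e1 : P2 4 1 = 2 * q2 := rfl
    rw [e0, e1, mul_pow, q2_sq]; norm_num
  · change (P2 5 1) ^ 2 - (668 - 3 * (P2 5 0) ^ 2) = 0
    have e0 : P2 5 0 = -15 := rfl
    have e1 : P2 5 1 = q3 := rfl
    rw [e0, e1, q3_sq]; norm_num

theorem R2_one (i : Fin 3) : R2 i 1 ≠ 0 := by
  fin_cases i
  · exact fun h => absurd ((P2_one 3).1 h) (by decide)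
  · exact fun h => absurd ((P2_one 4).1 h) (by decide)
  · exact fun h => absurd ((P2_one 5).1 h) (by decide)

theorem R2_dwn : Pairwise fun i j => dwn (R2 i) ≠ dwn (R2 j) := by
  intro i j hij
  fin_cases i <;> fin_cases j <;> first
    | exact absurd rfl hij
    | exact P2_dwn (i := 3) (j := 4) (by decide)
    | exact P2_dwn (i := 3) (j := 5) (by decide)
    | exact P2_dwn (i := 4) (j := 3) (by decide)
    | exact P2_dwn (i := 4) (j := 5) (by decide)
    | exact P2_dwn (i := 5) (j := 3) (by decide)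
    | exact P2_dwn (i := 5) (j := 4) (by decide)

/-- values of the conic at the other points -/
theorem HC_f2_ne (i : Fin 7) (h3 : i ≠ 3) (h4 : i ≠ 4) (h5 : i ≠ 5) :
    eval (P2 i) (psi ℂ (HC f2)) ≠ 0 := by
  rw [eval_psi_HC_f2]
  fin_cases i
  · simp [P2]; norm_num
  · simp [P2]; norm_num
  · simp [P2]; norm_num
  · exact absurd rfl h3
  · exact absurd rfl h4
  · exact absurd rfl h5
  · intro h
    have e0 : P2 6 0 = (210 - 165 * q0) / 44 := rfl
    have e1 : P2 6 1 = (210 - 77 * q0) / 44 := rfl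
    change P2 6 1 ^ 2 - (668 - 3 * P2 6 0 ^ 2) = 0 at h
    rw [e0, e1] at h
    refine q0_ne (-941640) (-240240) (by norm_num) ?_
    linear_combination 1936 * h - 87604 * q0_sq

theorem GC_U2_q : eval (refl (P2 6)) (GC U2 2 0) ≠ 0 := by
  rw [eval_GC, U2_eval]
  have e0 : refl (P2 6) 0 = (210 - 165 * q0) / 44 := rfl
  have e1 : refl (P2 6) 1 = -((210 - 77 * q0) / 44) := rfl
  rw [e0, e1]
  intro h
  refine q0_ne (-40186860) 5513970 (by norm_num) ?_
  linear_combination 3748096 * h - (9223830 - 1771561 * q0) * q0_sq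

/-- Prime curves downstairs are nonnegative on the classes of `Cond2`. -/
theorem prime2 (d : ℝ) (D : Fin 7 → ℝ) (hD : Cond2 d D) (φ : MvPolynomial (Fin 2) ℂ)
    (hφ : Prime φ) :
    ∑ i, w2 i * D i * (mult (P2 i) (psi ℂ φ) : ℝ) ≤ d * (wd φ : ℝ) := by
  have h2 : (2 : ℂ) ≠ 0 := two_ne_zero
  have hψ := psi_ne_zero hφ.ne_zero
  have hE1 := one_le_wd hφ
  have hnn := hD.nonneg
  obtain ⟨hd, hb, ha, -⟩ := id hD
  set C : Fin 7 → ℕ := fun i => mult (P2 i) (psi ℂ φ) with hC
  have hsum : ∑ i, w2 i * D i * (mult (P2 i) (psi ℂ φ) : ℝ) =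
      D 0 * C 0 + D 1 * C 1 + D 2 * C 2 + 2 * (D 3 * C 3) + 2 * (D 4 * C 4) + 2 * (D 5 * C 5) +
      2 * (D 6 * C 6) := by
    have h := sum_w2 (fun i => D i * (C i : ℝ))
    rw [← h]
    refine Finset.sum_congr rfl fun i _ => ?_
    rw [mul_assoc]
  rw [hsum]
  by_cases h0 : th U2 (YY U2 2 0) (psi ℂ φ) = 0
  · -- the cuspidal cubic
    have hne := (prime_GC U2 h2 0).ne_zero
    have hq : eval (P2 6) (GC U2 2 0) = 0 := by
      rw [eval_GC, U2_eval]
      have e0 : P2 6 0 = (210 - 165 * q0) / 44 := rfl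
      have e1 : P2 6 1 = (210 - 77 * q0) / 44 := rfl
      rw [e0, e1]
      linear_combination (-q0 / 44) * q0_sq
    obtain ⟨k1, k2⟩ := kernel_case h2 U2 h2 0 (P2 6) hq GC_U2_q hφ h0
    have hdeg : U2.natDegree = 3 := by
      rw [U2]
      compute_degree!
    rw [hdeg] at k1
    have hm1 : ∀ i, mult (P2 i) (GC U2 2 0) ≤ 1 := fun i => mult_GC_le _ _ _ _
    have hm2 : ∀ i, mult (refl (P2 i)) (GC U2 2 0) ≤ 1 := fun i => mult_GC_le _ _ _ _
    have hm3 : mult (refl (P2 6)) (GC U2 2 0) = 0 := mult_eq_zero hne GC_U2_q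
    have cc : ∀ i, (C i : ℝ) ≤ 2 := by
      intro i
      have h3 : C i ≤ 2 := by
        have := k2 (P2 i); have := hm1 i; have := hm2 i; simp only [hC]; omega
      exact_mod_cast h3
    have c6 : (C 6 : ℝ) ≤ 1 := by
      have h3 : C 6 ≤ 1 := by
        have := k2 (P2 6); have := hm1 6; simp only [hC]; omega
      exact_mod_cast h3
    have hE : (6 : ℝ) ≤ wd φ := by
      have : 6 ≤ wd φ := by omega
      exact_mod_cast this
    have hE2 : d * 6 ≤ d * (wd φ : ℝ) := mul_le_mul_of_nonneg_left hE hd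
    have m0 := mul_le_mul_of_nonneg_left (cc 0) (hnn 0)
    have m1 := mul_le_mul_of_nonneg_left (cc 1) (hnn 1)
    have m2 := mul_le_mul_of_nonneg_left (cc 2) (hnn 2)
    have m3 := mul_le_mul_of_nonneg_left (cc 3) (hnn 3)
    have m4 := mul_le_mul_of_nonneg_left (cc 4) (hnn 4)
    have m5 := mul_le_mul_of_nonneg_left (cc 5) (hnn 5)
    have m6 := mul_le_mul_of_nonneg_left c6 (hnn 6)
    linarith
  · by_cases hH : HC f2 ∣ φ
    · -- the conic
      obtain ⟨χ, hχ⟩ := hH
      have hHp := prime_HC f2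
      have hχu : IsUnit χ :=
        (hφ.irreducible.isUnit_or_isUnit hχ).resolve_left hHp.not_isUnit
      have hψu := hχu.map (psi ℂ)
      have hmu : ∀ i, C i = mult (P2 i) (psi ℂ (HC f2)) := by
        intro i
        simp only [hC]
        rw [hχ, map_mul, mult_mul (psi_ne_zero hHp.ne_zero) hψu.ne_zero, (mult_unit hψu).1,
          add_zero]
      have hz : ∀ i : Fin 7, i ≠ 3 → i ≠ 4 → i ≠ 5 → C i = 0 := by
        intro i h3 h4 h5
        rw [hmu]
        exact mult_eq_zero (psi_ne_zero hHp.ne_zero) (HC_f2_ne i h3 h4 h5)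
      have hb1 : ∀ i : Fin 7, 3 ≤ (i : ℕ) → (C i : ℝ) ≤ 1 := by
        intro i hi
        have : C i ≤ 1 := by
          rw [hmu]
          apply mult_HC_f2_le
          intro h
          have := (P2_one i).1 h
          omega
        exact_mod_cast this
      have hE : (2 : ℝ) ≤ wd φ := by
        have : 2 ≤ wd φ := by
          rw [hχ, wd_mul hHp.ne_zero hχu.ne_zero]
          have := two_le_wd_HC_f2
          omega
        exact_mod_cast this
      have hE2 : d * 2 ≤ d * (wd φ : ℝ) := mul_le_mul_of_nonneg_left hE hd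
      rw [hz 0 (by decide) (by decide) (by decide), hz 1 (by decide) (by decide) (by decide),
        hz 2 (by decide) (by decide) (by decide), hz 6 (by decide) (by decide) (by decide)]
      have m3 := mul_le_mul_of_nonneg_left (hb1 3 (by decide)) (hnn 3)
      have m4 := mul_le_mul_of_nonneg_left (hb1 4 (by decide)) (hnn 4)
      have m5 := mul_le_mul_of_nonneg_left (hb1 5 (by decide)) (hnn 5)
      push_cast
      linarith
    · -- the general case
      set Φ := th U2 (YY U2 2 0) (psi ℂ φ) with hΦ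
      have hdeg : Φ.natDegree ≤ 3 * wd φ := th_natDegree U2_Qd.1 Y2_Qd.1 (psi ℂ φ)
      have hdvd : ∀ i, (Polynomial.X - Polynomial.C (r2 i)) ^ mm2 C i ∣ Φ :=
        fun i => dvd2 C (fun j => mem_mult hψ) i
      have hI := sum_mult_le r2 r2_inj (mm2 C) Φ h0 hdvd
      rw [sum_mm2] at hI
      -- the conic
      have hR := bezout_w h2 (HC f2) φ (wd (HC f2)) (wd φ) (prime_HC f2) rfl le_rfl hH R2 R2_dwn
        (fun i => 2 * (1 * (![C 3, C 4, C 5] : Fin 3 → ℕ) i)) (fun i =>
          LocW.b h2 (R2_one i) (HC_f2_b i) (by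
            rw [mem_Jord]
            fin_cases i
            · exact mem_mult hψ
            · exact mem_mult hψ
            · exact mem_mult hψ))
      have hR' : C 3 + C 4 + C 5 ≤ wd φ := by
        have h3 := wd_HC_f2
        have h4 : wd (HC f2) * wd φ ≤ 2 * wd φ := Nat.mul_le_mul_right _ h3
        simp only [Fin.sum_univ_three] at hR
        simp at hR
        omega
      have hJ := genus_w' P2 P2_dwn φ hφ C (fun i => by
        rw [mem_Jord]; exact mem_mult hψ)
      have hJ2 : (C 0 : ℤ) * (C 0 - 2) + C 1 * (C 1 - 2) + C 2 * (C 2 - 2) +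
          2 * (C 3 * (C 3 - 1)) + 2 * (C 4 * (C 4 - 1)) + 2 * (C 5 * (C 5 - 1)) +
          2 * (C 6 * (C 6 - 1)) ≤ ((wd φ : ℤ) - 2) ^ 2 := by
        refine le_trans (le_of_eq ?_) hJ
        simp only [Fin.sum_univ_succ, Fin.sum_univ_zero, gw]
        have g0 : P2 0 1 = 0 := (P2_one 0).2 (by decide)
        have g1 : P2 1 1 = 0 := (P2_one 1).2 (by decide)
        have g2 : P2 2 1 = 0 := (P2_one 2).2 (by decide)
        have g3 : P2 3 1 ≠ 0 := fun h => absurd ((P2_one 3).1 h) (by decide)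
        have g4 : P2 4 1 ≠ 0 := fun h => absurd ((P2_one 4).1 h) (by decide)
        have g5 : P2 5 1 ≠ 0 := fun h => absurd ((P2_one 5).1 h) (by decide)
        have g6 : P2 6 1 ≠ 0 := fun h => absurd ((P2_one 6).1 h) (by decide)
        have s1 : Fin.succ (0 : Fin 6) = 1 := rfl
        have s2 : Fin.succ (Fin.succ (0 : Fin 5)) = 2 := rfl
        have s3 : Fin.succ (Fin.succ (Fin.succ (0 : Fin 4))) = 3 := rfl
        have s4 : Fin.succ (Fin.succ (Fin.succ (Fin.succ (0 : Fin 3)))) = 4 := rfl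
        have s5 : Fin.succ (Fin.succ (Fin.succ (Fin.succ (Fin.succ (0 : Fin 2))))) = 5 := rfl
        have s6 : Fin.succ (Fin.succ (Fin.succ (Fin.succ (Fin.succ (Fin.succ (0 : Fin 1)))))) =
          6 := rfl
        rw [s1, s2, s3, s4, s5, s6, if_pos g0, if_pos g1, if_pos g2, if_neg g3, if_neg g4,
          if_neg g5, if_neg g6]
        ring
      have hfin := T2_num hD (wd φ) (fun i => (C i : ℤ)) (by exact_mod_cast hE1) hJ2
        (by
          have : C 0 + C 1 + C 2 + 2 * (C 3 + C 4 + C 5) + C 6 ≤ 3 * wd φ := by omega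
          exact_mod_cast this)
        (by exact_mod_cast hR')
        (by
          intro heq
          have heq' : C 0 + C 1 + C 2 + 2 * (C 3 + C 4 + C 5) + C 6 = 3 * wd φ := by
            exact_mod_cast heq
          have hmm : ∑ i, mm2 C i = 3 * wd φ := by rw [sum_mm2]; exact heq'
          obtain ⟨c, hc, hprod⟩ := eq_prod_of_degree r2 r2_inj (mm2 C) Φ h0 hdvd (by omega)
          have hQ : Qd (wd φ) Φ := th_Qd U2_Qd Y2_Qd (psi ℂ φ)
          rw [hprod] at hQ
          have hs := sum_roots_zero r2 (mm2 C) c hc (wd φ) (by omega) hmm hQ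
          have hs2 : (((3 * C 0 + 7 * C 1 - 10 * C 2 - C 3 - 14 * C 4 + 15 * C 5 : ℤ)) : ℂ) +
              ((C 6 : ℤ) : ℂ) * q0 = 0 := by
            rw [← hs]
            simp only [Fin.sum_univ_succ, Fin.sum_univ_zero, mm2, r2]
            simp
            ring
          have h6 := q0_irr _ _ hs2
          refine ⟨h6, ?_⟩
          rw [h6] at hs2
          simp only [Int.cast_zero, zero_mul, add_zero] at hs2
          exact_mod_cast hs2)
      have hfin' := hfin
      push_cast at hfin'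
      exact hfin'

end Pool.Agent.H13
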