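import Mathlib
import Pool.Agent.H13.T2d
import Pool.Agent.H13.Sep
import Pool.Agent.H13.DefsT2

set_option autoImplicit false

namespace Pool.Agent.H13

open Module MvPolynomial

/-- the eleven special points -/
noncomputable def Q2 : Fin 11 → Fin 2 → ℂ :=
  ![P2 0, P2 1, P2 2, P2 3, refl (P2 3), P2 4, refl (P2 4), P2 5, refl (P2 5), P2 6, refl (P2 6)]

theorem curve2 (d : ℝ) (D : Fin 7 → ℝ) (hD : Cond2 d D) (δ : ℕ) (m : Fin 11 → ℕ)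
    (hc : HasCurve Q2 δ m) :
    D 0 * m 0 + D 1 * m 1 + D 2 * m 2 + D 3 * (m 3 + m 4) + D 4 * (m 5 + m 6) +
      D 5 * (m 7 + m 8) + D 6 * (m 9 + m 10) ≤ d * δ := by
  obtain ⟨F, hF0, hFd, hF⟩ := hc
  have hnn := hD.nonneg
  have z0 : P2 0 1 = 0 := (P2_one 0).2 (by decide)
  have z1 : P2 1 1 = 0 := (P2_one 1).2 (by decide)
  have z2 : P2 2 1 = 0 := (P2_one 2).2 (by decide)
  have r0 : refl (P2 0) = P2 0 := refl_eq_self z0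
  have r1 : refl (P2 1) = P2 1 := refl_eq_self z1
  have r2 : refl (P2 2) = P2 2 := refl_eq_self z2
  have h := upstairs_ineq (k := ℂ) two_ne_zero P2 (fun i => w2 i * D i)
    (fun i => mul_nonneg (w2_nonneg i) (hnn i)) d hD.1 (fun φ hφ => prime2 d D hD φ hφ)
    hF0 δ hFd ![m 0, m 1, m 2, m 3, m 5, m 7, m 9]
    ![m 0, m 1, m 2, m 4, m 6, m 8, m 10] (by
      intro i
      fin_cases i
      · exact hF 0
      · exact hF 1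
      · exact hF 2
      · exact hF 3
      · exact hF 5
      · exact hF 7
      · exact hF 9) (by
      intro i
      fin_cases i
      · change F ∈ Iord (refl (P2 0)) (m 0); rw [r0]; exact hF 0
      · change F ∈ Iord (refl (P2 1)) (m 1); rw [r1]; exact hF 1
      · change F ∈ Iord (refl (P2 2)) (m 2); rw [r2]; exact hF 2
      · exact hF 4
      · exact hF 6
      · exact hF 8
      · exact hF 10)
  have h' := sum_w2 (fun i => D i * (((![m 0, m 1, m 2, m 3, m 5, m 7, m 9] : Fin 7 → ℕ) i : ℝ) +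
    ((![m 0, m 1, m 2, m 4, m 6, m 8, m 10] : Fin 7 → ℕ) i : ℝ)))
  have h2 : ∑ i, w2 i * (D i * (((![m 0, m 1, m 2, m 3, m 5, m 7, m 9] : Fin 7 → ℕ) i : ℝ) +
    ((![m 0, m 1, m 2, m 4, m 6, m 8, m 10] : Fin 7 → ℕ) i : ℝ))) ≤ 2 * (d * δ) := by
    refine le_trans (le_of_eq ?_) h
    exact Finset.sum_congr rfl fun i _ => by ring
  rw [h'] at h2
  simp at h2
  linarith

theorem class11_fst (n : ℕ) (a₁ a₂ a₃ b₁ b₂ b₃ : ℝ) :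
    (class11 n a₁ a₂ a₃ b₁ b₂ b₃).1 = b₁ + b₂ + b₃ := rfl

theorem class11_snd_ge {n : ℕ} (a₁ a₂ a₃ b₁ b₂ b₃ : ℝ) (i : Fin n) (hi : 11 ≤ (i : ℕ)) :
    (class11 n a₁ a₂ a₃ b₁ b₂ b₃).2 i = 0 := by
  simp only [class11]
  rw [List.getD_eq_default]
  simpa using hi

theorem class11_add (n : ℕ) (a₁ a₂ a₃ b₁ b₂ b₃ a₁' a₂' a₃' b₁' b₂' b₃' : ℝ) :
    class11 n a₁ a₂ a₃ b₁ b₂ b₃ + class11 n a₁' a₂' a₃' b₁' b₂' b₃' =
      class11 n (a₁ + a₁') (a₂ + a₂') (a₃ + a₃') (b₁ + b₁') (b₂ + b₂') (b₃ + b₃') := by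
  apply Prod.ext
  · simp only [class11, Prod.fst_add]; ring
  · funext i
    obtain ⟨i, hi⟩ := i
    simp only [class11, Prod.snd_add, Pi.add_apply]
    match i with
    | 0 => simp
    | 1 => simp
    | 2 => simp
    | 3 => simp
    | 4 => simp
    | 5 => simp
    | 6 => simp
    | 7 => simp
    | 8 => simp
    | 9 => simp; ring
    | 10 => simp; ring
    | (k + 11) => simp

theorem class11_smul (n : ℕ) (c a₁ a₂ a₃ b₁ b₂ b₃ : ℝ) :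
    c • class11 n a₁ a₂ a₃ b₁ b₂ b₃ =
      class11 n (c * a₁) (c * a₂) (c * a₃) (c * b₁) (c * b₂) (c * b₃) := by
  apply Prod.ext
  · simp only [class11, Prod.smul_fst, smul_eq_mul]; ring
  · funext i
    obtain ⟨i, hi⟩ := i
    simp only [class11, Prod.smul_snd, Pi.smul_apply, smul_eq_mul]
    match i with
    | 0 => simp
    | 1 => simp
    | 2 => simp
    | 3 => simp
    | 4 => simp
    | 5 => simp
    | 6 => simp
    | 7 => simp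
    | 8 => simp
    | 9 => simp; ring
    | 10 => simp; ring
    | (k + 11) => simp

/-- the six-dimensional space of classes -/
def L11 (n : ℕ) : Submodule ℝ (ℝ × (Fin n → ℝ)) where
  carrier := {y | ∃ a₁ a₂ a₃ b₁ b₂ b₃, y = class11 n a₁ a₂ a₃ b₁ b₂ b₃}
  add_mem' := by
    rintro _ _ ⟨a₁, a₂, a₃, b₁, b₂, b₃, rfl⟩ ⟨a₁', a₂', a₃', b₁', b₂', b₃', rfl⟩
    exact ⟨_, _, _, _, _, _, class11_add n _ _ _ _ _ _ _ _ _ _ _ _⟩
  zero_mem' := by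
    refine ⟨0, 0, 0, 0, 0, 0, ?_⟩
    have h := class11_smul n 0 0 0 0 0 0 0
    rw [zero_smul] at h
    rw [h]
    simp
  smul_mem' := by
    rintro c _ ⟨a₁, a₂, a₃, b₁, b₂, b₃, rfl⟩
    exact ⟨_, _, _, _, _, _, class11_smul n _ _ _ _ _ _ _⟩

theorem sum_class11 {n : ℕ} (hn : 11 ≤ n) (a₁ a₂ a₃ b₁ b₂ b₃ : ℝ) (g : Fin n → ℝ → ℝ)
    (hg : ∀ i, g i 0 = 0) :
    ∑ i, g i ((class11 n a₁ a₂ a₃ b₁ b₂ b₃).2 i) =
      ∑ j : Fin 11, g (Fin.castLE hn j) ((![a₁, a₂, a₃, b₁, b₁, b₂, b₂, b₃, b₃,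
        b₁ + b₂ + b₃ - a₁ - a₂ - a₃, b₁ + b₂ + b₃ - a₁ - a₂ - a₃] : Fin 11 → ℝ) j) := by
  rw [sum_castLE hn (fun i => g i ((class11 n a₁ a₂ a₃ b₁ b₂ b₃).2 i)) (fun i hi => by
    rw [class11_snd_ge _ _ _ _ _ _ i hi, hg])]
  refine Finset.sum_congr rfl fun j _ => ?_
  congr 1
  fin_cases j <;> rfl

theorem class11_sq {n : ℕ} (hn : 11 ≤ n) (a₁ a₂ a₃ b₁ b₂ b₃ : ℝ) :
    ∑ i, ((class11 n a₁ a₂ a₃ b₁ b₂ b₃).2 i) ^ 2 =
      a₁ ^ 2 + a₂ ^ 2 + a₃ ^ 2 + 2 * b₁ ^ 2 + 2 * b₂ ^ 2 + 2 * b₃ ^ 2 +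
        2 * (b₁ + b₂ + b₃ - a₁ - a₂ - a₃) ^ 2 := by
  rw [sum_class11 hn _ _ _ _ _ _ (fun _ x => x ^ 2) (fun _ => by norm_num)]
  simp only [Fin.sum_univ_succ, Fin.sum_univ_zero]
  simp
  ring

theorem cond_of_pos {n : ℕ} (hn : 11 ≤ n) (a₁ a₂ a₃ b₁ b₂ b₃ : ℝ)
    (h : class11 n a₁ a₂ a₃ b₁ b₂ b₃ ∈ Pos n) :
    Cond2 (b₁ + b₂ + b₃) ![a₁, a₂, a₃, b₁, b₂, b₃, b₁ + b₂ + b₃ - a₁ - a₂ - a₃] := by
  obtain ⟨h1, h2⟩ := h
  rw [class11_sq hn] at h2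
  rw [class11_fst] at h1 h2
  refine ⟨h1, ?_, ?_, ?_⟩
  · simp
  · simp
    ring
  · rw [sum_w2 (fun i => (![a₁, a₂, a₃, b₁, b₂, b₃, b₁ + b₂ + b₃ - a₁ - a₂ - a₃] :
      Fin 7 → ℝ) i ^ 2)]
    simp
    linarith

/-- Classes of the positive cone in the six-dimensional space are nef. -/
theorem nef11 (n : ℕ) (hn : 11 ≤ n) :
    VeryGeneral n (fun p => ∀ a₁ a₂ a₃ b₁ b₂ b₃ : ℝ, class11 n a₁ a₂ a₃ b₁ b₂ b₃ ∈ Pos n →
      ∀ v ∈ moriCone p, 0 ≤ BB (class11 n a₁ a₂ a₃ b₁ b₂ b₃) v) := by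
  obtain ⟨f, hf0, hf⟩ := nef_of_special hn Q2
  refine ⟨f, hf0, fun p hp a₁ a₂ a₃ b₁ b₂ b₃ hpos v hv => ?_⟩
  have hC := cond_of_pos hn _ _ _ _ _ _ hpos
  have hnn := hC.nonneg
  refine hf p hp (class11 n a₁ a₂ a₃ b₁ b₂ b₃) ?_ ?_ ?_ v hv
  · intro i hi
    exact class11_snd_ge _ _ _ _ _ _ i hi
  · intro i
    have n0 : 0 ≤ a₁ := hnn 0
    have n1 : 0 ≤ a₂ := hnn 1
    have n2 : 0 ≤ a₃ := hnn 2
    have n3 : 0 ≤ b₁ := hnn 3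
    have n4 : 0 ≤ b₂ := hnn 4
    have n5 : 0 ≤ b₃ := hnn 5
    have n6 : 0 ≤ b₁ + b₂ + b₃ - a₁ - a₂ - a₃ := hnn 6
    obtain ⟨i, hi⟩ := i
    simp only [class11]
    match i with
    | 0 => simpa using n0
    | 1 => simpa using n1
    | 2 => simpa using n2
    | 3 => simpa using n3
    | 4 => simpa using n3
    | 5 => simpa using n4
    | 6 => simpa using n4
    | 7 => simpa using n5
    | 8 => simpa using n5
    | 9 => exact n6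
    | 10 => exact n6
    | (k + 11) => simp
  · intro δ m hc
    have h := curve2 _ _ hC δ m hc
    have e : ∑ j : Fin 11, (class11 n a₁ a₂ a₃ b₁ b₂ b₃).2 (Fin.castLE hn j) * (m j : ℝ) =
        ∑ j : Fin 11, (![a₁, a₂, a₃, b₁, b₁, b₂, b₂, b₃, b₃,
        b₁ + b₂ + b₃ - a₁ - a₂ - a₃, b₁ + b₂ + b₃ - a₁ - a₂ - a₃] : Fin 11 → ℝ) j * m j := by
      refine Finset.sum_congr rfl fun j _ => ?_
      congr 1
      fin_cases j <;> rfl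
    rw [e, class11_fst]
    refine le_trans (le_of_eq ?_) h
    simp only [Fin.sum_univ_succ, Fin.sum_univ_zero]
    simp
    ring

/-- a class of positive square -/
theorem exists_big11 (n : ℕ) (hn : 11 ≤ n) :
    class11 n 5 5 5 6 6 6 ∈ L11 n ∧ 0 < (class11 n 5 5 5 6 6 6).1 ∧
      0 < BB (class11 n 5 5 5 6 6 6) (class11 n 5 5 5 6 6 6) := by
  refine ⟨⟨_, _, _, _, _, _, rfl⟩, ?_, ?_⟩
  · rw [class11_fst]; norm_num
  · have e : ∀ i, (class11 n 5 5 5 6 6 6).2 i * (class11 n 5 5 5 6 6 6).2 i =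
        ((class11 n 5 5 5 6 6 6).2 i) ^ 2 := fun i => by ring
    simp only [BB, e]
    rw [class11_sq hn, class11_fst]
    norm_num

/-- **Theorem T2.** -/
theorem thm2 (n : ℕ) (hn : 11 ≤ n) :
    VeryGeneral n (fun p => ∀ a₁ a₂ a₃ b₁ b₂ b₃ : ℝ, ∀ y : ℝ × (Fin n → ℝ),
      y = class11 n a₁ a₂ a₃ b₁ b₂ b₃ →
      ((y ∈ moriCone p ↔ y ∈ expectedCone p) ∧
        (y ∈ moriCone p ↔ 0 ≤ y.1 ∧ ∑ i, y.2 i ^ 2 ≤ y.1 ^ 2) ∧
        (y ∈ moriCone p ↔ ∀ v ∈ moriCone p, 0 ≤ y.1 * v.1 - ∑ i, y.2 i * v.2 i))) := by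
  obtain ⟨f, hf0, hf⟩ := nef11 n hn
  refine ⟨f, hf0, fun p hp a₁ a₂ a₃ b₁ b₂ b₃ y hy => ?_⟩
  obtain ⟨hb1, hb2, hb3⟩ := exists_big11 n hn
  have hyL : y ∈ L11 n := ⟨_, _, _, _, _, _, hy⟩
  have hsep : y ∉ Pos n → ∃ x ∈ L11 n, x ∈ Pos n ∧ BB x y < 0 := fun h =>
    separateL (L11 n) _ hb1 hb2 hb3 y hyL h
  have hnef : ∀ x ∈ L11 n, x ∈ Pos n → ∀ v ∈ moriCone p, 0 ≤ BB x v := by
    rintro x ⟨a, a', a'', b, b', b'', rfl⟩ hx v hv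
    exact hf p hp _ _ _ _ _ _ hx v hv
  have h1 : y ∈ moriCone p → y ∈ Pos n := by
    intro hy
    by_contra hneg
    obtain ⟨x, hxL, hx, hlt⟩ := hsep hneg
    have := hnef x hxL hx y hy
    linarith
  have h2 : y ∈ Pos n → y ∈ expectedCone p := fun hy =>
    subset_closure (Submodule.subset_span (Or.inr hy))
  have h3 : y ∈ expectedCone p → y ∈ moriCone p := fun hy => expected_subset_mori p hy
  have h4 : y ∈ Pos n → ∀ v ∈ moriCone p, 0 ≤ y.1 * v.1 - ∑ i, y.2 i * v.2 i :=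
    fun hy v hv => hnef y hyL hy v hv
  have h5 : (∀ v ∈ moriCone p, 0 ≤ y.1 * v.1 - ∑ i, y.2 i * v.2 i) → y ∈ Pos n := by
    intro hnef'
    by_contra hneg
    obtain ⟨x, hxL, hx, hlt⟩ := hsep hneg
    have h6 : 0 ≤ BB y x := hnef' x (pos_subset_mori p hx)
    rw [BB_comm] at h6
    linarith
  exact ⟨⟨fun hy => h2 (h1 hy), h3⟩, ⟨h1, fun hy => h3 (h2 hy)⟩,
    ⟨fun hy => h4 (h1 hy), fun hy => h3 (h2 (h5 hy))⟩⟩

end Pool.Agent.H13
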